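import Pool.Agent.P.MP_e9cc94_co.A2G

set_option autoImplicit false

namespace PellDS.A2
open Finset

variable {e : Bool}

def cc (X : Gm e → ℕ) (a : ZMod 4) (z : ZMod 5) : ℕ := ∑ b, X (mg e a b z)
def rr (X : Gm e → ℕ) (a : ZMod 4) (b : ZMod 3) : ℕ := ∑ z, X (mg e a b z)
def tt (X : Gm e → ℕ) (a : ZMod 4) : ℕ := ∑ z, cc X a z
def MM (X : Gm e → ℕ) (i k : ZMod 5) : ℕ := ∑ a, cc X a (i - FF a * k)

theorem tt_eq (X : Gm e → ℕ) (a : ZMod 4) : tt X a = ∑ b, rr X a b := Finset.sum_comm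

theorem fib_a (X : Gm e → ℕ) {R : Type} [CommSemiring R] (a : ZMod 4) (f : ZMod 3 → ZMod 5 → R) :
    ∑ p : Gm e, (X p : R) * (if p.1 = a then f p.2.1 p.2.2 else 0) =
      ∑ b, ∑ z, (X (mg e a b z) : R) * f b z := by
  rw [sum_Gm, Finset.sum_eq_single a]
  · simp [mg]
  · intro a' _ h; simp [mg, h]
  · simp

theorem Sol.cos {X : Gm e → ℕ} (h : Sol X) {R : Type} [CommSemiring R] {κ : Type} [Fintype κ]
    (a0 : ZMod 4) (φ : ZMod 3 → ZMod 5 → R) (α β : κ → ZMod 3 → ZMod 5 → R)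
    (hφ : ∀ b z b' z', φ (b - EE e a0 * b') (z - FF a0 * z') = ∑ k, α k b z * β k b' z') :
    ∑ a, ∑ k, (∑ b, ∑ z, (X (mg e (a + a0) b z) : R) * α k b z) *
      (∑ b, ∑ z, (X (mg e a b z) : R) * β k b z) =
      (if a0 = 0 then 25 * φ 0 0 else 0) + 20 * ∑ b, ∑ z, φ b z := by
  have := h.bil (κ := ZMod 4 × κ) (fun p => if p.1 = a0 then φ p.2.1 p.2.2 else 0)
    (fun k p => if p.1 = k.1 + a0 then α k.2 p.2.1 p.2.2 else 0)
    (fun k q => if q.1 = k.1 then β k.2 q.2.1 q.2.2 else 0) (by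
      intro p q
      rw [Fintype.sum_prod_type, Finset.sum_eq_single q.1]
      · simp only [div_a, div_b, div_z, if_true]
        by_cases hp : p.1 = q.1 + a0
        · have : p.1 - q.1 = a0 := by rw [hp]; ring
          simp only [this, if_true, if_pos hp, hφ]
        · rw [if_neg (fun hh => hp (by rw [← hh]; ring))]
          simp [hp]
      · intro a _ ha; simp [Ne.symm ha]
      · simp)
  simp only [fib_a] at this
  rw [Fintype.sum_prod_type] at this
  rw [this]
  congr 1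
  · show 25 * (if (0 : ZMod 4) = a0 then φ 0 0 else 0) = _
    by_cases h0 : a0 = 0
    · simp [h0]
    · simp [h0, Ne.symm h0]
  · have := fib_a (e := e) (fun _ => 1) a0 φ
    simp only [Nat.cast_one, one_mul] at this
    rw [this]

variable {X : Gm e → ℕ}

theorem Sol.tt_tot (h : Sol X) : ∑ a, tt X a = 35 := by
  rw [← h.tot, sum_Gm]; simp only [tt_eq, rr]

theorem Sol.tt_eqn (h : Sol X) (s : ZMod 4) :
    ∑ a, tt X (a + s) * tt X a = (if s = 0 then 25 else 0) + 300 := by
  have := h.cos (R := ℕ) (κ := Unit) s (fun _ _ => 1) (fun _ _ _ => 1) (fun _ _ _ => 1) (by simp)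
  simpa [tt_eq, rr] using this

theorem Sol.rr_eqn (h : Sol X) (a0 : ZMod 4) (b0 : ZMod 3) :
    ∑ a, ∑ b, rr X (a + a0) (b0 + EE e a0 * b) * rr X a b =
      (if a0 = 0 ∧ b0 = 0 then 25 else 0) + 100 := by
  have := h.cos (R := ℕ) (κ := ZMod 3) a0 (fun b _ => if b = b0 then 1 else 0)
    (fun k b _ => if b = b0 + EE e a0 * k then 1 else 0) (fun k b _ => if b = k then 1 else 0) (by
      intro b z b' z'
      rw [Finset.sum_eq_single b']
      · simp only [if_true, mul_one, sub_eq_iff_eq_add]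
      · intro k _ hk; simp [Ne.symm hk]
      · simp)
  have e1 : ∀ (a : ZMod 4) (c : ZMod 3), (∑ b, ∑ z, ((X (mg e a b z) : ℕ) : ℕ) *
      (if b = c then 1 else 0)) = rr X a c := by
    intro a c
    rw [Finset.sum_eq_single c]
    · simp [rr]
    · intro b _ hb; simp [hb]
    · simp
  simp only [Nat.cast_id] at this e1
  simp only [e1] at this
  rw [this]
  have e2 : ∀ b0 : ZMod 3, (∑ b : ZMod 3, ∑ _z : ZMod 5, if b = b0 then 1 else 0) = 5 := by decide
  rw [e2]
  by_cases h1 : a0 = 0 <;> by_cases h2 : b0 = 0 <;> simp [h1, h2, eq_comm]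

theorem Sol.sq (h : Sol X) : ∑ p, X p * X p = 45 := by
  have := h.eqn (R := ℕ) (fun p => if p = 1 then 1 else 0)
  simpa [mul_inv_eq_one] using this

theorem Sol.twos (h : Sol X) : ∑ p, X p / 2 = 5 := by
  have h1 : ∀ p, X p * X p = X p + 2 * (X p / 2) := fun p => by
    have := h.le p
    generalize X p = n at this
    interval_cases n <;> rfl
  have h2 := h.sq
  simp only [h1, Finset.sum_add_distrib, h.tot, ← Finset.mul_sum] at h2
  omega

def act (p : Gm e) (k : ZMod 5) : ZMod 5 := p.2.2 + FF p.1 * k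
theorem act_mul (p q : Gm e) (k : ZMod 5) : act (p * q) k = act p (act q k) := by
  simp only [act, mul_a, mul_z, FF_add]; ring
theorem act_one (k : ZMod 5) : act (1 : Gm e) k = k := by
  show (0 : ZMod 5) + FF 0 * k = k
  rw [FF_zero]; ring

theorem MM_eq (X : Gm e → ℕ) (i k : ZMod 5) :
    ∑ p, X p * (if act p k = i then 1 else 0) = MM X i k := by
  rw [sum_Gm]
  refine Finset.sum_congr rfl fun a _ => Finset.sum_congr rfl fun b _ => ?_
  rw [Finset.sum_eq_single (i - FF a * k)]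
  · simp [act, mg]
  · intro z _ hz
    rw [if_neg, mul_zero]
    intro hh; apply hz; rw [← hh]; simp [act, mg]
  · simp

theorem Sol.MM_eqn (h : Sol X) (i i' : ZMod 5) :
    ∑ k, MM X i k * MM X i' k = (if i = i' then 25 else 0) + 240 := by
  have := h.bil (R := ℕ) (κ := ZMod 5) (fun p => if act p i' = i then 1 else 0)
    (fun k p => if act p k = i then 1 else 0) (fun k q => if act q k = i' then 1 else 0) (by
      intro p q
      rw [Finset.sum_eq_single (act q⁻¹ i')]
      · rw [← act_mul, ← act_mul, mul_inv_cancel, act_one]; simp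
      · intro k _ hk
        rw [if_neg (c := act q k = i'), mul_zero]
        intro hh; apply hk; rw [← hh, ← act_mul, inv_mul_cancel, act_one]
      · simp)
  simp only [Nat.cast_id, MM_eq, act_one] at this
  rw [this]
  have e1 := MM_eq (e := e) (fun _ => 1) i i'
  simp only [one_mul] at e1
  rw [e1]
  by_cases hi : i = i'
  · simp [hi, MM, cc]
  · simp [hi, Ne.symm hi, MM, cc]

theorem sum_aff5 (f : ZMod 5 → ℕ) (c m : ZMod 5) (hm : m ≠ 0) : ∑ z, f (c + m * z) = ∑ z, f z := by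
  have : ∀ c m : ZMod 5, m ≠ 0 → Function.Bijective fun z => c + m * z := by decide
  exact (this c m hm).sum_comp f
theorem sum_aff3 (f : ZMod 3 → ℕ) (c m : ZMod 3) (hm : m ≠ 0) : ∑ z, f (c + m * z) = ∑ z, f z := by
  have : ∀ c m : ZMod 3, m ≠ 0 → Function.Bijective fun z => c + m * z := by decide
  exact (this c m hm).sum_comp f
theorem FF_ne : ∀ a, FF a ≠ 0 := by decide
theorem EE_ne : ∀ e a, EE e a ≠ 0 := by decide

theorem Sol.MM_row (h : Sol X) (i : ZMod 5) : ∑ k, MM X i k = 35 := by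
  rw [← h.tt_tot]
  simp only [MM]
  rw [Finset.sum_comm]
  refine Finset.sum_congr rfl fun a _ => ?_
  have := sum_aff5 (cc X a) i (-FF a) (neg_ne_zero.2 (FF_ne a))
  simp only [neg_mul, ← sub_eq_add_neg] at this
  exact this

theorem Sol.cc_le (h : Sol X) (a : ZMod 4) (z : ZMod 5) : cc X a z ≤ 6 := by
  have := Finset.sum_le_card_nsmul univ (fun b => X (mg e a b z)) 2 fun b _ => h.le _
  simpa [cc] using this

theorem Sol.MM_cc (h : Sol X) (j : ZMod 4) (y : ZMod 5) :
    ∑ k, MM X (y + FF j * k) k + tt X j = 5 * cc X j y + 35 := by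
  have hne : ∀ a j : ZMod 4, a ≠ j → FF j - FF a ≠ 0 := by decide
  simp only [MM]
  rw [Finset.sum_comm, ← h.tt_tot, ← Finset.add_sum_erase _ _ (mem_univ j),
    ← Finset.add_sum_erase _ (tt X) (mem_univ j)]
  have e1 : ∑ k, cc X j (y + FF j * k - FF j * k) = 5 * cc X j y := by simp
  have e2 : ∑ a ∈ univ.erase j, ∑ k, cc X a (y + FF j * k - FF a * k) =
      ∑ a ∈ univ.erase j, tt X a := by
    refine Finset.sum_congr rfl fun a ha => ?_
    rw [tt, ← sum_aff5 (cc X a) y (FF j - FF a) (hne a j (mem_erase.1 ha).1)]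
    exact Finset.sum_congr rfl fun k _ => by congr 1; ring
  rw [e1, e2]; ring

/-- two-sided translation -/
def trl (X : Gm e → ℕ) (g k : Gm e) : Gm e → ℕ := fun p => X (g * p * k)

theorem mg_mul (a a' : ZMod 4) (b b' : ZMod 3) (z z' : ZMod 5) :
    mg e a b z * mg e a' b' z' = mg e (a + a') (b + EE e a * b') (z + FF a * z') := rfl

theorem cc_trl (X : Gm e → ℕ) (s s' : ZMod 4) (x y : ZMod 3) (c d : ZMod 5) (a : ZMod 4)
    (z : ZMod 5) : cc (trl X (mg e s x c) (mg e s' y d)) a z =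
      cc X (s + a + s') (c + FF s * z + FF (s + a) * d) := by
  simp only [cc, trl, mg_mul]
  rw [← sum_aff3 (fun b => X (mg e (s + a + s') b (c + FF s * z + FF (s + a) * d)))
    (x + EE e (s + a) * y) (EE e s) (EE_ne e s)]
  exact Finset.sum_congr rfl fun b _ => by congr 2; ring

theorem tt_trl (X : Gm e → ℕ) (s s' : ZMod 4) (x y : ZMod 3) (c d : ZMod 5) (a : ZMod 4) :
    tt (trl X (mg e s x c) (mg e s' y d)) a = tt X (s + a + s') := by
  simp only [tt, cc_trl]
  rw [← sum_aff5 (cc X (s + a + s')) (c + FF (s + a) * d) (FF s) (FF_ne s)]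
  exact Finset.sum_congr rfl fun b _ => by congr 1; ring

theorem MM_trl (X : Gm e → ℕ) (s : ZMod 4) (x y : ZMod 3) (c d i k : ZMod 5) :
    MM (trl X (mg e s x c) (mg e (-s) y (-(FF (-s) * d)))) i k =
      MM X (FF s * i + c) (FF s * k + d) := by
  simp only [MM, cc_trl]
  refine Finset.sum_congr rfl fun a _ => ?_
  have h1 : FF s * FF (-s) = 1 := by rw [← FF_add, add_neg_cancel, FF_zero]
  congr 1
  · ring
  · rw [FF_add]; linear_combination (-(FF a * d)) * h1

theorem rr_trl (X : Gm e → ℕ) (x y : ZMod 3) (a : ZMod 4) (b : ZMod 3) :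
    rr (trl X (mg e 0 x 0) (mg e 0 y 0)) a b = rr X a (b + x + EE e a * y) := by
  simp only [rr, trl, mg_mul, EE_zero, FF_zero, zero_add, add_zero, one_mul, mul_zero, add_comm x b]

end PellDS.A2
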