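import Pool.Agent.P.MP_e9cc94_co.Basic

set_option autoImplicit false

namespace PellDS.A2
open Finset

def ep (e : Bool) : ZMod 3 := if e then 1 else 2
def EE (e : Bool) (a : ZMod 4) : ZMod 3 := ep e ^ a.val
def FF (a : ZMod 4) : ZMod 5 := 2 ^ a.val

theorem EE_add : ∀ (e : Bool) (a b : ZMod 4), EE e (a + b) = EE e a * EE e b := by decide
theorem FF_add : ∀ a b : ZMod 4, FF (a + b) = FF a * FF b := by decide
theorem EE_zero (e : Bool) : EE e 0 = 1 := rfl
theorem FF_zero : FF 0 = 1 := rfl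

/-- the quotient of order 60 -/
def Gm (_e : Bool) : Type := ZMod 4 × ZMod 3 × ZMod 5

variable {e : Bool}

instance : Fintype (Gm e) := inferInstanceAs (Fintype (ZMod 4 × ZMod 3 × ZMod 5))
instance : DecidableEq (Gm e) := inferInstanceAs (DecidableEq (ZMod 4 × ZMod 3 × ZMod 5))
instance : Mul (Gm e) :=
  ⟨fun p q => (p.1 + q.1, p.2.1 + EE e p.1 * q.2.1, p.2.2 + FF p.1 * q.2.2)⟩
instance : One (Gm e) := ⟨((0 : ZMod 4), (0 : ZMod 3), (0 : ZMod 5))⟩
instance : Inv (Gm e) := ⟨fun p => (-p.1, -(EE e (-p.1) * p.2.1), -(FF (-p.1) * p.2.2))⟩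

def mg (e : Bool) (a : ZMod 4) (b : ZMod 3) (z : ZMod 5) : Gm e := (a, b, z)

theorem mul_a (p q : Gm e) : (p * q).1 = p.1 + q.1 := rfl
theorem mul_b (p q : Gm e) : (p * q).2.1 = p.2.1 + EE e p.1 * q.2.1 := rfl
theorem mul_z (p q : Gm e) : (p * q).2.2 = p.2.2 + FF p.1 * q.2.2 := rfl
theorem Gm.ext' {p q : Gm e} (h1 : p.1 = q.1) (h2 : p.2.1 = q.2.1) (h3 : p.2.2 = q.2.2) : p = q :=
  Prod.ext h1 (Prod.ext h2 h3)

instance : Group (Gm e) :=
  Group.ofLeftAxioms
    (fun p q r => Gm.ext' (by simp only [mul_a]; ring)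
      (by simp only [mul_a, mul_b, EE_add]; ring) (by simp only [mul_a, mul_z, FF_add]; ring))
    (fun p => Gm.ext' (zero_add _)
      (show (0 : ZMod 3) + EE e 0 * p.2.1 = p.2.1 by rw [EE_zero]; ring)
      (show (0 : ZMod 5) + FF 0 * p.2.2 = p.2.2 by rw [FF_zero]; ring))
    (fun p => Gm.ext' (neg_add_cancel _)
      (show -(EE e (-p.1) * p.2.1) + EE e (-p.1) * p.2.1 = 0 by ring)
      (show -(FF (-p.1) * p.2.2) + FF (-p.1) * p.2.2 = 0 by ring))

theorem div_a (p q : Gm e) : (p * q⁻¹).1 = p.1 - q.1 := (sub_eq_add_neg _ _).symm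
theorem div_b (p q : Gm e) : (p * q⁻¹).2.1 = p.2.1 - EE e (p.1 - q.1) * q.2.1 := by
  show p.2.1 + EE e p.1 * -(EE e (-q.1) * q.2.1) = _
  rw [sub_eq_add_neg p.1, EE_add]; ring
theorem div_z (p q : Gm e) : (p * q⁻¹).2.2 = p.2.2 - FF (p.1 - q.1) * q.2.2 := by
  show p.2.2 + FF p.1 * -(FF (-q.1) * q.2.2) = _
  rw [sub_eq_add_neg p.1, FF_add]; ring

theorem sum_Gm {R : Type} [AddCommMonoid R] (f : Gm e → R) :
    ∑ p, f p = ∑ a, ∑ b, ∑ z, f (mg e a b z) := by
  have := Fintype.sum_prod_type (α₁ := ZMod 4) (α₂ := ZMod 3 × ZMod 5) f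
  refine this.trans (Finset.sum_congr rfl fun a _ => ?_)
  rw [Fintype.sum_prod_type]; rfl

/-- the image of a difference set in the quotient of order 60 -/
structure Sol (X : Gm e → ℕ) : Prop where
  le : ∀ p, X p ≤ 2
  tot : ∑ p, X p = 35
  eqn : ∀ {R : Type} [CommSemiring R] (φ : Gm e → R),
    ∑ p, ∑ q, (X p : R) * (X q : R) * φ (p * q⁻¹) = 25 * φ 1 + 20 * ∑ p, φ p

theorem Sol.tr {X : Gm e → ℕ} (h : Sol X) (g k : Gm e) : Sol fun p => X (g * p * k) := by
  let T : Gm e ≃ Gm e := (Equiv.mulLeft g).trans (Equiv.mulRight k)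
  let C : Gm e ≃ Gm e := (Equiv.mulLeft g⁻¹).trans (Equiv.mulRight g)
  refine ⟨fun p => h.le _, (Equiv.sum_comp T X).trans h.tot, fun φ => ?_⟩
  have h1 := h.eqn (fun p => φ (C p))
  rw [Equiv.sum_comp C φ, show C 1 = 1 by simp [C], ← Equiv.sum_comp T] at h1
  rw [← h1]
  refine Finset.sum_congr rfl fun p _ => ?_
  refine Eq.trans ?_ (Equiv.sum_comp T _)
  refine Finset.sum_congr rfl fun q _ => ?_
  have : C (T p * (T q)⁻¹) = p * q⁻¹ := by simp [C, T]; group
  rw [this]; rfl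

theorem Sol.bil {X : Gm e → ℕ} (h : Sol X) {R : Type} [CommSemiring R] {κ : Type} [Fintype κ]
    (φ : Gm e → R) (α β : κ → Gm e → R) (hφ : ∀ p q, φ (p * q⁻¹) = ∑ k, α k p * β k q) :
    ∑ k, (∑ p, (X p : R) * α k p) * (∑ q, (X q : R) * β k q) = 25 * φ 1 + 20 * ∑ p, φ p := by
  rw [← h.eqn φ]
  simp only [Finset.sum_mul_sum]
  simp only [hφ, Finset.mul_sum]
  rw [Finset.sum_comm]
  refine Finset.sum_congr rfl fun p _ => ?_
  rw [Finset.sum_comm]
  refine Finset.sum_congr rfl fun q _ => Finset.sum_congr rfl fun k _ => by ring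

theorem sum_push {G H R : Type} [Fintype H] [DecidableEq H] [CommSemiring R] (S : Finset G)
    (f : G → H) (ψ : H → R) :
    ∑ d ∈ S, ψ (f d) = ∑ p, ((S.filter fun d => f d = p).card : R) * ψ p := by
  rw [← Finset.sum_fiberwise (s := S) (g := f)]
  refine Finset.sum_congr rfl fun p _ => ?_
  rw [Finset.sum_congr rfl (g := fun _ => ψ p) fun d hd => by rw [(mem_filter.1 hd).2],
    Finset.sum_const, nsmul_eq_mul]

variable {G : Type} [Group G] [Fintype G] [DecidableEq G] {D : Finset G}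

theorem exists_sol (h : DS D) {j : G → ZMod 8} {u : G → ZMod 3} {y : G → ZMod 5}
    (c : Coord (ep e) 2 j u y) : ∃ X : Gm e → ℕ, Sol X := by
  let ca : ZMod 8 → ZMod 4 := fun a => (a.val : ZMod 4)
  have ca_add : ∀ a b, ca (a + b) = ca a + ca b := by decide
  have hE : ∀ (e : Bool) a, EE e (ca a) = ep e ^ a.val := by decide
  have hF : ∀ a, FF (ca a) = 2 ^ a.val := by decide
  let f : G →* Gm e := MonoidHom.mk' (fun g => mg e (ca (j g)) (u g) (y g)) fun g k =>
    Gm.ext' (by show ca (j (g * k)) = ca (j g) + ca (j k); rw [c.jm, ca_add])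
      (by show u (g * k) = u g + EE e (ca (j g)) * u k; rw [c.um, hE])
      (by show y (g * k) = y g + FF (ca (j g)) * y k; rw [c.ym, hF])
  have fib : ∀ p, (univ.filter fun g => f g = p).card = 2 := by
    intro p
    rw [Finset.card_filter]
    have := c.sum (fun a b z => if mg e (ca a) b z = p then 1 else 0)
    refine this.trans ?_
    have key : ∀ p : ZMod 4 × ZMod 3 × ZMod 5, (∑ a : ZMod 8, ∑ b : ZMod 3, ∑ z : ZMod 5,
        if (ca a, b, z) = p then 1 else 0) = 2 := by decide +kernel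
    exact key p
  refine ⟨fun p => (D.filter fun d => f d = p).card, fun p => ?_, ?_, fun {R} _ φ => ?_⟩
  · rw [← fib p]; exact card_le_card (filter_subset_filter _ (subset_univ D))
  · rw [← h.1]; exact (Finset.card_eq_sum_card_fiberwise (f := f) (fun _ _ => mem_univ _)).symm
  · have h1 := h.sum (fun g => φ (f g))
    simp only [map_mul, map_inv, map_one] at h1
    rw [sum_push univ f φ] at h1
    simp only [fib] at h1
    rw [sum_push D f (fun p => ∑ d ∈ D, φ (p * (f d)⁻¹))] at h1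
    have h2 : ∀ p : Gm e, ∑ d ∈ D, φ (p * (f d)⁻¹) =
        ∑ q, ((D.filter fun d => f d = q).card : R) * φ (p * q⁻¹) :=
      fun p => sum_push D f (fun q => φ (p * q⁻¹))
    simp only [h2, Finset.mul_sum, ← mul_assoc] at h1
    rw [h1, ← Finset.mul_sum, nsmul_eq_mul, nsmul_eq_mul]
    push_cast; ring

end PellDS.A2
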