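import Mathlib

set_option autoImplicit false

namespace PellDS.A2

structure R5 where
  (a b c d e : ℕ)
structure R3 where
  (a b c : ℕ)
structure Rc where
  (P Q n w Z : ℕ)
structure Pr where
  k : ℕ
  x : Rc
  y : Rc

noncomputable section

def frc {α : Type} (n : ℕ) (f : ℕ → α) : α := Nat.rec (f 0) (fun m _ => f (Nat.succ m)) n
def al {α : Type} (f : α → Bool) (l : List α) : Bool :=
  List.rec true (fun a _ ih => Bool.rec false ih (f a)) l
def an {α : Type} (f : α → Bool) (l : List α) : Bool :=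
  List.rec false (fun a _ ih => Bool.rec ih true (f a)) l
def app {α : Type} (l r : List α) : List α := List.rec r (fun a _ ih => a :: ih) l
def flat {α β : Type} (f : α → List β) (l : List α) : List β :=
  List.rec [] (fun a _ ih => app (f a) ih) l
def filt {α : Type} (f : α → Bool) (l : List α) : List α :=
  List.rec [] (fun a _ ih => Bool.rec ih (a :: ih) (f a)) l
def mp {α β : Type} (f : α → β) (l : List α) : List β := List.rec [] (fun a _ ih => f a :: ih) l
def fld {α : Type} (f : ℕ → α → ℕ) (l : List α) : ℕ → ℕ :=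
  List.rec (fun z => z) (fun a _ ih z => frc (f z a) ih) l
def orr (a b : Bool) : Bool := Bool.rec b true a
def andd (a b : Bool) : Bool := Bool.rec false b a

def pp : ℕ := nat_lit 2147482951
def om1 : ℕ := nat_lit 2102522372
def om2 : ℕ := nat_lit 44960578
def lam : ℕ := nat_lit 1234567

def ev (x : R5) (p q r s : ℕ) : ℕ :=
  ((((x.a.add (x.b.mul p)).add (x.c.mul q)).add (x.d.mul r)).add (x.e.mul s)).mod pp
def e1 (x : R5) : ℕ :=
  ev x (nat_lit 1025815503) (nat_lit 1004659767) (nat_lit 1920893789) (nat_lit 343596842)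
def e4 (x : R5) : ℕ :=
  ev x (nat_lit 343596842) (nat_lit 1920893789) (nat_lit 1004659767) (nat_lit 1025815503)
def e3 (x : R5) : ℕ :=
  ev x (nat_lit 1920893789) (nat_lit 1025815503) (nat_lit 343596842) (nat_lit 1004659767)
def cmb (a b c u v : ℕ) : ℕ := ((a.add (b.mul u)).add (c.mul v)).mod pp
def tw (x : R5) : ℕ :=
  ((((x.a.div 2).add (x.b.div 2)).add (x.c.div 2)).add (x.d.div 2)).add (x.e.div 2)
def R5.sm (x : R5) : ℕ := (((x.a.add x.b).add x.c).add x.d).add x.e

def mkRc (u v : ℕ) (x y z : R5) : Rc :=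
  frc (e1 x) fun a => frc (e1 y) fun b => frc (e1 z) fun c =>
  frc (cmb a b c om1 om2) fun P =>
  frc (((cmb a b c om2 om1).mul lam).mod pp) fun Q =>
  frc ((P.mul (cmb (e4 x) (e4 y) (e4 z) om2 om1)).mod pp) fun n =>
  frc (((tw x).add (tw y)).add (tw z)) fun w =>
  ⟨P, Q, n, w, cmb (e3 x) (e3 y) (e3 z) u v⟩

def all243 : List R5 :=
  flat (fun a => flat (fun b => flat (fun c => flat (fun d => mp (fun e => ⟨a, b, c, d, e⟩)
    [0, 1, 2]) [0, 1, 2]) [0, 1, 2]) [0, 1, 2]) [0, 1, 2]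
def rowsBy (s : ℕ) : List R5 := filt (fun x => x.sm.beq s) all243
def fit (c x y : ℕ) : Bool := andd ((x.add y).ble c) (c.ble ((x.add y).add 2))
def fits (c x y : R5) : Bool :=
  andd (fit c.a x.a y.a) (andd (fit c.b x.b y.b) (andd (fit c.c x.c y.c)
    (andd (fit c.d x.d y.d) (fit c.e x.e y.e))))
def rest (c x y : R5) : R5 :=
  ⟨c.a.sub (x.a.add y.a), c.b.sub (x.b.add y.b), c.c.sub (x.c.add y.c), c.d.sub (x.d.add y.d),
    c.e.sub (x.e.add y.e)⟩
def lst1 (u v : ℕ) (c : R5) (A B : List R5) : List Rc :=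
  flat (fun x => mp (fun y => mkRc u v x y (rest c x y)) (filt (fits c x) B)) A
def lst (u v : ℕ) (c : R5) (r : R3) : List Rc := lst1 u v c (rowsBy r.a) (rowsBy r.b)

def key (a b : Rc) : ℕ := (((a.n.add b.n).add ((b.P.mul a.Q).add (a.P.mul b.Q)))).mod pp
def mkE (a b : Rc) : Pr := frc (key a b) fun k => ⟨k, a, b⟩
def mkO (a b : Rc) : Pr := frc (((pp.add 25).sub (key a b)).mod pp) fun k => ⟨k, a, b⟩
def cls (L : List Rc) (k : ℕ) : List Rc := filt (fun r => r.w.beq k) L
def prs1 (mk : Rc → Rc → Pr) (A B : List Rc) : List (List Pr) := mp (fun a => mp (mk a) B) A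
def prs (mk : Rc → Rc → Pr) (A B : List Rc) (s : ℕ) : List (List Pr) :=
  flat (fun k => prs1 mk (cls A k) (cls B (s.sub k))) (filt (fun k => k.ble s) [0, 1, 2, 3, 4, 5])

def h1 (k : ℕ) : ℕ := k.mod (nat_lit 16384)
def h2 (k : ℕ) : ℕ := (k.div (nat_lit 16384)).mod (nat_lit 16384)
def ins (z : ℕ) (x : Pr) : ℕ := z.lor (((nat_lit 1).shiftLeft (h1 x.k)).lor ((nat_lit 1).shiftLeft (h2 x.k)))
def bits (L : List Pr) (z : ℕ) : ℕ := fld ins L z
def bits2 (L : List (List Pr)) : ℕ := fld (fun z l => bits l z) L 0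
def tb (b i : ℕ) : Bool := ((b.shiftRight i).land (nat_lit 1)).beq (nat_lit 1)
def hit (b : ℕ) (x : Pr) : Bool := andd (tb b (h1 x.k)) (tb b (h2 x.k))
def emp {α : Type} (L : List α) : Bool := List.rec true (fun _ _ _ => false) L
def ok3 (e o : Pr) : Bool :=
  Bool.rec true (Nat.ble 1 (((((o.x.P.mul e.x.Z).add (e.y.P.mul o.x.Z)).add (o.y.P.mul e.y.Z)).add
    (e.x.P.mul o.y.Z)).mod pp)) (e.k.beq o.k)
def join3 (E O : List Pr) : Bool := al (fun e => al (ok3 e) O) E
def join2 (E : List Pr) (O : List (List Pr)) : Bool :=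
  frc (bits E 0) fun b => join3 E (flat (filt (hit b)) O)
def join (E O : List (List Pr)) : Bool :=
  orr (al emp E) (orr (al emp O) (frc (bits2 O) fun b => join2 (flat (filt (hit b)) E) O))
def chk4 (L0 L1 L2 L3 : List Rc) : Bool :=
  al (fun s => join (prs mkE L0 L2 s) (prs mkO L1 L3 (Nat.sub 5 s))) [0, 1, 2, 3, 4, 5]
def R3.sm (x : R3) : ℕ := (x.a.add x.b).add x.c

structure C4 where
  (c0 c1 c2 c3 : R5)
structure T4 where
  (r0 r1 r2 r3 : R3)

def chk (u v : ℕ) (c : C4) (r : T4) : Bool :=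
  Bool.rec true (chk4 (lst u v c.c0 r.r0) (lst u v c.c1 r.r1) (lst u v c.c2 r.r2) (lst u v c.c3 r.r3))
    (c.c0.sm.beq r.r0.sm)

end

end PellDS.A2
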