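import Pool.Agent.P.MP_e9cc94_co.A2K

set_option autoImplicit false

namespace PellDS.A2

def Creps : List C4 :=
  [⟨⟨0,2,3,3,2⟩,⟨1,3,3,1,2⟩,⟨2,3,0,3,2⟩,⟨0,0,2,1,2⟩⟩,
   ⟨⟨0,1,2,3,2⟩,⟨0,2,4,1,2⟩,⟨2,4,1,3,2⟩,⟨1,1,1,1,2⟩⟩,
   ⟨⟨0,3,2,2,3⟩,⟨2,1,3,3,1⟩,⟨0,2,3,3,2⟩,⟨1,2,0,0,2⟩⟩,
   ⟨⟨2,1,2,4,3⟩,⟨0,2,4,1,2⟩,⟨0,3,1,2,2⟩,⟨1,2,1,1,1⟩⟩,
   ⟨⟨2,2,2,4,2⟩,⟨1,1,5,1,1⟩,⟨0,2,2,2,2⟩,⟨1,2,1,1,1⟩⟩,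
   ⟨⟨0,2,2,2,2⟩,⟨1,1,1,1,5⟩,⟨2,2,4,2,2⟩,⟨1,1,1,2,1⟩⟩,
   ⟨⟨2,1,3,3,1⟩,⟨1,2,2,1,4⟩,⟨1,3,2,3,1⟩,⟨0,0,1,3,1⟩⟩,
   ⟨⟨1,2,4,2,1⟩,⟨1,2,1,3,3⟩,⟨1,2,2,1,4⟩,⟨1,2,0,0,2⟩⟩,
   ⟨⟨2,2,2,2,2⟩,⟨2,2,2,2,2⟩,⟨1,1,1,1,6⟩,⟨1,1,1,1,1⟩⟩,
   ⟨⟨2,2,1,4,1⟩,⟨2,1,3,3,1⟩,⟨2,1,1,2,4⟩,⟨0,2,1,2,0⟩⟩,
   ⟨⟨1,3,2,3,1⟩,⟨4,1,2,2,1⟩,⟨1,2,1,3,3⟩,⟨0,0,1,3,1⟩⟩,
   ⟨⟨2,2,2,2,2⟩,⟨1,1,6,1,1⟩,⟨2,2,2,2,2⟩,⟨1,1,1,1,1⟩⟩,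
   ⟨⟨2,2,2,2,2⟩,⟨2,2,2,2,2⟩,⟨2,2,2,2,2⟩,⟨0,0,0,5,0⟩⟩,
   ⟨⟨1,6,1,1,1⟩,⟨2,2,2,2,2⟩,⟨2,2,2,2,2⟩,⟨1,1,1,1,1⟩⟩]
def Rp : List T4 :=
  [⟨⟨1,1,6⟩,⟨3,3,3⟩,⟨4,4,4⟩,⟨2,2,2⟩⟩,
   ⟨⟨2,2,6⟩,⟨4,4,2⟩,⟨3,3,4⟩,⟨1,1,3⟩⟩,
   ⟨⟨3,3,4⟩,⟨4,4,2⟩,⟨2,2,6⟩,⟨1,1,3⟩⟩,
   ⟨⟨4,4,4⟩,⟨3,3,3⟩,⟨1,1,6⟩,⟨2,2,2⟩⟩]
def Rm : List T4 :=
  [⟨⟨1,1,6⟩,⟨3,3,3⟩,⟨4,4,4⟩,⟨2,2,2⟩⟩,
   ⟨⟨1,3,4⟩,⟨2,3,4⟩,⟨4,2,6⟩,⟨3,2,1⟩⟩,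
   ⟨⟨1,3,4⟩,⟨2,4,3⟩,⟨4,2,6⟩,⟨3,1,2⟩⟩,
   ⟨⟨1,4,3⟩,⟨2,3,4⟩,⟨4,6,2⟩,⟨3,2,1⟩⟩,
   ⟨⟨1,4,3⟩,⟨2,4,3⟩,⟨4,6,2⟩,⟨3,1,2⟩⟩,
   ⟨⟨1,3,6⟩,⟨3,3,4⟩,⟨4,2,4⟩,⟨2,2,1⟩⟩,
   ⟨⟨1,6,3⟩,⟨3,3,4⟩,⟨4,4,2⟩,⟨2,2,1⟩⟩,
   ⟨⟨2,2,6⟩,⟨2,4,4⟩,⟨3,3,4⟩,⟨3,1,1⟩⟩,
   ⟨⟨2,4,4⟩,⟨3,3,4⟩,⟨3,1,6⟩,⟨2,2,1⟩⟩,
   ⟨⟨2,4,4⟩,⟨3,3,4⟩,⟨3,6,1⟩,⟨2,2,1⟩⟩,
   ⟨⟨3,3,4⟩,⟨2,4,4⟩,⟨2,2,6⟩,⟨3,1,1⟩⟩,
   ⟨⟨2,4,6⟩,⟨2,3,4⟩,⟨3,1,4⟩,⟨3,2,1⟩⟩,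
   ⟨⟨2,4,6⟩,⟨2,4,3⟩,⟨3,1,4⟩,⟨3,1,2⟩⟩,
   ⟨⟨2,6,4⟩,⟨2,3,4⟩,⟨3,4,1⟩,⟨3,2,1⟩⟩,
   ⟨⟨2,6,4⟩,⟨2,4,3⟩,⟨3,4,1⟩,⟨3,1,2⟩⟩,
   ⟨⟨4,4,4⟩,⟨3,3,3⟩,⟨1,1,6⟩,⟨2,2,2⟩⟩]

structure M5 where
  (r0 r1 r2 r3 r4 : R5)

noncomputable section

def sel5 {α : Type} (a b c d e : α) (k : ℕ) : α :=
  Nat.rec a (fun k _ => Nat.rec b (fun k _ => Nat.rec c (fun k _ => Nat.rec d (fun _ _ => e) k) k) k) k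
def R5.get (x : R5) (k : ℕ) : ℕ := sel5 x.a x.b x.c x.d x.e k
def R3.get (x : R3) (k : ℕ) : ℕ := sel5 x.a x.b x.c 0 0 k
def M5.row (m : M5) (i : ℕ) : R5 := sel5 m.r0 m.r1 m.r2 m.r3 m.r4 i
def C4.row (m : C4) (i : ℕ) : R5 := sel5 m.c0 m.c1 m.c2 m.c3 m.c3 i
def T4.row (m : T4) (i : ℕ) : R3 := sel5 m.r0 m.r1 m.r2 m.r3 m.r3 i
def sm (f : ℕ → ℕ) (l : List ℕ) : ℕ := List.rec 0 (fun a _ ih => (f a).add ih) l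
def hor (f : ℕ → ℕ) (l : List ℕ) : ℕ := List.rec 0 (fun a _ ih => (f a).add (ih.mul 16)) l
def nt (a : Bool) : Bool := Bool.rec true false a
def imp (a b : Bool) : Bool := Bool.rec true b a
def l3 : List ℕ := [0, 1, 2]
def l4 : List ℕ := [0, 1, 2, 3]
def l5 : List ℕ := [0, 1, 2, 3, 4]

/-! the level of order 4 -/
def T3 : List R5 := [⟨8, 9, 12, 6, 0⟩, ⟨10, 10, 10, 5, 0⟩, ⟨12, 9, 8, 6, 0⟩]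
def kt (t : R5) (s : ℕ) : ℕ := hor (fun a => t.get ((a.add s).mod 4)) l4
def teq (t : R5) (s : ℕ) : ℕ := sm (fun a => (t.get ((a.add s).mod 4)).mul (t.get a)) l4
def R5.eqb (x y : R5) : Bool :=
  andd (x.a.beq y.a) (andd (x.b.beq y.b) (andd (x.c.beq y.c) (andd (x.d.beq y.d) (x.e.beq y.e))))
def tOK (t : R5) : Bool :=
  imp ((teq t 0).beq 325) (imp ((teq t 1).beq 300) (imp ((teq t 2).beq 300)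
    (imp (al (fun s => (kt t 0).ble (kt t s)) l4) (an (fun u => u.eqb t) T3))))
def chkT : Bool :=
  al (fun a => al (fun b => al (fun c => tOK ⟨a, b, c, Nat.sub 35 ((a.add b).add c), 0⟩)
    (List.range 19)) (List.range 19)) (List.range 19)

/-! the level of order 20 -/
def dot (x y : R5) : ℕ :=
  ((((x.a.mul y.a).add (x.b.mul y.b)).add (x.c.mul y.c)).add (x.d.mul y.d)).add (x.e.mul y.e)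
def mkRow (a b c d : ℕ) : R5 := ⟨a, b, c, d, Nat.sub 35 (((a.add b).add c).add d)⟩
def rowsM : List R5 :=
  flat (fun a => flat (fun b => flat (fun c => filt (fun x => (dot x x).beq 265)
    (mp (fun d => mkRow a b c d) (List.range 12))) (List.range 12)) (List.range 12)) (List.range 12)
def orth (x : R5) (l : List R5) : List R5 := filt (fun y => (dot x y).beq 240) l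
def rk (x : R5) (m d : ℕ) : ℕ := hor (fun k => x.get (((m.mul k).add d).mod 5)) [4, 3, 2, 1, 0]
def k12 (M : M5) (m b d : ℕ) : ℕ :=
  ((rk (M.row ((m.add b).mod 5)) m d).mul 1048576).add (rk (M.row (((m.mul 2).add b).mod 5)) m d)
def min0 (x : R5) : Bool :=
  al (fun s => al (fun d => (rk x 1 0).ble (rk x (Nat.pow 2 s) d)) l5) l4
def minM (M : M5) : Bool :=
  al (fun s => al (fun b => al (fun d => imp ((rk (M.row b) (Nat.pow 2 s) d).beq (rk M.r0 1 0))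
    ((k12 M 1 0 0).ble (k12 M (Nat.pow 2 s) b d))) l5) l5) l4
def minM0 (M : M5) : Bool :=
  al (fun s => al (fun b => al (fun d => (rk M.r0 1 0).ble (rk (M.row b) (Nat.pow 2 s) d)) l5) l5) l4
def sj (M : M5) (t : R5) (j y : ℕ) : ℕ :=
  (sm (fun k => (M.row ((y.add ((Nat.pow 2 j).mul k)).mod 5)).get k) l5).add (t.get j)
def cOK (M : M5) (t : R5) : Bool :=
  imp (al (fun j => al (fun y => andd (((sj M t j y).mod 5).beq 0)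
      (andd (Nat.ble 35 (sj M t j y)) ((sj M t j y).ble 65))) l5) l4)
    (an (fun c => al (fun j => al (fun y =>
      ((((c.row j).get y).mul 5).add 35).beq (sj M t j y)) l5) l4) Creps)
def leafM (M : M5) : Bool := imp (minM0 M) (imp (minM M) (al (cOK M) T3))
def lv4 (a b c d : R5) (l : List R5) : Bool := al (fun e => leafM ⟨a, b, c, d, e⟩) l
def lv3 (a b c : R5) (l : List R5) : Bool := al (fun d => lv4 a b c d (orth d l)) l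
def lv2 (a b : R5) (l : List R5) : Bool := al (fun c => lv3 a b c (orth c l)) l
def lv1 (a : R5) (l : List R5) : Bool := al (fun b => lv2 a b (orth b l)) l
def lv0 (l : List R5) : Bool := al (fun a => imp (min0 a) (lv1 a (orth a l))) l
def chkM : Bool := lv0 rowsM

/-! the level of order 12 -/
def nn (x : R3) : ℕ := ((((x.a.mul x.a).add (x.b.mul x.b)).add (x.c.mul x.c)).mul 3).sub (x.sm.mul x.sm)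
def tri (s : ℕ) : List (R3 × ℕ) :=
  filt (fun p => p.2.ble 50) (flat (fun a => mp (fun b =>
    frc (s.sub (a.add b)) fun c => frc (nn ⟨a, b, c⟩) fun n => (⟨a, b, c⟩, n))
    (filt (fun b => (a.add b).ble s) (List.range 13))) (List.range 13))
def req (w : ℕ) (r : T4) (a0 b0 : ℕ) : ℕ :=
  sm (fun a => sm (fun b => ((r.row ((a.add a0).mod 4)).get
    ((b0.add ((Nat.pow w a0).mul b)).mod 3)).mul ((r.row a).get b)) l3) l4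
def kr (w : ℕ) (r : T4) (x y : ℕ) : ℕ :=
  hor (fun i => (r.row (i.div 3)).get ((((i.mod 3).add x).add ((Nat.pow w (i.div 3)).mul y)).mod 3))
    [11, 10, 9, 8, 7, 6, 5, 4, 3, 2, 1, 0]
def R3.eqb (x y : R3) : Bool := andd (x.a.beq y.a) (andd (x.b.beq y.b) (x.c.beq y.c))
def T4.eqb (x y : T4) : Bool :=
  andd (x.r0.eqb y.r0) (andd (x.r1.eqb y.r1) (andd (x.r2.eqb y.r2) (x.r3.eqb y.r3)))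
def dot3 (x y : R3) : ℕ := ((x.a.mul y.a).add (x.b.mul y.b)).add (x.c.mul y.c)
def leafR (w : ℕ) (R : List T4) (r : T4) : Bool :=
  imp (al (fun b => (req w r 1 b).beq 100) [1, 2])
    (imp (al (fun x => al (fun y => (kr w r 0 0).ble (kr w r x y)) l3) l3) (an (fun u => u.eqb r) R))
def chkR1 (w : ℕ) (R : List T4) (L0 L1 L2 L3 : List (R3 × ℕ)) : Bool :=
  al (fun p => al (fun r => frc (p.2.add r.2) fun n => imp (n.ble 50) (frc (dot3 p.1 r.1) fun d =>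
    al (fun q => frc (n.add q.2) fun n => imp (n.ble 50) (frc (Nat.sub 50 n) fun m => al (fun s =>
      imp (s.2.beq m) (imp ((d.add (dot3 q.1 s.1)).beq 50)
        (leafR w R ⟨p.1, q.1, r.1, s.1⟩))) L3)) L1)) L2) L0
def chkR (w : ℕ) (R : List T4) : Bool :=
  al (fun t => chkR1 w R (tri t.a) (tri t.b) (tri t.c) (tri t.d)) T3

end

end PellDS.A2
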