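import Pool.Agent.P.MP_e9cc94_co.A2L

set_option autoImplicit false

namespace PellDS.A2

theorem frc_eq {α : Type} (n : ℕ) (f : ℕ → α) : frc n f = f n := by cases n <;> rfl
theorem orr_iff (a b : Bool) : orr a b = true ↔ a = true ∨ b = true := by
  cases a <;> cases b <;> simp [orr]
theorem andd_iff (a b : Bool) : andd a b = true ↔ a = true ∧ b = true := by
  cases a <;> cases b <;> simp [andd]
theorem imp_iff (a b : Bool) : imp a b = true ↔ (a = true → b = true) := by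
  cases a <;> cases b <;> simp [imp]
theorem al_iff {α : Type} (f : α → Bool) (l : List α) : al f l = true ↔ ∀ a ∈ l, f a = true := by
  induction l with
  | nil => simp [al]
  | cons a l ih =>
    have : al f (a :: l) = andd (f a) (al f l) := rfl
    rw [this, andd_iff, ih]; simp
theorem an_iff {α : Type} (f : α → Bool) (l : List α) : an f l = true ↔ ∃ a ∈ l, f a = true := by
  induction l with
  | nil => simp [an]
  | cons a l ih =>
    have : an f (a :: l) = orr (f a) (an f l) := rfl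
    rw [this, orr_iff, ih]; simp
theorem app_eq {α : Type} (l r : List α) : app l r = l ++ r := by
  induction l with
  | nil => rfl
  | cons a l ih => exact congrArg (a :: ·) ih
theorem mem_flat {α β : Type} (f : α → List β) (l : List α) (b : β) :
    b ∈ flat f l ↔ ∃ a ∈ l, b ∈ f a := by
  induction l with
  | nil => simp [flat]
  | cons a l ih =>
    have : flat f (a :: l) = app (f a) (flat f l) := rfl
    rw [this, app_eq, List.mem_append, ih]; simp
theorem mem_filt {α : Type} (f : α → Bool) (l : List α) (b : α) :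
    b ∈ filt f l ↔ b ∈ l ∧ f b = true := by
  induction l with
  | nil => simp [filt]
  | cons a l ih =>
    have : filt f (a :: l) = Bool.rec (filt f l) (a :: filt f l) (f a) := rfl
    rw [this]
    cases h : f a
    · simp only [ih, List.mem_cons]
      constructor
      · exact fun h => ⟨Or.inr h.1, h.2⟩
      · rintro ⟨rfl | h1, h2⟩
        · rw [h] at h2; cases h2
        · exact ⟨h1, h2⟩
    · simp only [ih, List.mem_cons]
      constructor
      · rintro (rfl | h1)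
        · exact ⟨Or.inl rfl, h⟩
        · exact ⟨Or.inr h1.1, h1.2⟩
      · rintro ⟨rfl | h1, h2⟩
        · exact Or.inl rfl
        · exact Or.inr ⟨h1, h2⟩
theorem mem_mp {α β : Type} (f : α → β) (l : List α) (b : β) : b ∈ mp f l ↔ ∃ a ∈ l, f a = b := by
  induction l with
  | nil => simp [mp]
  | cons a l ih =>
    have : mp f (a :: l) = f a :: mp f l := rfl
    rw [this, List.mem_cons, ih]; simp [eq_comm]
theorem emp_false {α : Type} {l : List α} {a : α} (h : a ∈ l) : emp l ≠ true := by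
  cases l with
  | nil => cases h
  | cons b l => simp [emp]

theorem tb_eq (b i : ℕ) : tb b i = b.testBit i := by
  have : tb b i = Nat.beq ((b >>> i) &&& 1) 1 := rfl
  rw [this, Nat.and_one_is_mod, Nat.testBit_eq_decide_div_mod_eq, Nat.shiftRight_eq_div_pow]
  rw [Bool.eq_iff_iff]; simp

theorem fld_mono (P : ℕ → Prop) {α : Type} (f : ℕ → α → ℕ) (hf : ∀ z a, P z → P (f z a))
    (l : List α) : ∀ z, P z → P (fld f l z) := by
  induction l with
  | nil => exact fun z h => h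
  | cons a l ih =>
    intro z h
    have : fld f (a :: l) z = frc (f z a) (fld f l) := rfl
    rw [this, frc_eq]; exact ih _ (hf z a h)

theorem fld_mem (P : ℕ → Prop) {α : Type} (f : ℕ → α → ℕ) (hf : ∀ z a, P z → P (f z a))
    (l : List α) (a : α) (ha : a ∈ l) (h : ∀ z, P (f z a)) : ∀ z, P (fld f l z) := by
  induction l with
  | nil => cases ha
  | cons b l ih =>
    intro z
    have : fld f (b :: l) z = frc (f z b) (fld f l) := rfl
    rw [this, frc_eq]
    rcases List.mem_cons.1 ha with rfl | ha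
    · exact fld_mono P f hf l _ (h z)
    · exact ih ha _

theorem ins_eq (z : ℕ) (x : Pr) : ins z x = z ||| (1 <<< h1 x.k ||| 1 <<< h2 x.k) := rfl
theorem hit_ins (x : Pr) (z : ℕ) (y : Pr) (h : hit z x = true) : hit (ins z y) x = true := by
  simp only [hit, andd_iff, tb_eq, ins_eq, Nat.testBit_or] at h ⊢
  simp [h.1, h.2]
theorem hit_self (x : Pr) (z : ℕ) : hit (ins z x) x = true := by
  simp only [hit, andd_iff, tb_eq, ins_eq, Nat.testBit_or]
  simp [Nat.testBit_shiftLeft]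
theorem hit_bits {x : Pr} {l : List Pr} (h : x ∈ l) (z : ℕ) : hit (bits l z) x = true :=
  fld_mem (fun z => hit z x = true) ins (hit_ins x) l x h (hit_self x) z
theorem hit_bits2 {x : Pr} {l : List Pr} {L : List (List Pr)} (h : x ∈ l) (hl : l ∈ L) :
    hit (bits2 L) x = true :=
  fld_mem (fun z => hit z x = true) (fun z l => bits l z)
    (fun z l hz => fld_mono (fun z => hit z x = true) ins (hit_ins x) l z hz) L l hl (hit_bits h) 0
theorem hit_congr {x y : Pr} (h : x.k = y.k) (b : ℕ) : hit b x = hit b y := by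
  simp only [hit, h]

theorem join_sound {E O : List (List Pr)} (h : join E O = true) {e o : Pr} {le lo : List Pr}
    (he : e ∈ le) (hle : le ∈ E) (ho : o ∈ lo) (hlo : lo ∈ O) (hk : e.k = o.k) :
    ok3 e o = true := by
  simp only [join, orr_iff, al_iff, frc_eq, join2, join3] at h
  rcases h with h | h | h
  · exact absurd (h le hle) (emp_false he)
  · exact absurd (h lo hlo) (emp_false ho)
  · have h1 : e ∈ flat (filt (hit (bits2 O))) E :=
      (mem_flat _ _ _).2 ⟨le, hle, (mem_filt _ _ _).2 ⟨he, by rw [hit_congr hk]; exact hit_bits2 ho hlo⟩⟩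
    exact h e h1 o ((mem_flat _ _ _).2 ⟨lo, hlo, (mem_filt _ _ _).2
      ⟨ho, by rw [← hit_congr hk]; exact hit_bits h1 0⟩⟩)

theorem mem_prs (mk : Rc → Rc → Pr) {A B : List Rc} {a b : Rc} (ha : a ∈ A) (hb : b ∈ B) {s : ℕ}
    (hs : a.w + b.w = s) (h5 : s ≤ 5) : ∃ l ∈ prs mk A B s, mk a b ∈ l := by
  refine ⟨mp (mk a) (cls B (s.sub a.w)), ?_, ?_⟩
  · simp only [prs, mem_flat, mem_filt, prs1, mem_mp, cls]
    refine ⟨a.w, ⟨?_, by simp; omega⟩, a, ⟨ha, by simp⟩, rfl⟩
    have : a.w ≤ 5 := by omega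
    generalize a.w = n at this
    interval_cases n <;> simp
  · simp only [mem_mp, cls, mem_filt]
    exact ⟨b, ⟨hb, by simp; omega⟩, rfl⟩

theorem chk4_sound {L0 L1 L2 L3 : List Rc} (h : chk4 L0 L1 L2 L3 = true) {x0 x1 x2 x3 : Rc}
    (h0 : x0 ∈ L0) (h1 : x1 ∈ L1) (h2 : x2 ∈ L2) (h3 : x3 ∈ L3)
    (hw : x0.w + x1.w + x2.w + x3.w = 5) (hk : (key x0 x2 + key x1 x3) % pp = 25)
    (hz : (x1.P * x0.Z + x2.P * x1.Z + x3.P * x2.Z + x0.P * x3.Z) % pp = 0) : False := by
  simp only [chk4, al_iff] at h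
  have hs : x0.w + x2.w ∈ [0, 1, 2, 3, 4, 5] := by
    have : x0.w + x2.w ≤ 5 := by omega
    generalize x0.w + x2.w = n at this
    interval_cases n <;> simp
  obtain ⟨le, hle, he⟩ := mem_prs mkE h0 h2 rfl (by omega)
  obtain ⟨lo, hlo, ho⟩ := mem_prs mkO h1 h3 (s := Nat.sub 5 (x0.w + x2.w)) (by simp; omega)
    (by simp)
  have hk' : (mkE x0 x2).k = (mkO x1 x3).k := by
    simp only [mkE, mkO, frc_eq]
    show key x0 x2 = (pp + 25 - key x1 x3) % pp
    have a1 : key x0 x2 < pp := Nat.mod_lt _ (by decide)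
    have a2 : key x1 x3 < pp := Nat.mod_lt _ (by decide)
    generalize key x0 x2 = k1 at *
    generalize key x1 x3 = k2 at *
    unfold pp at a1 a2 hk ⊢
    change k1 < 2147482951 at a1
    change k2 < 2147482951 at a2
    change (k1 + k2) % 2147482951 = 25 at hk
    change k1 = (2147482951 + 25 - k2) % 2147482951
    omega
  have := join_sound (h _ hs) he hle ho hlo hk'
  rw [ok3, hk', Nat.beq_refl] at this
  simp only [mkE, mkO, frc_eq] at this
  have e : Nat.ble 1 ((x1.P * x0.Z + x2.P * x1.Z + x3.P * x2.Z + x0.P * x3.Z) % pp) = true := this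
  rw [hz] at e; cases e

def Le2 (x : R5) : Prop := x.a ≤ 2 ∧ x.b ≤ 2 ∧ x.c ≤ 2 ∧ x.d ≤ 2 ∧ x.e ≤ 2

theorem mem_rowsBy {x : R5} (h : Le2 x) : x ∈ rowsBy x.sm := by
  have key : ∀ n ≤ 2, n ∈ [0, 1, 2] := by decide
  obtain ⟨h1, h2, h3, h4, h5⟩ := h
  simp only [rowsBy, mem_filt, all243, mem_flat, mem_mp, Nat.beq_refl, and_true]
  exact ⟨_, key _ h1, _, key _ h2, _, key _ h3, _, key _ h4, _, key _ h5, rfl⟩

theorem mem_lst (u v : ℕ) {x y z : R5} (hx : Le2 x) (hy : Le2 y) (hz : Le2 z) (s : ℕ) :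
    mkRc u v x y z ∈ lst u v ⟨x.a + y.a + z.a, x.b + y.b + z.b, x.c + y.c + z.c, x.d + y.d + z.d,
      x.e + y.e + z.e⟩ ⟨x.sm, y.sm, s⟩ := by
  simp only [lst, lst1, mem_flat, mem_mp, mem_filt]
  refine ⟨x, mem_rowsBy hx, y, ⟨mem_rowsBy hy, ?_⟩, ?_⟩
  · obtain ⟨h1, h2, h3, h4, h5⟩ := hz
    simp only [fits, fit, andd_iff, Nat.ble_eq, Nat.add_eq]
    omega
  · congr 1
    simp [rest]

theorem R5.eq_of_eqb {x y : R5} (h : x.eqb y = true) : x = y := by
  simp only [R5.eqb, andd_iff, Nat.beq_eq] at h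
  cases x; cases y; simp_all
theorem R3.eq_of_eqb {x y : R3} (h : x.eqb y = true) : x = y := by
  simp only [R3.eqb, andd_iff, Nat.beq_eq] at h
  cases x; cases y; simp_all
theorem T4.eq_of_eqb {x y : T4} (h : x.eqb y = true) : x = y := by
  simp only [T4.eqb, andd_iff] at h
  cases x; cases y
  simp only [T4.mk.injEq]
  exact ⟨R3.eq_of_eqb h.1, R3.eq_of_eqb h.2.1, R3.eq_of_eqb h.2.2.1, R3.eq_of_eqb h.2.2.2⟩

theorem chkT_sound (h : chkT = true) (a b c d : ℕ) (hs : a + b + c + d = 35)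
    (h0 : teq ⟨a, b, c, d, 0⟩ 0 = 325) (h1 : teq ⟨a, b, c, d, 0⟩ 1 = 300)
    (h2 : teq ⟨a, b, c, d, 0⟩ 2 = 300)
    (hm : ∀ s < 4, kt ⟨a, b, c, d, 0⟩ 0 ≤ kt ⟨a, b, c, d, 0⟩ s) : (⟨a, b, c, d, 0⟩ : R5) ∈ T3 := by
  have e : teq ⟨a, b, c, d, 0⟩ 0 = a * a + (b * b + (c * c + (d * d + 0))) := rfl
  simp only [chkT, al_iff, List.mem_range] at h
  have h3 := h a (by nlinarith) b (by nlinarith) c (by nlinarith)
  have e2 : Nat.sub 35 ((a.add b).add c) = d := by simp; omega
  rw [e2] at h3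
  simp only [tOK, imp_iff, Nat.beq_eq, al_iff, an_iff, Nat.ble_eq] at h3
  obtain ⟨u, hu, hu2⟩ := h3 h0 h1 h2 fun s hs => hm s (by simp [l4] at hs; omega)
  rw [← R5.eq_of_eqb hu2]; exact hu

theorem mem_rowsM {x : R5} (hs : x.sm = 35) (hq : dot x x = 265) : x ∈ rowsM := by
  obtain ⟨a, b, c, d, e⟩ := x
  have hs' : a + b + c + d + e = 35 := hs
  have hq' : a * a + b * b + c * c + d * d + e * e = 265 := hq
  have key : ∀ n : ℕ, 12 * n ≤ n * n + 36 := fun n => by
    zify; nlinarith [sq_nonneg ((n : ℤ) - 6)]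
  have key2 : ∀ n : ℕ, n * n + 11 ≤ 12 * n → n < 12 := fun n hn => by
    by_contra hh; nlinarith
  have ka := key a; have kb := key b; have kc := key c; have kd := key d; have ke := key e
  simp only [rowsM, mem_flat, mem_filt, mem_mp, List.mem_range, Nat.beq_eq]
  refine ⟨a, key2 a (by omega), b, key2 b (by omega), c, key2 c (by omega),
    ⟨d, key2 d (by omega), ?_⟩, hq⟩
  simp only [mkRow, R5.mk.injEq, true_and]
  simp; omega

theorem chkM_sound (h : chkM = true) (M : M5) (hs : ∀ i < 5, (M.row i).sm = 35)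
    (hq : ∀ i < 5, dot (M.row i) (M.row i) = 265)
    (ho : ∀ i < 5, ∀ k < 5, i ≠ k → dot (M.row i) (M.row k) = 240)
    (h0 : ∀ s < 4, ∀ b < 5, ∀ d < 5, rk M.r0 1 0 ≤ rk (M.row b) (2 ^ s) d)
    (h1 : ∀ s < 4, ∀ b < 5, ∀ d < 5, rk (M.row b) (2 ^ s) d = rk M.r0 1 0 →
      k12 M 1 0 0 ≤ k12 M (2 ^ s) b d) {t : R5} (ht : t ∈ T3) : cOK M t = true := by
  have m4 : ∀ s ∈ l4, s < 4 := by decide
  have m5 : ∀ s ∈ l5, s < 5 := by decide
  have r : ∀ i < 5, M.row i ∈ rowsM := fun i hi => mem_rowsM (hs i hi) (hq i hi)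
  have o : ∀ i k, (i < 5 ∧ k < 5 ∧ i ≠ k) → ∀ l, M.row k ∈ l → M.row k ∈ orth (M.row i) l :=
    fun i k hh l hl => (mem_filt _ _ _).2 ⟨hl, by rw [Nat.beq_eq]; exact ho i hh.1 k hh.2.1 hh.2.2⟩
  simp only [chkM, lv0, lv1, lv2, lv3, lv4, al_iff, imp_iff, leafM] at h
  refine h (M.row 0) (r 0 (by decide)) ?_
    (M.row 1) (o 0 1 (by decide) _ (r 1 (by decide)))
    (M.row 2) (o 1 2 (by decide) _ (o 0 2 (by decide) _ (r 2 (by decide))))
    (M.row 3) (o 2 3 (by decide) _ (o 1 3 (by decide) _ (o 0 3 (by decide) _ (r 3 (by decide)))))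
    (M.row 4) (o 3 4 (by decide) _ (o 2 4 (by decide) _ (o 1 4 (by decide) _ (o 0 4 (by decide) _
      (r 4 (by decide)))))) ?_ ?_ t ht
  · simp only [min0, al_iff, Nat.ble_eq]
    exact fun s hs d hd => h0 s (m4 s hs) 0 (by decide) d (m5 d hd)
  · simp only [minM0, al_iff, Nat.ble_eq]
    exact fun s hs b hb d hd => h0 s (m4 s hs) b (m5 b hb) d (m5 d hd)
  · simp only [minM, al_iff, Nat.ble_eq, imp_iff, Nat.beq_eq]
    exact fun s hs b hb d hd => h1 s (m4 s hs) b (m5 b hb) d (m5 d hd)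

theorem cOK_sound {M : M5} {t : R5} (h : cOK M t = true) (c : C4)
    (hc : ∀ j < 4, ∀ y < 5, (c.row j).get y ≤ 6 ∧ sj M t j y = 5 * (c.row j).get y + 35) :
    c ∈ Creps := by
  have m4 : ∀ s, s ∈ l4 ↔ s < 4 := by intro s; simp [l4]; omega
  have m5 : ∀ s, s ∈ l5 ↔ s < 5 := by intro s; simp [l5]; omega
  simp only [cOK, imp_iff, al_iff, an_iff, andd_iff, Nat.beq_eq, Nat.ble_eq, m4, m5] at h
  obtain ⟨c', hc', e⟩ := h fun j hj y hy => by
    obtain ⟨h1, h2⟩ := hc j hj y hy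
    rw [h2]
    refine ⟨?_, by omega, by omega⟩
    show (5 * (c.row j).get y + 35) % 5 = 0
    omega
  have e2 : ∀ j < 4, ∀ y < 5, (c'.row j).get y = (c.row j).get y := fun j hj y hy => by
    have h1 : (c'.row j).get y * 5 + 35 = sj M t j y := e j hj y hy
    rw [(hc j hj y hy).2] at h1; omega
  have e3 : ∀ j < 4, c'.row j = c.row j := fun j hj => by
    have a0 := e2 j hj 0 (by decide); have a1 := e2 j hj 1 (by decide)
    have a2 := e2 j hj 2 (by decide); have a3 := e2 j hj 3 (by decide)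
    have a4 := e2 j hj 4 (by decide)
    generalize c'.row j = x at *
    generalize c.row j = y at *
    cases x; cases y
    simp only [R5.mk.injEq]
    exact ⟨a0, a1, a2, a3, a4⟩
  have : c' = c := by
    have a0 := e3 0 (by decide); have a1 := e3 1 (by decide)
    have a2 := e3 2 (by decide); have a3 := e3 3 (by decide)
    cases c'; cases c
    simp only [C4.mk.injEq]
    exact ⟨a0, a1, a2, a3⟩
  rw [← this]; exact hc'

theorem nn_spec (x : R3) : nn x + x.sm * x.sm = 3 * dot3 x x := by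
  obtain ⟨a, b, c⟩ := x
  show (a * a + b * b + c * c) * 3 - (a + b + c) * (a + b + c) + (a + b + c) * (a + b + c) =
    3 * (a * a + b * b + c * c)
  have : (a + b + c) * (a + b + c) ≤ (a * a + b * b + c * c) * 3 := by
    zify; nlinarith [sq_nonneg ((a : ℤ) - b), sq_nonneg ((a : ℤ) - c), sq_nonneg ((b : ℤ) - c)]
  omega

theorem mem_tri {x : R3} (hs : x.sm ≤ 12) (hn : nn x ≤ 50) : (x, nn x) ∈ tri x.sm := by
  obtain ⟨a, b, c⟩ := x
  have hs' : a + b + c ≤ 12 := hs
  simp only [tri, mem_filt, mem_flat, mem_mp, List.mem_range, frc_eq, Nat.ble_eq]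
  refine ⟨⟨a, by omega, b, ⟨by omega, ?_⟩, ?_⟩, hn⟩
  · show a + b ≤ a + b + c
    omega
  · have : (R3.sm ⟨a, b, c⟩).sub (a.add b) = c := by
      show a + b + c - (a + b) = c
      omega
    rw [this]

theorem chkR_sound {w : ℕ} {R : List T4} (h : chkR w R = true) (r : T4)
    (ht : (⟨r.r0.sm, r.r1.sm, r.r2.sm, r.r3.sm, 0⟩ : R5) ∈ T3)
    (hq : dot3 r.r0 r.r0 + dot3 r.r1 r.r1 + dot3 r.r2 r.r2 + dot3 r.r3 r.r3 = 125)
    (h2 : dot3 r.r0 r.r2 + dot3 r.r1 r.r3 = 50) (h1 : req w r 1 1 = 100) (h1' : req w r 1 2 = 100)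
    (hm : ∀ x < 3, ∀ y < 3, kr w r 0 0 ≤ kr w r x y) : r ∈ R := by
  have m3 : ∀ s ∈ l3, s < 3 := by decide
  have hT : ∀ t ∈ T3, t.a ≤ 12 ∧ t.b ≤ 12 ∧ t.c ≤ 12 ∧ t.d ≤ 12 ∧
      t.a * t.a + t.b * t.b + t.c * t.c + t.d * t.d = 325 := by decide
  obtain ⟨b0, b1, b2, b3, b4⟩ := hT _ ht
  simp only at b0 b1 b2 b3 b4
  have n0 := nn_spec r.r0; have n1 := nn_spec r.r1; have n2 := nn_spec r.r2
  have n3 := nn_spec r.r3
  simp only [chkR, al_iff] at h
  have h3 := h _ ht
  simp only [chkR1, al_iff, frc_eq, imp_iff, Nat.ble_eq, Nat.beq_eq, leafR, an_iff] at h3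
  obtain ⟨u, hu, e⟩ := h3 _ (mem_tri b0 (by omega)) _ (mem_tri b2 (by omega))
    (by simp only [Nat.add_eq]; omega) _ (mem_tri b1 (by omega))
    (by simp only [Nat.add_eq]; omega) _ (mem_tri b3 (by omega))
    (by simp only [Nat.add_eq, Nat.sub_eq]; omega) h2
    (by intro b hb; simp at hb; rcases hb with rfl | rfl; exacts [h1, h1'])
    (fun x hx y hy => hm x (m3 x hx) y (m3 y hy))
  have e' : u = r := T4.eq_of_eqb e
  rw [← e']; exact hu

end PellDS.A2
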