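import Pool.Agent.P.MP_e9cc94_co.A2B
import Pool.Agent.P.MP_e9cc94_co.A2S

set_option autoImplicit false

namespace PellDS.A2
open Finset

theorem sum3 {R : Type} [AddCommMonoid R] (f : ZMod 3 → R) : ∑ z, f z = f 0 + f 1 + f 2 :=
  Fin.sum_univ_three f
theorem sum4 {R : Type} [AddCommMonoid R] (f : ZMod 4 → R) : ∑ z, f z = f 0 + f 1 + f 2 + f 3 :=
  Fin.sum_univ_four f
theorem sum5 {R : Type} [AddCommMonoid R] (f : ZMod 5 → R) :
    ∑ z, f z = f 0 + f 1 + f 2 + f 3 + f 4 := Fin.sum_univ_five f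

def row5 (f : ZMod 5 → ℕ) : R5 := ⟨f 0, f 1, f 2, f 3, f 4⟩
def row3 (f : ZMod 3 → ℕ) : R3 := ⟨f 0, f 1, f 2⟩
theorem row5_sm (f : ZMod 5 → ℕ) : (row5 f).sm = ∑ z, f z := (sum5 f).symm
theorem row3_sm (f : ZMod 3 → ℕ) : (row3 f).sm = ∑ z, f z := (sum3 f).symm

noncomputable def WW (b : ZMod 3) : ZMod pp := ((sel5 1 om1 om2 0 0 b.val : ℕ) : ZMod pp)
noncomputable def HH (z : ZMod 5) : ZMod pp :=
  ((sel5 1 1025815503 1004659767 1920893789 343596842 z.val : ℕ) : ZMod pp)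

theorem WW_add (b c : ZMod 3) : WW (b + c) = WW b * WW c := by
  have : ∀ b c : ZMod 3, sel5 1 om1 om2 0 0 (b + c).val % pp =
      (sel5 1 om1 om2 0 0 b.val * sel5 1 om1 om2 0 0 c.val) % pp := by decide +kernel
  rw [WW, WW, WW, ← Nat.cast_mul, ZMod.natCast_eq_natCast_iff']; exact this b c
theorem HH_add (b c : ZMod 5) : HH (b + c) = HH b * HH c := by
  have : ∀ b c : ZMod 5, sel5 1 1025815503 1004659767 1920893789 343596842 (b + c).val % pp =
      (sel5 1 1025815503 1004659767 1920893789 343596842 b.val *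
        sel5 1 1025815503 1004659767 1920893789 343596842 c.val) % pp := by decide +kernel
  rw [HH, HH, HH, ← Nat.cast_mul, ZMod.natCast_eq_natCast_iff']; exact this b c
theorem WW_zero : WW 0 = 1 := Nat.cast_one
theorem HH_zero : HH 0 = 1 := Nat.cast_one
theorem WW_sum : ∑ b, WW b = 0 := by
  rw [sum3]
  have : ((1 + om1 + om2 : ℕ) : ZMod pp) = ((0 : ℕ) : ZMod pp) := by
    rw [ZMod.natCast_eq_natCast_iff']; decide +kernel
  rw [Nat.cast_add, Nat.cast_add, Nat.cast_zero] at this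
  exact this

theorem ev_cast (x : R5) (p q r s : ℕ) : ((ev x p q r s : ℕ) : ZMod pp) =
    x.a * ((1 : ℕ) : ZMod pp) + x.b * p + x.c * q + x.d * r + x.e * s := by
  show (((x.a + x.b * p + x.c * q + x.d * r + x.e * s) % pp : ℕ) : ZMod pp) = _
  rw [ZMod.natCast_mod]; push_cast; ring
theorem cmb_cast (a b c u v : ℕ) : ((cmb a b c u v : ℕ) : ZMod pp) = a + b * u + c * v := by
  show (((a + b * u + c * v) % pp : ℕ) : ZMod pp) = _
  rw [ZMod.natCast_mod]; push_cast; ring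
theorem e1_cast (f : ZMod 5 → ℕ) : ((e1 (row5 f) : ℕ) : ZMod pp) = ∑ z, (f z : ZMod pp) * HH (1 * z) := by
  rw [sum5, e1, ev_cast]; rfl
theorem e4_cast (f : ZMod 5 → ℕ) : ((e4 (row5 f) : ℕ) : ZMod pp) = ∑ z, (f z : ZMod pp) * HH (-1 * z) := by
  rw [sum5, e4, ev_cast]; rfl
theorem e3_cast (f : ZMod 5 → ℕ) : ((e3 (row5 f) : ℕ) : ZMod pp) = ∑ z, (f z : ZMod pp) * HH (-2 * z) := by
  rw [sum5, e3, ev_cast]; rfl

variable {e : Bool}

noncomputable def PP (X : Gm e → ℕ) (a : ZMod 4) (m : ZMod 3) (n : ZMod 5) : ZMod pp :=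
  ∑ b, ∑ z, (X (mg e a b z) : ZMod pp) * (WW (m * b) * HH (n * z))

theorem PP_eq (X : Gm e → ℕ) (a : ZMod 4) (m : ZMod 3) (n : ZMod 5) : PP X a m n =
    (∑ z, (X (mg e a 0 z) : ZMod pp) * HH (n * z)) +
    (∑ z, (X (mg e a 1 z) : ZMod pp) * HH (n * z)) * WW (m * 1) +
    (∑ z, (X (mg e a 2 z) : ZMod pp) * HH (n * z)) * WW (m * 2) := by
  rw [PP, sum3, mul_zero, WW_zero, Finset.sum_mul, Finset.sum_mul]
  congr 1
  · congr 1 <;> exact Finset.sum_congr rfl fun z _ => by ring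
  · exact Finset.sum_congr rfl fun z _ => by ring

theorem Sol.PP_eqn {X : Gm e → ℕ} (h : Sol X) (a0 : ZMod 4) :
    ∑ a, PP X (a + a0) 1 1 * PP X a (-EE e a0) (-FF a0) = if a0 = 0 then 25 else 0 := by
  have := h.cos (R := ZMod pp) (κ := Unit) a0 (fun b z => WW b * HH z)
    (fun _ b z => WW (1 * b) * HH (1 * z)) (fun _ b z => WW (-EE e a0 * b) * HH (-FF a0 * z)) (by
      intro b z b' z'
      rw [Fintype.sum_unique, sub_eq_add_neg, sub_eq_add_neg, WW_add, HH_add, one_mul, one_mul,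
        neg_mul, neg_mul]
      ring)
  simp only [Fintype.sum_unique] at this
  rw [← Finset.sum_mul_sum, WW_sum, WW_zero, HH_zero] at this
  simpa [PP] using this

def uE (e : Bool) : ℕ := if e then om2 else om1
def vE (e : Bool) : ℕ := if e then om1 else om2
def xr (X : Gm e → ℕ) (a : ZMod 4) (b : ZMod 3) : R5 := row5 fun z => X (mg e a b z)
noncomputable def rc (X : Gm e → ℕ) (a : ZMod 4) : Rc :=
  mkRc (uE e) (vE e) (xr X a 0) (xr X a 1) (xr X a 2)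

theorem rc_P (X : Gm e → ℕ) (a : ZMod 4) : ((rc X a).P : ZMod pp) = PP X a 1 1 := by
  simp only [rc, mkRc, frc_eq, xr]
  rw [cmb_cast, e1_cast, e1_cast, e1_cast, PP_eq]; rfl
theorem rc_Q (X : Gm e → ℕ) (a : ZMod 4) : ((rc X a).Q : ZMod pp) = PP X a (-1) 1 * lam := by
  simp only [rc, mkRc, frc_eq, xr]
  show (((cmb _ _ _ om2 om1 * lam) % pp : ℕ) : ZMod pp) = _
  rw [ZMod.natCast_mod, Nat.cast_mul, cmb_cast, e1_cast, e1_cast, e1_cast, PP_eq]; rfl
theorem rc_n (X : Gm e → ℕ) (a : ZMod 4) :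
    ((rc X a).n : ZMod pp) = PP X a 1 1 * PP X a (-1) (-1) := by
  simp only [rc, mkRc, frc_eq, xr]
  show (((cmb _ _ _ om1 om2 * cmb _ _ _ om2 om1) % pp : ℕ) : ZMod pp) = _
  rw [ZMod.natCast_mod, Nat.cast_mul, cmb_cast, cmb_cast, e1_cast, e1_cast, e1_cast, e4_cast,
    e4_cast, e4_cast, PP_eq, PP_eq]; rfl
theorem rc_Z (X : Gm e → ℕ) (a : ZMod 4) :
    ((rc X a).Z : ZMod pp) = PP X a (-EE e 1) (-2) := by
  simp only [rc, mkRc, frc_eq, xr]
  rw [cmb_cast, e3_cast, e3_cast, e3_cast, PP_eq]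
  cases e <;> rfl
theorem rc_w (X : Gm e → ℕ) (a : ZMod 4) : (rc X a).w = ∑ b, ∑ z, X (mg e a b z) / 2 := by
  simp only [rc, mkRc, frc_eq, xr, sum3, sum5]; rfl

theorem key_cast (x y : Rc) : ((key x y : ℕ) : ZMod pp) = x.n + y.n + (y.P * x.Q + x.P * y.Q) := by
  show (((x.n + y.n + (y.P * x.Q + x.P * y.Q)) % pp : ℕ) : ZMod pp) = _
  rw [ZMod.natCast_mod]; push_cast; ring

theorem rc_mem {X : Gm e → ℕ} (h : Sol X) (a : ZMod 4) :
    rc X a ∈ lst (uE e) (vE e) (row5 (cc X a)) (row3 (rr X a)) := by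
  have l2 : ∀ b, Le2 (xr X a b) := fun b => ⟨h.le _, h.le _, h.le _, h.le _, h.le _⟩
  have := mem_lst (uE e) (vE e) (l2 0) (l2 1) (l2 2) (rr X a 2)
  simp only [row5, row3, cc, rr, sum3, sum5]
  simp only [rr, sum5] at this
  exact this

/-- the last level -/
theorem Sol.last {X : Gm e → ℕ} (h : Sol X)
    (hc : chk (uE e) (vE e) ⟨row5 (cc X 0), row5 (cc X 1), row5 (cc X 2), row5 (cc X 3)⟩
      ⟨row3 (rr X 0), row3 (rr X 1), row3 (rr X 2), row3 (rr X 3)⟩ = true) : False := by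
  have e0 : (row5 (cc X 0)).sm = (row3 (rr X 0)).sm := by
    rw [row5_sm, row3_sm, ← tt_eq]; rfl
  simp only [chk, e0, Nat.beq_refl] at hc
  have h0 := h.PP_eqn 0
  have h1 := h.PP_eqn 1
  have h2 := h.PP_eqn 2
  have a2 : ∀ e, EE e 2 = 1 := by decide
  rw [sum4] at h0 h1 h2
  rw [if_pos rfl, EE_zero, FF_zero] at h0
  rw [if_neg (by decide), show FF 1 = 2 from rfl] at h1
  rw [if_neg (by decide), a2, show -FF 2 = 1 from rfl] at h2
  simp only [add_zero] at h0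
  rw [show (0 : ZMod 4) + 1 = 1 from rfl, show (1 : ZMod 4) + 1 = 2 from rfl,
    show (2 : ZMod 4) + 1 = 3 from rfl, show (3 : ZMod 4) + 1 = 0 from rfl] at h1
  rw [show (0 : ZMod 4) + 2 = 2 from rfl, show (1 : ZMod 4) + 2 = 3 from rfl,
    show (2 : ZMod 4) + 2 = 0 from rfl, show (3 : ZMod 4) + 2 = 1 from rfl] at h2
  refine chk4_sound hc (rc_mem h 0) (rc_mem h 1) (rc_mem h 2) (rc_mem h 3) ?_ ?_ ?_
  · rw [← h.twos, sum_Gm, sum4]; simp only [rc_w]
  · refine (ZMod.natCast_eq_natCast_iff' _ 25 pp).1 ?_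
    rw [Nat.cast_add, key_cast, key_cast]
    simp only [rc_P, rc_Q, rc_n]
    push_cast
    linear_combination h0 + (lam : ZMod pp) * h2
  · refine (ZMod.natCast_eq_natCast_iff' _ 0 pp).1 ?_
    push_cast
    simp only [rc_P, rc_Z]
    exact h1

end PellDS.A2
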