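import Pool.Agent.P.MP_e9cc94_co.A2L

set_option autoImplicit false

namespace PellDS.A2

theorem chkT_true : chkT = true := by decide +kernel
theorem chkM_true : chkM = true := by decide +kernel
theorem chkR_p : chkR 1 Rp = true := by decide +kernel
theorem chkR_m : chkR 2 Rm = true := by decide +kernel

def cz : C4 := ⟨⟨0,0,0,0,0⟩,⟨0,0,0,0,0⟩,⟨0,0,0,0,0⟩,⟨0,0,0,0,0⟩⟩

theorem xp0 : al (chk om2 om1 (Creps.getD 0 cz)) Rp = true := by decide +kernel
theorem xp1 : al (chk om2 om1 (Creps.getD 1 cz)) Rp = true := by decide +kernel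
theorem xp2 : al (chk om2 om1 (Creps.getD 2 cz)) Rp = true := by decide +kernel
theorem xp3 : al (chk om2 om1 (Creps.getD 3 cz)) Rp = true := by decide +kernel
theorem xp4 : al (chk om2 om1 (Creps.getD 4 cz)) Rp = true := by decide +kernel
theorem xp5 : al (chk om2 om1 (Creps.getD 5 cz)) Rp = true := by decide +kernel
theorem xp6 : al (chk om2 om1 (Creps.getD 6 cz)) Rp = true := by decide +kernel
theorem xp7 : al (chk om2 om1 (Creps.getD 7 cz)) Rp = true := by decide +kernel
theorem xp8 : al (chk om2 om1 (Creps.getD 8 cz)) Rp = true := by decide +kernel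
theorem xp9 : al (chk om2 om1 (Creps.getD 9 cz)) Rp = true := by decide +kernel
theorem xp10 : al (chk om2 om1 (Creps.getD 10 cz)) Rp = true := by decide +kernel
theorem xp11 : al (chk om2 om1 (Creps.getD 11 cz)) Rp = true := by decide +kernel
theorem xp12 : al (chk om2 om1 (Creps.getD 12 cz)) Rp = true := by decide +kernel
theorem xp13 : al (chk om2 om1 (Creps.getD 13 cz)) Rp = true := by decide +kernel

theorem xp : ∀ i < 14, al (chk om2 om1 (Creps.getD i cz)) Rp = true := by
  intro i hi
  interval_cases i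
  exacts [xp0, xp1, xp2, xp3, xp4, xp5, xp6, xp7, xp8, xp9, xp10, xp11, xp12, xp13]

end PellDS.A2
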