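import Pool.Agent.P.MP_e9cc94_co.A2R1

set_option autoImplicit false

namespace PellDS.A2

theorem xm0 : al (chk om1 om2 (Creps.getD 0 cz)) Rm = true := by decide +kernel
theorem xm1 : al (chk om1 om2 (Creps.getD 1 cz)) Rm = true := by decide +kernel
theorem xm2 : al (chk om1 om2 (Creps.getD 2 cz)) Rm = true := by decide +kernel
theorem xm3 : al (chk om1 om2 (Creps.getD 3 cz)) Rm = true := by decide +kernel
theorem xm4 : al (chk om1 om2 (Creps.getD 4 cz)) Rm = true := by decide +kernel
theorem xm5 : al (chk om1 om2 (Creps.getD 5 cz)) Rm = true := by decide +kernel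
theorem xm6 : al (chk om1 om2 (Creps.getD 6 cz)) Rm = true := by decide +kernel
theorem xm7 : al (chk om1 om2 (Creps.getD 7 cz)) Rm = true := by decide +kernel
theorem xm8 : al (chk om1 om2 (Creps.getD 8 cz)) Rm = true := by decide +kernel
theorem xm9 : al (chk om1 om2 (Creps.getD 9 cz)) Rm = true := by decide +kernel
theorem xm10 : al (chk om1 om2 (Creps.getD 10 cz)) Rm = true := by decide +kernel
theorem xm11 : al (chk om1 om2 (Creps.getD 11 cz)) Rm = true := by decide +kernel
theorem xm12 : al (chk om1 om2 (Creps.getD 12 cz)) Rm = true := by decide +kernel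
theorem xm13 : al (chk om1 om2 (Creps.getD 13 cz)) Rm = true := by decide +kernel

theorem xm : ∀ i < 14, al (chk om1 om2 (Creps.getD i cz)) Rm = true := by
  intro i hi
  interval_cases i
  exacts [xm0, xm1, xm2, xm3, xm4, xm5, xm6, xm7, xm8, xm9, xm10, xm11, xm12, xm13]

end PellDS.A2
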