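import Mathlib

set_option autoImplicit false

namespace PellDS
open Finset Matrix

/-- a (120,35,10) difference set (the group order is a separate hypothesis) -/
def DS {G : Type} [Group G] [DecidableEq G] (D : Finset G) : Prop :=
  D.card = 35 ∧
    ∀ g : G, g ≠ 1 → ((D ×ˢ D).filter (fun p : G × G => p.1 * p.2⁻¹ = g)).card = 10

variable {G : Type} [Group G] [Fintype G] [DecidableEq G] {D : Finset G}

omit [Fintype G] in
theorem card_diag (D : Finset G) :
    ((D ×ˢ D).filter (fun p : G × G => p.1 * p.2⁻¹ = 1)).card = D.card := by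
  symm
  refine Finset.card_bij (fun d _ => (d, d)) ?_ ?_ ?_
  · intro d hd; simp [hd]
  · intro a _ b _ h; exact (Prod.mk.inj h).1
  · rintro ⟨a, b⟩ hp
    simp only [mem_filter, mem_product, mul_inv_eq_one] at hp
    exact ⟨a, hp.1.1, by rw [hp.2]⟩

theorem sum_fiber (D : Finset G) {V : Type*} [AddCommMonoid V] (φ : G → V) :
    ∑ d ∈ D, ∑ e ∈ D, φ (d * e⁻¹) =
      ∑ g, ((D ×ˢ D).filter (fun p : G × G => p.1 * p.2⁻¹ = g)).card • φ g := by
  rw [← Finset.sum_product' (f := fun d e => φ (d * e⁻¹))]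
  rw [← Finset.sum_fiberwise (s := D ×ˢ D) (g := fun p : G × G => p.1 * p.2⁻¹)]
  refine Finset.sum_congr rfl fun g _ => ?_
  rw [Finset.sum_congr rfl (g := fun _ => φ g), Finset.sum_const]
  intro p hp
  rw [(mem_filter.1 hp).2]

/-- the difference set equation against a test function -/
theorem DS.sum (h : DS D) {V : Type*} [AddCommMonoid V] (φ : G → V) :
    ∑ d ∈ D, ∑ e ∈ D, φ (d * e⁻¹) = 25 • φ 1 + 10 • ∑ g, φ g := by
  rw [sum_fiber, Finset.smul_sum]
  have : ∀ g : G, ((D ×ˢ D).filter (fun p : G × G => p.1 * p.2⁻¹ = g)).card • φ g =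
      (if g = 1 then 25 • φ 1 else 0) + 10 • φ g := by
    intro g
    by_cases hg : g = 1
    · subst hg
      rw [card_diag, h.1, if_pos rfl, ← add_smul]
    · rw [h.2 g hg, if_neg hg, zero_add]
  simp only [this, Finset.sum_add_distrib]
  simp

omit [Fintype G] [DecidableEq G] in
theorem tr_inj (g k : G) : Function.Injective fun d : G => g * d * k := by
  intro a b h; simpa using h

omit [Fintype G] in
theorem sum_tr (D : Finset G) (g k : G) {V : Type*} [AddCommMonoid V] (f : G → V) :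
    ∑ d ∈ D.image (fun d => g * d * k), f d = ∑ d ∈ D, f (g * d * k) :=
  Finset.sum_image fun _ _ _ _ h => tr_inj g k h

omit [Fintype G] in
theorem card_tr (D : Finset G) (g k : G) (Q : G → Prop) [DecidablePred Q] :
    ((D.image (fun d => g * d * k)).filter Q).card = (D.filter fun d => Q (g * d * k)).card := by
  rw [Finset.filter_image, Finset.card_image_of_injective _ (tr_inj g k)]

omit [Fintype G] in
theorem DS.translate (h : DS D) (g k : G) : DS (D.image fun d => g * d * k) := by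
  refine ⟨by rw [Finset.card_image_of_injective _ (tr_inj g k), h.1], fun x hx => ?_⟩
  have hx' : g⁻¹ * x * g ≠ 1 := by
    intro e; apply hx
    have : x = g * (g⁻¹ * x * g) * g⁻¹ := by group
    rw [this, e]; group
  rw [← h.2 _ hx']
  symm
  refine Finset.card_bij (fun p _ => (g * p.1 * k, g * p.2 * k)) ?_ ?_ ?_
  · rintro ⟨a, b⟩ hp
    simp only [mem_filter, mem_product, mem_image] at hp ⊢
    refine ⟨⟨⟨a, hp.1.1, rfl⟩, ⟨b, hp.1.2, rfl⟩⟩, ?_⟩
    have : g * a * k * (g * b * k)⁻¹ = g * (a * b⁻¹) * g⁻¹ := by group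
    rw [this, hp.2]; group
  · rintro ⟨a, b⟩ _ ⟨c, d⟩ _ e
    obtain ⟨e1, e2⟩ := Prod.mk.inj e
    exact Prod.ext (tr_inj g k e1) (tr_inj g k e2)
  · rintro ⟨a, b⟩ hp
    simp only [mem_filter, mem_product, mem_image] at hp
    obtain ⟨⟨⟨a', ha, rfl⟩, ⟨b', hb, rfl⟩⟩, e⟩ := hp
    refine ⟨(a', b'), ?_, rfl⟩
    simp only [mem_filter, mem_product]
    refine ⟨⟨ha, hb⟩, ?_⟩
    rw [← e]; group

/-- signed permutation matrix of `g` -/
def mono {ι : Type} [DecidableEq ι] (π : G → ι → ι) (σ : G → ι → ℤ) (g : G) : Matrix ι ι ℤ :=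
  Matrix.of fun i k => if π g k = i then σ g k else 0

/-- an action with a sign cocycle -/
structure IsMono {ι : Type} (π : G → ι → ι) (σ : G → ι → ℤ) : Prop where
  one : ∀ i, π 1 i = i
  mul : ∀ g h i, π (g * h) i = π g (π h i)
  coc : ∀ g h i, σ (g * h) i = σ g (π h i) * σ h i
  sq : ∀ g i, σ g i * σ g i = 1

section mono
variable {ι : Type} [Fintype ι] [DecidableEq ι] {π : G → ι → ι} {σ : G → ι → ℤ}

omit [Fintype G] [DecidableEq G] [Fintype ι] [DecidableEq ι] in
theorem IsMono.inv_l (hm : IsMono π σ) (g : G) (i : ι) : π g⁻¹ (π g i) = i := by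
  rw [← hm.mul, inv_mul_cancel, hm.one]

omit [Fintype G] [DecidableEq G] [Fintype ι] [DecidableEq ι] in
theorem IsMono.inv_r (hm : IsMono π σ) (g : G) (i : ι) : π g (π g⁻¹ i) = i := by
  rw [← hm.mul, mul_inv_cancel, hm.one]

omit [Fintype G] [DecidableEq G] [Fintype ι] [DecidableEq ι] in
theorem IsMono.inj (hm : IsMono π σ) (g : G) : Function.Injective (π g) :=
  fun a b h => by rw [← hm.inv_l g a, h, hm.inv_l]

omit [Fintype G] [DecidableEq G] [Fintype ι] [DecidableEq ι] in
theorem IsMono.sig_one (hm : IsMono π σ) (i : ι) : σ 1 i = 1 := by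
  have h1 := hm.coc 1 1 i
  rw [mul_one, hm.one, hm.sq] at h1
  exact h1

omit [Fintype G] [DecidableEq G] [Fintype ι] [DecidableEq ι] in
theorem IsMono.sig_inv (hm : IsMono π σ) (g : G) (i : ι) : σ g⁻¹ (π g i) = σ g i := by
  have h1 := hm.coc g⁻¹ g i
  rw [inv_mul_cancel, hm.sig_one] at h1
  have h2 := hm.sq g i
  calc σ g⁻¹ (π g i) = σ g⁻¹ (π g i) * (σ g i * σ g i) := by rw [h2, mul_one]
    _ = σ g i := by rw [← mul_assoc, ← h1, one_mul]

omit [Fintype G] [DecidableEq G] in
theorem IsMono.mono_mul (hm : IsMono π σ) (g h : G) :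
    mono π σ (g * h) = mono π σ g * mono π σ h := by
  ext i k
  simp only [mono, Matrix.mul_apply, Matrix.of_apply]
  rw [Finset.sum_eq_single (π h k)]
  · rw [if_pos rfl, hm.mul, hm.coc]; split_ifs <;> simp
  · intro b _ hb; rw [if_neg (Ne.symm hb), mul_zero]
  · simp

omit [Fintype G] [DecidableEq G] [Fintype ι] in
theorem IsMono.mono_inv (hm : IsMono π σ) (g : G) : mono π σ g⁻¹ = (mono π σ g)ᵀ := by
  ext i k
  simp only [mono, Matrix.transpose_apply, Matrix.of_apply]
  by_cases e : π g i = k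
  · subst e; rw [if_pos (hm.inv_l g i), if_pos rfl, hm.sig_inv]
  · rw [if_neg e, if_neg]
    intro e'; apply e; rw [← e', hm.inv_r]

omit [Fintype G] [DecidableEq G] [Fintype ι] in
theorem IsMono.mono_one (hm : IsMono π σ) : mono π σ 1 = 1 := by
  ext i k
  simp only [mono, Matrix.of_apply, hm.one, hm.sig_one, Matrix.one_apply, eq_comm]

theorem IsMono.gram (hm : IsMono π σ) (h : DS D) :
    (∑ d ∈ D, mono π σ d) * (∑ d ∈ D, mono π σ d)ᵀ = 25 • 1 + 10 • ∑ g, mono π σ g := by
  rw [← hm.mono_one, ← h.sum (mono π σ), Matrix.transpose_sum, Finset.sum_mul]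
  refine Finset.sum_congr rfl fun d _ => ?_
  rw [Finset.mul_sum]
  refine Finset.sum_congr rfl fun e _ => ?_
  rw [hm.mono_mul, hm.mono_inv]

/-- entrywise form of `gram` -/
theorem IsMono.gram_apply (hm : IsMono π σ) (h : DS D) (i i' : ι) :
    ∑ k, (∑ d ∈ D, mono π σ d) i k * (∑ d ∈ D, mono π σ d) i' k =
      (if i = i' then 25 else 0) + 10 * (∑ g, mono π σ g) i i' := by
  have := congrFun (congrFun (hm.gram h) i) i'
  rw [Matrix.mul_apply] at this
  simp only [Matrix.transpose_apply] at this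
  rw [this, Matrix.add_apply, Matrix.smul_apply, Matrix.smul_apply, Matrix.one_apply]
  split_ifs <;> simp

omit [DecidableEq G] [Fintype ι] in
theorem IsMono.tot_inv (hm : IsMono π σ) (h : G) (i k : ι) :
    (∑ g, mono π σ g) (π h i) k = σ h i * (∑ g, mono π σ g) i k := by
  simp only [Matrix.sum_apply, Finset.mul_sum]
  rw [← Equiv.sum_comp (Equiv.mulLeft h)]
  refine Finset.sum_congr rfl fun g _ => ?_
  simp only [mono, Matrix.of_apply, Equiv.coe_mulLeft, hm.mul, hm.coc]
  by_cases e : π g k = i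
  · rw [if_pos e, if_pos (by rw [e]), e]
  · rw [if_neg e, if_neg (fun e' => e (hm.inj h e')), mul_zero]

omit [DecidableEq G] [Fintype ι] in
theorem IsMono.tot_zero (hm : IsMono π σ) (hneg : ∀ i, ∃ h, π h i = i ∧ σ h i = -1) :
    ∑ g, mono π σ g = 0 := by
  ext i k
  obtain ⟨h, h1, h2⟩ := hneg i
  have := hm.tot_inv h i k
  rw [h1, h2] at this
  simp only [Matrix.zero_apply]
  omega

omit [DecidableEq G] in
theorem IsMono.tot_triv (hm : IsMono π fun _ _ => 1) (htr : ∀ i k, ∃ g, π g i = k) (c : ℤ)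
    (hc : (Fintype.card ι : ℤ) * c = Fintype.card G) :
    ∑ g, mono π (fun _ _ => 1) g = Matrix.of fun _ _ => c := by
  ext i k
  have h1 : ∀ i', (∑ g, mono π (fun _ _ => 1) g) i' k = (∑ g, mono π (fun _ _ => 1) g) i k := by
    intro i'
    obtain ⟨g, rfl⟩ := htr i i'
    rw [hm.tot_inv, one_mul]
  have h2 : ∑ i', (∑ g, mono π (fun _ _ => 1) g) i' k = Fintype.card G := by
    simp only [Matrix.sum_apply]
    rw [Finset.sum_comm]
    simp [mono]
  simp only [h1, Finset.sum_const, Finset.card_univ, nsmul_eq_mul] at h2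
  have h3 : (Fintype.card ι : ℤ) ≠ 0 := by
    have : Nonempty ι := ⟨i⟩
    exact_mod_cast Fintype.card_ne_zero
  rw [Matrix.of_apply]
  exact mul_left_cancel₀ h3 (h2.trans hc.symm)

omit [Fintype G] [DecidableEq G] [Group G] in
/-- column sums for a point-independent sign -/
theorem mono_col (π : G → ι → ι) (s : G → ℤ) (D : Finset G) (k : ι) :
    ∑ i, (∑ d ∈ D, mono π (fun g _ => s g) d) i k = ∑ d ∈ D, s d := by
  simp only [Matrix.sum_apply]
  rw [Finset.sum_comm]
  simp [mono]

omit [Fintype G] [DecidableEq G] in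
/-- row sums for a point-independent sign -/
theorem IsMono.row {s : G → ℤ} (hm : IsMono π fun g _ => s g) (D : Finset G) (i : ι) :
    ∑ k, (∑ d ∈ D, mono π (fun g _ => s g) d) i k = ∑ d ∈ D, s d := by
  simp only [Matrix.sum_apply]
  rw [Finset.sum_comm]
  refine Finset.sum_congr rfl fun d _ => ?_
  simp only [mono, Matrix.of_apply]
  rw [Finset.sum_eq_single (π d⁻¹ i)]
  · rw [if_pos (hm.inv_r d i)]
  · intro b _ hb; rw [if_neg]; intro e; apply hb; rw [← e, hm.inv_l]
  · simp

omit [Fintype G] [DecidableEq G] [Group G] [Fintype ι] in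
/-- changing the signs does not change the matrix mod 2 -/
theorem mono_parity (π : G → ι → ι) (σ : G → ι → ℤ) (hσ : ∀ g i, σ g i * σ g i = 1)
    (D : Finset G) (i k : ι) :
    (∑ d ∈ D, mono π σ d) i k ≡ (∑ d ∈ D, mono π (fun _ _ => 1) d) i k [ZMOD 2] := by
  simp only [Matrix.sum_apply]
  refine Int.ModEq.sum fun d _ => ?_
  simp only [mono, Matrix.of_apply]
  split_ifs
  · rcases Int.eq_one_or_neg_one_of_mul_eq_one (hσ d k) with e | e <;> rw [e] <;> decide
  · rfl

omit [Fintype G] in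
/-- left translation -/
theorem IsMono.sum_left (hm : IsMono π σ) (D : Finset G) (g : G) :
    ∑ d ∈ D.image (fun d => g * d * 1), mono π σ d = mono π σ g * ∑ d ∈ D, mono π σ d := by
  rw [sum_tr, Finset.mul_sum]
  refine Finset.sum_congr rfl fun d _ => ?_
  rw [mul_one, hm.mono_mul]

omit [Fintype G] in
/-- right translation -/
theorem IsMono.sum_right (hm : IsMono π σ) (D : Finset G) (g : G) (i k : ι) :
    (∑ d ∈ D.image (fun d => 1 * d * g), mono π σ d) i k =
      (∑ d ∈ D, mono π σ d) i (π g k) * σ g k := by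
  rw [sum_tr]
  simp only [Matrix.sum_apply, Finset.sum_mul, one_mul]
  refine Finset.sum_congr rfl fun d _ => ?_
  simp only [mono, Matrix.of_apply, hm.mul, hm.coc]
  split_ifs <;> simp

end mono

/-- coordinates on a group of order 120 with cyclic Sylow 2-subgroup -/
structure Coord (ε : ZMod 3) (μ : ZMod 5) (j : G → ZMod 8) (u : G → ZMod 3) (y : G → ZMod 5) :
    Prop where
  he : ε ≠ 0
  hm : μ ≠ 0
  jm : ∀ g h, j (g * h) = j g + j h
  um : ∀ g h, u (g * h) = u g + ε ^ (j g).val * u h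
  ym : ∀ g h, y (g * h) = y g + μ ^ (j g).val * y h
  bij : Function.Bijective fun g => (j g, u g, y g)

section coord
variable {ε : ZMod 3} {μ : ZMod 5} {j : G → ZMod 8} {u : G → ZMod 3} {y : G → ZMod 5}
omit [Fintype G] [DecidableEq G]

theorem Coord.j1 (c : Coord ε μ j u y) : j 1 = 0 := by
  have := c.jm 1 1; rw [mul_one] at this; simpa using this

theorem Coord.u1 (c : Coord ε μ j u y) : u 1 = 0 := by
  have := c.um 1 1; rw [mul_one, c.j1] at this; simpa using this

theorem Coord.y1 (c : Coord ε μ j u y) : y 1 = 0 := by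
  have := c.ym 1 1; rw [mul_one, c.j1] at this; simpa using this

theorem Coord.jd (c : Coord ε μ j u y) (d e : G) : j (d * e⁻¹) = j d - j e := by
  have := c.jm (d * e⁻¹) e; rw [inv_mul_cancel_right] at this; rw [this]; ring

theorem Coord.ud (c : Coord ε μ j u y) (d e : G) :
    u (d * e⁻¹) = u d - ε ^ (j d - j e).val * u e := by
  have := c.um (d * e⁻¹) e; rw [inv_mul_cancel_right, c.jd] at this; rw [this]; ring

theorem Coord.yd (c : Coord ε μ j u y) (d e : G) :
    y (d * e⁻¹) = y d - μ ^ (j d - j e).val * y e := by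
  have := c.ym (d * e⁻¹) e; rw [inv_mul_cancel_right, c.jd] at this; rw [this]; ring

theorem Coord.flip {j : G → ZMod 8} (c : Coord ε 3 j u y) : Coord ε 2 (fun g => -j g) u y where
  he := c.he
  hm := by decide
  jm g h := by rw [c.jm]; ring
  um g h := by
    have : ∀ ε : ZMod 3, ε ≠ 0 → ∀ a : ZMod 8, ε ^ (-a).val = ε ^ a.val := by decide
    rw [c.um, this ε c.he]
  ym g h := by
    have : ∀ a : ZMod 8, (2 : ZMod 5) ^ (-a).val = 3 ^ a.val := by decide
    rw [c.ym, this]
  bij := by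
    have e : (fun g => (-j g, u g, y g)) =
        (Equiv.prodCongr (Equiv.neg (ZMod 8)) (Equiv.refl _)) ∘ fun g => (j g, u g, y g) := rfl
    rw [e]; exact (Equiv.bijective _).comp c.bij

end coord

omit [DecidableEq G] in
/-- a sum over the group in coordinates -/
theorem Coord.sum {ε : ZMod 3} {μ : ZMod 5} {j : G → ZMod 8} {u : G → ZMod 3} {y : G → ZMod 5}
    (c : Coord ε μ j u y) {V : Type*} [AddCommMonoid V] (f : ZMod 8 → ZMod 3 → ZMod 5 → V) :
    ∑ g, f (j g) (u g) (y g) = ∑ a, ∑ b, ∑ z, f a b z := by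
  have := c.bij.sum_comp (fun p : ZMod 8 × ZMod 3 × ZMod 5 => f p.1 p.2.1 p.2.2)
  rw [this, Fintype.sum_prod_type]
  refine Finset.sum_congr rfl fun a _ => ?_
  rw [Fintype.sum_prod_type]

end PellDS
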