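import Pool.Agent.P.MP_e9cc94_co.CDefs

set_option autoImplicit false

namespace PellDS
open Finset Matrix

/-- a fixed point free element of order 3 of PSL(2,5) -/
def G0 : Fin 6 → Fin 6 := ![1,2,0,5,3,4]

/-- vectors, shifted by five -/
structure c2W where
  a : ℕ
  b : ℕ
  c : ℕ
  d : ℕ
  e : ℕ
  f : ℕ

def c2tv (x : Fin 6 → ℕ) : c2W := ⟨x 0, x 1, x 2, x 3, x 4, x 5⟩

def c2dot : c2W → c2W → ℕ
  | ⟨a, b, c, d, e, f⟩, ⟨a', b', c', d', e', f'⟩ =>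
    Nat.add (Nat.add (Nat.add (Nat.mul a a') (Nat.mul b b')) (Nat.add (Nat.mul c c') (Nat.mul d d')))
      (Nat.add (Nat.mul e e') (Nat.mul f f'))

theorem c2dot_eq (u w : c2W) : c2dot u w =
    u.a * w.a + u.b * w.b + (u.c * w.c + u.d * w.d) + (u.e * w.e + u.f * w.f) := rfl

def c2eq : c2W → c2W → Bool
  | ⟨a, b, c, d, e, f⟩, ⟨a', b', c', d', e', f'⟩ =>
    Nat.beq a a' && (Nat.beq b b' && (Nat.beq c c' && (Nat.beq d d' && (Nat.beq e e' &&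
      Nat.beq f f'))))

theorem c2eq_spec {u w : c2W} (h : c2eq u w = true) : u = w := by
  obtain ⟨a, b, c, d, e, f⟩ := u
  obtain ⟨a', b', c', d', e', f'⟩ := w
  simpa [c2eq] using h

/-- a vector, its image and three linear forms -/
structure c2U where
  x : c2W
  y : c2W
  s : ℕ
  t : ℕ
  r : ℕ

def c2k (a b c d e f a' b' c' d' e' f' s t r : ℕ) : c2U :=
  ⟨⟨a, b, c, d, e, f⟩, ⟨a', b', c', d', e', f'⟩, s, t, r⟩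

def c2Good (u : c2U) : Prop :=
  u.y.a + u.x.c + u.x.d = u.x.b + u.x.e + u.x.f + 20 ∧
  u.y.b + u.x.d + u.x.e = u.x.a + u.x.c + u.x.f + 20 ∧
  u.y.c + u.x.a + u.x.e = u.x.b + u.x.d + u.x.f + 20 ∧
  u.y.d + u.x.a + u.x.b = u.x.c + u.x.e + u.x.f + 20 ∧
  u.y.e + u.x.b + u.x.c = u.x.a + u.x.d + u.x.f + 20 ∧
  u.y.f = u.x.a + u.x.b + u.x.c + u.x.d + u.x.e + 20 ∧
  u.s = 5 * (u.x.a + u.x.b + u.x.c + u.x.d + u.x.e + u.x.f) ∧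
  u.t = 5 * (u.x.a + u.x.b + u.x.c + u.x.d + u.x.e + 5 * u.x.f) ∧
  u.r = 25 * (u.x.a + u.x.b + u.x.c + u.x.d + u.x.e) + 45 * u.x.f

def c2rg : List (ℕ × ℕ) :=
  [(0,25), (1,16), (2,9), (3,4), (4,1), (5,0), (6,1), (7,4), (8,9), (9,16), (10,25)]

def c2rt (s : ℕ) : List ℕ :=
  bif Nat.beq s 0 then [5] else bif Nat.beq s 1 then [4, 6] else bif Nat.beq s 4 then [3, 7] else
  bif Nat.beq s 9 then [2, 8] else bif Nat.beq s 16 then [1, 9] else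
  bif Nat.beq s 25 then [0, 10] else []

def c2sq (x : ℕ) : ℕ := ((x : ℤ) - 5).natAbs ^ 2

theorem c2sq_cast (x : ℕ) : (c2sq x : ℤ) = ((x : ℤ) - 5) * ((x : ℤ) - 5) := by
  rw [c2sq]
  push_cast
  rw [sq_abs, sq]

theorem c2sq_mem (x : ℕ) (h : c2sq x ≤ 25) : (x, c2sq x) ∈ c2rg ∧ x ∈ c2rt (c2sq x) := by
  have h1 : x ≤ 10 := by
    have e := c2sq_cast x
    by_contra h2
    have h3 : (11 : ℤ) ≤ x := by omega
    have h4 : (c2sq x : ℤ) ≤ 25 := by exact_mod_cast h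
    nlinarith
  interval_cases x <;> decide

/-- run over all lists of length `n + 1` with sum of squares `s` -/
def c2chk (P : List ℕ → Bool) : ℕ → ℕ → List ℕ → Bool
  | 0, s, acc => (c2rt s).all fun x => P (x :: acc)
  | n + 1, s, acc => c2rg.all fun
    | (x, q) => bif Nat.ble q s then c2chk P n (Nat.sub s q) (x :: acc) else true

theorem c2chk_spec (P : List ℕ → Bool) (x : ℕ) (l : List ℕ) : ∀ (s : ℕ) (acc : List ℕ), s ≤ 25 →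
    c2chk P l.length s acc = true → (l.map c2sq).sum + c2sq x = s →
    P (x :: (l.reverse ++ acc)) = true := by
  induction l with
  | nil =>
    intro s acc hs h e
    have e1 : c2sq x = s := by simpa using e
    subst e1
    exact List.all_eq_true.1 h x (c2sq_mem x hs).2
  | cons a t ih =>
    intro s acc hs h e
    rw [List.map_cons, List.sum_cons] at e
    rw [List.length_cons, c2chk, List.all_eq_true] at h
    have h1 := h _ (c2sq_mem a (by omega)).1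
    have h2 : Nat.ble (c2sq a) s = true := Nat.ble_eq_true_of_le (by omega)
    simp only [h2, cond_true, Nat.sub_eq] at h1
    rw [List.reverse_cons, List.append_assoc]
    exact ih (s - c2sq a) _ (by omega) h1 (by omega)

theorem c2flat {α : Type} {L : List (List α)} {i : ℕ} {w : α} (h : w ∈ L.getD i []) :
    w ∈ L.flatten := by
  rw [List.getD_eq_getElem?_getD] at h
  cases e : L[i]? with
  | none => simp [e] at h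
  | some l =>
    rw [e] at h
    exact List.mem_flatten.2 ⟨l, List.mem_of_getElem? e, h⟩

theorem c2flat2 {α : Type} {L : List (List (List α))} {i j : ℕ} {w : α}
    (h : w ∈ (L.getD i []).getD j []) : w ∈ L.flatten.flatten := by
  obtain ⟨l, h1, h2⟩ := List.mem_flatten.1 (c2flat h)
  exact List.mem_flatten.2 ⟨l, c2flat h1, h2⟩

/-- the isotropic vectors of norm 25, sorted by the first two entries -/
def c2RR : List (List (List c2U)) :=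
  [[[], [], [], [], [],
    [c2k 0 5 5 5 5 5 25 20 30 30 20 40 125 225 725], [], [], [], [], []],
   [[], [], [],
    [c2k 1 3 3 4 5 5 26 20 26 29 24 36 105 205 625, c2k 1 3 5 3 4 5 24 24 26 30 21 36 105 205 625,
     c2k 1 3 5 5 7 6 26 20 26 34 24 41 135 255 795, c2k 1 3 6 5 5 7 24 24 29 34 24 40 135 275 815],
    [c2k 1 4 3 5 3 5 24 21 30 26 24 36 105 205 625, c2k 1 4 7 5 7 5 24 21 26 34 20 44 145 245 825],
    [c2k 1 5 3 5 6 3 26 16 26 26 21 40 115 175 635, c2k 1 5 3 7 5 4 24 16 30 26 24 41 125 205 705,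
     c2k 1 5 4 3 3 5 26 24 29 26 20 36 105 205 625, c2k 1 5 4 7 7 5 26 16 29 30 24 44 145 245 825,
     c2k 1 5 5 6 3 7 24 24 34 29 24 40 135 275 815, c2k 1 5 5 6 7 3 24 16 26 29 20 44 135 195 735,
     c2k 1 5 7 3 5 4 24 24 26 30 16 41 125 205 705, c2k 1 5 7 5 6 7 26 24 30 34 21 44 155 295 915],
    [c2k 1 6 5 3 5 3 26 21 26 26 16 40 115 175 635, c2k 1 6 5 7 5 7 26 21 34 30 24 44 155 295 915],
    [c2k 1 7 5 5 3 6 26 24 34 26 20 41 135 255 795, c2k 1 7 5 7 4 5 24 20 34 26 21 44 145 245 825,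
     c2k 1 7 6 5 5 3 24 20 29 26 16 44 135 195 735, c2k 1 7 7 4 5 5 26 24 30 29 16 44 145 245 825], [], [], []],
   [[], [], [],
    [c2k 2 3 3 3 3 5 25 24 26 26 24 34 95 195 575, c2k 2 3 3 7 5 7 25 20 30 30 30 40 135 275 815,
     c2k 2 3 5 3 7 3 25 20 20 30 20 40 115 175 635, c2k 2 3 7 5 7 7 25 24 26 36 24 44 155 295 915], [],
    [c2k 2 5 3 7 7 3 25 14 26 26 24 44 135 195 735, c2k 2 5 7 3 3 7 25 30 30 30 20 40 135 275 815], [],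
    [c2k 2 7 3 5 3 3 25 20 30 20 20 40 115 175 635, c2k 2 7 5 7 3 7 25 24 36 26 24 44 155 295 915,
     c2k 2 7 7 3 5 3 25 24 26 26 14 44 135 195 735, c2k 2 7 7 7 7 5 25 20 30 30 20 50 175 275 975], [], [], []],
   [[],
    [c2k 3 1 4 3 5 5 24 24 21 30 26 36 105 205 625, c2k 3 1 5 4 3 5 20 26 24 29 26 36 105 205 625,
     c2k 3 1 5 5 6 7 24 24 24 34 29 40 135 275 815, c2k 3 1 7 5 5 6 20 26 24 34 26 41 135 255 795],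
    [c2k 3 2 3 3 3 5 24 25 24 26 26 34 95 195 575, c2k 3 2 5 7 3 7 20 25 30 30 30 40 135 275 815,
     c2k 3 2 7 3 5 3 20 25 20 30 20 40 115 175 635, c2k 3 2 7 5 7 7 24 25 24 36 26 44 155 295 915],
    [c2k 3 3 1 5 4 5 26 20 26 24 29 36 105 205 625, c2k 3 3 2 3 3 5 26 24 25 24 26 34 95 195 575,
     c2k 3 3 2 5 7 7 30 20 25 30 30 40 135 275 815, c2k 3 3 3 2 3 5 26 26 24 25 24 34 95 195 575,
     c2k 3 3 3 3 2 5 24 26 26 24 25 34 95 195 575, c2k 3 3 3 3 8 5 30 20 20 30 25 40 125 225 725,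
     c2k 3 3 3 8 3 5 20 20 30 25 30 40 125 225 725, c2k 3 3 4 5 1 5 20 26 29 24 26 36 105 205 625,
     c2k 3 3 6 5 9 5 26 20 21 34 24 46 155 255 875, c2k 3 3 7 5 2 7 20 30 30 30 25 40 135 275 815,
     c2k 3 3 7 5 7 2 20 20 20 30 20 45 135 175 715, c2k 3 3 7 5 7 8 26 26 26 36 26 45 165 325 985,
     c2k 3 3 7 5 8 7 26 24 24 36 25 46 165 305 965, c2k 3 3 8 3 3 5 20 30 25 30 20 40 125 225 725,
     c2k 3 3 8 5 7 7 24 26 25 36 24 46 165 305 965, c2k 3 3 9 5 6 5 20 26 24 34 21 46 155 255 875],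
    [c2k 3 4 1 3 5 5 30 21 24 24 26 36 105 205 625, c2k 3 4 5 1 3 5 26 29 24 26 20 36 105 205 625,
     c2k 3 4 5 5 9 7 30 21 24 34 26 46 165 305 965, c2k 3 4 7 5 5 9 26 29 30 34 26 44 165 345 1005],
    [c2k 3 5 1 5 7 4 30 16 24 24 26 41 125 205 705, c2k 3 5 1 6 5 3 26 16 26 21 26 40 115 175 635,
     c2k 3 5 2 7 7 3 26 14 25 24 26 44 135 195 735, c2k 3 5 3 1 4 5 30 26 24 24 21 36 105 205 625,
     c2k 3 5 3 2 7 3 30 20 20 25 20 40 115 175 635, c2k 3 5 3 4 1 5 24 26 30 21 24 36 105 205 625,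
     c2k 3 5 3 6 9 5 30 16 24 29 26 46 155 255 875, c2k 3 5 3 7 2 3 20 20 30 20 25 40 115 175 635,
     c2k 3 5 3 7 7 2 24 14 24 24 24 45 135 175 715, c2k 3 5 3 7 7 8 30 20 30 30 30 45 165 325 985,
     c2k 3 5 3 7 8 3 26 14 24 26 25 46 145 205 785, c2k 3 5 3 8 7 3 24 14 26 25 26 46 145 205 785,
     c2k 3 5 3 9 6 5 24 16 30 26 29 46 155 255 875, c2k 3 5 4 5 7 1 24 16 21 24 20 44 125 145 645,
     c2k 3 5 4 9 5 3 20 16 29 24 26 46 145 205 785, c2k 3 5 5 7 1 6 20 26 34 24 26 41 135 255 795,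
     c2k 3 5 5 7 4 9 26 26 34 30 29 44 165 345 1005, c2k 3 5 5 7 6 1 20 16 24 24 21 46 135 155 695,
     c2k 3 5 5 7 9 4 26 16 24 30 24 49 165 245 905, c2k 3 5 6 1 5 3 26 26 21 26 16 40 115 175 635,
     c2k 3 5 6 5 7 9 30 26 29 34 26 46 175 355 1055, c2k 3 5 8 7 7 3 20 20 25 30 20 50 165 225 885,
     c2k 3 5 9 4 5 3 20 26 24 29 16 46 145 205 785, c2k 3 5 9 5 7 6 24 26 26 34 20 49 175 295 995],
    [c2k 3 6 5 5 1 7 24 29 34 24 24 40 135 275 815, c2k 3 6 5 9 3 5 20 21 34 24 26 46 155 255 875,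
     c2k 3 6 7 5 5 1 20 21 24 24 16 46 135 155 695, c2k 3 6 9 3 5 5 24 29 26 30 16 46 155 255 875],
    [c2k 3 7 2 3 5 3 30 20 25 20 20 40 115 175 635, c2k 3 7 5 1 5 4 30 26 24 24 16 41 125 205 705,
     c2k 3 7 5 2 3 7 30 30 30 25 20 40 135 275 815, c2k 3 7 5 4 5 1 24 20 24 21 16 44 125 145 645,
     c2k 3 7 5 6 5 9 30 26 34 29 26 46 175 355 1055, c2k 3 7 5 7 2 7 24 26 36 24 25 44 155 295 915,
     c2k 3 7 5 7 3 2 20 20 30 20 20 45 135 175 715, c2k 3 7 5 7 3 8 26 26 36 26 26 45 165 325 985,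
     c2k 3 7 5 7 8 7 30 20 30 30 25 50 185 325 1065, c2k 3 7 5 8 3 7 24 24 36 25 26 46 165 305 965,
     c2k 3 7 5 9 5 6 24 20 34 26 26 49 175 295 995, c2k 3 7 7 2 5 3 26 26 24 25 14 44 135 195 735,
     c2k 3 7 7 3 5 2 24 24 24 24 14 45 135 175 715, c2k 3 7 7 3 5 8 30 30 30 30 20 45 165 325 985,
     c2k 3 7 7 8 5 3 20 20 30 25 20 50 165 225 885, c2k 3 7 8 3 5 3 24 26 25 26 14 46 145 205 785],
    [c2k 3 8 3 3 3 5 30 25 30 20 20 40 125 225 725, c2k 3 8 5 7 3 7 26 25 36 24 24 46 165 305 965,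
     c2k 3 8 7 3 5 3 26 25 26 24 14 46 145 205 785, c2k 3 8 7 5 7 7 30 25 30 30 20 50 185 325 1065],
    [c2k 3 9 5 5 4 7 30 26 34 24 21 46 165 305 965, c2k 3 9 5 6 3 5 26 24 34 21 20 46 155 255 875,
     c2k 3 9 6 3 5 5 30 26 29 24 16 46 155 255 875, c2k 3 9 7 5 5 4 26 24 30 24 16 49 165 245 905], []],
   [[],
    [c2k 4 1 3 5 3 5 21 24 24 26 30 36 105 205 625, c2k 4 1 7 5 7 5 21 24 20 34 26 44 145 245 825], [],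
    [c2k 4 3 3 1 5 5 29 26 20 26 24 36 105 205 625, c2k 4 3 5 3 1 5 21 30 26 24 24 36 105 205 625,
     c2k 4 3 5 5 7 9 29 26 26 34 30 44 165 345 1005, c2k 4 3 9 5 5 7 21 30 26 34 24 46 165 305 965], [],
    [c2k 4 5 1 3 3 5 29 24 26 20 26 36 105 205 625, c2k 4 5 1 7 7 5 29 16 26 24 30 44 145 245 825,
     c2k 4 5 3 5 9 3 29 16 20 26 24 46 145 205 785, c2k 4 5 3 7 5 1 21 16 24 20 24 44 125 145 645,
     c2k 4 5 5 9 3 7 21 24 34 26 30 46 165 305 965, c2k 4 5 5 9 7 3 21 16 26 26 26 50 165 225 885,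
     c2k 4 5 7 3 5 1 21 24 20 24 16 44 125 145 645, c2k 4 5 7 5 9 7 29 24 24 34 24 50 185 325 1065], [],
    [c2k 4 7 5 5 3 9 29 30 34 26 26 44 165 345 1005, c2k 4 7 5 7 1 5 21 26 34 20 24 44 145 245 825,
     c2k 4 7 7 1 5 5 29 30 24 26 16 44 145 245 825, c2k 4 7 9 5 5 3 21 26 26 26 16 50 165 225 885], [],
    [c2k 4 9 5 3 5 3 29 24 26 20 16 46 145 205 785, c2k 4 9 5 7 5 7 29 24 34 24 24 50 185 325 1065], []],
   [[c2k 5 0 5 5 5 5 20 25 20 30 30 40 125 225 725],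
    [c2k 5 1 3 3 4 5 24 26 20 26 29 36 105 205 625, c2k 5 1 3 6 5 7 24 24 24 29 34 40 135 275 815,
     c2k 5 1 5 3 7 4 24 24 16 30 26 41 125 205 705, c2k 5 1 5 7 3 4 16 24 24 26 30 41 125 205 705,
     c2k 5 1 6 5 3 3 16 26 21 26 26 40 115 175 635, c2k 5 1 6 5 7 7 24 26 21 34 30 44 155 295 915,
     c2k 5 1 7 6 5 3 16 24 20 29 26 44 135 195 735, c2k 5 1 7 7 4 5 16 26 24 30 29 44 145 245 825],
    [c2k 5 2 3 3 7 7 30 25 20 30 30 40 135 275 815, c2k 5 2 7 7 3 3 14 25 24 26 26 44 135 195 735],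
    [c2k 5 3 1 4 3 5 26 24 24 21 30 36 105 205 625, c2k 5 3 1 7 5 6 26 20 26 24 34 41 135 255 795,
     c2k 5 3 2 7 3 3 20 20 25 20 30 40 115 175 635, c2k 5 3 4 1 3 5 26 30 21 24 24 36 105 205 625,
     c2k 5 3 4 7 5 9 26 26 29 30 34 44 165 345 1005, c2k 5 3 5 1 6 3 26 26 16 26 21 40 115 175 635,
     c2k 5 3 5 4 9 3 26 20 16 29 24 46 145 205 785, c2k 5 3 5 6 1 3 16 26 26 21 26 40 115 175 635,
     c2k 5 3 5 9 4 3 16 20 26 24 29 46 145 205 785, c2k 5 3 6 7 5 1 16 20 21 24 24 46 135 155 695,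
     c2k 5 3 6 9 3 5 16 24 29 26 30 46 155 255 875, c2k 5 3 7 2 3 3 20 30 20 25 20 40 115 175 635,
     c2k 5 3 7 5 1 4 16 30 26 24 24 41 125 205 705, c2k 5 3 7 5 4 1 16 24 20 24 21 44 125 145 645,
     c2k 5 3 7 5 6 9 26 30 26 34 29 46 175 355 1055, c2k 5 3 7 5 9 6 26 24 20 34 26 49 175 295 995,
     c2k 5 3 7 7 2 3 14 26 26 24 25 44 135 195 735, c2k 5 3 7 7 3 2 14 24 24 24 24 45 135 175 715,
     c2k 5 3 7 7 3 8 20 30 30 30 30 45 165 325 985, c2k 5 3 7 7 8 3 20 20 20 30 25 50 165 225 885,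
     c2k 5 3 7 8 3 3 14 24 26 25 26 46 145 205 785, c2k 5 3 8 7 3 3 14 26 25 26 24 46 145 205 785,
     c2k 5 3 9 6 3 5 16 30 26 29 24 46 155 255 875, c2k 5 3 9 7 5 4 16 26 24 30 24 49 165 245 905],
    [c2k 5 4 3 3 1 5 24 29 26 20 26 36 105 205 625, c2k 5 4 3 9 5 7 24 21 30 26 34 46 165 305 965,
     c2k 5 4 5 3 7 1 24 21 16 24 20 44 125 145 645, c2k 5 4 5 7 3 1 16 21 24 20 24 44 125 145 645,
     c2k 5 4 7 7 1 5 16 29 30 24 26 44 145 245 825, c2k 5 4 7 9 5 3 16 21 26 26 26 50 165 225 885,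
     c2k 5 4 9 5 3 3 16 29 24 26 20 46 145 205 785, c2k 5 4 9 5 7 7 24 29 24 34 24 50 185 325 1065],
    [c2k 5 5 0 5 5 5 30 20 25 20 30 40 125 225 725, c2k 5 5 1 3 6 7 34 24 24 24 29 40 135 275 815,
     c2k 5 5 1 7 6 3 26 16 24 20 29 44 135 195 735, c2k 5 5 3 1 7 6 34 26 20 26 24 41 135 255 795,
     c2k 5 5 3 4 7 9 34 26 26 29 30 44 165 345 1005, c2k 5 5 3 6 7 1 24 16 20 21 24 46 135 155 695,
     c2k 5 5 3 9 7 4 24 16 26 24 30 49 165 245 905, c2k 5 5 4 3 9 7 34 24 21 30 26 46 165 305 965,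
     c2k 5 5 4 7 9 3 26 16 21 26 26 50 165 225 885, c2k 5 5 5 0 5 5 30 30 20 25 20 40 125 225 725,
     c2k 5 5 5 5 0 5 20 30 30 20 25 40 125 225 725, c2k 5 5 5 5 5 0 20 20 20 20 20 45 125 125 625,
     c2k 5 5 5 5 5 10 30 30 30 30 30 45 175 375 1075, c2k 5 5 5 5 10 5 30 20 20 30 25 50 175 275 975,
     c2k 5 5 5 10 5 5 20 20 30 25 30 50 175 275 975, c2k 5 5 6 3 1 7 24 34 29 24 24 40 135 275 815,
     c2k 5 5 6 7 1 3 16 26 29 20 24 44 135 195 735, c2k 5 5 7 1 3 6 26 34 24 26 20 41 135 255 795,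
     c2k 5 5 7 4 3 9 26 34 30 29 26 44 165 345 1005, c2k 5 5 7 6 3 1 16 24 24 21 20 46 135 155 695,
     c2k 5 5 7 9 3 4 16 24 30 24 26 49 165 245 905, c2k 5 5 9 3 4 7 24 34 26 30 21 46 165 305 965,
     c2k 5 5 9 7 4 3 16 26 26 26 21 50 165 225 885, c2k 5 5 10 5 5 5 20 30 25 30 20 50 175 275 975],
    [c2k 5 6 1 5 3 3 26 21 26 16 26 40 115 175 635, c2k 5 6 1 5 7 7 34 21 26 24 30 44 155 295 915,
     c2k 5 6 3 1 5 7 34 29 24 24 24 40 135 275 815, c2k 5 6 3 3 9 5 34 21 20 26 24 46 155 255 875,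
     c2k 5 6 5 3 7 9 34 29 26 30 26 46 175 355 1055, c2k 5 6 5 7 3 9 26 29 34 26 30 46 175 355 1055,
     c2k 5 6 7 1 5 3 26 29 20 24 16 44 135 195 735, c2k 5 6 7 7 9 5 26 21 24 30 24 54 195 295 1075],
    [c2k 5 7 1 3 5 6 34 24 26 20 26 41 135 255 795, c2k 5 7 1 4 7 5 34 20 24 21 26 44 145 245 825,
     c2k 5 7 2 3 7 7 36 24 25 24 26 44 155 295 915, c2k 5 7 3 2 7 7 36 26 24 25 24 44 155 295 915,
     c2k 5 7 3 3 2 7 30 30 30 20 25 40 135 275 815, c2k 5 7 3 3 7 2 30 20 20 20 20 45 135 175 715,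
     c2k 5 7 3 3 7 8 36 26 26 26 26 45 165 325 985, c2k 5 7 3 3 8 7 36 24 24 26 25 46 165 305 965,
     c2k 5 7 3 5 1 4 24 26 30 16 24 41 125 205 705, c2k 5 7 3 5 4 1 24 20 24 16 21 44 125 145 645,
     c2k 5 7 3 5 6 9 34 26 30 26 29 46 175 355 1055, c2k 5 7 3 5 9 6 34 20 24 26 26 49 175 295 995,
     c2k 5 7 3 8 7 7 30 20 30 25 30 50 185 325 1065, c2k 5 7 4 1 7 5 34 26 21 24 20 44 145 245 825,
     c2k 5 7 4 3 5 9 34 30 29 26 26 44 165 345 1005, c2k 5 7 5 1 6 7 34 30 24 26 21 44 155 295 915,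
     c2k 5 7 5 4 9 7 34 24 24 29 24 50 185 325 1065, c2k 5 7 5 6 1 7 24 30 34 21 26 44 155 295 915,
     c2k 5 7 5 9 4 7 24 24 34 24 29 50 185 325 1065, c2k 5 7 6 3 5 1 24 24 21 20 16 46 135 155 695,
     c2k 5 7 6 9 7 5 24 20 29 26 26 54 195 295 1075, c2k 5 7 8 3 7 7 30 30 25 30 20 50 185 325 1065,
     c2k 5 7 9 3 5 4 24 30 24 26 16 49 165 245 905, c2k 5 7 9 6 7 5 24 26 26 29 20 54 195 295 1075],
    [c2k 5 8 3 3 7 7 36 25 26 24 24 46 165 305 965, c2k 5 8 7 7 3 3 20 25 30 20 20 50 165 225 885],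
    [c2k 5 9 3 3 6 5 34 24 26 20 21 46 155 255 875, c2k 5 9 3 4 5 7 34 26 30 21 24 46 165 305 965,
     c2k 5 9 4 5 3 3 26 24 29 16 20 46 145 205 785, c2k 5 9 4 5 7 7 34 24 29 24 24 50 185 325 1065,
     c2k 5 9 5 3 7 6 34 26 26 24 20 49 175 295 995, c2k 5 9 5 7 3 6 26 26 34 20 24 49 175 295 995,
     c2k 5 9 7 4 5 3 26 26 26 21 16 50 165 225 885, c2k 5 9 7 7 6 5 26 24 30 24 21 54 195 295 1075],
    [c2k 5 10 5 5 5 5 30 25 30 20 20 50 175 275 975]],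
   [[],
    [c2k 6 1 5 3 5 3 21 26 16 26 26 40 115 175 635, c2k 6 1 5 7 5 7 21 26 24 30 34 44 155 295 915], [],
    [c2k 6 3 1 5 5 7 29 24 24 24 34 40 135 275 815, c2k 6 3 3 9 5 5 21 20 26 24 34 46 155 255 875,
     c2k 6 3 5 3 9 5 29 24 16 30 26 46 155 255 875, c2k 6 3 5 5 7 1 21 20 16 24 24 46 135 155 695], [],
    [c2k 6 5 3 5 1 3 21 26 26 16 26 40 115 175 635, c2k 6 5 3 7 5 9 29 26 30 26 34 46 175 355 1055,
     c2k 6 5 5 1 3 7 29 34 24 24 24 40 135 275 815, c2k 6 5 5 1 7 3 29 26 16 24 20 44 135 195 735,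
     c2k 6 5 7 3 5 9 29 34 26 30 26 46 175 355 1055, c2k 6 5 7 5 1 7 21 34 30 24 26 44 155 295 915,
     c2k 6 5 9 3 3 5 21 34 24 26 20 46 155 255 875, c2k 6 5 9 7 7 5 21 26 24 30 24 54 195 295 1075], [],
    [c2k 6 7 1 5 5 3 29 20 24 16 26 44 135 195 735, c2k 6 7 5 5 3 1 21 24 24 16 20 46 135 155 695,
     c2k 6 7 5 7 9 5 29 20 24 26 26 54 195 295 1075, c2k 6 7 7 9 5 5 21 24 30 24 26 54 195 295 1075], [],
    [c2k 6 9 3 5 3 5 29 26 30 16 24 46 155 255 875, c2k 6 9 7 5 7 5 29 26 26 24 20 54 195 295 1075], []],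
   [[],
    [c2k 7 1 3 5 5 6 24 26 20 26 34 41 135 255 795, c2k 7 1 4 7 5 5 20 24 21 26 34 44 145 245 825,
     c2k 7 1 5 4 7 5 24 26 16 29 30 44 145 245 825, c2k 7 1 5 5 6 3 20 24 16 26 29 44 135 195 735],
    [c2k 7 2 3 5 3 3 20 25 20 20 30 40 115 175 635, c2k 7 2 3 7 5 7 24 25 24 26 36 44 155 295 915,
     c2k 7 2 5 3 7 3 24 25 14 26 26 44 135 195 735, c2k 7 2 7 7 7 5 20 25 20 30 30 50 175 275 975],
    [c2k 7 3 2 7 5 7 26 24 25 24 36 44 155 295 915, c2k 7 3 3 2 5 7 30 30 20 25 30 40 135 275 815,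
     c2k 7 3 3 7 5 2 20 20 20 20 30 45 135 175 715, c2k 7 3 3 7 5 8 26 26 26 26 36 45 165 325 985,
     c2k 7 3 3 8 5 7 24 24 26 25 36 46 165 305 965, c2k 7 3 5 1 5 4 26 30 16 24 24 41 125 205 705,
     c2k 7 3 5 2 7 3 26 26 14 25 24 44 135 195 735, c2k 7 3 5 3 2 3 20 30 20 20 25 40 115 175 635,
     c2k 7 3 5 3 7 2 24 24 14 24 24 45 135 175 715, c2k 7 3 5 3 7 8 30 30 20 30 30 45 165 325 985,
     c2k 7 3 5 3 8 3 26 24 14 26 25 46 145 205 785, c2k 7 3 5 4 5 1 20 24 16 21 24 44 125 145 645,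
     c2k 7 3 5 6 5 9 26 30 26 29 34 46 175 355 1055, c2k 7 3 5 8 7 3 20 20 20 25 30 50 165 225 885,
     c2k 7 3 5 9 5 6 20 24 26 26 34 49 175 295 995, c2k 7 3 8 7 5 7 20 30 25 30 30 50 185 325 1065],
    [c2k 7 4 1 7 5 5 26 21 24 20 34 44 145 245 825, c2k 7 4 3 5 5 9 30 29 26 26 34 44 165 345 1005,
     c2k 7 4 5 1 7 5 30 29 16 26 24 44 145 245 825, c2k 7 4 5 5 9 3 26 21 16 26 26 50 165 225 885],
    [c2k 7 5 1 5 3 4 26 24 24 16 30 41 125 205 705, c2k 7 5 1 6 5 7 30 24 26 21 34 44 155 295 915,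
     c2k 7 5 2 3 3 7 30 30 25 20 30 40 135 275 815, c2k 7 5 4 5 3 1 20 24 21 16 24 44 125 145 645,
     c2k 7 5 4 9 5 7 24 24 29 24 34 50 185 325 1065, c2k 7 5 5 3 1 6 24 34 26 20 26 41 135 255 795,
     c2k 7 5 5 3 4 9 30 34 26 26 29 44 165 345 1005, c2k 7 5 5 3 6 1 24 24 16 20 21 46 135 155 695,
     c2k 7 5 5 3 9 4 30 24 16 26 24 49 165 245 905, c2k 7 5 6 1 5 7 30 34 21 26 24 44 155 295 915,
     c2k 7 5 6 5 3 9 26 34 29 26 30 46 175 355 1055, c2k 7 5 7 1 4 5 26 34 20 24 21 44 145 245 825,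
     c2k 7 5 7 2 3 7 26 36 24 25 24 44 155 295 915, c2k 7 5 7 3 2 7 24 36 26 24 25 44 155 295 915,
     c2k 7 5 7 3 3 2 20 30 20 20 20 45 135 175 715, c2k 7 5 7 3 3 8 26 36 26 26 26 45 165 325 985,
     c2k 7 5 7 3 8 7 30 30 20 30 25 50 185 325 1065, c2k 7 5 7 4 1 5 20 34 26 21 24 44 145 245 825,
     c2k 7 5 7 6 9 5 26 24 20 29 26 54 195 295 1075, c2k 7 5 7 8 3 7 20 30 30 25 30 50 185 325 1065,
     c2k 7 5 7 9 6 5 20 24 26 26 29 54 195 295 1075, c2k 7 5 8 3 3 7 24 36 25 26 24 46 165 305 965,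
     c2k 7 5 9 4 5 7 24 34 24 29 24 50 185 325 1065, c2k 7 5 9 5 3 6 20 34 26 26 24 49 175 295 995],
    [c2k 7 6 3 5 5 1 24 21 20 16 24 46 135 155 695, c2k 7 6 5 5 1 3 20 29 26 16 24 44 135 195 735,
     c2k 7 6 5 9 7 5 24 21 26 24 30 54 195 295 1075, c2k 7 6 9 7 5 5 20 29 26 26 24 54 195 295 1075],
    [c2k 7 7 1 5 4 5 30 24 26 16 29 44 145 245 825, c2k 7 7 2 5 3 3 26 24 25 14 26 44 135 195 735,
     c2k 7 7 2 7 7 5 30 20 25 20 30 50 175 275 975, c2k 7 7 3 5 2 3 24 26 26 14 25 44 135 195 735,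
     c2k 7 7 3 5 3 2 24 24 24 14 24 45 135 175 715, c2k 7 7 3 5 3 8 30 30 30 20 30 45 165 325 985,
     c2k 7 7 3 5 8 3 30 20 20 20 25 50 165 225 885, c2k 7 7 4 5 1 5 24 30 29 16 26 44 145 245 825,
     c2k 7 7 6 5 9 5 30 24 21 26 24 54 195 295 1075, c2k 7 7 7 2 7 5 30 30 20 25 20 50 175 275 975,
     c2k 7 7 7 7 2 5 20 30 30 20 25 50 175 275 975, c2k 7 7 7 7 8 5 26 24 24 26 25 56 205 305 1125,
     c2k 7 7 7 8 7 5 24 24 26 25 26 56 205 305 1125, c2k 7 7 8 5 3 3 20 30 25 20 20 50 165 225 885,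
     c2k 7 7 8 7 7 5 24 26 25 26 24 56 205 305 1125, c2k 7 7 9 5 6 5 24 30 24 26 21 54 195 295 1075],
    [c2k 7 8 3 5 3 3 26 25 26 14 24 46 145 205 785, c2k 7 8 3 7 5 7 30 25 30 20 30 50 185 325 1065,
     c2k 7 8 5 3 7 3 30 25 20 20 20 50 165 225 885, c2k 7 8 7 7 7 5 26 25 26 24 24 56 205 305 1125],
    [c2k 7 9 3 5 5 4 30 24 26 16 24 49 165 245 905, c2k 7 9 5 5 4 3 26 26 26 16 21 50 165 225 885,
     c2k 7 9 5 6 7 5 30 24 26 21 24 54 195 295 1075, c2k 7 9 6 7 5 5 26 26 29 20 24 54 195 295 1075], []],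
   [[], [], [],
    [c2k 8 3 3 3 3 5 25 30 20 20 30 40 125 225 725, c2k 8 3 3 7 5 7 25 26 24 24 36 46 165 305 965,
     c2k 8 3 5 3 7 3 25 26 14 24 26 46 145 205 785, c2k 8 3 7 5 7 7 25 30 20 30 30 50 185 325 1065], [],
    [c2k 8 5 3 7 7 3 25 20 20 20 30 50 165 225 885, c2k 8 5 7 3 3 7 25 36 24 24 26 46 165 305 965], [],
    [c2k 8 7 3 5 3 3 25 26 24 14 26 46 145 205 785, c2k 8 7 5 7 3 7 25 30 30 20 30 50 185 325 1065,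
     c2k 8 7 7 3 5 3 25 30 20 20 20 50 165 225 885, c2k 8 7 7 7 7 5 25 26 24 24 26 56 205 305 1125], [], [], []],
   [[], [], [],
    [c2k 9 3 3 6 5 5 24 26 20 21 34 46 155 255 875, c2k 9 3 4 5 5 7 26 30 21 24 34 46 165 305 965,
     c2k 9 3 5 3 6 5 26 30 16 24 29 46 155 255 875, c2k 9 3 5 5 7 4 24 26 16 24 30 49 165 245 905],
    [c2k 9 4 5 3 5 3 24 29 16 20 26 46 145 205 785, c2k 9 4 5 7 5 7 24 29 24 24 34 50 185 325 1065],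
    [c2k 9 5 3 5 4 3 24 26 20 16 29 46 145 205 785, c2k 9 5 3 7 5 6 26 26 24 20 34 49 175 295 995,
     c2k 9 5 5 4 3 7 26 34 24 21 30 46 165 305 965, c2k 9 5 5 4 7 3 26 26 16 21 26 50 165 225 885,
     c2k 9 5 6 3 3 5 24 34 21 20 26 46 155 255 875, c2k 9 5 6 7 7 5 24 26 21 24 30 54 195 295 1075,
     c2k 9 5 7 3 5 6 26 34 20 24 26 49 175 295 995, c2k 9 5 7 5 4 7 24 34 24 24 29 50 185 325 1065],
    [c2k 9 6 3 5 3 5 26 29 24 16 30 46 155 255 875, c2k 9 6 7 5 7 5 26 29 20 24 26 54 195 295 1075],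
    [c2k 9 7 4 5 5 3 26 26 21 16 26 50 165 225 885, c2k 9 7 5 5 3 4 24 30 24 16 26 49 165 245 905,
     c2k 9 7 5 7 6 5 26 26 24 20 29 54 195 295 1075, c2k 9 7 7 6 5 5 24 30 24 21 26 54 195 295 1075], [], [], []],
   [[], [], [], [], [],
    [c2k 10 5 5 5 5 5 25 30 20 20 30 50 175 275 975], [], [], [], [], []]]

def c2R : List c2U := c2RR.flatten.flatten

/-- the vectors of norm 25 and sum 5 with five odd entries -/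
def c2TT : List (List (List c2W)) :=
  [[[], [], [], [], [], [], [], [], [], [], []],
   [[], [], [], [], [], [], [], [], [], [], []],
   [[], [], [], [], [], [],
    [c2W.mk 2 6 6 6 7 8, c2W.mk 2 6 6 6 8 7, c2W.mk 2 6 6 7 6 8, c2W.mk 2 6 6 7 8 6,
     c2W.mk 2 6 6 8 6 7, c2W.mk 2 6 6 8 7 6, c2W.mk 2 6 7 6 6 8, c2W.mk 2 6 7 6 8 6,
     c2W.mk 2 6 7 8 6 6, c2W.mk 2 6 8 6 6 7, c2W.mk 2 6 8 6 7 6, c2W.mk 2 6 8 7 6 6],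
    [c2W.mk 2 7 6 6 6 8, c2W.mk 2 7 6 6 8 6, c2W.mk 2 7 6 8 6 6, c2W.mk 2 7 8 6 6 6],
    [c2W.mk 2 8 6 6 6 7, c2W.mk 2 8 6 6 7 6, c2W.mk 2 8 6 7 6 6, c2W.mk 2 8 7 6 6 6], [], []],
   [[], [], [], [],
    [c2W.mk 3 4 6 6 8 8, c2W.mk 3 4 6 8 6 8, c2W.mk 3 4 6 8 8 6, c2W.mk 3 4 8 6 6 8,
     c2W.mk 3 4 8 6 8 6, c2W.mk 3 4 8 8 6 6], [],
    [c2W.mk 3 6 4 6 8 8, c2W.mk 3 6 4 8 6 8, c2W.mk 3 6 4 8 8 6, c2W.mk 3 6 6 4 8 8,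
     c2W.mk 3 6 6 8 4 8, c2W.mk 3 6 6 8 8 4, c2W.mk 3 6 8 4 6 8, c2W.mk 3 6 8 4 8 6,
     c2W.mk 3 6 8 6 4 8, c2W.mk 3 6 8 6 8 4, c2W.mk 3 6 8 8 4 6, c2W.mk 3 6 8 8 6 4], [],
    [c2W.mk 3 8 4 6 6 8, c2W.mk 3 8 4 6 8 6, c2W.mk 3 8 4 8 6 6, c2W.mk 3 8 6 4 6 8,
     c2W.mk 3 8 6 4 8 6, c2W.mk 3 8 6 6 4 8, c2W.mk 3 8 6 6 8 4, c2W.mk 3 8 6 8 4 6,
     c2W.mk 3 8 6 8 6 4, c2W.mk 3 8 8 4 6 6, c2W.mk 3 8 8 6 4 6, c2W.mk 3 8 8 6 6 4], [], []],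
   [[], [], [],
    [c2W.mk 4 3 6 6 8 8, c2W.mk 4 3 6 8 6 8, c2W.mk 4 3 6 8 8 6, c2W.mk 4 3 8 6 6 8,
     c2W.mk 4 3 8 6 8 6, c2W.mk 4 3 8 8 6 6],
    [c2W.mk 4 4 4 7 8 8, c2W.mk 4 4 4 8 7 8, c2W.mk 4 4 4 8 8 7, c2W.mk 4 4 7 4 8 8,
     c2W.mk 4 4 7 8 4 8, c2W.mk 4 4 7 8 8 4, c2W.mk 4 4 8 4 7 8, c2W.mk 4 4 8 4 8 7,
     c2W.mk 4 4 8 7 4 8, c2W.mk 4 4 8 7 8 4, c2W.mk 4 4 8 8 4 7, c2W.mk 4 4 8 8 7 4], [],
    [c2W.mk 4 6 3 6 8 8, c2W.mk 4 6 3 8 6 8, c2W.mk 4 6 3 8 8 6, c2W.mk 4 6 6 3 8 8,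
     c2W.mk 4 6 6 8 3 8, c2W.mk 4 6 6 8 8 3, c2W.mk 4 6 8 3 6 8, c2W.mk 4 6 8 3 8 6,
     c2W.mk 4 6 8 6 3 8, c2W.mk 4 6 8 6 8 3, c2W.mk 4 6 8 8 3 6, c2W.mk 4 6 8 8 6 3],
    [c2W.mk 4 7 4 4 8 8, c2W.mk 4 7 4 8 4 8, c2W.mk 4 7 4 8 8 4, c2W.mk 4 7 8 4 4 8,
     c2W.mk 4 7 8 4 8 4, c2W.mk 4 7 8 8 4 4],
    [c2W.mk 4 8 3 6 6 8, c2W.mk 4 8 3 6 8 6, c2W.mk 4 8 3 8 6 6, c2W.mk 4 8 4 4 7 8,
     c2W.mk 4 8 4 4 8 7, c2W.mk 4 8 4 7 4 8, c2W.mk 4 8 4 7 8 4, c2W.mk 4 8 4 8 4 7,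
     c2W.mk 4 8 4 8 7 4, c2W.mk 4 8 6 3 6 8, c2W.mk 4 8 6 3 8 6, c2W.mk 4 8 6 6 3 8,
     c2W.mk 4 8 6 6 8 3, c2W.mk 4 8 6 8 3 6, c2W.mk 4 8 6 8 6 3, c2W.mk 4 8 7 4 4 8,
     c2W.mk 4 8 7 4 8 4, c2W.mk 4 8 7 8 4 4, c2W.mk 4 8 8 3 6 6, c2W.mk 4 8 8 4 4 7,
     c2W.mk 4 8 8 4 7 4, c2W.mk 4 8 8 6 3 6, c2W.mk 4 8 8 6 6 3, c2W.mk 4 8 8 7 4 4], [], []],
   [[], [], [], [], [], [], [], [], [], [], []],
   [[], [],
    [c2W.mk 6 2 6 6 7 8, c2W.mk 6 2 6 6 8 7, c2W.mk 6 2 6 7 6 8, c2W.mk 6 2 6 7 8 6,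
     c2W.mk 6 2 6 8 6 7, c2W.mk 6 2 6 8 7 6, c2W.mk 6 2 7 6 6 8, c2W.mk 6 2 7 6 8 6,
     c2W.mk 6 2 7 8 6 6, c2W.mk 6 2 8 6 6 7, c2W.mk 6 2 8 6 7 6, c2W.mk 6 2 8 7 6 6],
    [c2W.mk 6 3 4 6 8 8, c2W.mk 6 3 4 8 6 8, c2W.mk 6 3 4 8 8 6, c2W.mk 6 3 6 4 8 8,
     c2W.mk 6 3 6 8 4 8, c2W.mk 6 3 6 8 8 4, c2W.mk 6 3 8 4 6 8, c2W.mk 6 3 8 4 8 6,
     c2W.mk 6 3 8 6 4 8, c2W.mk 6 3 8 6 8 4, c2W.mk 6 3 8 8 4 6, c2W.mk 6 3 8 8 6 4],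
    [c2W.mk 6 4 3 6 8 8, c2W.mk 6 4 3 8 6 8, c2W.mk 6 4 3 8 8 6, c2W.mk 6 4 6 3 8 8,
     c2W.mk 6 4 6 8 3 8, c2W.mk 6 4 6 8 8 3, c2W.mk 6 4 8 3 6 8, c2W.mk 6 4 8 3 8 6,
     c2W.mk 6 4 8 6 3 8, c2W.mk 6 4 8 6 8 3, c2W.mk 6 4 8 8 3 6, c2W.mk 6 4 8 8 6 3], [],
    [c2W.mk 6 6 2 6 7 8, c2W.mk 6 6 2 6 8 7, c2W.mk 6 6 2 7 6 8, c2W.mk 6 6 2 7 8 6,
     c2W.mk 6 6 2 8 6 7, c2W.mk 6 6 2 8 7 6, c2W.mk 6 6 3 4 8 8, c2W.mk 6 6 3 8 4 8,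
     c2W.mk 6 6 3 8 8 4, c2W.mk 6 6 4 3 8 8, c2W.mk 6 6 4 8 3 8, c2W.mk 6 6 4 8 8 3,
     c2W.mk 6 6 6 2 7 8, c2W.mk 6 6 6 2 8 7, c2W.mk 6 6 6 7 2 8, c2W.mk 6 6 6 7 8 2,
     c2W.mk 6 6 6 8 2 7, c2W.mk 6 6 6 8 7 2, c2W.mk 6 6 7 2 6 8, c2W.mk 6 6 7 2 8 6,
     c2W.mk 6 6 7 6 2 8, c2W.mk 6 6 7 6 8 2, c2W.mk 6 6 7 8 2 6, c2W.mk 6 6 7 8 6 2,
     c2W.mk 6 6 8 2 6 7, c2W.mk 6 6 8 2 7 6, c2W.mk 6 6 8 3 4 8, c2W.mk 6 6 8 3 8 4,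
     c2W.mk 6 6 8 4 3 8, c2W.mk 6 6 8 4 8 3, c2W.mk 6 6 8 6 2 7, c2W.mk 6 6 8 6 7 2,
     c2W.mk 6 6 8 7 2 6, c2W.mk 6 6 8 7 6 2, c2W.mk 6 6 8 8 3 4, c2W.mk 6 6 8 8 4 3],
    [c2W.mk 6 7 2 6 6 8, c2W.mk 6 7 2 6 8 6, c2W.mk 6 7 2 8 6 6, c2W.mk 6 7 6 2 6 8,
     c2W.mk 6 7 6 2 8 6, c2W.mk 6 7 6 6 2 8, c2W.mk 6 7 6 6 8 2, c2W.mk 6 7 6 8 2 6,
     c2W.mk 6 7 6 8 6 2, c2W.mk 6 7 8 2 6 6, c2W.mk 6 7 8 6 2 6, c2W.mk 6 7 8 6 6 2],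
    [c2W.mk 6 8 2 6 6 7, c2W.mk 6 8 2 6 7 6, c2W.mk 6 8 2 7 6 6, c2W.mk 6 8 3 4 6 8,
     c2W.mk 6 8 3 4 8 6, c2W.mk 6 8 3 6 4 8, c2W.mk 6 8 3 6 8 4, c2W.mk 6 8 3 8 4 6,
     c2W.mk 6 8 3 8 6 4, c2W.mk 6 8 4 3 6 8, c2W.mk 6 8 4 3 8 6, c2W.mk 6 8 4 6 3 8,
     c2W.mk 6 8 4 6 8 3, c2W.mk 6 8 4 8 3 6, c2W.mk 6 8 4 8 6 3, c2W.mk 6 8 6 2 6 7,
     c2W.mk 6 8 6 2 7 6, c2W.mk 6 8 6 3 4 8, c2W.mk 6 8 6 3 8 4, c2W.mk 6 8 6 4 3 8,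
     c2W.mk 6 8 6 4 8 3, c2W.mk 6 8 6 6 2 7, c2W.mk 6 8 6 6 7 2, c2W.mk 6 8 6 7 2 6,
     c2W.mk 6 8 6 7 6 2, c2W.mk 6 8 6 8 3 4, c2W.mk 6 8 6 8 4 3, c2W.mk 6 8 7 2 6 6,
     c2W.mk 6 8 7 6 2 6, c2W.mk 6 8 7 6 6 2, c2W.mk 6 8 8 3 4 6, c2W.mk 6 8 8 3 6 4,
     c2W.mk 6 8 8 4 3 6, c2W.mk 6 8 8 4 6 3, c2W.mk 6 8 8 6 3 4, c2W.mk 6 8 8 6 4 3], [], []],
   [[], [],
    [c2W.mk 7 2 6 6 6 8, c2W.mk 7 2 6 6 8 6, c2W.mk 7 2 6 8 6 6, c2W.mk 7 2 8 6 6 6], [],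
    [c2W.mk 7 4 4 4 8 8, c2W.mk 7 4 4 8 4 8, c2W.mk 7 4 4 8 8 4, c2W.mk 7 4 8 4 4 8,
     c2W.mk 7 4 8 4 8 4, c2W.mk 7 4 8 8 4 4], [],
    [c2W.mk 7 6 2 6 6 8, c2W.mk 7 6 2 6 8 6, c2W.mk 7 6 2 8 6 6, c2W.mk 7 6 6 2 6 8,
     c2W.mk 7 6 6 2 8 6, c2W.mk 7 6 6 6 2 8, c2W.mk 7 6 6 6 8 2, c2W.mk 7 6 6 8 2 6,
     c2W.mk 7 6 6 8 6 2, c2W.mk 7 6 8 2 6 6, c2W.mk 7 6 8 6 2 6, c2W.mk 7 6 8 6 6 2], [],
    [c2W.mk 7 8 2 6 6 6, c2W.mk 7 8 4 4 4 8, c2W.mk 7 8 4 4 8 4, c2W.mk 7 8 4 8 4 4,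
     c2W.mk 7 8 6 2 6 6, c2W.mk 7 8 6 6 2 6, c2W.mk 7 8 6 6 6 2, c2W.mk 7 8 8 4 4 4], [], []],
   [[], [],
    [c2W.mk 8 2 6 6 6 7, c2W.mk 8 2 6 6 7 6, c2W.mk 8 2 6 7 6 6, c2W.mk 8 2 7 6 6 6],
    [c2W.mk 8 3 4 6 6 8, c2W.mk 8 3 4 6 8 6, c2W.mk 8 3 4 8 6 6, c2W.mk 8 3 6 4 6 8,
     c2W.mk 8 3 6 4 8 6, c2W.mk 8 3 6 6 4 8, c2W.mk 8 3 6 6 8 4, c2W.mk 8 3 6 8 4 6,
     c2W.mk 8 3 6 8 6 4, c2W.mk 8 3 8 4 6 6, c2W.mk 8 3 8 6 4 6, c2W.mk 8 3 8 6 6 4],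
    [c2W.mk 8 4 3 6 6 8, c2W.mk 8 4 3 6 8 6, c2W.mk 8 4 3 8 6 6, c2W.mk 8 4 4 4 7 8,
     c2W.mk 8 4 4 4 8 7, c2W.mk 8 4 4 7 4 8, c2W.mk 8 4 4 7 8 4, c2W.mk 8 4 4 8 4 7,
     c2W.mk 8 4 4 8 7 4, c2W.mk 8 4 6 3 6 8, c2W.mk 8 4 6 3 8 6, c2W.mk 8 4 6 6 3 8,
     c2W.mk 8 4 6 6 8 3, c2W.mk 8 4 6 8 3 6, c2W.mk 8 4 6 8 6 3, c2W.mk 8 4 7 4 4 8,
     c2W.mk 8 4 7 4 8 4, c2W.mk 8 4 7 8 4 4, c2W.mk 8 4 8 3 6 6, c2W.mk 8 4 8 4 4 7,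
     c2W.mk 8 4 8 4 7 4, c2W.mk 8 4 8 6 3 6, c2W.mk 8 4 8 6 6 3, c2W.mk 8 4 8 7 4 4], [],
    [c2W.mk 8 6 2 6 6 7, c2W.mk 8 6 2 6 7 6, c2W.mk 8 6 2 7 6 6, c2W.mk 8 6 3 4 6 8,
     c2W.mk 8 6 3 4 8 6, c2W.mk 8 6 3 6 4 8, c2W.mk 8 6 3 6 8 4, c2W.mk 8 6 3 8 4 6,
     c2W.mk 8 6 3 8 6 4, c2W.mk 8 6 4 3 6 8, c2W.mk 8 6 4 3 8 6, c2W.mk 8 6 4 6 3 8,
     c2W.mk 8 6 4 6 8 3, c2W.mk 8 6 4 8 3 6, c2W.mk 8 6 4 8 6 3, c2W.mk 8 6 6 2 6 7,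
     c2W.mk 8 6 6 2 7 6, c2W.mk 8 6 6 3 4 8, c2W.mk 8 6 6 3 8 4, c2W.mk 8 6 6 4 3 8,
     c2W.mk 8 6 6 4 8 3, c2W.mk 8 6 6 6 2 7, c2W.mk 8 6 6 6 7 2, c2W.mk 8 6 6 7 2 6,
     c2W.mk 8 6 6 7 6 2, c2W.mk 8 6 6 8 3 4, c2W.mk 8 6 6 8 4 3, c2W.mk 8 6 7 2 6 6,
     c2W.mk 8 6 7 6 2 6, c2W.mk 8 6 7 6 6 2, c2W.mk 8 6 8 3 4 6, c2W.mk 8 6 8 3 6 4,
     c2W.mk 8 6 8 4 3 6, c2W.mk 8 6 8 4 6 3, c2W.mk 8 6 8 6 3 4, c2W.mk 8 6 8 6 4 3],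
    [c2W.mk 8 7 2 6 6 6, c2W.mk 8 7 4 4 4 8, c2W.mk 8 7 4 4 8 4, c2W.mk 8 7 4 8 4 4,
     c2W.mk 8 7 6 2 6 6, c2W.mk 8 7 6 6 2 6, c2W.mk 8 7 6 6 6 2, c2W.mk 8 7 8 4 4 4],
    [c2W.mk 8 8 3 4 6 6, c2W.mk 8 8 3 6 4 6, c2W.mk 8 8 3 6 6 4, c2W.mk 8 8 4 3 6 6,
     c2W.mk 8 8 4 4 4 7, c2W.mk 8 8 4 4 7 4, c2W.mk 8 8 4 6 3 6, c2W.mk 8 8 4 6 6 3,
     c2W.mk 8 8 4 7 4 4, c2W.mk 8 8 6 3 4 6, c2W.mk 8 8 6 3 6 4, c2W.mk 8 8 6 4 3 6,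
     c2W.mk 8 8 6 4 6 3, c2W.mk 8 8 6 6 3 4, c2W.mk 8 8 6 6 4 3, c2W.mk 8 8 7 4 4 4], [], []],
   [[], [], [], [], [], [], [], [], [], [], []],
   [[], [], [], [], [], [], [], [], [], [], []]]

def c2T : List c2W := c2TT.flatten.flatten

def c2P : List ℕ → Bool
  | [f, e, d, c, b, a] =>
    (bif Nat.beq
        (Nat.add (Nat.add (Nat.add (Nat.mul a (Nat.add b e)) (Nat.mul c (Nat.add b d)))
          (Nat.add (Nat.mul d e) 125))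
          (Nat.mul f (Nat.add (Nat.add (Nat.add a b) (Nat.add c d)) e)))
        (Nat.add (Nat.add (Nat.add (Nat.mul a (Nat.add c d)) (Nat.mul b (Nat.add d e)))
          (Nat.add (Nat.mul c e) (Nat.mul 25 f)))
          (Nat.mul 5 (Nat.add (Nat.add (Nat.add a b) (Nat.add c d)) e)))
      then ((c2RR.getD a []).getD b []).any fun w => c2eq w.x ⟨a, b, c, d, e, f⟩ else true) &&
    (bif Nat.beq (Nat.add (Nat.add (Nat.add (Nat.add a b) (Nat.add c d)) e) f) 35 &&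
        Nat.beq (a % 2 + b % 2 + c % 2 + d % 2 + e % 2 + f % 2) 1
      then ((c2TT.getD a []).getD b []).any fun w => c2eq w ⟨a, b, c, d, e, f⟩ else true)
  | _ => true

theorem c2chk_ok : c2chk c2P 5 25 [] = true := by decide +kernel

theorem c2all {P : c2U → Prop} [DecidablePred P] {L : List c2U}
    (h : L.all (fun p => decide (P p)) = true) : ∀ p ∈ L, P p := by
  simpa [List.all_eq_true] using h

theorem c2R_good : ∀ w ∈ c2R, c2Good w := by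
  unfold c2Good
  exact c2all (by decide +kernel)

theorem c2_shift (v : Fin 6 → ℤ) (h : ∑ k, v k * v k = 25) :
    ∃ x : Fin 6 → ℕ, ∀ k, v k = x k - 5 := by
  refine ⟨fun k => (v k + 5).toNat, fun k => ?_⟩
  have h1 : v k * v k ≤ 25 :=
    h ▸ single_le_sum (f := fun k => v k * v k) (fun i _ => mul_self_nonneg _) (mem_univ k)
  have h2 : -5 ≤ v k := by nlinarith
  beta_reduce
  omega

theorem c2P_ok (x : Fin 6 → ℕ) (h : ∑ k, ((x k : ℤ) - 5) * ((x k : ℤ) - 5) = 25) :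
    c2P [x 5, x 4, x 3, x 2, x 1, x 0] = true := by
  refine c2chk_spec c2P (x 5) [x 0, x 1, x 2, x 3, x 4] 25 [] le_rfl c2chk_ok ?_
  rw [Fin.sum_univ_six] at h
  simp only [List.map_cons, List.map_nil, List.sum_cons, List.sum_nil]
  zify
  simp only [c2sq_cast]
  linarith

theorem c2_form (u v : Fin 6 → ℤ) : ∑ k, ∑ l, u k * SS k l * v l =
    (u 1 - u 2 - u 3 + u 4 + u 5) * v 0 + (u 0 + u 2 - u 3 - u 4 + u 5) * v 1 +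
    (u 1 - u 0 + u 3 - u 4 + u 5) * v 2 + (u 2 - u 0 - u 1 + u 4 + u 5) * v 3 +
    (u 0 - u 1 - u 2 + u 3 + u 5) * v 4 + (u 0 + u 1 + u 2 + u 3 + u 4) * v 5 := by
  simp only [Fin.sum_univ_six]
  simp [SS]
  ring

theorem c2cond {m n : ℕ} {b : Bool} (h : m = n) : (bif Nat.beq m n then b else true) = b := by
  rw [h, Nat.beq_refl, cond_true]

theorem c2R_mem (x : Fin 6 → ℕ) (h1 : ∑ k, ((x k : ℤ) - 5) * ((x k : ℤ) - 5) = 25)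
    (h2 : ∑ k, ∑ l, ((x k : ℤ) - 5) * SS k l * ((x l : ℤ) - 5) = 0) :
    ∃ w ∈ c2R, w.x = c2tv x := by
  have h := c2P_ok x h1
  rw [c2_form] at h2
  rw [c2P, Bool.and_eq_true] at h
  have h3 := h.1
  rw [c2cond] at h3
  · obtain ⟨w, hw, e1⟩ := List.any_eq_true.1 h3
    exact ⟨w, c2flat2 hw, c2eq_spec e1⟩
  · simp only [Nat.add_eq, Nat.mul_eq]
    zify
    linarith

theorem c2T_mem (x : Fin 6 → ℕ) (h1 : ∑ k, ((x k : ℤ) - 5) * ((x k : ℤ) - 5) = 25)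
    (h2 : ∑ k, x k = 35) (h3 : ∑ k, x k % 2 = 1) : c2tv x ∈ c2T := by
  have h := c2P_ok x h1
  rw [Fin.sum_univ_six] at h2 h3
  rw [c2P, Bool.and_eq_true] at h
  have h4 := h.2
  have e1 : Nat.add (Nat.add (Nat.add (Nat.add (x 0) (x 1)) (Nat.add (x 2) (x 3))) (x 4)) (x 5)
      = 35 := by
    simp only [Nat.add_eq]
    omega
  rw [e1, h3] at h4
  obtain ⟨w, hw, e2⟩ := List.any_eq_true.1 h4
  rw [c2eq_spec e2] at hw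
  exact c2flat2 hw

/-- filter, with the result computed once -/
def c2fk {α : Type} (p : α → Bool) : List α → (List α → Bool) → Bool
  | [], k => k []
  | a :: t, k => bif p a then c2fk p t (fun r => k (a :: r)) else c2fk p t k

theorem c2fk_eq {α : Type} (p : α → Bool) (l : List α) :
    ∀ k : List α → Bool, c2fk p l k = k (l.filter p) := by
  induction l with
  | nil => exact fun _ => rfl
  | cons a t ih =>
    intro k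
    rw [c2fk, List.filter_cons]
    cases p a <;> simp [ih]

def c2or (u w : c2W) : Bool := Nat.beq (c2dot u w) 200

def c2sC (T : List c2W) : Bool :=
  T.all fun r0 => Nat.beq (r0.a % 2) 0 || c2fk (c2or r0) T fun L0 =>
  L0.all fun r1 => Nat.beq (r1.b % 2) 0 || c2fk (c2or r1) L0 fun L1 =>
  L1.all fun r2 => Nat.beq (r2.c % 2) 0 || c2fk (c2or r2) L1 fun L2 =>
  L2.all fun r3 => Nat.beq (r3.d % 2) 0 || c2fk (c2or r3) L2 fun L3 =>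
  L3.all fun r4 => Nat.beq (r4.e % 2) 0 || c2fk (c2or r4) L3 fun L4 =>
  L4.all fun r5 => Nat.beq (r5.f % 2) 0 ||
    Nat.beq ((r1.a + r2.b + r0.c + r5.d + r3.e + r4.f) % 4) 2

theorem c2sC_ok : c2sC c2T = true := by
  have : c2fk (fun _ => true) c2T c2sC = true := by decide +kernel
  rwa [c2fk_eq, List.filter_true] at this

theorem c2sC_spec {T : List c2W} (h : c2sC T = true) (C : Fin 6 → Fin 6 → ℕ)
    (hm : ∀ i, c2tv (C i) ∈ T) (hp : ∀ i, ¬ C i i % 2 = 0)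
    (hd : ∀ i j, i ≠ j → c2or (c2tv (C i)) (c2tv (C j)) = true) :
    (C 1 0 + C 2 1 + C 0 2 + C 5 3 + C 3 4 + C 4 5) % 4 = 2 := by
  simp only [c2sC, c2fk_eq, List.all_eq_true, List.mem_filter, Bool.or_eq_true,
    Nat.beq_eq] at h
  have h0 := (h _ (hm 0)).resolve_left (hp 0)
  have h1 := (h0 _ ⟨hm 1, hd 0 1 (by decide)⟩).resolve_left (hp 1)
  have h2 := (h1 _ ⟨⟨hm 2, hd 0 2 (by decide)⟩, hd 1 2 (by decide)⟩).resolve_left (hp 2)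
  have h3 := (h2 _ ⟨⟨⟨hm 3, hd 0 3 (by decide)⟩, hd 1 3 (by decide)⟩,
    hd 2 3 (by decide)⟩).resolve_left (hp 3)
  have h4 := (h3 _ ⟨⟨⟨⟨hm 4, hd 0 4 (by decide)⟩, hd 1 4 (by decide)⟩, hd 2 4 (by decide)⟩,
    hd 3 4 (by decide)⟩).resolve_left (hp 4)
  exact (h4 _ ⟨⟨⟨⟨⟨hm 5, hd 0 5 (by decide)⟩, hd 1 5 (by decide)⟩, hd 2 5 (by decide)⟩,
    hd 3 5 (by decide)⟩, hd 4 5 (by decide)⟩).resolve_left (hp 5)

theorem c2_C (M : Matrix (Fin 6) (Fin 6) ℤ)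
    (h6 : ∀ i i', ∑ k, M i k * M i' k = (if i = i' then 25 else 0) + 200)
    (r6 : ∀ i, ∑ k, M i k = 35) (hp : ∀ i k, Odd (M i k) ↔ i = k) :
    (∑ i, M (G0 i) i) % 4 = 2 := by
  have hd : ∀ i, ∑ k, (M i k - 5) * (M i k - 5) = 25 := fun i => by
    have a := h6 i i
    have b := r6 i
    rw [if_pos rfl] at a
    rw [Fin.sum_univ_six] at a b ⊢
    linear_combination a - 10 * b
  choose x hx using fun i => c2_shift (fun k => M i k - 5) (hd i)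
  have hM : ∀ i k, M i k = x i k := fun i k => by linarith [hx i k]
  simp only [hM] at h6 r6 hp hd ⊢
  have hq : ∀ i k, x i k % 2 = if i = k then 1 else 0 := fun i k => by
    have a := hp i k
    rw [Int.odd_iff] at a
    split_ifs with e
    · have := a.2 e
      omega
    · have := mt a.1 e
      omega
  have key := c2sC_spec c2sC_ok x
    (fun i => c2T_mem _ (hd i) (by exact_mod_cast r6 i)
      (by
        simp only [hq]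
        revert i
        decide))
    (fun i => by simp [hq i i])
    (fun i j e => by
      have a := h6 i j
      rw [if_neg e, Fin.sum_univ_six] at a
      rw [c2or, Nat.beq_eq, c2dot_eq]
      simp only [c2tv]
      zify
      linarith)
  rw [Fin.sum_univ_six]
  change ((x 1 0 : ℤ) + x 2 1 + x 0 2 + x 5 3 + x 3 4 + x 4 5) % 4 = 2
  omega

def c2par : c2W → c2W
  | ⟨a, b, c, d, e, f⟩ => ⟨a % 2, b % 2, c % 2, d % 2, e % 2, f % 2⟩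

def c2is (k : Fin 6) (v : c2W) : Bool := c2eq (c2par v) (c2tv fun l => if l = k then 0 else 1)

theorem c2par_iff {x : Fin 6 → ℕ} {k : Fin 6} (h : c2is k (c2tv x) = true) (l : Fin 6) :
    Odd ((x l : ℤ) - 5) ↔ l = k := by
  have h1 := c2eq_spec h
  have e : ∀ l, x l % 2 = if l = k then 0 else 1 := by
    simp only [c2par, c2tv, c2W.mk.injEq] at h1
    obtain ⟨a, b, c, d, e, f⟩ := h1
    intro l
    fin_cases l
    exacts [a, b, c, d, e, f]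
  have e1 := e l
  rw [Int.odd_iff]
  split_ifs at e1 with e2
  · exact ⟨fun _ => e2, fun _ => by omega⟩
  · exact ⟨fun o => by omega, fun o => absurd o e2⟩

theorem c2R_par : c2R.all (fun w => decide (∃ k, c2is k w.x = true)) = true := by decide +kernel

theorem c2_row (v : Fin 6 → ℤ) (h1 : ∑ k, v k * v k = 25)
    (h2 : ∑ k, ∑ l, v k * SS k l * v l = 0) : ∃ k, ∀ l, Odd (v l) ↔ l = k := by
  obtain ⟨x, hx⟩ := c2_shift v h1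
  simp only [hx] at h1 h2 ⊢
  obtain ⟨w, hw, e⟩ := c2R_mem x h1 h2
  obtain ⟨k, hk⟩ := of_decide_eq_true (List.all_eq_true.1 c2R_par _ hw)
  exact ⟨k, c2par_iff (e ▸ hk)⟩

def c2ok (o : ℕ) : c2U → c2U → Bool
  | ⟨x, y, s, t, _⟩, ⟨x', _, s', _, r'⟩ =>
    Nat.beq (Nat.add (c2dot y x') o) (Nat.add t r') &&
      Nat.beq (Nat.add (c2dot x x') 150) (Nat.add s s')

theorem c2ok_of {u w : c2U} (hu : c2Good u) (hw : c2Good w) {x z : Fin 6 → ℕ}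
    (ex : u.x = c2tv x) (ez : w.x = c2tv z) {o : ℕ}
    (h1 : ∑ k, ((x k : ℤ) - 5) * ((z k : ℤ) - 5) = 0)
    (h2 : ∑ k, ∑ l, ((x k : ℤ) - 5) * SS k l * ((z l : ℤ) - 5) = 250 - o) :
    c2ok o u w = true := by
  obtain ⟨x1, y, s, t, r⟩ := u
  obtain ⟨x2, y', s', t', r'⟩ := w
  simp only at ex ez
  subst ex ez
  rw [c2_form] at h2
  rw [Fin.sum_univ_six] at h1
  obtain ⟨g0, g1, g2, g3, g4, g5, gs, gt, -⟩ := hu
  obtain ⟨-, -, -, -, -, -, gs', -, gr'⟩ := hw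
  simp only [c2tv] at g0 g1 g2 g3 g4 g5 gs gt gs' gr'
  simp only [c2ok, Bool.and_eq_true, Nat.beq_eq, Nat.add_eq, c2dot_eq, c2tv]
  zify at g0 g1 g2 g3 g4 g5 gs gt gs' gr' ⊢
  constructor
  · linear_combination h2 + z 0 * g0 + z 1 * g1 + z 2 * g2 + z 3 * g3 + z 4 * g4 + z 5 * g5
      - gt - gr'
  · linear_combination h1 - gs - gs'

def c2sD (R : List c2U) : Bool :=
  R.all fun r5 => Nat.beq (r5.x.f % 2) 1 || c2fk (c2ok 225 r5) R fun L =>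
  L.all fun r0 => Nat.beq (r0.x.a % 2) 1 ||
    c2fk (c2ok 225 r0) L fun Lp => c2fk (c2ok 275 r0) L fun Lm =>
  Lp.all fun r1 => Lm.all fun r2 => !c2ok 225 r1 r2 ||
  Lm.all fun r3 => !(c2ok 275 r1 r3 && c2ok 225 r2 r3) ||
  Lp.all fun r4 => !(c2ok 275 r1 r4 && c2ok 275 r2 r4 && c2ok 225 r3 r4) ||
    decide ((c2is 0 r0.x = true ∧ c2is 1 r1.x = true ∧ c2is 2 r2.x = true ∧ c2is 3 r3.x = true ∧
      c2is 4 r4.x = true ∧ c2is 5 r5.x = true ∧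
      (r1.x.a + r2.x.b + r0.x.c + r5.x.d + r3.x.e + r4.x.f) % 4 = 2) ∨ c2is 4 r1.x = true)

theorem c2sD_ok : c2sD c2R = true := by
  have : c2fk (fun _ => true) c2R c2sD = true := by decide +kernel
  rwa [c2fk_eq, List.filter_true] at this

theorem c2sD_spec {R : List c2U} (h : c2sD R = true) (r : Fin 6 → c2U)
    (hm : ∀ i, r i ∈ R) (o5 : ¬ (r 5).x.f % 2 = 1) (o0 : ¬ (r 0).x.a % 2 = 1)
    (hp : ∀ i j, i ≠ j → SS i j = 1 → c2ok 225 (r i) (r j) = true)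
    (hn : ∀ i j, i ≠ j → SS i j = -1 → c2ok 275 (r i) (r j) = true) :
    (c2is 0 (r 0).x = true ∧ c2is 1 (r 1).x = true ∧ c2is 2 (r 2).x = true ∧
      c2is 3 (r 3).x = true ∧ c2is 4 (r 4).x = true ∧ c2is 5 (r 5).x = true ∧
      ((r 1).x.a + (r 2).x.b + (r 0).x.c + (r 5).x.d + (r 3).x.e + (r 4).x.f) % 4 = 2) ∨
      c2is 4 (r 1).x = true := by
  simp only [c2sD, c2fk_eq, List.all_eq_true, List.mem_filter, Bool.or_eq_true,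
    Bool.not_eq_true', Nat.beq_eq, decide_eq_true_eq] at h
  have a50 := hp 5 0 (by decide) rfl
  have a51 := hp 5 1 (by decide) rfl
  have a52 := hp 5 2 (by decide) rfl
  have a53 := hp 5 3 (by decide) rfl
  have a54 := hp 5 4 (by decide) rfl
  have a01 := hp 0 1 (by decide) rfl
  have a02 := hn 0 2 (by decide) rfl
  have a03 := hn 0 3 (by decide) rfl
  have a04 := hp 0 4 (by decide) rfl
  have a12 := hp 1 2 (by decide) rfl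
  have a13 := hn 1 3 (by decide) rfl
  have a14 := hn 1 4 (by decide) rfl
  have a23 := hp 2 3 (by decide) rfl
  have a24 := hn 2 4 (by decide) rfl
  have a34 := hp 3 4 (by decide) rfl
  have h5 := (h _ (hm 5)).resolve_left o5
  have h0 := (h5 _ ⟨hm 0, a50⟩).resolve_left o0
  have h2 := (h0 _ ⟨⟨hm 1, a51⟩, a01⟩ _ ⟨⟨hm 2, a52⟩, a02⟩).resolve_left (by simp [a12])
  have h3 := (h2 _ ⟨⟨hm 3, a53⟩, a03⟩).resolve_left (by simp [a13, a23])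
  exact (h3 _ ⟨⟨hm 4, a54⟩, a04⟩).resolve_left (by simp [a14, a24, a34])

theorem c2_D (N : Matrix (Fin 6) (Fin 6) ℤ)
    (h1 : ∀ i i', ∑ k, N i k * N i' k = if i = i' then 25 else 0)
    (h2 : ∀ i i', ∑ k, ∑ l, N i k * SS k l * N i' l = 25 * SS i i')
    (o5 : Odd (N 5 5)) (o0 : Odd (N 0 0)) :
    ((∀ i k, Odd (N i k) ↔ i = k) ∧ (∑ i, N (G0 i) i) % 4 = 0) ∨
      (Odd (N 1 4) ∧ Even (N 1 1)) := by
  have hS : ∀ i, SS i i = 0 := by decide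
  choose x hx using fun i => c2_shift (N i) (by simpa using h1 i i)
  simp only [hx] at h1 h2 o5 o0 ⊢
  choose r hr er using fun i => c2R_mem (x i) (by simpa using h1 i i) (by rw [h2, hS, mul_zero])
  have key := c2sD_spec c2sD_ok r hr
    (by
      rw [er]
      rw [Int.odd_iff] at o5
      simp only [c2tv]
      omega)
    (by
      rw [er]
      rw [Int.odd_iff] at o0
      simp only [c2tv]
      omega)
    (fun i j e s => c2ok_of (c2R_good _ (hr i)) (c2R_good _ (hr j)) (er i) (er j)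
      (by rw [h1, if_neg e]) (by rw [h2, s]; rfl))
    (fun i j e s => c2ok_of (c2R_good _ (hr i)) (c2R_good _ (hr j)) (er i) (er j)
      (by rw [h1, if_neg e]) (by rw [h2, s]; rfl))
  simp only [er] at key
  rcases key with ⟨p0, p1, p2, p3, p4, p5, e⟩ | e
  · refine Or.inl ⟨fun i k => ?_, ?_⟩
    · rw [eq_comm]
      fin_cases i
      exacts [c2par_iff p0 k, c2par_iff p1 k, c2par_iff p2 k, c2par_iff p3 k, c2par_iff p4 k,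
        c2par_iff p5 k]
    · rw [Fin.sum_univ_six]
      change ((x 1 0 : ℤ) - 5 + (x 2 1 - 5) + (x 0 2 - 5) + (x 5 3 - 5) + (x 3 4 - 5) +
        (x 4 5 - 5)) % 4 = 0
      simp only [c2tv] at e
      omega
  · exact Or.inr ⟨(c2par_iff e 4).2 rfl,
      Int.not_odd_iff_even.1 fun o => absurd ((c2par_iff e 1).1 o) (by decide)⟩

end PellDS
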