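import Pool.Agent.P.MP_e9cc94_co.Basic

set_option autoImplicit false

namespace PellDS
open Finset

theorem casea0_conj {H : Type} [Group H] {x n : H} {m : ℕ} (h : x * n * x⁻¹ = n ^ m) (i k : ℕ) :
    x ^ i * n ^ k = n ^ (m ^ i * k) * x ^ i := by
  induction i generalizing k with
  | zero => simp
  | succ i ih =>
    have h1 : x * n ^ k = n ^ (m * k) * x := by
      have : x * n ^ k * x⁻¹ = n ^ (m * k) := by
        rw [pow_mul, ← h, conj_pow]
      rw [← this]; group
    calc x ^ (i + 1) * n ^ k = x ^ i * (x * n ^ k) := by rw [pow_succ, mul_assoc]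
      _ = x ^ i * n ^ (m * k) * x := by rw [h1, mul_assoc]
      _ = n ^ (m ^ i * (m * k)) * x ^ i * x := by rw [ih]
      _ = n ^ (m ^ (i + 1) * k) * x ^ (i + 1) := by
        rw [pow_succ m i, pow_succ x i, mul_assoc, mul_assoc]

theorem casea0_exp {H : Type} [Group H] [Finite H] {n : H} (hn : (Subgroup.zpowers n).Normal)
    (x : H) : ∃ m : ℕ, x * n * x⁻¹ = n ^ m := by
  have h := hn.conj_mem n (Subgroup.mem_zpowers n) x
  rw [← mem_powers_iff_mem_zpowers] at h
  obtain ⟨m, hm⟩ := h
  exact ⟨m, hm.symm⟩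

theorem casea0_mod {H : Type} [Group H] {x n : H} {m r : ℕ} (h : x * n * x⁻¹ = n ^ m)
    (hr : x ^ r = 1) : m ^ r ≡ 1 [MOD orderOf n] := by
  have h1 := casea0_conj h r 1
  rw [hr, one_mul, mul_one, mul_one] at h1
  exact (pow_eq_pow_iff_modEq.1 h1).symm

theorem casea0_cube : ∀ z : ZMod 5, z ^ 3 = 1 → z = 1 := by decide

theorem casea0_fifteen {N : Type} [Group N] [Finite N] (hN : Nat.card N = 15) :
    ∃ n : N, orderOf n = 15 := by
  have : Fact (Nat.Prime 3) := ⟨by norm_num⟩
  have : Fact (Nat.Prime 5) := ⟨by norm_num⟩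
  obtain ⟨a, ha⟩ := exists_prime_orderOf_dvd_card' (G := N) 3 (by rw [hN]; norm_num)
  obtain ⟨b, hb⟩ := exists_prime_orderOf_dvd_card' (G := N) 5 (by rw [hN]; norm_num)
  have hidx : (Subgroup.zpowers b).index = 3 := by
    have := (Subgroup.zpowers b).card_mul_index
    rw [Nat.card_zpowers, hb, hN] at this
    omega
  have hnorm : (Subgroup.zpowers b).Normal := by
    apply Subgroup.normal_of_index_eq_minFac_card
    rw [hidx, hN]; norm_num
  obtain ⟨m, hm⟩ := casea0_exp hnorm a
  have h3 : a ^ 3 = 1 := by rw [← ha]; exact pow_orderOf_eq_one a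
  have h1 := casea0_mod hm h3
  rw [hb] at h1
  have h2 : ((m : ZMod 5)) ^ 3 = 1 := by
    have := (ZMod.natCast_eq_natCast_iff _ _ _).2 h1
    push_cast at this
    exact this
  have h5 : m ≡ 1 [MOD 5] := by
    have := casea0_cube _ h2
    rw [← ZMod.natCast_eq_natCast_iff]
    simpa using this
  have h6 : b ^ m = b := by
    have : b ^ m = b ^ 1 := pow_eq_pow_iff_modEq.2 (by rw [hb]; exact h5)
    simpa using this
  have hc : Commute a b := by
    have : a * b * a⁻¹ = b := hm.trans h6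
    show a * b = b * a
    calc a * b = a * b * a⁻¹ * a := by group
      _ = b * a := by rw [this]
  refine ⟨a * b, ?_⟩
  rw [hc.orderOf_mul_eq_mul_orderOf_of_coprime (by rw [ha, hb]; norm_num), ha, hb]

theorem casea0_val {H : Type} [Group H] {n : H} {r : ℕ} [NeZero r] (hn : orderOf n = r) (k : ℕ) :
    n ^ ((k : ZMod r)).val = n ^ k := by
  rw [ZMod.val_natCast, ← hn, pow_mod_orderOf]

theorem casea0_inj {H : Type} [Group H] {n : H} {r : ℕ} [NeZero r] (hn : orderOf n = r)
    {a b : ZMod r} (h : n ^ a.val = n ^ b.val) : a = b := by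
  have h1 := pow_eq_pow_iff_modEq.1 h
  rw [hn, ← ZMod.natCast_eq_natCast_iff] at h1
  simpa using h1

variable {G : Type} [Group G] [Fintype G]

theorem casea0_normal (hG : Fintype.card G = 120) (x : G) (hx : orderOf x = 8) :
    ∃ n : G, orderOf n = 15 ∧ (Subgroup.zpowers n).Normal ∧
      Disjoint (Subgroup.zpowers n) (Subgroup.zpowers x) := by
  have : Fact (Nat.Prime 2) := ⟨by norm_num⟩
  have hc : Nat.card G = 120 := by rw [Nat.card_eq_fintype_card, hG]
  have hfac : (Nat.card G).factorization 2 = 3 := by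
    rw [hc]
    have : (120 : ℕ) = 2 ^ 3 * 15 := by norm_num
    rw [this, Nat.factorization_mul (by norm_num) (by norm_num), Nat.Prime.factorization_pow
      Nat.prime_two]
    have h15 : (15 : ℕ).factorization 2 = 0 :=
      Nat.factorization_eq_zero_of_not_dvd (by norm_num)
    simp [h15]
  have hz : Nat.card (Subgroup.zpowers x) = 2 ^ (Nat.card G).factorization 2 := by
    rw [hfac, Nat.card_zpowers, hx]; norm_num
  let P : Sylow 2 G := Sylow.ofCard (Subgroup.zpowers x) hz
  have hmin : (Nat.card G).minFac = 2 := by rw [hc]; norm_num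
  have hcyc : IsCyclic P := Subgroup.isCyclic_zpowers x
  have hcomp := IsCyclic.isComplement' hmin hcyc
  set N := (MonoidHom.transferSylow P (hcyc.normalizer_le_centralizer hmin)).ker with hNdef
  have hNn : N.Normal := MonoidHom.normal_ker _
  have hcard := hcomp.card_mul_card
  have hP : Nat.card (P : Subgroup G) = 8 := by
    show Nat.card (Subgroup.zpowers x) = 8
    rw [Nat.card_zpowers, hx]
  have hN : Nat.card N = 15 := by
    rw [hP, hc] at hcard
    omega
  obtain ⟨n, hn⟩ := casea0_fifteen hN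
  have hn' : orderOf (n : G) = 15 := by rw [Subgroup.orderOf_coe, hn]
  have heq : Subgroup.zpowers (n : G) = N := by
    apply Subgroup.eq_of_le_of_card_ge
    · exact Subgroup.zpowers_le_of_mem n.2
    · rw [Nat.card_zpowers, hn', hN]
  refine ⟨n, hn', ?_, ?_⟩
  · rw [heq]
    exact hNn
  · rw [heq]
    exact hcomp.disjoint

theorem exists_coord (hG : Fintype.card G = 120) (x : G) (hx : orderOf x = 8) :
    ∃ (ε : ZMod 3) (μ : ZMod 5) (j : G → ZMod 8) (u : G → ZMod 3) (y : G → ZMod 5),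
      Coord ε μ j u y := by
  obtain ⟨n, hn, hnn, hd⟩ := casea0_normal hG x hx
  obtain ⟨m, hm⟩ := casea0_exp hnn x
  have hx8 : x ^ 8 = 1 := by rw [← hx]; exact pow_orderOf_eq_one x
  have hm8 := casea0_mod hm hx8
  rw [hn] at hm8
  have hm15 : (m : ZMod 15) ^ 8 = 1 := by
    have := (ZMod.natCast_eq_natCast_iff _ _ _).2 hm8
    push_cast at this
    exact this
  let Φ : ZMod 8 × ZMod 15 → G := fun z => n ^ z.2.val * x ^ z.1.val
  have hinj : Function.Injective Φ := by
    rintro ⟨i, k⟩ ⟨i', k'⟩ h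
    have h1 : n ^ k.val * x ^ i.val = n ^ k'.val * x ^ i'.val := h
    have h2 : (n ^ k'.val)⁻¹ * n ^ k.val = x ^ i'.val * (x ^ i.val)⁻¹ := by
      calc (n ^ k'.val)⁻¹ * n ^ k.val
          = (n ^ k'.val)⁻¹ * (n ^ k.val * x ^ i.val) * (x ^ i.val)⁻¹ := by group
        _ = x ^ i'.val * (x ^ i.val)⁻¹ := by rw [h1]; group
    have hA : (n ^ k'.val)⁻¹ * n ^ k.val ∈ Subgroup.zpowers n :=
      Subgroup.mul_mem _ (Subgroup.inv_mem _ (Subgroup.npow_mem_zpowers n _))
        (Subgroup.npow_mem_zpowers n _)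
    have hB : (n ^ k'.val)⁻¹ * n ^ k.val ∈ Subgroup.zpowers x := by
      rw [h2]
      exact Subgroup.mul_mem _ (Subgroup.npow_mem_zpowers x _)
        (Subgroup.inv_mem _ (Subgroup.npow_mem_zpowers x _))
    have h3 : (n ^ k'.val)⁻¹ * n ^ k.val = 1 := Subgroup.disjoint_def.1 hd hA hB
    have h4 : n ^ k.val = n ^ k'.val := (inv_mul_eq_one.1 h3).symm
    have h5 : x ^ i.val = x ^ i'.val := by
      rw [h4] at h1
      exact mul_left_cancel h1
    rw [casea0_inj hn h4, casea0_inj hx h5]
  have hbij : Function.Bijective Φ := by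
    rw [Fintype.bijective_iff_injective_and_card]
    refine ⟨hinj, ?_⟩
    rw [hG]; simp
  have hmul : ∀ z w : ZMod 8 × ZMod 15,
      Φ z * Φ w = Φ (z.1 + w.1, z.2 + (m : ZMod 15) ^ z.1.val * w.2) := by
    rintro ⟨i, k⟩ ⟨i', k'⟩
    show n ^ k.val * x ^ i.val * (n ^ k'.val * x ^ i'.val) =
      n ^ (k + (m : ZMod 15) ^ i.val * k').val * x ^ (i + i').val
    have e1 : k + (m : ZMod 15) ^ i.val * k' = ((k.val + m ^ i.val * k'.val : ℕ) : ZMod 15) := by
      push_cast
      simp
    have e2 : i + i' = ((i.val + i'.val : ℕ) : ZMod 8) := by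
      push_cast
      simp
    rw [e1, e2, casea0_val hn, casea0_val hx, pow_add, pow_add]
    calc n ^ k.val * x ^ i.val * (n ^ k'.val * x ^ i'.val)
        = n ^ k.val * (x ^ i.val * n ^ k'.val) * x ^ i'.val := by group
      _ = _ := by rw [casea0_conj hm]; group
  let E := Equiv.ofBijective Φ hbij
  have hΨ : ∀ g h : G, E.symm (g * h) =
      ((E.symm g).1 + (E.symm h).1,
        (E.symm g).2 + (m : ZMod 15) ^ (E.symm g).1.val * (E.symm h).2) := by
    intro g h
    rw [Equiv.symm_apply_eq]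
    show g * h = Φ _
    rw [← hmul]
    have a1 : Φ (E.symm g) = g := E.apply_symm_apply g
    have a2 : Φ (E.symm h) = h := E.apply_symm_apply h
    rw [a1, a2]
  let c3 : ZMod 15 →+* ZMod 3 := ZMod.castHom (by norm_num : 3 ∣ 15) (ZMod 3)
  let c5 : ZMod 15 →+* ZMod 5 := ZMod.castHom (by norm_num : 5 ∣ 15) (ZMod 5)
  refine ⟨c3 m, c5 m, fun g => (E.symm g).1, fun g => c3 (E.symm g).2,
    fun g => c5 (E.symm g).2, ?_, ?_, ?_, ?_, ?_, ?_⟩
  · intro h0
    have := congrArg c3 hm15
    rw [map_pow, h0, map_one] at this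
    revert this; decide
  · intro h0
    have := congrArg c5 hm15
    rw [map_pow, h0, map_one] at this
    revert this; decide
  · intro g h; rw [hΨ]
  · intro g h; simp only [hΨ, map_add, map_mul, map_pow]
  · intro g h; simp only [hΨ, map_add, map_mul, map_pow]
  · have hcrt : ∀ a b : ZMod 15, c3 a = c3 b → c5 a = c5 b → a = b := by
      decide +kernel
    rw [Fintype.bijective_iff_injective_and_card]
    refine ⟨?_, by rw [hG]; simp⟩
    intro g h e
    simp only [Prod.mk.injEq] at e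
    apply E.symm.injective
    exact Prod.ext e.1 (hcrt _ _ e.2.1 e.2.2)

end PellDS
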