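import Pool.Agent.P.MP_e9cc94_co.Basic

set_option autoImplicit false

namespace PellDS
open Finset

variable {G : Type} [Group G] [Fintype G] [DecidableEq G] {D : Finset G}

def caseA1_c (a : ZMod 8) : ZMod 2 := ZMod.castHom (show 2 ∣ 8 by norm_num) (ZMod 2) a

def caseA1_sh (ε : ZMod 3) (w0 w : ZMod 2 × ZMod 3) : ZMod 2 × ZMod 3 :=
  (w0.1 + w.1, w0.2 + ε ^ w0.1.val * w.2)

theorem caseA1_coord : ∀ ε : ZMod 3, ε ≠ 0 → ∀ (a b : ZMod 8) (x z : ZMod 3)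
    (w0 : ZMod 2 × ZMod 3), (caseA1_c (a - b), x - ε ^ (a - b).val * z) = w0 ↔
      (caseA1_c a, x) = caseA1_sh ε w0 (caseA1_c b, z) := by decide +kernel

theorem caseA1_mu : ∀ μ : ZMod 5, μ * μ = 1 → ∀ a : ZMod 8,
    μ ^ a.val = μ ^ (caseA1_c a).val := by decide +kernel

theorem caseA1_s : ∀ μ : ZMod 5, μ * μ = 1 → ∀ i : ZMod 2, μ ^ i.val * μ ^ i.val = 1 := by
  decide +kernel

theorem caseA1_an1 : ∀ a0 a1 a2 b0 b1 b2 : ZMod 5,
    a0 * a0 + a1 * a1 + a2 * a2 + (b0 * b0 + b1 * b1 + b2 * b2) = 0 →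
    a1 * a0 + a2 * a1 + a0 * a2 + (b1 * b0 + b2 * b1 + b0 * b2) = 0 →
    b0 * a0 + b1 * a1 + b2 * a2 + (a0 * b0 + a1 * b1 + a2 * b2) = 0 →
    b1 * a0 + b2 * a1 + b0 * a2 + (a1 * b0 + a2 * b1 + a0 * b2) = 0 →
    a0 = 0 ∧ a1 = 0 ∧ a2 = 0 ∧ b0 = 0 ∧ b1 = 0 ∧ b2 = 0 := by decide +kernel

theorem caseA1_an2 : ∀ a0 a1 a2 b0 b1 b2 : ZMod 5,
    a0 * a0 + a1 * a1 + a2 * a2 + (b0 * b0 + b1 * b1 + b2 * b2) = 0 →
    a1 * a0 + a2 * a1 + a0 * a2 + (b1 * b0 + b2 * b1 + b0 * b2) = 0 →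
    b0 * a0 + b2 * a1 + b1 * a2 + (a0 * b0 + a2 * b1 + a1 * b2) = 0 →
    b1 * a0 + b0 * a1 + b2 * a2 + (a1 * b0 + a0 * b1 + a2 * b2) = 0 →
    b2 * a0 + b1 * a1 + b0 * a2 + (a2 * b0 + a1 * b1 + a0 * b2) = 0 →
    a0 = 0 ∧ a1 = 0 ∧ a2 = 0 ∧ b0 = 0 ∧ b1 = 0 ∧ b2 = 0 := by decide +kernel

theorem caseA1_sum6 {V : Type} [AddCommMonoid V] (f : ZMod 2 × ZMod 3 → V) :
    ∑ w, f w = f (0, 0) + f (0, 1) + f (0, 2) + (f (1, 0) + f (1, 1) + f (1, 2)) := by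
  rw [Fintype.sum_prod_type]
  have h2 : ∀ g : ZMod 2 → V, ∑ x, g x = g 0 + g 1 := fun g => Fin.sum_univ_two g
  have h3 : ∀ g : ZMod 3 → V, ∑ x, g x = g 0 + g 1 + g 2 := fun g => Fin.sum_univ_three g
  rw [h2, h3, h3]

theorem caseA1_all6 {P : ZMod 2 × ZMod 3 → Prop} (h00 : P (0, 0)) (h01 : P (0, 1)) (h02 : P (0, 2))
    (h10 : P (1, 0)) (h11 : P (1, 1)) (h12 : P (1, 2)) (w : ZMod 2 × ZMod 3) : P w := by
  have : ∀ w : ZMod 2 × ZMod 3, w = (0, 0) ∨ w = (0, 1) ∨ w = (0, 2) ∨ w = (1, 0) ∨ w = (1, 1) ∨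
      w = (1, 2) := by decide
  rcases this w with e | e | e | e | e | e <;> rw [e] <;> assumption

theorem caseA1_aniso {ε : ZMod 3} (hε : ε ≠ 0) (Z : ZMod 2 × ZMod 3 → ZMod 5)
    (h : ∀ w0, ∑ w, Z (caseA1_sh ε w0 w) * Z w = 0) (w : ZMod 2 × ZMod 3) : Z w = 0 := by
  have he : ∀ ε : ZMod 3, ε ≠ 0 → ε = 1 ∨ ε = 2 := by decide
  simp only [caseA1_sum6] at h
  rcases he ε hε with rfl | rfl
  · obtain ⟨h1, h2, h3, h4, h5, h6⟩ := caseA1_an1 (Z (0, 0)) (Z (0, 1)) (Z (0, 2)) (Z (1, 0))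
      (Z (1, 1)) (Z (1, 2)) (h (0, 0)) (h (0, 1)) (h (1, 0)) (h (1, 1))
    exact caseA1_all6 (P := fun w => Z w = 0) h1 h2 h3 h4 h5 h6 w
  · obtain ⟨h1, h2, h3, h4, h5, h6⟩ := caseA1_an2 (Z (0, 0)) (Z (0, 1)) (Z (0, 2)) (Z (1, 0))
      (Z (1, 1)) (Z (1, 2)) (h (0, 0)) (h (0, 1)) (h (1, 0)) (h (1, 1)) (h (1, 2))
    exact caseA1_all6 (P := fun w => Z w = 0) h1 h2 h3 h4 h5 h6 w

theorem caseA1_ineq0 : ∀ a0 a1 a2 a3 a4 : Fin 5,
    (a0.val : ZMod 5) + a1.val + a2.val + a3.val + a4.val = 0 →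
    (a1.val : ZMod 5) + 2 * a2.val + 3 * a3.val + 4 * a4.val = 0 →
    (a1.val : ZMod 5) + 4 * a2.val + 4 * a3.val + a4.val = 0 →
    5 * (a0.val + a1.val + a2.val + a3.val + a4.val) +
      5 * (a0.val * a0.val + a1.val * a1.val + a2.val * a2.val + a3.val * a3.val +
        a4.val * a4.val) ≤
      2 * ((a0.val + a1.val + a2.val + a3.val + a4.val) *
        (a0.val + a1.val + a2.val + a3.val + a4.val)) := by decide +kernel

theorem caseA1_sum5 {V : Type} [AddCommMonoid V] (f : ZMod 5 → V) :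
    ∑ z, f z = f 0 + f 1 + f 2 + f 3 + f 4 := Fin.sum_univ_five f

theorem caseA1_ineq (Y : ZMod 5 → ℕ) (hY : ∀ z, Y z ≤ 4)
    (h0 : ∑ z, (Y z : ZMod 5) * z ^ 0 = 0) (h1 : ∑ z, (Y z : ZMod 5) * z ^ 1 = 0)
    (h2 : ∑ z, (Y z : ZMod 5) * z ^ 2 = 0) :
    5 * ∑ z, Y z + 5 * ∑ z, Y z * Y z ≤ 2 * ((∑ z, Y z) * ∑ z, Y z) := by
  simp only [caseA1_sum5] at h0 h1 h2 ⊢
  have e5 : (5 : ZMod 5) = 0 := by decide
  refine caseA1_ineq0 ⟨Y 0, by have := hY 0; omega⟩ ⟨Y 1, by have := hY 1; omega⟩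
    ⟨Y 2, by have := hY 2; omega⟩ ⟨Y 3, by have := hY 3; omega⟩ ⟨Y 4, by have := hY 4; omega⟩
    ?_ ?_ ?_
  · simp only; linear_combination h0
  · simp only; linear_combination h1
  · simp only; linear_combination h2 - ((Y 3 : ZMod 5) + 3 * Y 4) * e5

theorem caseA1_cnt : ∀ (t : ZMod 2 × ZMod 3) (z : ZMod 5),
    ∑ a : ZMod 8, ∑ b : ZMod 3, ∑ x : ZMod 5,
      (if (caseA1_c a, b) = t ∧ x = z then 1 else 0 : ℕ) = 4 := by decide +kernel

theorem caseA1_cnt' : ∑ a : ZMod 8, ∑ b : ZMod 3, ∑ _x : ZMod 5,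
      (if (caseA1_c a, b) = ((0, 0) : ZMod 2 × ZMod 3) then 1 else 0 : ℕ) = 20 := by decide +kernel

omit [Group G] [Fintype G] [DecidableEq G] in
theorem caseA1_fib (D : Finset G) (p : G → ZMod 2 × ZMod 3) (y : G → ZMod 5) {V : Type}
    [AddCommMonoid V] (f : ZMod 2 × ZMod 3 → ZMod 5 → V) :
    ∑ d ∈ D, f (p d) (y d) =
      ∑ t, ∑ z, (D.filter fun d => p d = t ∧ y d = z).card • f t z := by
  have : ∀ t z, (D.filter fun d => p d = t ∧ y d = z).card • f t z =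
      ∑ d ∈ D, if p d = t ∧ y d = z then f t z else 0 := by
    intro t z
    rw [← Finset.sum_filter, Finset.sum_const]
  simp only [this]
  rw [Finset.sum_congr rfl fun t _ => Finset.sum_comm, Finset.sum_comm]
  refine Finset.sum_congr rfl fun d _ => ?_
  simp only [ite_and]
  rw [Finset.sum_eq_single (p d)]
  · simp
  · intro b _ hb; simp [Ne.symm hb]
  · simp

theorem caseA1 (h : DS D) {ε : ZMod 3} {μ : ZMod 5} {j : G → ZMod 8} {u : G → ZMod 3}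
    {y : G → ZMod 5} (c : Coord ε μ j u y) (hμ : μ * μ = 1) : False := by
  obtain ⟨p, hp⟩ : ∃ p : G → ZMod 2 × ZMod 3, ∀ g, p g = (caseA1_c (j g), u g) :=
    ⟨_, fun _ => rfl⟩
  have hpd : ∀ d e w0, p (d * e⁻¹) = w0 ↔ p d = caseA1_sh ε w0 (p e) := by
    intro d e w0
    rw [hp, hp, hp, c.jd, c.ud]
    exact caseA1_coord ε c.he _ _ _ _ _
  have hyd : ∀ d e w0, p (d * e⁻¹) = w0 → y (d * e⁻¹) = y d - μ ^ w0.1.val * y e := by
    intro d e w0 e0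
    rw [c.yd, caseA1_mu μ hμ, ← e0, hp, c.jd]
  obtain ⟨Y, hY⟩ : ∃ Y : ZMod 2 × ZMod 3 → ZMod 5 → ℕ,
      ∀ t z, Y t z = (D.filter fun d => p d = t ∧ y d = z).card := ⟨_, fun _ _ => rfl⟩
  have hfib : ∀ {V : Type} [AddCommMonoid V] (f : ZMod 2 × ZMod 3 → ZMod 5 → V),
      ∑ d ∈ D, f (p d) (y d) = ∑ t, ∑ z, Y t z • f t z := by
    intro V _ f
    simp only [hY]
    exact caseA1_fib D p y f
  have hY4 : ∀ t z, Y t z ≤ 4 := by
    intro t z
    rw [hY, ← caseA1_cnt t z, ← c.sum (fun a b x =>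
      (if (caseA1_c a, b) = t ∧ x = z then 1 else 0 : ℕ))]
    simp only [← hp]
    rw [← Finset.card_filter]
    exact Finset.card_le_card (Finset.filter_subset_filter _ (Finset.subset_univ _))
  obtain ⟨m, hm⟩ : ∃ m : ℕ → ZMod 2 × ZMod 3 → ZMod 5,
      ∀ k t, m k t = ∑ z, (Y t z : ZMod 5) * z ^ k := ⟨_, fun _ _ => rfl⟩
  have hconv : ∀ a b w0, ∑ d ∈ D, ∑ e ∈ D,
      (if p (d * e⁻¹) = w0 then y d ^ a * y e ^ b else 0) =
      ∑ w, m a (caseA1_sh ε w0 w) * m b w := by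
    intro a b w0
    simp only [hpd]
    rw [Finset.sum_comm]
    have h1 : ∀ e, ∑ d ∈ D, (if p d = caseA1_sh ε w0 (p e) then y d ^ a * y e ^ b else 0) =
        m a (caseA1_sh ε w0 (p e)) * y e ^ b := by
      intro e
      rw [hfib (fun t z => if t = caseA1_sh ε w0 (p e) then z ^ a * y e ^ b else 0),
        Finset.sum_eq_single (caseA1_sh ε w0 (p e))]
      · rw [hm, Finset.sum_mul]
        refine Finset.sum_congr rfl fun z _ => ?_
        rw [if_pos rfl, nsmul_eq_mul, mul_assoc]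
      · intro t _ ht; simp [ht]
      · simp
    simp only [h1]
    rw [hfib (fun t z => m a (caseA1_sh ε w0 t) * z ^ b)]
    refine Finset.sum_congr rfl fun t _ => ?_
    rw [hm b t, Finset.mul_sum]
    refine Finset.sum_congr rfl fun z _ => ?_
    rw [nsmul_eq_mul]; ring
  have e5 : (5 : ZMod 5) = 0 := by decide
  have hzero : ∀ k w0, ∑ d ∈ D, ∑ e ∈ D,
      (if p (d * e⁻¹) = w0 then (y d - μ ^ w0.1.val * y e) ^ k else 0) = 0 := by
    intro k w0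
    have h1 := h.sum (fun g => if p g = w0 then y g ^ k else 0)
    have h2 : ∀ x : ZMod 5, ∀ x' : ZMod 5, 25 • x + 10 • x' = 0 := by
      intro x x'
      simp only [nsmul_eq_mul]
      push_cast
      linear_combination (5 * x + 2 * x') * e5
    rw [h2] at h1
    refine Eq.trans ?_ h1
    refine Finset.sum_congr rfl fun d _ => Finset.sum_congr rfl fun e _ => ?_
    by_cases e0 : p (d * e⁻¹) = w0
    · rw [if_pos e0, if_pos e0, hyd d e w0 e0]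
    · rw [if_neg e0, if_neg e0]
  have hm0 : ∀ w, m 0 w = 0 := by
    refine caseA1_aniso c.he _ fun w0 => ?_
    rw [← hconv]
    refine Eq.trans ?_ (hzero 0 w0)
    simp only [pow_zero, mul_one]
  have hm1 : ∀ w, m 1 w = 0 := by
    refine caseA1_aniso c.he _ fun w0 => ?_
    have hs := caseA1_s μ hμ w0.1
    have h1 := hzero 2 w0
    generalize μ ^ w0.1.val = s at hs h1
    have h2 : ∀ d e, (if p (d * e⁻¹) = w0 then (y d - s * y e) ^ 2 else 0) =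
        (if p (d * e⁻¹) = w0 then y d ^ 2 * y e ^ 0 else 0) +
        (-2 * s) * (if p (d * e⁻¹) = w0 then y d ^ 1 * y e ^ 1 else 0) +
        (s * s) * (if p (d * e⁻¹) = w0 then y d ^ 0 * y e ^ 2 else 0) := by
      intro d e
      split_ifs <;> ring
    simp only [h2, Finset.sum_add_distrib, ← Finset.mul_sum, hconv, hm0, mul_zero, zero_mul,
      Finset.sum_const_zero, zero_add, add_zero] at h1
    linear_combination (2 * s) * h1 + (4 * ∑ w, m 1 (caseA1_sh ε w0 w) * m 1 w) * hs +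
      (∑ w, m 1 (caseA1_sh ε w0 w) * m 1 w) * e5
  have hm2 : ∀ w, m 2 w = 0 := by
    refine caseA1_aniso c.he _ fun w0 => ?_
    have hs := caseA1_s μ hμ w0.1
    have h1 := hzero 4 w0
    generalize μ ^ w0.1.val = s at hs h1
    have h2 : ∀ d e, (if p (d * e⁻¹) = w0 then (y d - s * y e) ^ 4 else 0) =
        (if p (d * e⁻¹) = w0 then y d ^ 4 * y e ^ 0 else 0) +
        (-4 * s) * (if p (d * e⁻¹) = w0 then y d ^ 3 * y e ^ 1 else 0) +
        (6 * (s * s)) * (if p (d * e⁻¹) = w0 then y d ^ 2 * y e ^ 2 else 0) +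
        (-4 * s ^ 3) * (if p (d * e⁻¹) = w0 then y d ^ 1 * y e ^ 3 else 0) +
        (s ^ 4) * (if p (d * e⁻¹) = w0 then y d ^ 0 * y e ^ 4 else 0) := by
      intro d e
      split_ifs <;> ring
    simp only [h2, Finset.sum_add_distrib, ← Finset.mul_sum, hconv, hm0, hm1, mul_zero, zero_mul,
      Finset.sum_const_zero, zero_add, add_zero] at h1
    linear_combination h1 - (6 * ∑ w, m 2 (caseA1_sh ε w0 w) * m 2 w) * hs -
      (∑ w, m 2 (caseA1_sh ε w0 w) * m 2 w) * e5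
  have hin : ∀ t, 5 * ∑ z, Y t z + 5 * ∑ z, Y t z * Y t z ≤ 2 * ((∑ z, Y t z) * ∑ z, Y t z) :=
    fun t => caseA1_ineq (Y t) (hY4 t) ((hm 0 t).symm.trans (hm0 t)) ((hm 1 t).symm.trans (hm1 t))
      ((hm 2 t).symm.trans (hm2 t))
  have hsh : ∀ w, caseA1_sh ε (0, 0) w = w := by
    intro w; simp [caseA1_sh]
  have hp1 : p 1 = (0, 0) := by rw [hp, c.j1, c.u1]; rfl
  have t1 : ∑ t, ∑ z, Y t z = 35 := by
    have := hfib (fun _ _ => (1 : ℕ))
    simp only [smul_eq_mul, mul_one, Finset.sum_const, h.1] at this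
    exact this.symm
  have t2 : ∑ t, ∑ z, Y t z * Y t z = 65 := by
    have h1 := h.sum (fun g => (if p g = (0, 0) ∧ y g = 0 then 1 else 0 : ℕ))
    have h2 : ∑ g, (if p g = (0, 0) ∧ y g = 0 then 1 else 0 : ℕ) = 4 := by
      rw [← caseA1_cnt (0, 0) 0, ← c.sum (fun a b x =>
        (if (caseA1_c a, b) = ((0, 0) : ZMod 2 × ZMod 3) ∧ x = 0 then 1 else 0 : ℕ))]
      simp only [← hp]
    rw [h2, if_pos ⟨hp1, c.y1⟩] at h1
    have h3 : ∀ d e, (p (d * e⁻¹) = (0, 0) ∧ y (d * e⁻¹) = 0) ↔ (p e = p d ∧ y e = y d) := by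
      intro d e
      constructor
      · rintro ⟨a, b⟩
        rw [hyd d e _ a] at b
        rw [hpd, hsh] at a
        refine ⟨a.symm, ?_⟩
        simp only [ZMod.val_zero, pow_zero, one_mul] at b
        exact (sub_eq_zero.1 b).symm
      · rintro ⟨a, b⟩
        have a' : p (d * e⁻¹) = (0, 0) := by rw [hpd, hsh]; exact a.symm
        refine ⟨a', ?_⟩
        rw [hyd d e _ a', b]; simp
    simp only [h3, ← Finset.card_filter, ← hY] at h1
    rw [hfib Y] at h1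
    simpa using h1
  have t3 : ∑ t, (∑ z, Y t z) * ∑ z, Y t z = 225 := by
    have h1 := h.sum (fun g => (if p g = (0, 0) then 1 else 0 : ℕ))
    have h2 : ∑ g, (if p g = (0, 0) then 1 else 0 : ℕ) = 20 := by
      rw [← caseA1_cnt', ← c.sum (fun a b _ =>
        (if (caseA1_c a, b) = ((0, 0) : ZMod 2 × ZMod 3) then 1 else 0 : ℕ))]
      simp only [← hp]
    rw [h2, if_pos hp1] at h1
    have h3 : ∀ d, ∑ e ∈ D, (if p (d * e⁻¹) = (0, 0) then 1 else 0 : ℕ) = ∑ z, Y (p d) z := by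
      intro d
      simp only [hpd, hsh]
      rw [hfib (fun t _ => (if p d = t then 1 else 0 : ℕ)), Finset.sum_eq_single (p d)]
      · simp
      · intro t _ ht; simp [Ne.symm ht]
      · simp
    simp only [h3] at h1
    rw [hfib (fun t _ => ∑ z, Y t z)] at h1
    simp only [smul_eq_mul, ← Finset.sum_mul] at h1
    exact h1
  have hs := Finset.sum_le_sum (s := Finset.univ) fun t _ => hin t
  simp only [Finset.sum_add_distrib, ← Finset.mul_sum, t1, t2] at hs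
  rw [t3] at hs
  omega

end PellDS
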