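import Pool.Agent.P.MP_e9cc94_co.A2P
import Pool.Agent.P.MP_e9cc94_co.A2R2

set_option autoImplicit false

namespace PellDS.A2
open Finset

theorem exists_min {α : Type} (P : α → Prop) (f : α → ℕ) (h : ∃ a, P a) :
    ∃ a, P a ∧ ∀ b, P b → f a ≤ f b := by
  classical
  have h1 : ∃ n, ∃ a, P a ∧ f a = n := by obtain ⟨a, ha⟩ := h; exact ⟨_, a, ha, rfl⟩
  obtain ⟨a, ha, e⟩ := Nat.find_spec h1
  exact ⟨a, ha, fun b hb => e ▸ Nat.find_min' h1 ⟨b, hb, rfl⟩⟩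

theorem exists_min4 {α : Type} (P : α → Prop) (f1 f2 f3 f4 : α → ℕ) (h : ∃ a, P a) :
    ∃ a, P a ∧ (∀ b, P b → f1 a ≤ f1 b) ∧ (∀ b, P b → f1 b = f1 a → f2 a ≤ f2 b) ∧
      (∀ b, P b → f1 b = f1 a → f2 b = f2 a → f3 a ≤ f3 b) ∧
      (∀ b, P b → f1 b = f1 a → f2 b = f2 a → f3 b = f3 a → f4 a ≤ f4 b) := by
  obtain ⟨a1, p1, m1⟩ := exists_min P f1 h
  obtain ⟨a2, ⟨p2, e2⟩, m2⟩ := exists_min (fun b => P b ∧ f1 b = f1 a1) f2 ⟨a1, p1, rfl⟩
  obtain ⟨a3, ⟨p3, e3, e3'⟩, m3⟩ := exists_min (fun b => P b ∧ f1 b = f1 a1 ∧ f2 b = f2 a2) f3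
    ⟨a2, p2, e2, rfl⟩
  obtain ⟨a4, ⟨p4, e4, e4', e4''⟩, m4⟩ := exists_min
    (fun b => P b ∧ f1 b = f1 a1 ∧ f2 b = f2 a2 ∧ f3 b = f3 a3) f4 ⟨a3, p3, e3, e3', rfl⟩
  refine ⟨a4, p4, fun b hb => e4 ▸ m1 b hb, fun b hb h1 => e4' ▸ m2 b ⟨hb, h1.trans e4⟩,
    fun b hb h1 h2 => e4'' ▸ m3 b ⟨hb, h1.trans e4, h2.trans e4'⟩,
    fun b hb h1 h2 h3 => m4 b ⟨hb, h1.trans e4, h2.trans e4', h3.trans e4''⟩⟩

theorem hor_congr {f g : ℕ → ℕ} {l : List ℕ} (h : ∀ k ∈ l, f k = g k) : hor f l = hor g l := by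
  induction l with
  | nil => rfl
  | cons a l ih =>
    show f a + hor f l * 16 = g a + hor g l * 16
    rw [h a (by simp), ih fun k hk => h k (by simp [hk])]
theorem sm3 (f : ℕ → ℕ) : sm f l3 = ∑ a : ZMod 3, f a.val := by
  rw [sum3]; show f 0 + (f 1 + (f 2 + 0)) = f 0 + f 1 + f 2; ring
theorem sm4 (f : ℕ → ℕ) : sm f l4 = ∑ a : ZMod 4, f a.val := by
  rw [sum4]; show f 0 + (f 1 + (f 2 + (f 3 + 0))) = f 0 + f 1 + f 2 + f 3; ring
theorem sm5 (f : ℕ → ℕ) : sm f l5 = ∑ a : ZMod 5, f a.val := by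
  rw [sum5]; show f 0 + (f 1 + (f 2 + (f 3 + (f 4 + 0)))) = f 0 + f 1 + f 2 + f 3 + f 4; ring
theorem get5 (f : ZMod 5 → ℕ) {n : ℕ} (h : n < 5) : (row5 f).get n = f n := by
  interval_cases n <;> rfl
theorem get3 (f : ZMod 3 → ℕ) {n : ℕ} (h : n < 3) : (row3 f).get n = f n := by
  interval_cases n <;> rfl
theorem dot_row (f g : ZMod 5 → ℕ) : dot (row5 f) (row5 g) = ∑ z, f z * g z :=
  (sum5 fun z => f z * g z).symm
theorem dot3_row (f g : ZMod 3 → ℕ) : dot3 (row3 f) (row3 g) = ∑ z, f z * g z :=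
  (sum3 fun z => f z * g z).symm
theorem FF_cast {s : ℕ} (h : s < 4) : ((2 ^ s : ℕ) : ZMod 5) = FF s := by
  interval_cases s <;> rfl
def wn (e : Bool) : ℕ := if e then 1 else 2
theorem EE_cast (e : Bool) {s : ℕ} (h : s < 4) : ((wn e ^ s : ℕ) : ZMod 3) = EE e s := by
  cases e <;> interval_cases s <;> rfl
theorem rk_row (f : ZMod 5 → ℕ) (m d : ℕ) :
    rk (row5 f) m d = hor (fun k => f ((m : ZMod 5) * k + d)) [4, 3, 2, 1, 0] := by
  refine hor_congr fun k _ => ?_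
  show (row5 f).get ((m * k + d) % 5) = _
  rw [get5 _ (Nat.mod_lt _ (by decide)), ZMod.natCast_mod]; push_cast; rfl

variable {e : Bool}

def tR (X : Gm e → ℕ) : R5 := ⟨tt X 0, tt X 1, tt X 2, tt X 3, 0⟩
def MR (X : Gm e → ℕ) : M5 :=
  ⟨row5 (MM X 0), row5 (MM X 1), row5 (MM X 2), row5 (MM X 3), row5 (MM X 4)⟩
def CR (X : Gm e → ℕ) : C4 := ⟨row5 (cc X 0), row5 (cc X 1), row5 (cc X 2), row5 (cc X 3)⟩
def RR (X : Gm e → ℕ) : T4 := ⟨row3 (rr X 0), row3 (rr X 1), row3 (rr X 2), row3 (rr X 3)⟩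

theorem tR_get (X : Gm e → ℕ) {n : ℕ} (h : n < 4) : (tR X).get n = tt X n := by
  interval_cases n <;> rfl
theorem MR_row (X : Gm e → ℕ) {n : ℕ} (h : n < 5) : (MR X).row n = row5 (MM X n) := by
  interval_cases n <;> rfl
theorem CR_row (X : Gm e → ℕ) {n : ℕ} (h : n < 4) : (CR X).row n = row5 (cc X n) := by
  interval_cases n <;> rfl
theorem RR_row (X : Gm e → ℕ) {n : ℕ} (h : n < 4) : (RR X).row n = row3 (rr X n) := by
  interval_cases n <;> rfl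

theorem kt_eq (X : Gm e → ℕ) (s : ℕ) : kt (tR X) s = hor (fun a => tt X ((a : ZMod 4) + s)) l4 := by
  refine hor_congr fun k _ => ?_
  show (tR X).get ((k + s) % 4) = _
  rw [tR_get _ (Nat.mod_lt _ (by decide)), ZMod.natCast_mod]; push_cast; rfl
theorem teq_eq (X : Gm e → ℕ) (s : ℕ) : teq (tR X) s = ∑ a, tt X (a + s) * tt X a := by
  rw [teq, sm4]
  refine Finset.sum_congr rfl fun a _ => ?_
  show (tR X).get ((a.val + s) % 4) * (tR X).get a.val = _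
  rw [tR_get _ (Nat.mod_lt _ (by decide)), tR_get _ (ZMod.val_lt a), ZMod.natCast_mod]
  simp
theorem k12_eq (X : Gm e → ℕ) (m b d : ℕ) : k12 (MR X) m b d =
    hor (fun k => MM X (m + b) ((m : ZMod 5) * k + d)) [4, 3, 2, 1, 0] * 1048576 +
    hor (fun k => MM X (m * 2 + b) ((m : ZMod 5) * k + d)) [4, 3, 2, 1, 0] := by
  show rk ((MR X).row ((m + b) % 5)) m d * 1048576 + rk ((MR X).row ((m * 2 + b) % 5)) m d = _
  rw [MR_row _ (Nat.mod_lt _ (by decide)), MR_row _ (Nat.mod_lt _ (by decide)), rk_row, rk_row,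
    ZMod.natCast_mod, ZMod.natCast_mod]
  push_cast; rfl
theorem kr_eq (X : Gm e → ℕ) (x y : ℕ) : kr (wn e) (RR X) x y =
    hor (fun i => rr X (i / 3 : ℕ) (((i % 3 : ℕ) : ZMod 3) + x + EE e (i / 3 : ℕ) * y))
      [11, 10, 9, 8, 7, 6, 5, 4, 3, 2, 1, 0] := by
  refine hor_congr fun k hk => ?_
  have hk' : k / 3 < 4 := by
    simp only [List.mem_cons, List.not_mem_nil, or_false] at hk; omega
  show ((RR X).row (k / 3)).get ((k % 3 + x + wn e ^ (k / 3) * y) % 3) = _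
  rw [RR_row _ hk', get3 _ (Nat.mod_lt _ (by decide)), ZMod.natCast_mod, Nat.cast_add, Nat.cast_add,
    Nat.cast_mul, EE_cast e hk']
theorem req_eq (X : Gm e → ℕ) (b0 : ℕ) : req (wn e) (RR X) 1 b0 =
    ∑ a, ∑ b, rr X (a + 1) (b0 + EE e 1 * b) * rr X a b := by
  rw [req, sm4]
  refine Finset.sum_congr rfl fun a _ => ?_
  rw [sm3]
  refine Finset.sum_congr rfl fun b _ => ?_
  show ((RR X).row ((a.val + 1) % 4)).get ((b0 + wn e ^ 1 * b.val) % 3) *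
    ((RR X).row a.val).get b.val = _
  rw [RR_row _ (Nat.mod_lt _ (by decide)), RR_row _ (ZMod.val_lt a),
    get3 _ (Nat.mod_lt _ (by decide)), get3 _ (ZMod.val_lt b), ZMod.natCast_mod, ZMod.natCast_mod,
    Nat.cast_add, Nat.cast_add, Nat.cast_mul, EE_cast e (by decide)]
  simp
theorem sj_eq (X : Gm e → ℕ) {j : ℕ} (hj : j < 4) (y : ℕ) :
    sj (MR X) (tR X) j y = ∑ k, MM X (y + FF j * k) k + tt X j := by
  show sm (fun k => ((MR X).row ((y + 2 ^ j * k) % 5)).get k) l5 + (tR X).get j = _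
  rw [sm5, tR_get _ hj]
  congr 1
  refine Finset.sum_congr rfl fun k _ => ?_
  rw [MR_row _ (Nat.mod_lt _ (by decide)), get5 _ (ZMod.val_lt k), ZMod.natCast_mod, Nat.cast_add,
    Nat.cast_mul, FF_cast hj]
  simp

theorem no_sol (X0 : Gm e → ℕ) (h0 : Sol X0) : False := by
  obtain ⟨X, h, m1, m2, m3, m4⟩ := exists_min4 (Sol (e := e)) (fun X => kt (tR X) 0)
    (fun X => rk (MR X).r0 1 0) (fun X => k12 (MR X) 1 0 0) (fun X => kr (wn e) (RR X) 0 0) ⟨X0, h0⟩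
  have hT : tR X ∈ T3 := by
    refine chkT_sound chkT_true _ _ _ _ (by rw [← sum4]; exact h.tt_tot)
      ((teq_eq X 0).trans (h.tt_eqn _)) ((teq_eq X 1).trans (h.tt_eqn _))
      ((teq_eq X 2).trans (h.tt_eqn _)) fun s _ => ?_
    refine (m1 _ (h.tr (mg e s 0 0) (mg e 0 0 0))).trans (le_of_eq ?_)
    show kt (tR (trl X _ _)) 0 = kt (tR X) s
    simp only [kt_eq, tt_trl, Nat.cast_zero, add_zero, add_comm]
  have tr : ∀ (s : ZMod 4) (x y : ZMod 3) (c d : ZMod 5),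
      tR (trl X (mg e s x c) (mg e (-s) y d)) = tR X := by
    intro s x y c d
    simp [tR, tt_trl]
  have k0 : ∀ s < 4, ∀ b < 5, ∀ (d : ℕ) (x y : ZMod 3),
      rk (MR (trl X (mg e (s : ℕ) x (b : ℕ)) (mg e (-(s : ℕ)) y (-(FF (-(s : ℕ)) * d))))).r0 1 0 =
        rk ((MR X).row b) (2 ^ s) d := by
    intro s hs b hb d x y
    rw [MR_row _ hb, rk_row, FF_cast hs]
    show rk (row5 _) 1 0 = _
    rw [rk_row]
    simp [MM_trl]
  have k1 : ∀ s < 4, ∀ (b d : ℕ) (x y : ZMod 3),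
      k12 (MR (trl X (mg e (s : ℕ) x (b : ℕ)) (mg e (-(s : ℕ)) y (-(FF (-(s : ℕ)) * d))))) 1 0 0 =
        k12 (MR X) (2 ^ s) b d := by
    intro s hs b d x y
    rw [k12_eq, k12_eq, FF_cast hs]
    simp [MM_trl]
  have cinj : ∀ i < 5, ∀ k < 5, i ≠ k → ((i : ℕ) : ZMod 5) ≠ (k : ℕ) := by decide
  have hC : CR X ∈ Creps := by
    refine cOK_sound (chkM_sound chkM_true (MR X) ?_ ?_ ?_ ?_ ?_ hT) (CR X) ?_
    · intro i hi; rw [MR_row _ hi, row5_sm, h.MM_row]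
    · intro i hi; rw [MR_row _ hi, dot_row, h.MM_eqn, if_pos rfl]
    · intro i hi k hk hik
      rw [MR_row _ hi, MR_row _ hk, dot_row, h.MM_eqn, if_neg (cinj i hi k hk hik)]
    · intro s hs b hb d _
      rw [← k0 s hs b hb d 0 0]
      exact m2 _ (h.tr _ _) (congrArg (kt · 0) (tr _ _ _ _ _))
    · intro s hs b hb d _ hh
      rw [← k1 s hs b d 0 0]
      exact m3 _ (h.tr _ _) (congrArg (kt · 0) (tr _ _ _ _ _)) ((k0 s hs b hb d 0 0).trans hh)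
    · intro j hj y hy
      rw [CR_row _ hj, get5 _ hy, sj_eq X hj]
      exact ⟨h.cc_le _ _, h.MM_cc _ _⟩
  have hR : ∀ R, chkR (wn e) R = true → RR X ∈ R := by
    intro R hR
    have a2 : ∀ e, EE e 2 = 1 := by decide
    refine chkR_sound hR (RR X) ?_ ?_ ?_ ((req_eq X 1).trans (h.rr_eqn 1 _))
      ((req_eq X 2).trans (h.rr_eqn 1 _)) ?_
    · simp only [RR, row3_sm, ← tt_eq]; exact hT
    · have := h.rr_eqn 0 0
      simp only [add_zero, zero_add, EE_zero, one_mul, and_self, if_true] at this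
      rw [sum4] at this
      simp only [RR, dot3_row]; exact this
    · have := h.rr_eqn 2 0
      rw [if_neg (by decide), sum4] at this
      simp only [zero_add, a2, one_mul] at this
      rw [show (1 : ZMod 4) + 2 = 3 from rfl, show (2 : ZMod 4) + 2 = 0 from rfl,
        show (3 : ZMod 4) + 2 = 1 from rfl] at this
      simp only [RR, dot3_row]
      simp only [mul_comm] at this ⊢
      omega
    · intro x _ y _
      have e1 : (mg e 0 y 0 : Gm e) = mg e (-((0 : ℕ) : ZMod 4)) y (-(FF (-((0 : ℕ) : ZMod 4)) *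
          ((0 : ℕ) : ZMod 5))) := by simp
      have e2 : (mg e 0 x 0 : Gm e) = mg e ((0 : ℕ) : ZMod 4) x ((0 : ℕ) : ZMod 5) := by simp
      refine (m4 (trl X (mg e 0 x 0) (mg e 0 y 0)) (h.tr _ _) ?_ ?_ ?_).trans (le_of_eq ?_)
      · rw [e1, e2]; exact congrArg (kt · 0) (tr _ _ _ _ _)
      · rw [e1, e2]; exact k0 0 (by decide) 0 (by decide) 0 _ _
      · rw [e1, e2]; exact k1 0 (by decide) 0 0 _ _
      · show kr (wn e) (RR (trl X _ _)) 0 0 = _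
        simp only [kr_eq, rr_trl, Nat.cast_zero, add_zero, mul_zero]
  obtain ⟨i, hi, ei⟩ := List.getElem_of_mem hC
  have ei' : Creps.getD i cz = CR X := by rw [List.getD_eq_getElem _ _ hi, ei]
  refine h.last ?_
  cases e
  · have := (al_iff _ _).1 (xm i hi) _ (hR Rm chkR_m)
    rw [ei'] at this; exact this
  · have := (al_iff _ _).1 (xp i hi) _ (hR Rp chkR_p)
    rw [ei'] at this; exact this

end PellDS.A2

namespace PellDS

variable {G : Type} [Group G] [Fintype G] [DecidableEq G] {D : Finset G}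

theorem caseA2 (h : DS D) {ε : ZMod 3} {j : G → ZMod 8} {u : G → ZMod 3}
    {y : G → ZMod 5} (c : Coord ε 2 j u y) : False := by
  have : ∀ ε : ZMod 3, ε ≠ 0 → ∃ e, ε = A2.ep e := by decide
  obtain ⟨e, rfl⟩ := this ε c.he
  obtain ⟨X, hX⟩ := A2.exists_sol h c
  exact A2.no_sol X hX

end PellDS
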