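import Pool.Agent.P.MP_e9cc94_co.Basic

set_option autoImplicit false

namespace PellDS
open Finset

variable {G : Type} [Group G] [Fintype G] [DecidableEq G] {D : Finset G}

open Classical in
/-- extension by zero -/
noncomputable def casebExt (H : Subgroup G) (χ : H →* ℤˣ) (g : G) : ℤ :=
  if h : g ∈ H then ((χ ⟨g, h⟩ : ℤˣ) : ℤ) else 0

omit [Fintype G] [DecidableEq G] in
theorem caseb_pos {H : Subgroup G} (χ : H →* ℤˣ) {g : G} (h : g ∈ H) :
    casebExt H χ g = ((χ ⟨g, h⟩ : ℤˣ) : ℤ) := dif_pos h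

omit [Fintype G] [DecidableEq G] in
theorem caseb_neg {H : Subgroup G} (χ : H →* ℤˣ) {g : G} (h : g ∉ H) :
    casebExt H χ g = 0 := dif_neg h

omit [Fintype G] [DecidableEq G] in
theorem caseb_mul {H : Subgroup G} (χ : H →* ℤˣ) (g : G) {k : G} (hk : k ∈ H) :
    casebExt H χ g * casebExt H χ k = casebExt H χ (g * k⁻¹) := by
  by_cases hg : g ∈ H
  · rw [caseb_pos χ hg, caseb_pos χ hk, caseb_pos χ (H.mul_mem hg (H.inv_mem hk))]
    have : (⟨g * k⁻¹, H.mul_mem hg (H.inv_mem hk)⟩ : H) = ⟨g, hg⟩ * (⟨k, hk⟩ : H)⁻¹ := rfl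
    rw [this, map_mul, map_inv, Int.units_inv_eq_self, Units.val_mul]
  · rw [caseb_neg χ hg, zero_mul, caseb_neg]
    intro h
    exact hg ((H.mul_mem_cancel_right (H.inv_mem hk)).1 h)

omit [DecidableEq G] in
theorem caseb_tr (H : Subgroup G) (hH : H.index = 3) :
    ∃ t : Fin 3 → G, ∀ g : G, ∃ i, g * t i ∈ H ∧ ∀ j, j ≠ i → g * t j ∉ H := by
  have hc : Nat.card (G ⧸ H) = 3 := hH
  have e : (G ⧸ H) ≃ Fin 3 := Finite.equivFinOfCardEq hc
  refine ⟨fun i => (e.symm i).out, fun g => ?_⟩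
  have key : ∀ i, g * (e.symm i).out ∈ H ↔ e (QuotientGroup.mk g⁻¹) = i := by
    intro i
    rw [← Equiv.eq_symm_apply, ← QuotientGroup.out_eq' (e.symm i), QuotientGroup.eq, inv_inv,
      QuotientGroup.out_eq']
  exact ⟨_, (key _).2 rfl, fun j hj h => hj ((key j).1 h).symm⟩

omit [DecidableEq G] in
theorem caseb_tot (H : Subgroup G) (χ : H →* ℤˣ) [Fintype H] :
    ∑ g, casebExt H χ g = ∑ k : H, ((χ k : ℤˣ) : ℤ) := by
  classical
  rw [← Finset.sum_filter_of_ne (s := univ) (p := fun g => g ∈ H)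
    (fun g _ hg => by_contra fun h => hg (caseb_neg χ h))]
  rw [Finset.sum_subtype (p := fun g => g ∈ H) (univ.filter fun g => g ∈ H) (by simp)]
  exact Finset.sum_congr rfl fun k _ => caseb_pos χ k.2

theorem caseb_sq (h : DS D) {H : Subgroup G} (χ : H →* ℤˣ) {t : Fin 3 → G}
    (ht : ∀ g : G, ∃ i, g * t i ∈ H ∧ ∀ j, j ≠ i → g * t j ∉ H) :
    ∑ i, (∑ d ∈ D, casebExt H χ (d * t i)) * (∑ d ∈ D, casebExt H χ (d * t i)) =
      25 + 10 * ∑ g, casebExt H χ g := by
  have key : ∀ d e : G, ∑ i, casebExt H χ (d * t i) * casebExt H χ (e * t i) =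
      casebExt H χ (d * e⁻¹) := by
    intro d e
    obtain ⟨i, hi, hj⟩ := ht e
    rw [Finset.sum_eq_single i (fun j _ hne => by rw [caseb_neg χ (hj j hne), mul_zero])
      (fun hn => absurd (mem_univ i) hn), caseb_mul χ _ hi]
    congr 1
    group
  have h1 := h.sum (casebExt H χ)
  rw [caseb_pos χ H.one_mem, show (⟨1, H.one_mem⟩ : H) = 1 from rfl, map_one] at h1
  simp only [Finset.sum_mul_sum]
  rw [Finset.sum_comm]
  rw [Finset.sum_congr rfl fun d _ => Finset.sum_comm]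
  simp only [key]
  rw [h1]
  simp

theorem caseb_num : ∀ a ∈ Finset.Icc (-5 : ℤ) 5, ∀ b ∈ Finset.Icc (-5 : ℤ) 5,
    ∀ c ∈ Finset.Icc (-5 : ℤ) 5, a * a + b * b + c * c = 25 →
      (a = 0 ∨ b = 0 ∨ c = 0) ∧ a % 4 ≠ 2 ∧ b % 4 ≠ 2 ∧ c % 4 ≠ 2 := by
  decide +kernel

theorem caseb_num' (m : Fin 3 → ℤ) (h : ∑ i, m i * m i = 25) :
    (∃ i, m i = 0) ∧ ∀ i, m i % 4 ≠ 2 := by
  rw [Fin.sum_univ_three] at h
  have b : ∀ x y z : ℤ, x * x + y * y + z * z = 25 → x ∈ Finset.Icc (-5 : ℤ) 5 := by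
    intro x y z e
    rw [Finset.mem_Icc]
    constructor <;> nlinarith [mul_self_nonneg y, mul_self_nonneg z]
  obtain ⟨h0, h1, h2, h3⟩ := caseb_num _ (b _ _ _ h) _ (b (m 1) (m 0) (m 2) (by linarith)) _
    (b (m 2) (m 0) (m 1) (by linarith)) h
  refine ⟨?_, fun i => ?_⟩
  · rcases h0 with e | e | e
    exacts [⟨0, e⟩, ⟨1, e⟩, ⟨2, e⟩]
  · fin_cases i
    exacts [h1, h2, h3]

theorem caseB_core (h : DS D) (hG : Fintype.card G = 120) (H : Subgroup G) (hH : H.index = 3)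
    (α β : H →* ℤˣ) (hα : α ≠ 1) (hβ : β ≠ 1) (hαβ : α * β ≠ 1) : False := by
  classical
  obtain ⟨t, ht⟩ := caseb_tr H hH
  have hcard : Fintype.card H = 40 := by
    have := H.card_mul_index
    rw [hH, Nat.card_eq_fintype_card, Nat.card_eq_fintype_card, hG] at this
    omega
  have hz : ∀ χ : H →* ℤˣ, χ ≠ 1 → ∀ i, (∑ d ∈ D, casebExt H χ (d * t i)) % 4 ≠ 2 := by
    intro χ hχ
    have h1 := caseb_sq h χ ht
    have h2 : ∑ k : H, ((χ k : ℤˣ) : ℤ) = 0 := by
      refine sum_hom_units_eq_zero ((Units.coeHom ℤ).comp χ) fun e => hχ ?_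
      ext k
      simpa using DFunLike.congr_fun e k
    rw [caseb_tot, h2, mul_zero, add_zero] at h1
    exact (caseb_num' _ h1).2
  have h1 := caseb_sq h 1 ht
  rw [caseb_tot] at h1
  simp only [MonoidHom.one_apply, Units.val_one, sum_const, card_univ, hcard] at h1
  have h2 : ∑ i, ∑ d ∈ D, casebExt H 1 (d * t i) = 35 := by
    rw [Finset.sum_comm, Finset.sum_congr rfl (g := fun _ => (1 : ℤ)), sum_const, h.1]
    · rfl
    · intro d _
      obtain ⟨i, hi, hj⟩ := ht d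
      rw [Finset.sum_eq_single i (fun j _ hne => caseb_neg 1 (hj j hne))
        (fun hn => absurd (mem_univ i) hn), caseb_pos 1 hi]
      rfl
  obtain ⟨i, hi⟩ := (caseb_num' (fun i => ∑ d ∈ D, casebExt H 1 (d * t i) - 10) (by
    rw [Fin.sum_univ_three] at h1 h2 ⊢
    simp only [nsmul_eq_mul] at h1
    linear_combination h1 - 20 * h2)).1
  have par : ∀ χ : H →* ℤˣ, (2 : ℤ) ∣ ∑ d ∈ D, casebExt H 1 (d * t i) -
      ∑ d ∈ D, casebExt H χ (d * t i) := by
    intro χ
    rw [← Finset.sum_sub_distrib]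
    refine Finset.dvd_sum fun d _ => ?_
    by_cases hd : d * t i ∈ H
    · rw [caseb_pos _ hd, caseb_pos _ hd]
      rcases Int.units_eq_one_or (χ ⟨_, hd⟩) with e | e <;> simp [e]
    · simp [caseb_neg _ hd]
  have four : (4 : ℤ) ∣ ∑ d ∈ D, casebExt H 1 (d * t i) + ∑ d ∈ D, casebExt H α (d * t i) +
      ∑ d ∈ D, casebExt H β (d * t i) + ∑ d ∈ D, casebExt H (α * β) (d * t i) := by
    rw [← Finset.sum_add_distrib, ← Finset.sum_add_distrib, ← Finset.sum_add_distrib]
    refine Finset.dvd_sum fun d _ => ?_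
    by_cases hd : d * t i ∈ H
    · rw [caseb_pos _ hd, caseb_pos _ hd, caseb_pos _ hd, caseb_pos _ hd, MonoidHom.mul_apply]
      rcases Int.units_eq_one_or (α ⟨_, hd⟩) with e | e <;>
        rcases Int.units_eq_one_or (β ⟨_, hd⟩) with e' | e' <;> simp [e, e']
    · simp [caseb_neg _ hd]
  have a1 := hz α hα i
  have a2 := hz β hβ i
  have a3 := hz _ hαβ i
  have b1 := par α
  have b2 := par β
  have b3 := par (α * β)
  omega

theorem caseb_sign {S : Type} [Group S] (A : Subgroup S) (h : A.index = 2) :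
    ∃ α : S →* ℤˣ, (∀ g ∈ A, α g = 1) ∧ ∀ g, g ∉ A → α g = -1 := by
  classical
  refine ⟨MonoidHom.mk' (fun g => if g ∈ A then 1 else -1) fun a b => ?_, fun g hg => if_pos hg,
    fun g hg => if_neg hg⟩
  rw [Subgroup.mul_mem_iff_of_index_two h]
  by_cases ha : a ∈ A <;> by_cases hb : b ∈ A <;> simp [ha, hb]

theorem caseb_eight {S : Type} [Group S] [Finite S] (hc : Nat.card S = 8)
    (h8 : ∀ x : S, orderOf x ≠ 8) : ∃ α β : S →* ℤˣ, α ≠ 1 ∧ β ≠ 1 ∧ α * β ≠ 1 := by
  have hidx : ∀ A : Subgroup S, Nat.card A = 2 ^ 2 → A.index = 2 ∧ ∃ x, x ∉ A := by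
    intro A hA
    have h1 := A.card_mul_index
    rw [hA, hc] at h1
    have h2 : A.index = 2 := by omega
    refine ⟨h2, ?_⟩
    by_contra hn
    push Not at hn
    rw [(Subgroup.eq_top_iff' A).2 hn, Subgroup.index_top] at h2
    omega
  have hd : 2 ^ 2 ∣ Nat.card S := by rw [hc]; norm_num
  obtain ⟨A, hA⟩ := Sylow.exists_subgroup_card_pow_prime 2 hd
  obtain ⟨iA, x, hx⟩ := hidx A hA
  have ho : orderOf x ∣ 2 ^ 3 := by
    have := orderOf_dvd_natCard x
    rwa [hc] at this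
  obtain ⟨n, hn, e⟩ := (Nat.dvd_prime_pow Nat.prime_two).1 ho
  have hn2 : n ≤ 2 := by
    by_contra hlt
    have : n = 3 := by omega
    exact h8 x (by rw [e, this]; norm_num)
  obtain ⟨B, hB, hxB⟩ := Sylow.exists_subgroup_card_pow_prime_le 2 hd (Subgroup.zpowers x)
    (by rw [Nat.card_zpowers, e]) hn2
  obtain ⟨iB, y, hy⟩ := hidx B hB
  obtain ⟨α, -, a2⟩ := caseb_sign A iA
  obtain ⟨β, b1, b2⟩ := caseb_sign B iB
  refine ⟨α, β, fun e => ?_, fun e => ?_, fun e => ?_⟩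
  · have := a2 x hx
    rw [e, MonoidHom.one_apply] at this
    exact absurd this (by decide)
  · have := b2 y hy
    rw [e, MonoidHom.one_apply] at this
    exact absurd this (by decide)
  · have := DFunLike.congr_fun e x
    rw [MonoidHom.mul_apply, a2 x hx, b1 x (hxB (Subgroup.mem_zpowers x)),
      MonoidHom.one_apply] at this
    exact absurd this (by decide)

theorem caseB (h : DS D) (hG : Fintype.card G = 120) (h8 : ∀ x : G, orderOf x ≠ 8)
    (h5 : Nat.card (Sylow 5 G) = 1) : False := by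
  have : Fact (Nat.Prime 5) := ⟨by norm_num⟩
  have hG' : Nat.card G = 120 := by rw [Nat.card_eq_fintype_card, hG]
  have hsub : Subsingleton (Sylow 5 G) := (Nat.card_eq_one_iff_unique.1 h5).1
  obtain ⟨P⟩ : Nonempty (Sylow 5 G) := inferInstance
  have hN : (P : Subgroup G).Normal := Sylow.normal_of_subsingleton P
  have hP : Nat.card (P : Subgroup G) = 5 := by
    have h1 := P.card_eq_multiplicity
    have h2 : Nat.factorization 120 5 = 1 := by decide +kernel
    rw [hG', h2] at h1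
    exact h1
  have hQ : Nat.card (G ⧸ (P : Subgroup G)) = 24 := by
    have h1 := (P : Subgroup G).card_mul_index
    rw [hP, hG'] at h1
    have h2 : (P : Subgroup G).index = 24 := by omega
    exact h2
  obtain ⟨S, hS⟩ := Sylow.exists_subgroup_card_pow_prime (G := G ⧸ (P : Subgroup G)) 2 (n := 3)
    (by rw [hQ]; norm_num)
  have hSi : S.index = 3 := by
    have h1 := S.card_mul_index
    rw [hS, hQ] at h1
    omega
  have hsur := QuotientGroup.mk'_surjective (P : Subgroup G)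
  obtain ⟨α, β, h1, h2, h3⟩ := caseb_eight (S := S) hS (by
    intro y hy
    obtain ⟨x, hx⟩ := hsur y.1
    have d1 : 8 ∣ orderOf x := by
      rw [← hy, ← Subgroup.orderOf_coe, ← hx]
      exact orderOf_map_dvd _ x
    exact h8 _ (orderOf_pow_orderOf_div (orderOf_pos x).ne' d1))
  have hφ := MonoidHom.subgroupComap_surjective_of_surjective
    (QuotientGroup.mk' (P : Subgroup G)) S hsur
  have key : ∀ γ : S →* ℤˣ, γ ≠ 1 →
      γ.comp ((QuotientGroup.mk' (P : Subgroup G)).subgroupComap S) ≠ 1 := by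
    intro γ hγ e
    apply hγ
    refine MonoidHom.ext fun y => ?_
    obtain ⟨x, rfl⟩ := hφ y
    exact DFunLike.congr_fun e x
  exact caseB_core h hG (S.comap (QuotientGroup.mk' (P : Subgroup G)))
    ((S.index_comap_of_surjective hsur).trans hSi) _ _ (key α h1) (key β h2) (key _ h3)

end PellDS
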