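import Pool.Agent.P.MP_e9cc94_co.C2Enum

set_option autoImplicit false

namespace PellDS
open Finset Matrix

variable {G : Type} [Group G] {π : G →* Equiv.Perm (Fin 6)}

/-- the signed matrix of a subset -/
def casec2_N (π : G →* Equiv.Perm (Fin 6)) (D : Finset G) : Matrix (Fin 6) (Fin 6) ℤ :=
  ∑ d ∈ D, mono (fun g i => π g i) (fun g i => sig (π g) i) d

theorem casec2_comm (hπ : Act π) (hev : ∀ g, sg (π g) = 1) (g : G) :
    mono (fun g i => π g i) (fun g i => sig (π g) i) g * SS =
      SS * mono (fun g i => π g i) (fun g i => sig (π g) i) g := by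
  ext i l
  obtain ⟨k, rfl⟩ := (π g).surjective i
  simp only [mono, Matrix.mul_apply, Matrix.of_apply]
  rw [Finset.sum_eq_single k, Finset.sum_eq_single (π g l)]
  · rw [if_pos rfl, if_pos rfl, sig_SS _ (hπ.mem g) (hev g)]
    linear_combination (-(sig (π g) k * SS k l)) * sig_sq (π g) l
  · intro b _ hb; rw [if_neg (Ne.symm hb), mul_zero]
  · simp
  · intro b _ hb; rw [if_neg (fun e => hb ((π g).injective e)), zero_mul]
  · simp

theorem casec2_gram [Fintype G] [DecidableEq G] {D : Finset G} (h : DS D) (hπ : Act π)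
    (hev : ∀ g, sg (π g) = 1) (i i' : Fin 6) :
    ∑ k, casec2_N π D i k * casec2_N π D i' k = if i = i' then 25 else 0 := by
  have h1 := (hπ.monoSig hev).gram_apply h i i'
  rw [hπ.totSig hev] at h1
  simpa [casec2_N] using h1

theorem casec2_SS [Fintype G] [DecidableEq G] {D : Finset G} (h : DS D) (hπ : Act π)
    (hev : ∀ g, sg (π g) = 1) (i i' : Fin 6) :
    ∑ k, ∑ l, casec2_N π D i k * SS k l * casec2_N π D i' l = 25 * SS i i' := by
  have h1 : casec2_N π D * SS = SS * casec2_N π D := by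
    unfold casec2_N
    rw [Finset.sum_mul, Finset.mul_sum]
    exact Finset.sum_congr rfl fun d _ => casec2_comm hπ hev d
  have h2 : casec2_N π D * (casec2_N π D)ᵀ = 25 • 1 := by
    have := (hπ.monoSig hev).gram h
    rw [hπ.totSig hev, smul_zero, add_zero] at this
    exact this
  have h3 : casec2_N π D * SS * (casec2_N π D)ᵀ = 25 • SS := by
    rw [h1, Matrix.mul_assoc, h2, Matrix.mul_smul, Matrix.mul_one]
  have h4 := congrFun (congrFun h3 i) i'
  simp only [Matrix.mul_apply, Matrix.transpose_apply, Finset.sum_mul, Matrix.smul_apply,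
    nsmul_eq_mul, Nat.cast_ofNat] at h4
  rw [Finset.sum_comm]
  exact h4

theorem casec2_odd (p : Fin 6 → Fin 6) (x : Fin 6) (a : ℤ) : Odd (a * sig p x) ↔ Odd a := by
  unfold sig
  split_ifs <;> simp

theorem casec2_right [DecidableEq G] (hπ : Act π) (hev : ∀ g, sg (π g) = 1) (D : Finset G) (g : G)
    (i k : Fin 6) :
    Odd (casec2_N π (D.image fun d => 1 * d * g) i k) ↔ Odd (casec2_N π D i (π g k)) := by
  unfold casec2_N
  rw [(hπ.monoSig hev).sum_right, casec2_odd]

theorem casec2_four : ∀ p ∈ L120, sg p = 1 →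
    (∑ i, ((if p i = G0 i then 1 else 0) - sig G0 i * if p i = G0 i then sig p i else 0)) % 4 = 0 :=
  allL (by decide +kernel)

theorem casec2_end [Fintype G] [DecidableEq G] {D : Finset G} (h : DS D)
    (hG : Fintype.card G = 120) (hπ : Act π) (hev : ∀ g, sg (π g) = 1)
    (hp : ∀ i k, Odd (casec2_N π D i k) ↔ i = k) (h4 : (∑ i, casec2_N π D (G0 i) i) % 4 = 0) :
    False := by
  have h1 := c2_C (∑ d ∈ D, mono (fun g i => π g i) (fun _ _ => 1) d)
    (fun i i' => by
      have := (mono6 π).gram_apply h i i'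
      rw [hπ.tot6 hG] at this
      simpa using this)
    (fun i => by
      have := (mono6 π).row (s := fun _ => 1) D i
      rw [this, Finset.sum_const, h.1]
      rfl)
    (fun i k => by
      have := mono_parity (fun g i => π g i) (fun g i => sig (π g) i) (fun _ _ => sig_sq _ _) D i k
      rw [← hp, Int.odd_iff, Int.odd_iff]
      unfold casec2_N
      unfold Int.ModEq at this
      rw [this])
  have h2 : (4 : ℤ) ∣ ∑ i, ((∑ d ∈ D, mono (fun g i => π g i) (fun _ _ => 1) d) (G0 i) i -
      sig G0 i * casec2_N π D (G0 i) i) := by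
    unfold casec2_N
    simp only [Matrix.sum_apply, Finset.mul_sum, ← Finset.sum_sub_distrib]
    rw [Finset.sum_comm]
    refine Finset.dvd_sum fun d _ => Int.dvd_of_emod_eq_zero ?_
    simp only [mono, Matrix.of_apply]
    exact casec2_four _ (hπ.mem d) (hev d)
  have h3 : (4 : ℤ) ∣ ∑ i, (sig G0 i * casec2_N π D (G0 i) i - casec2_N π D (G0 i) i) := by
    refine Finset.dvd_sum fun i _ => ?_
    have h5 : G0 i ≠ i := by revert i; decide
    have h6 := mt (hp (G0 i) i).1 h5
    rw [Int.odd_iff] at h6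
    unfold sig
    split_ifs <;> omega
  rw [Finset.sum_sub_distrib] at h2 h3
  omega

theorem caseC2 [Fintype G] [DecidableEq G] {D : Finset G} (h : DS D) (hG : Fintype.card G = 120)
    (hπ : Act π) (hev : ∀ g, sg (π g) = 1) : False := by
  have hrow : ∀ i, ∃ k, ∀ l, Odd (casec2_N π D i l) ↔ l = k := fun i =>
    c2_row _ (by rw [casec2_gram h hπ hev, if_pos rfl])
      (by
        rw [casec2_SS h hπ hev]
        have : SS i i = 0 := by revert i; decide
        rw [this, mul_zero])
  obtain ⟨k5, h5⟩ := hrow 5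
  obtain ⟨k0, h0⟩ := hrow 0
  have hne : k5 ≠ k0 := by
    rintro rfl
    have h1 := casec2_gram h hπ hev 5 0
    rw [if_neg (by decide), ← Finset.add_sum_erase _ _ (mem_univ k5)] at h1
    have h2 : Odd (casec2_N π D 5 k5 * casec2_N π D 0 k5) := ((h5 _).2 rfl).mul ((h0 _).2 rfl)
    have h3 : Even (∑ k ∈ univ.erase k5, casec2_N π D 5 k * casec2_N π D 0 k) :=
      Finset.even_sum _ fun k hk =>
        (Int.not_odd_iff_even.1 (mt (h5 k).1 (ne_of_mem_erase hk))).mul_right _
    have h4 := h2.add_even h3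
    rw [h1] at h4
    exact absurd h4 (by decide)
  obtain ⟨p, hp, hs, e5, e0⟩ := even_tr66 k5 k0 hne
  obtain ⟨g, rfl⟩ := hπ.surj hp hs
  have hD := h.translate 1 g
  have o5 := (casec2_right hπ hev D g 5 5).2 ((h5 _).2 e5)
  have o0 := (casec2_right hπ hev D g 0 0).2 ((h0 _).2 e0)
  generalize D.image (fun d => 1 * d * g) = E at hD o5 o0
  rcases c2_D _ (casec2_gram hD hπ hev) (casec2_SS hD hπ hev) o5 o0 with ⟨h1, h2⟩ | ⟨h1, h2⟩
  · exact casec2_end hD hG hπ hev h1 h2
  · have hq : (![0,4,3,2,1,5] : Fin 6 → Fin 6) ∈ L120 ∧ sg ![0,4,3,2,1,5] = 1 := by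
      decide +kernel
    obtain ⟨t, ht⟩ := hπ.surj hq.1 hq.2
    have hE := hD.translate 1 t
    have q5 := (casec2_right hπ hev E t 5 5).2 (by rw [ht]; exact o5)
    have q0 := (casec2_right hπ hev E t 0 0).2 (by rw [ht]; exact o0)
    have q1 := (casec2_right hπ hev E t 1 1).2 (by rw [ht]; exact h1)
    rcases c2_D _ (casec2_gram hE hπ hev) (casec2_SS hE hπ hev) q5 q0 with ⟨h3, h4⟩ | ⟨-, h4⟩
    · exact casec2_end hE hG hπ hev h3 h4
    · exact Int.not_odd_iff_even.2 h4 q1

end PellDS
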