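import Mathlib

/-! Difference sets and dihedral sections: the induced matrices. -/

set_option autoImplicit false
set_option linter.unusedSectionVars false

namespace Pool.Agent.P.MP_e9cc94_co.Dih

open Finset Matrix DihedralGroup

variable {A B : Type} [CommRing A] [CommRing B] {m : ℕ}

/-- the two-dimensional representation attached to a root of unity `y` -/
def rho (y : A) : DihedralGroup m → Matrix Bool Bool A
  | r i => of fun a b => if a = b then y ^ (if a then i else -i).val else 0
  | sr i => of fun a b => if a = b then 0 else y ^ (if b then i else -i).val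

theorem pw_add [NeZero m] {y : A} (hy : y ^ m = 1) (i j : ZMod m) :
    y ^ i.val * y ^ j.val = y ^ (i + j).val := by
  rw [ZMod.val_add, ← pow_eq_pow_mod _ hy, pow_add]

theorem rho_mul [NeZero m] {y : A} (hy : y ^ m = 1) (g h : DihedralGroup m) :
    rho y (g * h) = rho y g * rho y h := by
  ext a b
  cases g <;> cases h <;> cases a <;> cases b <;>
    simp [rho, Matrix.mul_apply, pw_add hy, sub_eq_add_neg, add_comm]

theorem rho_one (y : A) : rho y (1 : DihedralGroup m) = 1 := by
  rw [one_def]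
  ext a b
  cases a <;> cases b <;> simp [rho, -r_zero]

theorem rho_inv (y : A) (g : DihedralGroup m) (a b : Bool) :
    rho y g⁻¹ a b = rho y g (!b) (!a) := by
  cases g <;> cases a <;> cases b <;> simp [rho]

theorem rho_map (π : A →+* B) (y : A) (g : DihedralGroup m) (a b : Bool) :
    π (rho y g a b) = rho (π y) g a b := by
  cases g <;> cases a <;> cases b <;> simp [rho]

variable {G : Type} [Group G] [Fintype G] [DecidableEq G] {K : Subgroup G}

open Classical in
/-- extension by zero -/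
noncomputable def dot (φ : K →* DihedralGroup m) (y : A) (g : G) : Matrix Bool Bool A :=
  if h : g ∈ K then rho y (φ ⟨g, h⟩) else 0

variable (φ : K →* DihedralGroup m)

theorem dot_mem (y : A) (k : K) : dot φ y k = rho y (φ k) := by simp [dot]

theorem dot_not (y : A) {g : G} (h : g ∉ K) : dot φ y g = 0 := by simp [dot, h]

theorem dot_mul [NeZero m] {y : A} (hy : y ^ m = 1) {k : G} (hk : k ∈ K) (z : G) :
    dot φ y (k * z) = dot φ y k * dot φ y z := by
  by_cases hz : z ∈ K
  · have h := dot_mem φ y (⟨k, hk⟩ * ⟨z, hz⟩)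
    rw [map_mul, rho_mul hy, ← dot_mem, ← dot_mem] at h
    exact h
  · rw [dot_not φ y hz, dot_not φ y (by simpa [K.mul_mem_cancel_left hk] using hz), mul_zero]

theorem dot_one (y : A) : dot φ y 1 = 1 := by
  have h := dot_mem φ y 1
  rwa [map_one, rho_one] at h

theorem dot_inv (y : A) (g : G) (a b : Bool) : dot φ y g⁻¹ a b = dot φ y g (!b) (!a) := by
  by_cases hg : g ∈ K
  · have h := dot_mem φ y (⟨g, hg⟩ : K)⁻¹
    rw [map_inv] at h
    rw [show dot φ y g⁻¹ = _ from h, rho_inv, ← dot_mem]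
  · rw [dot_not φ y hg, dot_not φ y (by simpa using hg)]
    rfl

theorem dot_map (π : A →+* B) (y : A) (g : G) (a b : Bool) :
    π (dot φ y g a b) = dot φ (π y) g a b := by
  by_cases hg : g ∈ K
  · rw [show dot φ y g = _ from dot_mem φ y ⟨g, hg⟩, show dot φ (π y) g = _ from
      dot_mem φ (π y) ⟨g, hg⟩, rho_map]
  · simp [dot_not φ _ hg]

/-- the index set -/
abbrev Ix (K : Subgroup G) : Type := (G ⧸ K) × Bool

noncomputable instance : Fintype (G ⧸ K) := Fintype.ofFinite _

noncomputable instance : DecidableEq (G ⧸ K) := Classical.decEq _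

/-- the induced representation -/
noncomputable def ind (y : A) (g : G) : Matrix (Ix K) (Ix K) A :=
  of fun a b => dot φ y (a.1.out⁻¹ * g * b.1.out) a.2 b.2

theorem ind_mul [NeZero m] {y : A} (hy : y ^ m = 1) (g h : G) :
    ind φ y g * ind φ y h = ind φ y (g * h) := by
  ext a c
  have key : ∀ x : G ⧸ K, a.1.out⁻¹ * g * x.out ∈ K ↔ x = ((g⁻¹ * a.1.out : G) : G ⧸ K) := by
    intro x
    conv_rhs => rw [← x.out_eq', eq_comm, QuotientGroup.eq]
    simp
  rw [Matrix.mul_apply, Fintype.sum_prod_type,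
    Finset.sum_eq_single ((g⁻¹ * a.1.out : G) : G ⧸ K)]
  · simp only [ind, of_apply]
    rw [← Matrix.mul_apply, ← dot_mul φ hy ((key _).2 rfl)]
    congr 1
    group
  · intro x _ hx
    simp [ind, dot_not φ y ((key x).not.2 hx)]
  · simp

theorem ind_one (y : A) : ind φ y 1 = 1 := by
  ext ⟨x, a⟩ ⟨x', b⟩
  by_cases h : x = x'
  · subst h
    simp [ind, dot_one, Matrix.one_apply]
  · have : x.out⁻¹ * x'.out ∉ K := by
      rw [← QuotientGroup.eq, QuotientGroup.out_eq', QuotientGroup.out_eq']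
      exact h
    simp [ind, dot_not φ y this, h]

/-- the flip of the index set -/
def fl (X : Type) : X × Bool ≃ X × Bool where
  toFun a := (a.1, !a.2)
  invFun a := (a.1, !a.2)
  left_inv a := by simp
  right_inv a := by simp

/-- the adjoint for the split quadratic form -/
def adj {X : Type} (N : Matrix (X × Bool) (X × Bool) A) : Matrix (X × Bool) (X × Bool) A :=
  (N.submatrix (fl X) (fl X))ᵀ

theorem ind_inv (y : A) (g : G) : ind φ y g⁻¹ = adj (ind φ y g) := by
  ext a b
  simp only [adj, ind, of_apply, transpose_apply, submatrix_apply, fl, Equiv.coe_fn_mk]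
  rw [← dot_inv]
  congr 1
  group

/-- the matrix of `D` -/
noncomputable def mat (D : Finset G) (y : A) : Matrix (Ix K) (Ix K) A := ∑ d ∈ D, ind φ y d

theorem mat_map (D : Finset G) (π : A →+* B) (y : A) :
    (mat φ D y).map π = mat φ D (π y) := by
  ext a b
  simp [mat, ind, Matrix.sum_apply, dot_map]

theorem det_map (D : Finset G) (π : A →+* B) (y : A) :
    π (mat φ D y).det = (mat φ D (π y)).det := by
  rw [RingHom.map_det, RingHom.mapMatrix_apply, mat_map]

theorem mat_adj [NeZero m] {y : A} (hy : y ^ m = 1) {D : Finset G} {lam n : ℕ}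
    (h : ∀ g : G, g ≠ 1 → #{p ∈ D ×ˢ D | p.1 * p.2⁻¹ = g} = lam) (hn : #D = lam + n) :
    mat φ D y * adj (mat φ D y) =
      (n : A) • (1 : Matrix (Ix K) (Ix K) A) +
        (lam : A) • of fun a b : Ix K => (∑ g, dot φ y g) a.2 b.2 := by
  have h1 : adj (mat φ D y) = ∑ d ∈ D, ind φ y d⁻¹ := by
    ext a b
    simp [mat, ind_inv, adj, Matrix.sum_apply]
  have h2 : #{p ∈ D ×ˢ D | p.1 * p.2⁻¹ = 1} = lam + n := by
    rw [← hn, ← D.diag_card]
    congr 1
    ext p
    simp only [mem_filter, mem_product, mul_inv_eq_one, mem_diag]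
    exact ⟨fun h => ⟨h.1.1, h.2⟩, fun h => ⟨⟨h.1, h.2 ▸ h.1⟩, h.2⟩⟩
  have h3 : ∑ g, ind φ y g = of fun a b : Ix K => (∑ g, dot φ y g) a.2 b.2 := by
    ext a b
    simp only [Matrix.sum_apply, of_apply, ind]
    exact Fintype.sum_equiv ((Equiv.mulLeft a.1.out⁻¹).trans (Equiv.mulRight b.1.out)) _ _
      fun g => rfl
  rw [h1, mat, sum_mul_sum, ← sum_product']
  simp only [ind_mul φ hy]
  rw [← sum_fiberwise_of_maps_to (t := univ) (g := fun p : G × G => p.1 * p.2⁻¹)
    fun _ _ => mem_univ _, ← h3, smul_sum, ← ind_one φ y]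
  have h4 : ∀ g : G, ∑ p ∈ D ×ˢ D with p.1 * p.2⁻¹ = g, ind φ y (p.1 * p.2⁻¹) =
      (if g = 1 then (n : A) • ind φ y g else 0) + (lam : A) • ind φ y g := by
    intro g
    rw [sum_congr rfl fun p hp => by rw [(mem_filter.1 hp).2], sum_const]
    split_ifs with hg
    · rw [hg, h2, ← add_smul, ← Nat.cast_add, add_comm, Nat.cast_smul_eq_nsmul]
    · rw [h g hg, zero_add, Nat.cast_smul_eq_nsmul]
  simp only [h4, sum_add_distrib, sum_ite_eq', mem_univ, if_true]

theorem tot_fix [NeZero m] {y : A} (hy : y ^ m = 1) (k : K) :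
    rho y (φ k) * ∑ g, dot φ y g = ∑ g, dot φ y g := by
  rw [mul_sum, ← dot_mem]
  simp only [← dot_mul φ hy k.2]
  exact Fintype.sum_equiv (Equiv.mulLeft (k : G)) _ _ fun g => rfl

theorem tot_zero [NeZero m] [IsDomain A] (hφ : Function.Surjective φ) {y : A} (hy : y ^ m = 1)
    (h1 : y ≠ 1) : ∑ g, dot φ y g = 0 := by
  have hm : m ≠ 1 := by
    rintro rfl
    exact h1 (by simpa using hy)
  have hv : (1 : ZMod m).val = 1 := by rw [ZMod.val_one_eq_one_mod]; exact Nat.one_mod_eq_one.2 hm
  obtain ⟨k, hk⟩ := hφ (r 1)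
  obtain ⟨k', hk'⟩ := hφ (r (-1))
  have e := tot_fix φ hy k
  have e' := tot_fix φ hy k'
  rw [hk] at e
  rw [hk'] at e'
  generalize ∑ g, dot φ y g = T at e e'
  ext a b
  have f := congrFun (congrFun e a) b
  have f' := congrFun (congrFun e' a) b
  cases a
  · simpa [rho, Matrix.mul_apply, hv, mul_left_eq_self₀, h1] using f'
  · simpa [rho, Matrix.mul_apply, hv, mul_left_eq_self₀, h1] using f

theorem tot_one [NeZero m] (hφ : Function.Surjective φ) :
    ∃ c : ℕ, 2 * c = Nat.card K ∧ ∀ a b, (∑ g, dot φ (1 : ℤ) g) a b = c := by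
  obtain ⟨k, hk⟩ := hφ (sr 0)
  have e := tot_fix φ (one_pow m : (1 : ℤ) ^ m = 1) k
  rw [hk] at e
  have hs : ∀ b, (∑ g, dot φ (1 : ℤ) g) true b + (∑ g, dot φ (1 : ℤ) g) false b =
      Nat.card K := by
    intro b
    classical
    simp only [Matrix.sum_apply, ← sum_add_distrib]
    have : ∀ g : G, dot φ (1 : ℤ) g true b + dot φ (1 : ℤ) g false b = if g ∈ K then 1 else 0 := by
      intro g
      split_ifs with hg
      · rw [show dot φ (1 : ℤ) g = _ from dot_mem φ 1 ⟨g, hg⟩]
        cases φ ⟨g, hg⟩ <;> cases b <;> simp [rho]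
      · simp [dot_not φ _ hg]
    simp [this, Nat.card_eq_fintype_card, Fintype.card_subtype]
  generalize ∑ g, dot φ (1 : ℤ) g = T at e hs
  have f : ∀ b, T false b = T true b := fun b => by
    simpa [rho, Matrix.mul_apply] using congrFun (congrFun e true) b
  have f1 := hs true
  have f2 := hs false
  have f3 := f true
  have f4 := f false
  refine ⟨Nat.card K / 2, by omega, fun a b => ?_⟩
  cases a <;> cases b <;> omega

end Pool.Agent.P.MP_e9cc94_co.Dih
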