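import Pool.Agent.P.MP_e9cc94_co.DihA

/-! Difference sets and dihedral sections: determinants modulo primes and modulo four. -/

set_option autoImplicit false
set_option linter.unusedSectionVars false

namespace Pool.Agent.P.MP_e9cc94_co.Dih

open Finset Matrix

section adj
variable {A : Type} [CommRing A] {X : Type} [Fintype X] [DecidableEq X]

theorem adj_mul (M N : Matrix (X × Bool) (X × Bool) A) : adj (M * N) = adj N * adj M := by
  rw [adj, adj, adj, ← transpose_mul, submatrix_mul_equiv]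

theorem adj_adj (M : Matrix (X × Bool) (X × Bool) A) : adj (adj M) = M := by
  ext a b
  simp [adj, fl]

theorem det_adj (M : Matrix (X × Bool) (X × Bool) A) : (adj M).det = M.det := by
  rw [adj, det_transpose, det_submatrix_equiv_self]

theorem adj_one_add (N : Matrix (X × Bool) (X × Bool) A) :
    adj (1 + (2 : A) • N) = 1 + (2 : A) • adj N := by
  ext a b
  simp [adj, Matrix.one_apply, eq_comm]

theorem trace_adj (N : Matrix (X × Bool) (X × Bool) A) : trace (adj N) = trace N :=
  Fintype.sum_equiv (fl X) _ _ fun _ => rfl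

theorem trace_even (N : Matrix (X × Bool) (X × Bool) A) : ∃ e, trace (N * adj N) = 2 * e := by
  have h : ∀ x : X, (N * adj N) (x, false) (x, false) = (N * adj N) (x, true) (x, true) := by
    intro x
    simp only [Matrix.mul_apply]
    refine Fintype.sum_equiv (fl X) _ _ fun b => ?_
    simp [adj, fl, mul_comm]
  refine ⟨∑ x : X, (N * adj N) (x, true) (x, true), ?_⟩
  simp only [trace, diag_apply, Fintype.sum_prod_type, Fintype.sum_bool, h, ← two_mul, mul_sum]

/-- two congruent similitudes of the split form have the same determinant modulo four -/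
theorem det_four [IsDomain A] [CharZero A] {M N : Matrix (X × Bool) (X × Bool) A} {t z : A}
    (ht : 1 + 8 * t ≠ 0) (h : ∀ a b, ∃ c, M a b - N a b = 2 * c)
    (hN : N * adj N = (1 + 8 * t) • (1 : Matrix (X × Bool) (X × Bool) A))
    (hM : trace (M * adj M) = (1 + 8 * t) * Fintype.card (X × Bool) + 8 * z) :
    ∃ w, M.det * N.det = 1 + 4 * w := by
  choose Q hQ using h
  have hd : N.det ≠ 0 := by
    intro e
    have h1 := congrArg det hN
    rw [det_mul, e, zero_mul, det_smul, det_one, mul_one] at h1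
    exact pow_ne_zero _ ht h1.symm
  have hN' : adj N * N = (1 + 8 * t) • (1 : Matrix (X × Bool) (X × Bool) A) := by
    refine (isRegular_of_isLeftRegular_det (IsRegular.of_ne_zero hd).left).left ?_
    show N * (adj N * N) = N * ((1 + 8 * t) • (1 : Matrix (X × Bool) (X × Bool) A))
    rw [← mul_assoc, hN, Matrix.smul_mul, Matrix.mul_smul, one_mul, mul_one]
  have hMN : M = N + (2 : A) • of Q := by
    ext a b
    simp [← hQ a b]
  obtain ⟨L, hL⟩ : ∃ L, M * adj N = 1 + (2 : A) • L := by
    refine ⟨(4 * t) • (1 : Matrix (X × Bool) (X × Bool) A) + of Q * adj N, ?_⟩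
    rw [hMN, add_mul, hN, Matrix.smul_mul, smul_add, smul_smul, add_smul, one_smul, add_assoc]
    congr 3
    ring
  have h1 : (M * adj N) * adj (M * adj N) = (1 + 8 * t) • (M * adj M) := by
    rw [adj_mul, adj_adj, mul_assoc, ← mul_assoc (adj N), hN', Matrix.smul_mul, one_mul,
      Matrix.mul_smul]
  obtain ⟨e, he⟩ := trace_even L
  have h2 := congrArg trace h1
  rw [hL, adj_one_add, trace_smul, hM] at h2
  simp only [mul_add, add_mul, one_mul, mul_one, Matrix.smul_mul, Matrix.mul_smul, trace_add,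
    trace_smul, trace_one, trace_adj, he, smul_eq_mul] at h2
  have h3 : trace L = 2 * ((2 * t + 8 * t ^ 2) * Fintype.card (X × Bool) + (1 + 8 * t) * z - e) := by
    refine mul_left_cancel₀ (by norm_num : (4 : A) ≠ 0) ?_
    linear_combination h2
  have h4 := det_one_add_smul (2 : A) L
  rw [← hL, det_mul, det_adj, h3] at h4
  generalize Polynomial.eval (2 : A) _ = w at h4
  exact ⟨(2 * t + 8 * t ^ 2) * Fintype.card (X × Bool) + (1 + 8 * t) * z - e + w, by
    rw [h4]; ring⟩

theorem det_rank_one {Y : Type} [Fintype Y] [DecidableEq Y] {n c : ℤ} (hn : n ≠ 0) :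
    n * (n • (1 : Matrix Y Y ℤ) + of fun _ _ => c).det =
      n ^ Fintype.card Y * (n + c * Fintype.card Y) := by
  have hn' : (n : ℚ) ≠ 0 := by exact_mod_cast hn
  have h : (n • (1 : Matrix Y Y ℤ) + of fun _ _ => c).map (Int.castRingHom ℚ) =
      (n : ℚ) • (1 + replicateCol Unit (fun _ : Y => (c / n : ℚ)) *
        replicateRow Unit fun _ : Y => (1 : ℚ)) := by
    ext a b
    simp only [map_apply, Matrix.add_apply, Matrix.smul_apply, of_apply, Matrix.mul_apply,
      Matrix.one_apply, replicateCol_apply, replicateRow_apply, smul_eq_mul, eq_intCast]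
    split_ifs <;> simp <;> field_simp
  have h2 := (Int.castRingHom ℚ).map_det (n • (1 : Matrix Y Y ℤ) + of fun _ _ => c)
  rw [RingHom.mapMatrix_apply, h, det_smul, det_one_add_replicateCol_mul_replicateRow] at h2
  simp only [eq_intCast, dotProduct, one_mul, sum_const, card_univ, nsmul_eq_mul] at h2
  have h3 : (n : ℚ) * ((n • (1 : Matrix Y Y ℤ) + of fun _ _ => c).det : ℤ) =
      n ^ Fintype.card Y * (n + c * Fintype.card Y) := by
    rw [h2]
    field_simp
  exact_mod_cast h3

end adj

/-- the ring of algebraic integers -/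
abbrev S : Type := integralClosure ℤ ℂ

theorem exists_res {l : ℕ} (hl : l.Prime) : ∃ Q : Ideal S, (∀ a : ℤ, (a : S) ∈ Q ↔ (l : ℤ) ∣ a) ∧
    ∀ y : S, y ^ l = 1 → Ideal.Quotient.mk Q y = 1 := by
  have hp : (Ideal.span {(l : ℤ)}).IsPrime :=
    (Ideal.span_singleton_prime (by exact_mod_cast hl.ne_zero)).2 (Nat.prime_iff_prime_int.1 hl)
  obtain ⟨Q, hQ, h⟩ := Ideal.exists_ideal_over_prime_of_isIntegral_of_isDomain (S := S)
    (Ideal.span {(l : ℤ)}) (by
      rw [(RingHom.injective_iff_ker_eq_bot _).1 (algebraMap ℤ S).injective_int]; exact bot_le)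
  have h1 : ∀ a : ℤ, (a : S) ∈ Q ↔ (l : ℤ) ∣ a := fun a => by
    rw [← Ideal.mem_span_singleton, ← h, Ideal.mem_comap, eq_intCast]
  refine ⟨Q, h1, fun y hy => ?_⟩
  have := Fact.mk hl
  have : CharP (S ⧸ Q) l := (CharP.charP_iff_prime_eq_zero hl).2 (by
    have h2 := Ideal.Quotient.eq_zero_iff_mem.2 ((h1 l).2 dvd_rfl)
    simpa using h2)
  have h2 : (Ideal.Quotient.mk Q y - 1) ^ l = 0 := by
    rw [sub_pow_char, ← map_pow, hy, map_one, one_pow, sub_self]
  exact sub_eq_zero.1 (pow_eq_zero_iff hl.ne_zero |>.1 h2)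

theorem exists_root {l : ℕ} (hl : l ≠ 0) : ∃ w : S, IsPrimitiveRoot w l := by
  have h := Complex.isPrimitiveRoot_exp l hl
  exact ⟨⟨_, h.isIntegral (Nat.pos_of_ne_zero hl)⟩, IsPrimitiveRoot.coe_submonoidClass_iff.1 h⟩

theorem four_dvd {a : ℤ} {w : S} (h : (a : S) = 4 * w) : 4 ∣ a := by
  obtain ⟨Q, h1, -⟩ := exists_res Nat.prime_two
  have h2 : (2 : S) ∈ Q := by simpa using (h1 2).2 dvd_rfl
  obtain ⟨b, rfl⟩ := (h1 a).1 (by
    rw [h, show (4 : S) * w = 2 * (2 * w) by ring]; exact Q.mul_mem_right _ h2)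
  have h3 : (b : S) = 2 * w := by
    refine mul_left_cancel₀ (two_ne_zero' S) ?_
    push_cast at h
    linear_combination h
  obtain ⟨c, rfl⟩ := (h1 b).1 (by rw [h3]; exact Q.mul_mem_right _ h2)
  exact ⟨c, by push_cast; ring⟩

end Pool.Agent.P.MP_e9cc94_co.Dih
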