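import Pool.Agent.P.MP_e9cc94_co.DihB

/-! Difference sets and dihedral sections: the congruence. -/

set_option autoImplicit false
set_option linter.unusedSectionVars false

namespace Pool.Agent.P.MP_e9cc94_co.Dih

open Finset Matrix

variable {G : Type} [Group G] [Fintype G] [DecidableEq G] {K : Subgroup G} {m : ℕ}
  {D : Finset G} {lam n u : ℕ}

theorem count (h : ∀ g : G, g ≠ 1 → #{p ∈ D ×ˢ D | p.1 * p.2⁻¹ = g} = lam) :
    #D * #D + lam = #D + lam * Fintype.card G := by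
  have h2 : #{p ∈ D ×ˢ D | p.1 * p.2⁻¹ = 1} = #D := by
    rw [← D.diag_card]
    congr 1
    ext p
    simp only [mem_filter, mem_product, mul_inv_eq_one, mem_diag]
    exact ⟨fun h => ⟨h.1.1, h.2⟩, fun h => ⟨⟨h.1, h.2 ▸ h.1⟩, h.2⟩⟩
  rw [← card_product, card_eq_sum_card_fiberwise (t := univ) (f := fun p : G × G => p.1 * p.2⁻¹)
    fun _ _ => mem_univ _, ← add_sum_erase _ _ (mem_univ 1), h2,
    sum_congr rfl fun g hg => h g (ne_of_mem_erase hg), sum_const, card_erase_of_mem (mem_univ _),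
    card_univ, smul_eq_mul]
  obtain ⟨v, hv⟩ := Nat.exists_eq_succ_of_ne_zero (Fintype.card_ne_zero (α := G))
  rw [hv, Nat.succ_sub_one, Nat.succ_eq_add_one]
  ring

theorem ne_zero_of_surj {φ : K →* DihedralGroup m} (hφ : Function.Surjective φ) : m ≠ 0 := by
  rintro rfl
  have := Finite.of_surjective _ hφ
  exact not_finite (DihedralGroup 0)

theorem dvd_card {φ : K →* DihedralGroup m} (hφ : Function.Surjective φ) :
    2 * m ∣ Fintype.card G := by
  rw [← DihedralGroup.nat_card, ← Nat.card_eq_fintype_card]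
  exact (Subgroup.card_dvd_of_surjective φ hφ).trans K.card_subgroup_dvd_card

theorem sign_eq {l : ℕ} (hl : l.Prime) (h2 : l ≠ 2) {a b U : ℤ} (ha : a = 1 ∨ a = -1)
    (hb : b = 1 ∨ b = -1) (hU : ¬(l : ℤ) ∣ U) (h : (l : ℤ) ∣ a * U - b * U) : a = b := by
  have hp := Nat.prime_iff_prime_int.1 hl
  have h3 : ¬(l : ℤ) ∣ 2 := fun e =>
    h2 ((Nat.prime_dvd_prime_iff_eq hl Nat.prime_two).1 (by exact_mod_cast e))
  rw [← sub_mul] at h
  have h4 := (hp.dvd_or_dvd h).resolve_right hU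
  rcases ha with rfl | rfl <;> rcases hb with rfl | rfl
  · rfl
  · exact absurd h4 h3
  · exact absurd (by simpa using h4.neg_right) h3
  · rfl

theorem two_primes (h : ∀ g : G, g ≠ 1 → #{p ∈ D ×ˢ D | p.1 * p.2⁻¹ = g} = lam)
    (hn : #D = lam + u ^ 2) {φ : K →* DihedralGroup m} (hφ : Function.Surjective φ) {q q' : ℕ}
    (hq : q.Prime) (hq' : q'.Prime) (h2 : q ≠ 2) (hne : q' ≠ q) (hm : q ∣ m) (hm' : q' ∣ m)
    (hu : ¬q ∣ u) (hu' : ¬q' ∣ u) :
    ∃ ε : ℤ, (ε = 1 ∨ ε = -1) ∧ (q : ℤ) ∣ #D - ε * u ∧ (q' : ℤ) ∣ #D - ε * u ∧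
      (q' = 2 → 4 ∣ (#D : ℤ) - ε * u) := by
  have : NeZero m := ⟨ne_zero_of_surj hφ⟩
  have hu0 : (u : ℤ) ≠ 0 := by
    rintro e
    exact hu (by rw [Nat.cast_eq_zero.1 e]; exact dvd_zero _)
  set R := Fintype.card (Ix K) with hR
  set U : ℤ := u ^ R with hU
  have hk : (#D : ℤ) ^ 2 = u ^ 2 + lam * Fintype.card G := by
    have h1 := count h
    zify at h1 hn
    linear_combination h1 + hn
  have orth : ∀ y : S, y ^ m = 1 → y ≠ 1 → mat φ D y * adj (mat φ D y) =
      ((u : S) ^ 2) • (1 : Matrix (Ix K) (Ix K) S) := by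
    intro y hy h1
    rw [mat_adj φ hy h hn, tot_zero φ hφ hy h1]
    ext a b
    simp
  have sgn : ∀ y : S, y ^ m = 1 → y ≠ 1 →
      ∃ α : ℤ, (α = 1 ∨ α = -1) ∧ (mat φ D y).det = ((α * U : ℤ) : S) := by
    intro y hy h1
    have h3 := congrArg det (orth y hy h1)
    rw [det_mul, det_adj, det_smul, det_one, mul_one, ← pow_mul, mul_comm 2, pow_mul, ← sq] at h3
    rcases sq_eq_sq_iff_eq_or_eq_neg.1 h3 with e | e
    · exact ⟨1, Or.inl rfl, by rw [e, hU]; push_cast; ring⟩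
    · exact ⟨-1, Or.inr rfl, by rw [e, hU]; push_cast; ring⟩
  obtain ⟨c, hc, hT⟩ := tot_one φ hφ
  have hcR : (c : ℤ) * R = Fintype.card G := by
    have h3 := K.card_mul_index
    rw [← hc, Nat.card_eq_fintype_card, Subgroup.index, Nat.card_eq_fintype_card] at h3
    rw [hR, Fintype.card_prod, Fintype.card_bool, ← h3]
    push_cast
    ring
  have one : mat φ D (1 : ℤ) * adj (mat φ D (1 : ℤ)) =
      ((u : ℤ) ^ 2) • (1 : Matrix (Ix K) (Ix K) ℤ) + of fun _ _ => (lam * c : ℤ) := by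
    rw [mat_adj φ (one_pow m) h hn]
    ext a b
    simp only [Matrix.add_apply, Matrix.smul_apply, of_apply, hT, smul_eq_mul, Nat.cast_pow]
  set d := (mat φ D (1 : ℤ)).det with hd
  obtain ⟨η, hη, hdη⟩ : ∃ η : ℤ, (η = 1 ∨ η = -1) ∧ u * d = η * #D * U := by
    have h3 := det_rank_one (Y := Ix K) (c := lam * c) (pow_ne_zero 2 hu0)
    rw [← one, det_mul, det_adj, mul_assoc (lam : ℤ), hcR, ← hk, ← pow_mul, mul_comm 2, pow_mul,
      ← hd, ← hR, ← hU] at h3
    rcases sq_eq_sq_iff_eq_or_eq_neg.1 (show (u * d) ^ 2 = (#D * U) ^ 2 by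
      linear_combination h3) with e | e
    · exact ⟨1, Or.inl rfl, by rw [e]; ring⟩
    · exact ⟨-1, Or.inr rfl, by rw [e]; ring⟩
  have hd1 : (mat φ D (1 : S)).det = (d : S) := by
    simpa using (det_map φ D (Int.castRingHom S) 1).symm
  have cong : ∀ {l : ℕ}, l.Prime → ∀ y z : S, z ^ l = 1 → ∀ a b : ℤ,
      (mat φ D (y * z)).det = a → (mat φ D y).det = b → (l : ℤ) ∣ a - b := by
    intro l hl y z hz a b ha hb
    obtain ⟨Q, h3, h4⟩ := exists_res hl
    rw [← h3, Int.cast_sub, ← Ideal.Quotient.eq, ← ha, ← hb, det_map, det_map, map_mul, h4 z hz,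
      mul_one]
  obtain ⟨w, hw⟩ := exists_root hq.ne_zero
  obtain ⟨w', hw'⟩ := exists_root hq'.ne_zero
  have e1 : w ^ m = 1 := (hw.pow_eq_one_iff_dvd m).2 hm
  have e2 : w' ^ m = 1 := (hw'.pow_eq_one_iff_dvd m).2 hm'
  have n1 := hw.ne_one hq.one_lt
  have n2 := hw'.ne_one hq'.one_lt
  have n3 : w * w' ≠ 1 := fun e => hne ((Nat.prime_dvd_prime_iff_eq hq' hq).1
    (hw'.dvd_of_pow_eq_one _ (by simpa [mul_pow, hw.pow_eq_one] using congrArg (· ^ q) e)))
  have e3 : (w * w') ^ m = 1 := by rw [mul_pow, e1, e2, one_mul]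
  obtain ⟨α₁, s1, d1⟩ := sgn w e1 n1
  obtain ⟨α₂, s2, d2⟩ := sgn w' e2 n2
  obtain ⟨α, s3, d3⟩ := sgn (w * w') e3 n3
  have nU : ∀ {l : ℕ}, l.Prime → ¬l ∣ u → ¬(l : ℤ) ∣ U := fun hl hu e =>
    hu (by exact_mod_cast (Nat.prime_iff_prime_int.1 hl).dvd_of_dvd_pow e)
  have fin : ∀ {l : ℕ}, l.Prime → ¬l ∣ u → (l : ℤ) ∣ α * U - d → (l : ℤ) ∣ #D - α * η * u := by
    intro l hl hu h3
    have h4 : (l : ℤ) ∣ (#D - α * η * u) * U := by
      have h5 : (#D - α * η * u) * U = -(η * u) * (α * U - d) := by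
        rcases hη with rfl | rfl
        · linear_combination -hdη
        · linear_combination hdη
      rw [h5]
      exact h3.mul_left _
    exact ((Nat.prime_iff_prime_int.1 hl).dvd_or_dvd h4).resolve_right (nU hl hu)
  have hε : α * η = 1 ∨ α * η = -1 := by
    rcases s3 with rfl | rfl <;> rcases hη with rfl | rfl <;> simp
  obtain rfl : α = α₂ := sign_eq hq h2 s3 s2 (nU hq hu)
    (cong hq w' w hw.pow_eq_one _ _ (by rw [mul_comm, d3]) d2)
  have c1 := cong hq 1 w hw.pow_eq_one _ _ (by rw [one_mul, d1]) hd1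
  have c2 := cong hq' 1 w' hw'.pow_eq_one _ _ (by rw [one_mul, d2]) hd1
  by_cases h2' : q' = 2
  swap
  · obtain rfl : α = α₁ := sign_eq hq' h2' s3 s1 (nU hq' hu')
      (cong hq' w w' hw'.pow_eq_one _ _ d3 d1)
    exact ⟨_, hε, fin hq hu c1, fin hq' hu' c2, fun e => absurd e h2'⟩
  subst h2'
  obtain rfl := hw'.eq_neg_one_of_two_right
  have hodd : Odd (u : ℤ) := by
    rw [Int.odd_coe_nat, ← Nat.not_even_iff_odd, even_iff_two_dvd]
    exact hu'
  obtain ⟨t, ht⟩ := Int.eight_dvd_sq_sub_one_of_odd hodd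
  have ht' : (u : S) ^ 2 = 1 + 8 * (t : S) := by
    have h3 : (u : ℤ) ^ 2 = 1 + 8 * t := by linarith
    exact_mod_cast congrArg (Int.cast : ℤ → S) h3
  have ht0 : 1 + 8 * (t : S) ≠ 0 := by
    rw [← ht']
    exact pow_ne_zero _ (by exact_mod_cast hu0)
  have even : ∀ (y : S) a b, ∃ c, mat φ D y a b - mat φ D (y * -1) a b = 2 * c := by
    intro y a b
    have h3 : Ideal.Quotient.mk (Ideal.span {(2 : S)}) (y * -1) =
        Ideal.Quotient.mk (Ideal.span {(2 : S)}) y :=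
      Ideal.Quotient.eq.2 (Ideal.mem_span_singleton.2 ⟨-y, by ring⟩)
    have h4 := mat_map φ D (Ideal.Quotient.mk (Ideal.span {(2 : S)})) (y * -1)
    rw [h3, ← mat_map] at h4
    exact Ideal.mem_span_singleton.1 (Ideal.Quotient.eq.1 (congrFun (congrFun h4 a) b).symm)
  obtain ⟨s, hs⟩ : (4 : ℤ) ∣ U * U - 1 := by
    have h3 := Int.eight_dvd_sq_sub_one_of_odd (hodd.pow (n := R))
    rw [sq] at h3
    exact (show (4 : ℤ) ∣ 8 by norm_num).trans h3
  obtain rfl : α = α₁ := by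
    obtain ⟨x, hx⟩ := det_four (z := 0) ht0 (even w) (by rw [orth _ e3 n3, ht'])
      (by rw [orth _ e1 n1, ht']; simp)
    rw [d1, d3] at hx
    have h3 := four_dvd (a := α₁ * U * (α * U) - 1) (w := x) (by push_cast at hx ⊢; linear_combination hx)
    have h4 : α₁ * U * (α * U) - 1 = α₁ * α * (4 * s + 1) - 1 := by linear_combination α₁ * α * hs
    rw [h4] at h3
    rcases s1 with rfl | rfl <;> rcases s3 with rfl | rfl <;> omega
  refine ⟨_, hε, fin hq hu c1, fin hq' hu' c2, fun _ => ?_⟩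
  have hkodd : Odd (#D : ℤ) := by
    obtain ⟨v, hv⟩ := (Dvd.intro _ rfl).trans (dvd_card hφ)
    rw [← Int.odd_pow' two_ne_zero, hk, hv]
    push_cast
    exact hodd.pow.add_even ((even_two_mul _).mul_left _)
  obtain ⟨t', ht2⟩ := Int.eight_dvd_sq_sub_one_of_odd hkodd
  have tr : trace (mat φ D (1 : S) * adj (mat φ D (1 : S))) =
      (1 + 8 * (t : S)) * R + 8 * ((t' - t : ℤ) : S) := by
    have h3 : trace (mat φ D (1 : ℤ) * adj (mat φ D (1 : ℤ))) = (1 + 8 * t) * R + 8 * (t' - t) := by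
      rw [one, trace_add, trace_smul, trace_one, trace]
      simp only [diag_apply, of_apply, sum_const, card_univ, smul_eq_mul, nsmul_eq_mul, ← hR]
      linear_combination R * ht + lam * hcR - hk + ht2 - ht
    have h4 := congrArg (Int.castRingHom S) h3
    rw [← (map_one (Int.castRingHom S)), ← mat_map]
    simp only [trace, diag_apply, Matrix.mul_apply, map_sum, map_mul, adj, transpose_apply,
      submatrix_apply, map_apply] at h4 ⊢
    rw [h4]
    simp
  obtain ⟨x, hx⟩ := det_four ht0 (even 1) (by rw [one_mul, orth _ e2 n2, ht']) tr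
  rw [one_mul, hd1, d2] at hx
  obtain ⟨r, hr⟩ := four_dvd (a := d * (α * U) - 1) (w := x)
    (by push_cast at hx ⊢; linear_combination hx)
  refine ⟨α * η * u * r - #D * s, ?_⟩
  rcases s1 with rfl | rfl <;> rcases hη with rfl | rfl
  · linear_combination u * hr - U * hdη - #D * hs
  · linear_combination -u * hr + U * hdη - #D * hs
  · linear_combination -u * hr - U * hdη - #D * hs
  · linear_combination u * hr + U * hdη - #D * hs

end Pool.Agent.P.MP_e9cc94_co.Dih
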