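import Pool.Agent.P.MP_e9cc94_co.DihC

/-! Difference sets and dihedral sections: the general congruence and the Pell parameters. -/

set_option autoImplicit false
set_option linter.unusedSectionVars false

namespace Pool.Agent.P.MP_e9cc94_co.Dih

open Finset

variable {G : Type} [Group G] [Fintype G] [DecidableEq G] {K : Subgroup G} {m : ℕ}
  {D : Finset G} {lam u : ℕ}

theorem coprime_of_primes {a b : ℤ}
    (h : ∀ l : ℕ, l.Prime → (l : ℤ) ∣ a → (l : ℤ) ∣ b → False) : IsCoprime a b := by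
  rw [Int.isCoprime_iff_gcd_eq_one]
  by_contra e
  obtain ⟨l, hl, h1⟩ := Nat.exists_prime_and_dvd e
  exact h l hl ((Int.natCast_dvd_natCast.2 h1).trans (Int.gcd_dvd_left ..))
    ((Int.natCast_dvd_natCast.2 h1).trans (Int.gcd_dvd_right ..))

theorem general (h : ∀ g : G, g ≠ 1 → #{p ∈ D ×ˢ D | p.1 * p.2⁻¹ = g} = lam)
    (hn : #D = lam + u ^ 2) {φ : K →* DihedralGroup m} (hφ : Function.Surjective φ)
    (hc : m.Coprime u) : (2 * m : ℤ) ∣ #D - u ∨ (2 * m : ℤ) ∣ #D + u := by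
  obtain ⟨v, hv⟩ := dvd_card hφ
  have hk : (#D : ℤ) ^ 2 = u ^ 2 + lam * (2 * m * v) := by
    have h1 := count h
    rw [hv] at h1
    zify at h1 hn
    linear_combination h1 + hn
  have hn' : (#D : ℤ) = lam + u ^ 2 := by exact_mod_cast hn
  have nd : ∀ {l : ℕ}, l.Prime → l ∣ m → ¬l ∣ u := fun hl h1 h2 =>
    hl.one_lt.ne' (Nat.eq_one_of_dvd_coprimes hc h1 h2)
  have par : ∀ ε : ℤ, ε = 1 ∨ ε = -1 → 2 ∣ (#D : ℤ) - ε * u ∧ 2 ∣ (#D : ℤ) + ε * u := by
    intro ε hε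
    have h1 : Even (((#D : ℤ) - u) * (#D + u)) := ⟨lam * m * v, by linear_combination hk⟩
    rw [Int.even_mul, even_iff_two_dvd, even_iff_two_dvd] at h1
    rcases hε with rfl | rfl <;> omega
  obtain ⟨ε, hε, h1, h2⟩ : ∃ ε : ℤ, (ε = 1 ∨ ε = -1) ∧
      (∀ l : ℕ, l.Prime → l ∣ m → (l : ℤ) ∣ #D - ε * u) ∧ (2 ∣ m → 4 ∣ (#D : ℤ) - ε * u) := by
    by_cases ho : ∃ q : ℕ, q.Prime ∧ q ≠ 2 ∧ q ∣ m
    · obtain ⟨q, hq, hq2, hqm⟩ := ho
      have hp := Nat.prime_iff_prime_int.1 hq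
      obtain ⟨ε, hε, h1⟩ : ∃ ε : ℤ, (ε = 1 ∨ ε = -1) ∧ (q : ℤ) ∣ #D - ε * u := by
        have h1 : (q : ℤ) ∣ (#D - 1 * u) * (#D - -1 * u) := by
          rw [show ((#D : ℤ) - 1 * u) * (#D - -1 * u) = m * (2 * lam * v) by linear_combination hk]
          exact (Int.natCast_dvd_natCast.2 hqm).mul_right _
        exact (hp.dvd_or_dvd h1).elim (fun e => ⟨1, Or.inl rfl, e⟩) fun e => ⟨-1, Or.inr rfl, e⟩
      have key : ∀ l : ℕ, l.Prime → l ≠ q → l ∣ m →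
          (l : ℤ) ∣ #D - ε * u ∧ (l = 2 → 4 ∣ (#D : ℤ) - ε * u) := by
        intro l hl hlq hlm
        obtain ⟨ε', hε', h2, h3⟩ := two_primes h hn hφ hq hl hq2 hlq hqm hlm (nd hq hqm) (nd hl hlm)
        obtain rfl : ε = ε' := sign_eq (U := u) hq hq2 hε hε'
          (fun e => nd hq hqm (Int.natCast_dvd_natCast.1 e)) (by simpa using h2.sub h1)
        exact h3
      refine ⟨ε, hε, fun l hl hlm => ?_, fun e => (key 2 Nat.prime_two hq2.symm e).2 rfl⟩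
      by_cases e : l = q
      · exact e ▸ h1
      · exact (key l hl e hlm).1
    · have h1 : ∀ ε : ℤ, ε = 1 ∨ ε = -1 → ∀ l : ℕ, l.Prime → l ∣ m → (l : ℤ) ∣ #D - ε * u := by
        intro ε hε l hl hlm
        obtain rfl : l = 2 := by_contra fun e => ho ⟨l, hl, e, hlm⟩
        exact (par ε hε).1
      by_cases h2 : 4 ∣ (#D : ℤ) - 1 * u
      · exact ⟨1, Or.inl rfl, h1 1 (Or.inl rfl), fun _ => h2⟩
      · refine ⟨-1, Or.inr rfl, h1 _ (Or.inr rfl), fun e => ?_⟩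
        have h3 := nd Nat.prime_two e
        have h4 := (par 1 (Or.inl rfl)).1
        omega
  have hε2 : ε ^ 2 = 1 := by rcases hε with rfl | rfl <;> rfl
  have nd' : ∀ l : ℕ, l.Prime → l ∣ m → (l : ℤ) ∣ #D + ε * u → l = 2 := by
    intro l hl hlm h3
    have h4 : (l : ℤ) ∣ 2 * u := by
      have h5 := (h3.sub (h1 l hl hlm)).mul_left ε
      rwa [show ε * ((#D : ℤ) + ε * u - (#D - ε * u)) = 2 * u by linear_combination 2 * u * hε2]
        at h5
    rcases (Nat.prime_iff_prime_int.1 hl).dvd_or_dvd h4 with e | e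
    · exact (Nat.prime_dvd_prime_iff_eq hl Nat.prime_two).1 (by exact_mod_cast e)
    · exact absurd (Int.natCast_dvd_natCast.1 e) (nd hl hlm)
  suffices h3 : (2 * m : ℤ) ∣ #D - ε * u by
    rcases hε with rfl | rfl
    · exact Or.inl (by simpa using h3)
    · exact Or.inr (by simpa using h3)
  obtain ⟨b, hb⟩ := (par ε hε).2
  obtain ⟨a, ha⟩ := (par ε hε).1
  have hab : 2 * (a * b) = lam * (m * v) := by
    refine mul_left_cancel₀ (two_ne_zero' ℤ) ?_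
    linear_combination hk - (u : ℤ) ^ 2 * hε2 - (#D - ε * u) * hb - 2 * b * ha
  rw [ha]
  refine mul_dvd_mul_left _ ?_
  by_cases he : 2 ∣ m
  · have h3 := nd Nat.prime_two he
    have h4 := h2 he
    obtain ⟨l', hl'⟩ : (2 : ℤ) ∣ lam := by
      have h5 : Odd ((u : ℤ) ^ 2) := Odd.pow (Int.odd_iff.2 (by omega))
      rw [Int.odd_iff] at h5
      rcases hε with rfl | rfl <;> omega
    refine IsCoprime.dvd_of_dvd_mul_right (z := b) (coprime_of_primes fun l hl h5 h6 => ?_)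
      ⟨l' * v, by rw [hl'] at hab; linarith⟩
    obtain rfl := nd' l hl (Int.natCast_dvd_natCast.1 h5) (hb ▸ h6.mul_left 2)
    rcases hε with rfl | rfl <;> omega
  · refine IsCoprime.dvd_of_dvd_mul_right (z := 2 * b) (coprime_of_primes fun l hl h5 h6 => ?_)
      ⟨lam * v, by linarith⟩
    obtain rfl := nd' l hl (Int.natCast_dvd_natCast.1 h5) (hb ▸ h6)
    exact he (Int.natCast_dvd_natCast.1 h5)

theorem sq_nat {a b c : ℤ} (ha : 0 ≤ a) (h : IsCoprime a b) (e : a * b = c ^ 2) :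
    ∃ s : ℕ, a = s ^ 2 := by
  obtain ⟨s, hs | hs⟩ := Int.sq_of_isCoprime h e
  · exact ⟨s.natAbs, by simpa using hs⟩
  · exact ⟨0, by have := sq_nonneg s; push_cast; omega⟩

/-- the Pell parameters -/
theorem params {k lam : ℕ} (hl : 2 < lam) (h : k * k + lam = k + lam * (2 * lam)) :
    ∃ u P H a : ℕ, ∃ δ : ℤ, k = lam + u ^ 2 ∧ lam = 2 * u * P * H ∧ k = u * a ∧ 2 ≤ P ∧ 3 ≤ H ∧
      H.Coprime (2 * P) ∧ u.Coprime (2 * P * H) ∧ (δ = 1 ∨ δ = -1) ∧ (a : ℤ) - δ = 4 * P ^ 2 ∧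
      (a : ℤ) + δ = 2 * H ^ 2 := by
  zify at h hl
  have hlt : (lam : ℤ) < k := by nlinarith
  have e1 : ((k : ℤ) - lam) * (2 * (k - lam) - 1) = (2 * lam - k) ^ 2 := by linear_combination h
  have c1 : IsCoprime ((k : ℤ) - lam) (2 * (k - lam) - 1) := ⟨2, -1, by ring⟩
  obtain ⟨u, hu⟩ := sq_nat (by omega) c1 e1
  obtain ⟨s, hs⟩ := sq_nat (by omega) c1.symm (by rw [mul_comm, e1])
  have hu0 : (0 : ℤ) < u := by
    rcases Nat.eq_zero_or_pos u with rfl | e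
    · simp at hu; omega
    · exact_mod_cast e
  have hus : (s : ℤ) ^ 2 = 2 * u ^ 2 - 1 := by rw [← hs, ← hu]
  have hle : (u : ℤ) ≤ s := by nlinarith
  have hlam : (lam : ℤ) = u * (u + s) := by
    rcases sq_eq_sq_iff_eq_or_eq_neg.1 (show (2 * lam - k : ℤ) ^ 2 = (u * s) ^ 2 by
      rw [← e1, hs, hu]; ring) with e | e
    · linear_combination e + hu
    · nlinarith
  have hso : Odd (s : ℤ) := by
    rw [← Int.odd_pow' two_ne_zero, hus]
    exact (even_two_mul _).sub_odd odd_one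
  obtain ⟨r, hr⟩ := Int.eight_dvd_sq_sub_one_of_odd hso
  have huo : Odd (u : ℤ) := by
    rw [← Int.odd_pow' two_ne_zero, Int.odd_iff]
    omega
  obtain ⟨t, ht⟩ := huo.add_odd hso
  obtain ⟨x, hx⟩ : Odd (2 * u + s : ℤ) := (even_two_mul _).add_odd hso
  have hx1 : x * (x + 1) = 2 * t ^ 2 := by
    refine mul_left_cancel₀ (by norm_num : (4 : ℤ) ≠ 0) ?_
    linear_combination -hus - (2 * u + s + 2 * x + 1) * hx + 2 * (u + s + 2 * t) * ht
  have hu2 : (2 : ℤ) ≤ u := by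
    by_contra e
    have e' : (u : ℤ) = 1 := by omega
    rw [e'] at hus hlam
    nlinarith
  have hx3 : 3 ≤ x := by omega
  have hut : IsCoprime (u : ℤ) (2 * t) :=
    ⟨2 * u + s, -s, by linear_combination -hus + s * ht⟩
  have fin : ∀ (P H : ℕ) (δ : ℤ), (δ = 1 ∨ δ = -1) → 2 * x + 1 - δ = 4 * P ^ 2 →
      2 * x + 1 + δ = 2 * H ^ 2 → ∃ u P H a : ℕ, ∃ δ : ℤ, k = lam + u ^ 2 ∧ lam = 2 * u * P * H ∧
      k = u * a ∧ 2 ≤ P ∧ 3 ≤ H ∧ H.Coprime (2 * P) ∧ u.Coprime (2 * P * H) ∧ (δ = 1 ∨ δ = -1) ∧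
      (a : ℤ) - δ = 4 * P ^ 2 ∧ (a : ℤ) + δ = 2 * H ^ 2 := by
    intro P H δ hδ hP hH
    have hδ2 : δ ^ 2 = 1 := by rcases hδ with rfl | rfl <;> rfl
    have htPH : t = P * H := by
      refine (pow_left_inj₀ (by omega) (by positivity) two_ne_zero).1 ?_
      refine mul_left_cancel₀ (by norm_num : (8 : ℤ) ≠ 0) ?_
      linear_combination -4 * hx1 + (2 * x + 1 + δ) * hP + 4 * P ^ 2 * hH + hδ2
    have hc : IsCoprime (H : ℤ) (P : ℤ) :=
      ⟨δ * H, -2 * δ * P, by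
        refine mul_left_cancel₀ (two_ne_zero' ℤ) ?_
        linear_combination δ * hP - δ * hH + 2 * hδ2⟩
    have hHo : Odd (H : ℤ) := by
      rw [← Int.odd_pow' two_ne_zero, Int.odd_iff]
      rcases hδ with rfl | rfl <;> omega
    have hP2 : (1 : ℤ) < P := by
      by_contra e
      have e' : P ≤ 1 := by omega
      interval_cases P <;> rcases hδ with rfl | rfl <;> omega
    have hH2 : (1 : ℤ) < H := by
      by_contra e
      have e' : H ≤ 1 := by omega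
      interval_cases H <;> rcases hδ with rfl | rfl <;> omega
    refine ⟨u, P, H, 2 * u + s, δ, ?_, ?_, ?_, by omega, ?_, ?_, ?_, hδ, ?_, ?_⟩
    · zify; linarith
    · zify; rw [hlam, ht, htPH]; ring
    · zify; linear_combination hu + hlam
    · rw [Int.odd_iff] at hHo; omega
    · exact Nat.Coprime.mul_right (Nat.coprime_two_right.2 (by exact_mod_cast hHo))
        (Nat.isCoprime_iff_coprime.1 hc)
    · rw [htPH] at hut
      refine Nat.isCoprime_iff_coprime.1 ?_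
      push_cast
      rwa [mul_assoc]
    · push_cast; rw [hx, hP]
    · push_cast; rw [hx, hH]
  rcases Int.even_or_odd' x with ⟨y, rfl | rfl⟩
  · have c2 : IsCoprime y (2 * y + 1) := ⟨-2, 1, by ring⟩
    have e2 : y * (2 * y + 1) = t ^ 2 := by linarith
    obtain ⟨P, hP⟩ := sq_nat (by omega) c2 e2
    obtain ⟨H, hH⟩ := sq_nat (by omega) c2.symm (by rw [mul_comm, e2])
    exact fin P H 1 (Or.inl rfl) (by linarith) (by linarith)
  · have c2 : IsCoprime (y + 1) (2 * y + 1) := ⟨2, -1, by ring⟩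
    have e2 : (y + 1) * (2 * y + 1) = t ^ 2 := by linarith
    obtain ⟨P, hP⟩ := sq_nat (by omega) c2 e2
    obtain ⟨H, hH⟩ := sq_nat (by omega) c2.symm (by rw [mul_comm, e2])
    exact fin P H (-1) (Or.inr rfl) (by linarith) (by linarith)

theorem pell (h : ∀ g : G, g ≠ 1 → #{p ∈ D ×ˢ D | p.1 * p.2⁻¹ = g} = lam)
    (h4 : 4 < Fintype.card G) (hv : Fintype.card G = 2 * lam) :
    ∃ u P H : ℕ, #D = lam + u ^ 2 ∧ Fintype.card G = 4 * u * P * H ∧ 2 ≤ P ∧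
      (H ^ 2 = 2 * P ^ 2 + 1 ∨ H ^ 2 + 1 = 2 * P ^ 2) ∧
      ∀ (K : Subgroup G) (m : ℕ) (φ : K →* DihedralGroup m), Function.Surjective φ →
        m.Coprime H ∨ m.Coprime (2 * P) := by
  obtain ⟨u, P, H, a, δ, h1, h2, h3, hP, hH, c1, c2, hδ, e1, e2⟩ :=
    params (k := #D) (lam := lam) (by omega) (by rw [count h, hv])
  have hPH : H ^ 2 = 2 * P ^ 2 + 1 ∨ H ^ 2 + 1 = 2 * P ^ 2 := by
    zify
    rcases hδ with rfl | rfl <;> omega
  refine ⟨u, P, H, h1, by rw [hv, h2]; ring, hP, hPH, fun K m φ hφ => ?_⟩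
  by_contra hc
  rw [not_or, Nat.Prime.not_coprime_iff_dvd, Nat.Prime.not_coprime_iff_dvd] at hc
  obtain ⟨⟨q, hq, hqm, hqH⟩, q', hq', hqm', hqP⟩ := hc
  have n1 : ∀ {l a b : ℕ}, l.Prime → a.Coprime b → l ∣ a → ¬l ∣ b := fun hl hc h1 h2 =>
    hl.one_lt.ne' (Nat.eq_one_of_dvd_coprimes hc h1 h2)
  have hq2 : q ≠ 2 := by
    rintro rfl
    exact n1 hq c1 hqH (dvd_mul_right _ _)
  have hu : ¬q ∣ u := fun e => n1 hq c2 e (hqH.mul_left _)
  have hu' : ¬q' ∣ u := fun e => n1 hq' c2 e (hqP.mul_right _)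
  obtain ⟨ε, hε, d1, d2, d3⟩ := two_primes h h1 hφ hq hq' hq2
    (fun e => n1 hq c1 hqH (e ▸ hqP)) hqm hqm' hu hu'
  rw [show (#D : ℤ) - ε * u = u * (a - ε) by rw [h3]; push_cast; ring] at d1 d2 d3
  have p1 := Nat.prime_iff_prime_int.1 hq
  have p2 := Nat.prime_iff_prime_int.1 hq'
  replace d1 := (p1.dvd_or_dvd d1).resolve_left fun e => hu (Int.natCast_dvd_natCast.1 e)
  replace d2 := (p2.dvd_or_dvd d2).resolve_left fun e => hu' (Int.natCast_dvd_natCast.1 e)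
  obtain rfl | rfl : ε = δ ∨ ε = -δ := by
    rcases hε with rfl | rfl <;> rcases hδ with rfl | rfl <;> simp
  · rw [e1, show (4 * P ^ 2 : ℤ) = (2 * P : ℕ) ^ 2 by push_cast; ring] at d1
    exact n1 hq c1 hqH (Int.natCast_dvd_natCast.1 (p1.dvd_of_dvd_pow d1))
  · rw [sub_neg_eq_add, e2] at d2 d3
    have d4 : (q' : ℤ) ∣ H ^ 2 := by
      by_cases e : q' = 2
      · obtain ⟨z, hz⟩ := d3 e
        subst e
        exact (p2.dvd_or_dvd (⟨z, by push_cast; linarith⟩ : ((2 : ℕ) : ℤ) ∣ u * H ^ 2)).resolve_left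
          fun e => hu' (Int.natCast_dvd_natCast.1 e)
      · exact (p2.dvd_or_dvd d2).resolve_left fun e' =>
          e ((Nat.prime_dvd_prime_iff_eq hq' Nat.prime_two).1 (by exact_mod_cast e'))
    exact n1 hq' c1 (Int.natCast_dvd_natCast.1 (p2.dvd_of_dvd_pow d4)) hqP

end Pool.Agent.P.MP_e9cc94_co.Dih
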