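import Pool.Agent.P.MP_e9cc94_co.CaseB
import Pool.Agent.P.MP_e9cc94_co.CaseA0
import Pool.Agent.P.MP_e9cc94_co.CaseA1
import Pool.Agent.P.MP_e9cc94_co.CaseA2
import Pool.Agent.P.MP_e9cc94_co.CaseC0
import Pool.Agent.P.MP_e9cc94_co.C1Link
import Pool.Agent.P.MP_e9cc94_co.CaseC2

set_option autoImplicit false

namespace PellDS
open Finset

variable {G : Type} [Group G] [Fintype G] [DecidableEq G] {D : Finset G}

theorem no_DS (h : DS D) (hG : Fintype.card G = 120) : False := by
  by_cases h8 : ∃ x : G, orderOf x = 8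
  · obtain ⟨x, hx⟩ := h8
    obtain ⟨ε, μ, j, u, y, c⟩ := exists_coord hG x hx
    have hμ : ∀ μ : ZMod 5, μ ≠ 0 → μ * μ = 1 ∨ μ = 2 ∨ μ = 3 := by decide
    rcases hμ μ c.hm with e | rfl | rfl
    · exact caseA1 h c e
    · exact caseA2 h c
    · exact caseA2 h c.flip
  · have : Fact (Nat.Prime 5) := ⟨by norm_num⟩
    have hc : Nat.card G = 120 := by rw [Nat.card_eq_fintype_card, hG]
    obtain ⟨P⟩ : Nonempty (Sylow 5 G) := inferInstance
    have h1 : Nat.card (Sylow 5 G) ≡ 1 [MOD 5] := card_sylow_modEq_one 5 G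
    have h2 : Nat.card (Sylow 5 G) ∣ (P : Subgroup G).index := P.card_dvd_index
    have h3 : Nat.card P = 5 := by
      rw [P.card_eq_multiplicity, hc]
      have : Nat.factorization 120 5 = 1 := by
        rw [show (120 : ℕ) = 5 * 24 from rfl, Nat.factorization_mul (by norm_num) (by norm_num)]
        simp [Nat.Prime.factorization_self this.out, Nat.factorization_eq_zero_of_not_dvd]
      rw [this]; rfl
    have h4 : (P : Subgroup G).index = 24 := by
      have := (P : Subgroup G).card_mul_index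
      rw [hc, h3] at this; omega
    rw [h4] at h2
    have h5 : Nat.card (Sylow 5 G) = 1 ∨ Nat.card (Sylow 5 G) = 6 := by
      have h6 := Nat.le_of_dvd (by norm_num) h2
      generalize Nat.card (Sylow 5 G) = n at h1 h2 h6
      unfold Nat.ModEq at h1
      interval_cases n <;> simp_all
    rcases h5 with h5 | h5
    · exact caseB h hG (fun x hx => h8 ⟨x, hx⟩) h5
    · obtain ⟨π, hπ⟩ := exists_act hG h5
      by_cases ho : ∃ g, sg (π g) = -1
      · exact caseC1 h hG hπ ho
      · refine caseC2 h hG hπ fun g => ?_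
        rcases Int.eq_one_or_neg_one_of_mul_eq_one (sg_sq (π g)) with e | e
        · exact e
        · exact absurd ⟨g, e⟩ ho

/-- counting pairs -/
theorem count_pairs (D : Finset G) (lam : ℕ)
    (h : ∀ g : G, g ≠ 1 → ((D ×ˢ D).filter (fun p : G × G => p.1 * p.2⁻¹ = g)).card = lam) :
    D.card * D.card + lam = D.card + Fintype.card G * lam := by
  have h1 := sum_fiber D (fun _ => (1 : ℕ))
  simp only [sum_const, smul_eq_mul, mul_one] at h1
  rw [h1, ← Finset.add_sum_erase _ _ (mem_univ (1 : G)), card_diag,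
    Finset.sum_congr rfl (g := fun _ => lam) fun g hg => h g (mem_erase.1 hg).1]
  rw [sum_const, card_erase_of_mem (mem_univ _), card_univ, smul_eq_mul]
  have : 0 < Fintype.card G := Fintype.card_pos
  obtain ⟨n, hn⟩ : ∃ n, Fintype.card G = n + 1 := ⟨Fintype.card G - 1, by omega⟩
  rw [hn]; simp; ring

def rootNear (lam : ℕ) : Bool :=
  (List.range 4).any fun s =>
    let r := lam * 28284271 / 10000000 - s
    decide (r * r < 8 * lam * lam + 1 - 4 * lam ∧ 8 * lam * lam + 1 - 4 * lam < (r + 1) * (r + 1))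

theorem pell_check : (List.range 2030).all (fun lam => decide (lam ≤ 2) || decide (lam = 60) ||
    rootNear lam) = true := by decide +kernel

theorem pell_arith (k lam : ℕ) (h : k * k + lam = k + 2 * lam * lam) (h2 : 2 < lam)
    (h3 : lam < 2030) : lam = 60 ∧ k = 85 := by
  have h4 := List.all_eq_true.1 pell_check lam (List.mem_range.2 h3)
  have hk : 1 ≤ k := by
    rcases Nat.eq_zero_or_pos k with rfl | hk
    · nlinarith
    · exact hk
  obtain ⟨m, rfl⟩ : ∃ m, k = m + 1 := ⟨k - 1, by omega⟩
  have hs : 8 * lam * lam + 1 - 4 * lam = (2 * m + 1) * (2 * m + 1) := by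
    apply Nat.sub_eq_of_eq_add; nlinarith
  simp only [Bool.or_eq_true, decide_eq_true_eq] at h4
  rcases h4 with (h4 | rfl) | h4
  · omega
  · refine ⟨rfl, ?_⟩
    have : (2 * m + 1) * (2 * m + 1) = 169 * 169 := by omega
    have := Nat.mul_self_inj.1 this
    omega
  · exfalso
    simp only [rootNear, List.any_eq_true, decide_eq_true_eq, hs] at h4
    obtain ⟨s, -, h5, h6⟩ := h4
    have h7 := Nat.mul_self_lt_mul_self_iff.1 h5
    have h8 := Nat.mul_self_lt_mul_self_iff.1 h6
    omega

/-- the complement of a (120,85,60) difference set -/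
theorem compl_DS (D : Finset G) (hG : Fintype.card G = 120) (hk : D.card = 85)
    (h : ∀ g : G, g ≠ 1 → ((D ×ˢ D).filter (fun p : G × G => p.1 * p.2⁻¹ = g)).card = 60) :
    DS Dᶜ := by
  refine ⟨by rw [card_compl, hG, hk], fun g hg => ?_⟩
  have key : ∀ E : Finset G, ((E ×ˢ E).filter (fun p : G × G => p.1 * p.2⁻¹ = g)).card =
      (E ∩ E.image (fun e => g * e * 1)).card := by
    intro E
    refine Finset.card_bij (fun p _ => p.1) ?_ ?_ ?_
    · rintro ⟨a, b⟩ hp
      simp only [mem_filter, mem_product] at hp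
      simp only [mem_inter, mem_image]
      exact ⟨hp.1.1, b, hp.1.2, by rw [← hp.2]; group⟩
    · rintro ⟨a, b⟩ hp ⟨c, d⟩ hq e
      simp only [mem_filter, mem_product] at hp hq e
      subst e
      have : a * b⁻¹ = a * d⁻¹ := hp.2.trans hq.2.symm
      simp only [mul_right_inj, inv_inj] at this
      rw [this]
    · intro a ha
      simp only [mem_inter, mem_image] at ha
      obtain ⟨ha, b, hb, e⟩ := ha
      exact ⟨(a, b), by simp only [mem_filter, mem_product]; exact ⟨⟨ha, hb⟩, by rw [← e]; group⟩,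
        rfl⟩
  have h1 := h g hg
  rw [key] at h1 ⊢
  have h2 : (Dᶜ).image (fun e => g * e * 1) = (D.image (fun e => g * e * 1))ᶜ := by
    ext x
    simp only [mem_image, mem_compl, mul_one]
    constructor
    · rintro ⟨a, ha, rfl⟩ ⟨b, hb, e⟩
      exact ha (mul_left_cancel e ▸ hb)
    · intro hx
      exact ⟨g⁻¹ * x, fun hh => hx ⟨_, hh, by group⟩, by group⟩
  rw [h2, ← compl_union, card_compl, hG]
  have h3 := card_union_add_card_inter D (D.image (fun e => g * e * 1))
  rw [card_image_of_injective _ (tr_inj g 1), hk, h1] at h3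
  omega

theorem main (D : Finset G) (lam : ℕ) (h4 : 4 < Fintype.card G) (hv : Fintype.card G = 2 * lam)
    (h : ∀ g : G, g ≠ 1 → ((D ×ˢ D).filter (fun p : G × G => p.1 * p.2⁻¹ = g)).card = lam) :
    4060 ≤ Fintype.card G := by
  by_contra hlt
  have h1 := count_pairs D lam h
  rw [hv] at h1
  obtain ⟨rfl, hk⟩ := pell_arith D.card lam h1 (by omega) (by omega)
  exact no_DS (compl_DS D hv hk h) hv

end PellDS
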