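import Mathlib

set_option autoImplicit false

/-! Divisibility by powers of a regular element `π` whose residue ring satisfies `y ^ q = y`. -/

namespace Pool.Agent.P.MP_e9cc94_co.Pl

variable {R : Type*} [CommRing R] {π : R}

theorem cancel_unit (c x : R) (j : ℕ) (h : π ^ j ∣ (1 + π * c) * x) : π ^ j ∣ x := by
  have h1 : (1 + π * c) ∣ 1 - (-(π * c)) ^ j := by
    have := one_sub_dvd_one_sub_pow (-(π * c)) j
    rwa [sub_neg_eq_add] at this
  obtain ⟨d, hd⟩ := h1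
  have h2 : x = d * ((1 + π * c) * x) + (-(π * c)) ^ j * x := by
    linear_combination x * hd
  rw [h2]
  refine dvd_add (h.mul_left d) (Dvd.dvd.mul_right ?_ x)
  rw [show -(π * c) = π * (-c) by ring, mul_pow]
  exact dvd_mul_right _ _

theorem reg_pow (hreg : ∀ x : R, π * x = 0 → x = 0) (j : ℕ) (x : R) (h : π ^ j * x = 0) :
    x = 0 := by
  induction j with
  | zero => simpa using h
  | succ j ih => exact ih (hreg _ (by rw [← h]; ring))

theorem dvd_cancel (hreg : ∀ x : R, π * x = 0 → x = 0) (j : ℕ) (x : R)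
    (h : π ^ (j + 1) ∣ π * x) : π ^ j ∣ x := by
  obtain ⟨c, hc⟩ := h
  exact ⟨c, sub_eq_zero.1 (hreg _ (by rw [mul_sub, hc]; ring))⟩

/-- an endomorphism that is the identity modulo `π` keeps all `π`-adic valuations -/
theorem lemA (hreg : ∀ x : R, π * x = 0 → x = 0) {q : ℕ} (hF : ∀ y : R, π ∣ y ^ (q + 2) - y)
    (σ : R →+* R) (hσ : ∀ y, π ∣ σ y - y) :
    ∀ (j : ℕ) (y y' : R), π ^ j ∣ y * y' → π ^ j ∣ σ y * y' := by
  intro j
  induction j with
  | zero => intro y y' _; simp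
  | succ j ih =>
    intro y y' h
    obtain ⟨y1, hy1⟩ := hF y
    obtain ⟨c, hc⟩ := hσ (1 - y ^ (q + 1))
    obtain ⟨t, ht⟩ := hσ π
    have e1 : π ^ j ∣ y1 * y' := by
      refine dvd_cancel hreg j _ ?_
      rw [show π * (y1 * y') = (y ^ (q + 1) - 1) * (y * y') by linear_combination (-y') * hy1]
      exact h.mul_left _
    have e2 := ih _ _ e1
    have e3 : σ y * σ (1 - y ^ (q + 1)) = -(σ π * σ y1) := by
      rw [← map_mul, ← map_mul, ← map_neg]
      congr 1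
      linear_combination -hy1
    refine cancel_unit c _ _ ?_
    have e4 : (1 + π * c) * (σ y * y') =
        -(1 + t) * (π * (σ y1 * y')) + σ y * y ^ q * (y * y') := by
      linear_combination (-(σ y * y')) * hc + y' * e3 - σ y1 * y' * ht
    rw [e4]
    refine dvd_add (Dvd.dvd.mul_left ?_ _) (h.mul_left _)
    rw [pow_succ']
    exact mul_dvd_mul_left π e2

theorem lemA' {q : ℕ} (hF : ∀ y : R, π ∣ y ^ (q + 2) - y) (j : ℕ) (y y2 y' : R)
    (h : π ^ j ∣ y * y') (h2 : π ∣ y2 - y) : π ^ j ∣ (y2 ^ (q + 1)) ^ j * y' := by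
  have e1 : π ∣ y2 ^ (q + 1) * (1 - y ^ (q + 1)) := by
    have a1 : π ∣ y2 ^ (q + 1) - y ^ (q + 1) := h2.trans (sub_dvd_pow_sub_pow _ _ _)
    rw [show y2 ^ (q + 1) * (1 - y ^ (q + 1)) = (y2 ^ (q + 1) - y ^ (q + 1)) * (1 - y ^ (q + 1))
      - y ^ q * (y ^ (q + 2) - y) by ring]
    exact dvd_sub (a1.mul_right _) ((hF y).mul_left _)
  obtain ⟨d, hd⟩ := one_sub_dvd_one_sub_pow (1 - y ^ (q + 1)) j
  have e2 : (y2 ^ (q + 1)) ^ j * y' = (y2 ^ (q + 1) * (1 - y ^ (q + 1))) ^ j * y'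
      + (y2 ^ (q + 1)) ^ j * y ^ q * d * (y * y') := by
    rw [mul_pow]
    linear_combination ((y2 ^ (q + 1)) ^ j * y') * hd
  rw [e2]
  exact dvd_add ((pow_dvd_pow_of_dvd e1 j).mul_right _) (h.mul_left _)

theorem pi_pow (hreg : ∀ x : R, π * x = 0 → x = 0) {p : ℕ} (hp : p.Prime) (hodd : Odd p)
    (hz : (1 - π) ^ p = 1) : ∃ r : R, π ^ (p - 1) = -(p : R) * (1 + π * r) := by
  have h := add_pow_prime_eq hp (-π) 1
  have h1 : (1 : ℕ) ∈ Finset.Ioo 0 p := by simpa using hp.one_lt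
  rw [← Finset.add_sum_erase _ _ h1] at h
  have h2 : π ∣ ∑ k ∈ (Finset.Ioo 0 p).erase 1,
      (-π) ^ (k - 1) * 1 ^ (p - k - 1) * ((p.choose k / p : ℕ) : R) := by
    refine Finset.dvd_sum fun k hk => ?_
    simp only [Finset.mem_erase, Finset.mem_Ioo] at hk
    refine Dvd.dvd.mul_right (Dvd.dvd.mul_right ?_ _) _
    exact (dvd_neg.2 dvd_rfl).trans (dvd_pow_self _ (by omega))
  obtain ⟨r, hr⟩ := h2
  rw [hr, show -π + 1 = 1 - π by ring, hz, hodd.neg_pow, Nat.choose_one_right,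
    Nat.div_self hp.pos] at h
  refine ⟨r, sub_eq_zero.1 (hreg _ ?_)⟩
  have h3 : π ^ p = π * π ^ (p - 1) := by
    rw [← pow_succ']; congr 1; have := hp.pos; omega
  rw [h3] at h
  simp only [Nat.sub_self, pow_zero, one_pow, Nat.cast_one, mul_one] at h
  linear_combination h

theorem pi_dvd_p (hreg : ∀ x : R, π * x = 0 → x = 0) {p : ℕ} (hp : p.Prime) (hodd : Odd p)
    (hz : (1 - π) ^ p = 1) : π ^ (p - 1) ∣ (p : R) ∧ (p : R) ∣ π ^ (p - 1) := by
  obtain ⟨r, hr⟩ := pi_pow hreg hp hodd hz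
  refine ⟨cancel_unit r _ _ ⟨-1, by linear_combination hr⟩, ⟨-(1 + π * r), by linear_combination hr⟩⟩

theorem thmA (hreg : ∀ x : R, π * x = 0 → x = 0) {p : ℕ} (hp : p.Prime) (hodd : Odd p)
    (hz : (1 - π) ^ p = 1) {q : ℕ} (hF : ∀ y : R, π ∣ y ^ (q + 2) - y)
    (σ : R →+* R) (hσ : ∀ y, π ∣ σ y - y) (D D' : R) (h : (p : R) ^ 2 ∣ D * D') :
    (p : R) ^ 2 ∣ σ D * D' := by
  obtain ⟨h1, h2⟩ := pi_dvd_p hreg hp hodd hz
  have e := lemA hreg hF σ hσ ((p - 1) * 2) D D'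
    (by rw [pow_mul]; exact (pow_dvd_pow_of_dvd h1 2).trans h)
  rw [pow_mul] at e
  exact (pow_dvd_pow_of_dvd h2 2).trans e

theorem dvd_of_coprime {p : ℕ} (hπ : π ∣ (p : R)) (n : ℤ) (hn : IsCoprime n (p : ℤ)) (y : R)
    (h : π ∣ (n : R) * y) : π ∣ y := by
  obtain ⟨a, b, hab⟩ := hn
  have e : (a : R) * n + b * p = 1 := by exact_mod_cast congrArg (Int.cast : ℤ → R) hab
  rw [show y = a * ((n : R) * y) + b * y * p by linear_combination (-y) * e]
  exact dvd_add (h.mul_left _) (hπ.mul_left _)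

/-- valuations of an eigenvector with eigenvalue one are multiples of `p - 1` -/
theorem lemB (hreg : ∀ x : R, π * x = 0 → x = 0) {p : ℕ} (hπ : π ∣ (p : R))
    (σ : R →+* R) (hσ : ∀ y, π ∣ σ y - y) {r : ℕ} (hσz : σ (1 - π) = (1 - π) ^ r)
    (hr : ∀ i, 0 < i → i < p - 1 → IsCoprime ((r : ℤ) ^ i - 1) (p : ℤ))
    (μ : ℤ) (hμ : IsCoprime μ (p : ℤ)) (y X : R) (hy : (μ : R) * σ y = X * y) (hX : π ∣ X - μ)
    (h1 : π ∣ y) : ∀ i, i ≤ p - 1 → π ^ i ∣ y := by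
  set τ : R := ∑ i ∈ Finset.range r, (1 - π) ^ i with hτ
  have hστ : σ π = π * τ := by
    have a := mul_neg_geom_sum (1 - π) r
    rw [map_sub, map_one] at hσz
    linear_combination -hσz - a
  have hτr : π ∣ τ - r := by
    have : τ - r = ∑ i ∈ Finset.range r, ((1 - π) ^ i - 1) := by
      simp [hτ, Finset.sum_sub_distrib]
    rw [this]
    refine Finset.dvd_sum fun i _ => ?_
    have a := sub_dvd_pow_sub_pow (1 - π) 1 i
    rw [one_pow, show (1 - π) - 1 = -π by ring, neg_dvd] at a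
    exact a
  intro i
  induction i with
  | zero => intro _; simp
  | succ i ih =>
    intro hi
    rcases Nat.eq_zero_or_pos i with rfl | hi0
    · simpa using h1
    obtain ⟨w, hw⟩ := ih (by omega)
    have e1 : (μ : R) * τ ^ i * σ w = X * w := by
      refine sub_eq_zero.1 (reg_pow hreg i _ ?_)
      rw [hw, map_mul, map_pow, hστ, mul_pow] at hy
      linear_combination hy
    have e2 : π ∣ τ ^ i - (r : R) ^ i := hτr.trans (sub_dvd_pow_sub_pow _ _ _)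
    have e3 : π ∣ ((μ * ((r : ℤ) ^ i - 1) : ℤ) : R) * w := by
      have : ((μ * ((r : ℤ) ^ i - 1) : ℤ) : R) * w =
          (X - μ) * w - μ * τ ^ i * (σ w - w) - μ * w * (τ ^ i - (r : R) ^ i) := by
        push_cast
        linear_combination e1
      rw [this]
      exact dvd_sub (dvd_sub (hX.mul_right _) ((hσ w).mul_left _)) (e2.mul_left _)
    have e4 := dvd_of_coprime hπ _ (hμ.mul_left (hr i hi0 (by omega))) w e3
    rw [hw, pow_succ]
    exact mul_dvd_mul_left _ e4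

theorem thmB (hreg : ∀ x : R, π * x = 0 → x = 0) {p : ℕ} (hp : p.Prime) (hodd : Odd p)
    (hz : (1 - π) ^ p = 1) {q : ℕ} (hF : ∀ y : R, π ∣ y ^ (q + 2) - y)
    (σ : R →+* R) (hσ : ∀ y, π ∣ σ y - y) {r : ℕ} (hσz : σ (1 - π) = (1 - π) ^ r)
    (hr : ∀ i, 0 < i → i < p - 1 → IsCoprime ((r : ℤ) ^ i - 1) (p : ℤ))
    (μ : ℤ) (hμ : IsCoprime μ (p : ℤ)) (D D' E E' X H : R) (hy : (μ : R) * σ D = X * D)
    (hX : π ∣ X - μ) (hD : (p : R) ^ 2 ∣ D * D') (hE : σ E = E) (hED : π ∣ E - D)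
    (hED' : π ∣ E' - D') (hE' : (p : R) ∣ E' ^ (q + 2) - E') (hH : (p : R) ^ 2 ∣ H * (E * E')) :
    (p : R) ^ 2 ∣ H * D * E' := by
  obtain ⟨h1, h2⟩ := pi_dvd_p hreg hp hodd hz
  have hπ : π ∣ (p : R) := (dvd_pow_self π (by have := hp.two_le; omega)).trans h1
  have a1 : (p : R) ∣ D * (1 - E ^ (q + 1)) := by
    refine h2.trans (lemB hreg hπ σ hσ hσz hr μ hμ _ X ?_ hX ?_ _ le_rfl)
    · rw [map_mul, map_sub, map_one, map_pow, hE]
      linear_combination (1 - E ^ (q + 1)) * hy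
    · rw [show D * (1 - E ^ (q + 1)) = -((E - D) * (1 - E ^ (q + 1))) - (E ^ (q + 2) - E) by ring]
      exact dvd_sub (dvd_neg.2 (hED.mul_right _)) (hF E)
  have a2 : (p : R) ^ 2 ∣ (E' ^ (q + 1)) ^ ((p - 1) * 2) * D := by
    have b := lemA' hF ((p - 1) * 2) D' E' D
      (by rw [pow_mul, mul_comm D' D]; exact (pow_dvd_pow_of_dvd h1 2).trans hD) hED'
    rw [pow_mul π] at b
    exact (pow_dvd_pow_of_dvd h2 2).trans b
  obtain ⟨d, hd⟩ := one_sub_dvd_one_sub_pow (E' ^ (q + 1)) ((p - 1) * 2)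
  have a3 : (p : R) ^ 2 ∣ (D * (1 - E ^ (q + 1))) * (E' ^ (q + 2) - E') := by
    rw [sq]; exact mul_dvd_mul a1 hE'
  have e : H * D * E' = D * E ^ q * (H * (E * E'))
      + H * E' * (1 - E ^ (q + 1)) * ((E' ^ (q + 1)) ^ ((p - 1) * 2) * D)
      - H * d * ((D * (1 - E ^ (q + 1))) * (E' ^ (q + 2) - E')) := by
    linear_combination (H * D * E' * (1 - E ^ (q + 1))) * hd
  rw [e]
  exact dvd_sub (dvd_add (hH.mul_left _) (a2.mul_left _)) (a3.mul_left _)

end Pool.Agent.P.MP_e9cc94_co.Pl
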