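import Pool.Agent.P.MP_e9cc94_co.PlA

set_option autoImplicit false

/-! Norms on the integral group ring of a finite abelian group. -/

namespace Pool.Agent.P.MP_e9cc94_co.Pl

open Finset AddMonoidAlgebra

abbrev ZA (A : Type) := AddMonoidAlgebra ℤ A

variable {A A' : Type} [AddCommGroup A] [AddCommGroup A']

noncomputable def md (f : A →+ A') : ZA A →+* ZA A' := mapDomainRingHom ℤ f

noncomputable def st : ZA A →+* ZA A := md (negAddMonoidHom : A →+ A)

@[simp] theorem md_single (f : A →+ A') (a : A) (n : ℤ) :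
    md f (single a n) = single (f a) n := by
  simp [md, mapDomainRingHom]

@[simp] theorem st_single (a : A) (n : ℤ) : st (single a n) = single (-a) n := by
  simp [st]

theorem md_ext {A'' : Type} [AddCommGroup A''] {B : Type} [AddCommGroup B] (f : A →+ A')
    (g : A' →+ A'') (f' : A →+ B) (g' : B →+ A'') (h : ∀ a, g (f a) = g' (f' a)) (y : ZA A) :
    md g (md f y) = md g' (md f' y) := by
  induction y using AddMonoidAlgebra.induction_linear with
  | zero => simp
  | add a b ha hb => simp only [map_add, ha, hb]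
  | single a n => simp [h]

theorem md_comp {A'' : Type} [AddCommGroup A''] (f : A →+ A')
    (g : A' →+ A'') (f' : A →+ A'') (h : ∀ a, g (f a) = f' a) (y : ZA A) :
    md g (md f y) = md f' y := by
  induction y using AddMonoidAlgebra.induction_linear with
  | zero => simp
  | add a b ha hb => simp only [map_add, ha, hb]
  | single a n => simp [h]

theorem md_id (f : A →+ A) (h : ∀ a, f a = a) (y : ZA A) : md f y = y := by
  induction y using AddMonoidAlgebra.induction_linear with
  | zero => simp
  | add a b ha hb => simp only [map_add, ha, hb]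
  | single a n => simp [h]

theorem md_st (f : A →+ A') (y : ZA A) : md f (st y) = st (md f y) :=
  md_ext _ _ _ _ (by simp) y

theorem st_st (y : ZA A) : st (st y) = y := by
  rw [st, md_comp _ _ (AddMonoidHom.id A) (by simp), md_id _ (by simp)]

theorem coeff_int_mul (n : ℤ) (y : ZA A) (a : A) : ((n : ZA A) * y).coeff a = n * y.coeff a := by
  rw [intCast_def, coeff_single_zero_mul]; simp

theorem coeff_nat_mul (n : ℕ) (y : ZA A) (a : A) : ((n : ZA A) * y).coeff a = n * y.coeff a := by
  rw [← coeff_int_mul, Int.cast_natCast]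

theorem int_reg {n : ℤ} (hn : n ≠ 0) (y : ZA A) (h : (n : ZA A) * y = 0) : y = 0 := by
  ext a
  have := coeff_int_mul n y a
  rw [h] at this
  simpa [hn] using this

theorem coeff_single_mul' (g : A) (y : ZA A) (a : A) :
    (single g (1 : ℤ) * y).coeff a = y.coeff (a - g) := by
  rw [coeff_single_mul_apply, one_mul, neg_add_eq_sub]

theorem coeff_st (y : ZA A) (a : A) : (st y).coeff a = y.coeff (-a) := by
  classical
  induction y using AddMonoidAlgebra.induction_linear with
  | zero => simp
  | add a b ha hb => simp only [map_add, coeff_add, Finsupp.add_apply, ha, hb]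
  | single b n =>
    simp only [st_single, coeff_single, Finsupp.single_apply]
    exact if_congr neg_eq_iff_eq_neg rfl rfl

theorem frob {l : ℕ} (hl : l.Prime) (f : ℕ) (hf : ∀ a : A, l ^ f • a = a) (y : ZA A) :
    (l : ZA A) ∣ y ^ l ^ f - y := by
  haveI := Fact.mk hl
  induction y using AddMonoidAlgebra.induction_linear with
  | zero => rw [zero_pow (pow_pos hl.pos f).ne']; simp
  | add a b ha hb =>
    obtain ⟨r, hr⟩ := exists_add_pow_prime_pow_eq hl a b f
    rw [hr, show a ^ l ^ f + b ^ l ^ f + l * a * b * r - (a + b) =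
      (a ^ l ^ f - a) + (b ^ l ^ f - b) + l * (a * b * r) by ring]
    exact dvd_add (dvd_add ha hb) (dvd_mul_right _ _)
  | single a n =>
    have h1 : (l : ℤ) ∣ n ^ l ^ f - n := by
      rw [← ZMod.intCast_zmod_eq_zero_iff_dvd]
      push_cast
      rw [ZMod.pow_card_pow, sub_self]
    obtain ⟨c, hc⟩ := h1
    refine ⟨single a c, ?_⟩
    rw [single_pow, hf, ← single_sub, hc, natCast_def, single_mul_single, zero_add]

variable [Fintype A] [Fintype A']

theorem frob' {l : ℕ} (hl : l.Prime) (hc : Nat.Coprime l (Fintype.card A)) :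
    ∃ q : ℕ, ∀ y : ZA A, (l : ZA A) ∣ y ^ (q + 2) - y := by
  have hpos : 0 < Fintype.card A := Fintype.card_pos
  have h1 := Nat.ModEq.pow_totient hc
  have h2 : 2 ≤ l ^ (Fintype.card A).totient :=
    hl.two_le.trans (Nat.le_self_pow (Nat.totient_pos.2 hpos).ne' l)
  refine ⟨l ^ (Fintype.card A).totient - 2, fun y => ?_⟩
  rw [Nat.sub_add_cancel h2]
  refine frob hl _ (fun a => ?_) y
  obtain ⟨c, hc⟩ := (Nat.modEq_iff_dvd' (by omega)).1 h1.symm
  rw [show l ^ (Fintype.card A).totient = c * Fintype.card A + 1 by rw [mul_comm, ← hc]; omega,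
    add_nsmul, mul_nsmul', card_nsmul_eq_zero, nsmul_zero, zero_add, one_nsmul]

theorem root_prime {n l : ℕ} (hl : l.Prime) (hc : Nat.Coprime l (Fintype.card A)) (T : ZA A)
    (hT : (l : ZA A) ∣ T ^ n) : (l : ZA A) ∣ T := by
  obtain ⟨q, hq⟩ := frob' hl hc
  have e : ∀ j : ℕ, (l : ZA A) ∣ T ^ ((q + 1) * j + 1) - T := by
    intro j
    induction j with
    | zero => simp
    | succ j ih =>
      rw [show T ^ ((q + 1) * (j + 1) + 1) - T =
        T ^ ((q + 1) * j) * (T ^ (q + 2) - T) + (T ^ ((q + 1) * j + 1) - T) by ring]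
      exact dvd_add ((hq T).mul_left _) ih
  have e2 : (l : ZA A) ∣ T ^ ((q + 1) * n + 1) := by
    rw [pow_succ, mul_comm (q + 1), pow_mul]
    exact (hT.pow (by omega)).mul_right _
  simpa using dvd_sub e2 (e n)

theorem root {n : ℕ} (hn : 0 < n) : ∀ (M : ℕ), Nat.Coprime M (Fintype.card A) → M ≠ 0 →
    ∀ T : ZA A, T ^ n = (M : ZA A) ^ n → (M : ZA A) ∣ T := by
  intro M
  induction M using induction_on_primes with
  | zero => intro _ h; exact absurd rfl h
  | one => intro _ _ T _; simp
  | prime_mul l a hl ih =>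
    intro hc h0 T hT
    obtain ⟨T1, rfl⟩ := root_prime (n := n) hl (Nat.Coprime.coprime_mul_right hc) T
      (by rw [hT]; push_cast; exact (dvd_mul_right _ _).pow hn.ne')
    have e : T1 ^ n = (a : ZA A) ^ n := by
      refine sub_eq_zero.1 (int_reg (n := (l : ℤ) ^ n) (pow_ne_zero _ (by exact_mod_cast hl.ne_zero))
        _ ?_)
      push_cast at hT ⊢
      rw [mul_pow, mul_pow] at hT
      linear_combination hT
    push_cast
    exact mul_dvd_mul_left _ (ih (Nat.Coprime.coprime_mul_left hc) (right_ne_zero_of_mul h0) T1 e)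

noncomputable def n1 (y : ZA A) : ℤ := ∑ a, |y.coeff a|

noncomputable def n2 (y : ZA A) : ℤ := ∑ a, y.coeff a ^ 2

noncomputable def all (A : Type) [Fintype A] : ZA A := ∑ a, single a 1

theorem coeff_all (a : A) : (all A).coeff a = 1 := by
  classical
  simp [all, Finsupp.finset_sum_apply, Finsupp.single_apply]

theorem coeff_mul' (x y : ZA A) (a : A) :
    (x * y).coeff a = ∑ b, x.coeff b * y.coeff (a - b) := by
  rw [coeff_mul_apply_left, Finsupp.sum_fintype _ _ (by simp)]
  simp only [neg_add_eq_sub]

theorem coeff_md [DecidableEq A'] (f : A →+ A') (y : ZA A) (a' : A') :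
    (md f y).coeff a' = ∑ a, if f a = a' then y.coeff a else 0 := by
  classical
  induction y using AddMonoidAlgebra.induction_linear with
  | zero => simp
  | add a b ha hb =>
    simp only [map_add, coeff_add, Finsupp.add_apply, ha, hb, ← sum_add_distrib]
    refine sum_congr rfl fun c _ => ?_
    split_ifs <;> simp
  | single b n =>
    simp only [md_single, coeff_single, Finsupp.single_apply]
    rw [sum_eq_single b] <;> simp +contextual [eq_comm]

theorem n1_mul (x y : ZA A) : n1 (x * y) ≤ n1 x * n1 y := by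
  unfold n1
  calc ∑ a, |(x * y).coeff a| ≤ ∑ a, ∑ b, |x.coeff b| * |y.coeff (a - b)| := by
        refine sum_le_sum fun a _ => ?_
        rw [coeff_mul']
        refine (abs_sum_le_sum_abs _ _).trans (le_of_eq ?_)
        simp only [abs_mul]
    _ = _ := by
        rw [sum_comm, sum_mul]
        refine sum_congr rfl fun b _ => ?_
        rw [← mul_sum]
        congr 1
        exact Equiv.sum_comp (Equiv.subRight b) fun a => |y.coeff a|

theorem n1_sub (x y : ZA A) : n1 (x - y) ≤ n1 x + n1 y := by
  unfold n1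
  rw [← sum_add_distrib]
  exact sum_le_sum fun a _ => by simpa using abs_sub _ _

theorem n1_single (a : A) (n : ℤ) : n1 (single a n) = |n| := by
  classical
  unfold n1
  rw [sum_eq_single a] <;> simp +contextual [Finsupp.single_apply, eq_comm]

theorem n1_int (n : ℤ) : n1 (n : ZA A) = |n| := by
  rw [intCast_def, n1_single]; simp

theorem n1_md (f : A →+ A') (y : ZA A) : n1 (md f y) ≤ n1 y := by
  classical
  unfold n1
  calc ∑ a', |(md f y).coeff a'| ≤ ∑ a', ∑ a, if f a = a' then |y.coeff a| else 0 := by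
        refine sum_le_sum fun a' _ => ?_
        rw [coeff_md]
        refine (abs_sum_le_sum_abs _ _).trans (le_of_eq (sum_congr rfl fun a _ => ?_))
        split_ifs <;> simp
    _ = _ := by rw [sum_comm]; simp

theorem n1_nonneg (y : ZA A) : 0 ≤ n1 y := sum_nonneg fun _ _ => abs_nonneg _

theorem n1_le_n2 (y : ZA A) : n1 y ≤ n2 y :=
  sum_le_sum fun a _ => by
    rw [← sq_abs]
    exact Int.le_self_sq _

theorem n2_eq (y : ZA A) : (y * st y).coeff 0 = n2 y := by
  rw [coeff_mul']
  simp [coeff_st, n2, sq]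

theorem eq_zero_of_small {p : ℕ} (y : ZA A) (h : (p : ZA A) ∣ y) (h1 : n1 y < p) : y = 0 := by
  obtain ⟨c, hc⟩ := h
  ext a
  have e : (p : ℤ) ∣ y.coeff a := by
    rw [hc, coeff_nat_mul]
    exact dvd_mul_right _ _
  have e2 : |y.coeff a| ≤ n1 y :=
    single_le_sum (f := fun a => |y.coeff a|) (fun _ _ => abs_nonneg _) (mem_univ a)
  simpa using Int.eq_zero_of_abs_lt_dvd e (e2.trans_lt h1)

theorem unit_form (T : ZA A) (h : T * st T = 1) :
    ∃ g : A, T = single g 1 ∨ T = -single g 1 := by
  classical
  have h2 : n2 T = 1 := by rw [← n2_eq, h]; simp [one_def]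
  obtain ⟨g, -, hg⟩ := exists_ne_zero_of_sum_ne_zero (s := univ) (f := fun a => T.coeff a ^ 2)
    (by rw [← n2, h2]; exact one_ne_zero)
  unfold n2 at h2
  rw [← add_sum_erase _ _ (mem_univ g)] at h2
  have a1 : 0 ≤ ∑ x ∈ univ.erase g, T.coeff x ^ 2 := sum_nonneg fun _ _ => sq_nonneg _
  have a2 : 0 < T.coeff g ^ 2 := lt_of_le_of_ne (sq_nonneg _) hg.symm
  have a3 : ∑ x ∈ univ.erase g, T.coeff x ^ 2 = 0 := by omega
  have a4 : T.coeff g ^ 2 = 1 := by omega
  have a5 : T = single g (T.coeff g) := by
    ext a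
    by_cases hag : g = a
    · subst hag; simp
    · have := (sum_eq_zero_iff_of_nonneg fun _ _ => sq_nonneg _).1 a3 a (by simp [Ne.symm hag])
      simp only [coeff_single, Finsupp.single_apply, if_neg hag]
      exact pow_eq_zero_iff (two_ne_zero) |>.1 this
  refine ⟨g, ?_⟩
  rcases sq_eq_one_iff.1 a4 with e | e
  · left; rw [a5, e]
  · right; rw [a5, e, single_neg]

theorem single_mul_all (g : A) : single g (1 : ℤ) * all A = all A := by
  ext a
  rw [coeff_single_mul', coeff_all, coeff_all]

theorem mul_all (y : ZA A) : y * all A = ((∑ a, y.coeff a : ℤ) : ZA A) * all A := by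
  ext a
  rw [coeff_mul', coeff_int_mul]
  simp [coeff_all]

theorem md_all (f : A →+ A) (hf : Function.Bijective f) : md f (all A) = all A := by
  simp only [all, map_sum, md_single]
  exact hf.sum_comp fun a => single a (1 : ℤ)

theorem st_all : st (all A) = all A := by
  ext a
  rw [coeff_st, coeff_all, coeff_all]

theorem all_mul_all : all A * all A = (Fintype.card A : ZA A) * all A := by
  rw [mul_all]; simp [coeff_all]

end Pool.Agent.P.MP_e9cc94_co.Pl
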