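import Pool.Agent.P.MP_e9cc94_co.PlB

set_option autoImplicit false

/-! The ring `ℤ[C_p × W]` modulo the elements that are constant along `C_p`. -/

namespace Pool.Agent.P.MP_e9cc94_co.Pl

open Finset AddMonoidAlgebra

noncomputable def mkf {A : Type} [Fintype A] (f : A → ℤ) : ZA A :=
  ofCoeff (Finsupp.equivFunOnFinite.symm f)

theorem coeff_mkf {A : Type} [Fintype A] (f : A → ℤ) (a : A) : (mkf f).coeff a = f a := by
  simp [mkf]

variable {p : ℕ} {W : Type} [AddCommGroup W]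

noncomputable def pi0 (p : ℕ) (W : Type) [AddCommGroup W] : ZA (ZMod p × W) :=
  1 - single (1, 0) 1

noncomputable def II (p : ℕ) (W : Type) [AddCommGroup W] : Ideal (ZA (ZMod p × W)) where
  carrier := {y | pi0 p W * y = 0}
  add_mem' := by
    intro a b ha hb
    simp only [Set.mem_setOf_eq] at *
    rw [mul_add, ha, hb, add_zero]
  zero_mem' := by simp
  smul_mem' := by
    intro c y hy
    simp only [Set.mem_setOf_eq, smul_eq_mul] at *
    rw [mul_left_comm, hy, mul_zero]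

theorem mem_II' {y : ZA (ZMod p × W)} : y ∈ II p W ↔ pi0 p W * y = 0 := Iff.rfl

noncomputable def sg (s : ZMod p) : ZA (ZMod p × W) →+* ZA (ZMod p × W) :=
  md ((AddMonoidHom.mulLeft s).prodMap (AddMonoidHom.id W))

noncomputable def rho : ZA (ZMod p × W) →+* ZA W := md (AddMonoidHom.snd (ZMod p) W)

noncomputable def iota : ZA W →+* ZA (ZMod p × W) := md (AddMonoidHom.inr (ZMod p) W)

theorem sg_single (s x : ZMod p) (w : W) (n : ℤ) :
    sg s (single (x, w) n) = single (s * x, w) n := by simp [sg]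

theorem rho_sg (s : ZMod p) (y : ZA (ZMod p × W)) : rho (sg s y) = rho y :=
  md_comp _ _ _ (by simp) y

theorem sg_sg (s t : ZMod p) (y : ZA (ZMod p × W)) : sg s (sg t y) = sg (s * t) y :=
  md_comp _ _ _ (by simp [mul_assoc]) y

theorem sg_one (y : ZA (ZMod p × W)) : sg 1 y = y := md_id _ (by simp) y

theorem sg_iota (s : ZMod p) (y : ZA W) : sg s (iota y) = iota y :=
  md_comp _ _ _ (by simp) y

theorem iota_rho (y : ZA (ZMod p × W)) : iota (rho y) = sg 0 y :=
  md_comp _ _ _ (by rintro ⟨x, w⟩; simp) y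

theorem rho_iota (y : ZA W) : rho (iota (p := p) y) = y := by
  rw [rho, iota, md_comp _ _ (AddMonoidHom.id W) (by simp), md_id _ (by simp)]

theorem rho_pi0 : rho (pi0 p W) = 0 := by simp [pi0, rho, one_def]

theorem z_pow (n : ℕ) (s : ZMod p) :
    (single (s, 0) 1 : ZA (ZMod p × W)) ^ n = single ((n : ZMod p) * s, 0) 1 := by
  rw [single_pow]; simp

noncomputable def ph : ZA (ZMod p × W) →+* ZA (ZMod p × W) ⧸ II p W := Ideal.Quotient.mk _

theorem ph_eq {a b : ZA (ZMod p × W)} : ph a = ph b ↔ a - b ∈ II p W := Ideal.Quotient.eq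

theorem ph_surj : Function.Surjective (ph (p := p) (W := W)) := Ideal.Quotient.mk_surjective

theorem q_z (n : ℕ) : (1 - ph (pi0 p W)) ^ n = ph (single ((n : ZMod p), 0) 1) := by
  rw [← map_one ph, ← map_sub, ← map_pow, pi0, sub_sub_cancel, z_pow, mul_one]

theorem q_zp : (1 - ph (pi0 p W)) ^ p = 1 := by
  rw [q_z, ZMod.natCast_self, ← map_one ph]; rfl

variable [Fact p.Prime]

theorem mem_II {y : ZA (ZMod p × W)} :
    y ∈ II p W ↔ ∀ x w, y.coeff (x, w) = y.coeff (0, w) := by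
  have e : ∀ x w, (pi0 p W * y).coeff (x, w) = y.coeff (x, w) - y.coeff (x - 1, w) := by
    intro x w
    rw [pi0, sub_mul, one_mul, coeff_sub, Finsupp.sub_apply, coeff_single_mul']
    simp
  rw [mem_II']
  constructor
  · intro h x w
    have e2 : ∀ n : ℕ, y.coeff ((n : ZMod p), w) = y.coeff (0, w) := by
      intro n
      induction n with
      | zero => simp
      | succ n ih =>
        have := e ((n + 1 : ℕ) : ZMod p) w
        rw [h] at this
        simp only [coeff_zero, Finsupp.coe_zero, Pi.zero_apply, Nat.cast_add, Nat.cast_one,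
          add_sub_cancel_right] at this
        push_cast
        linarith
    rw [← e2 x.val, ZMod.natCast_zmod_val]
  · intro h
    ext ⟨x, w⟩
    rw [e, h, h (x - 1)]; simp

theorem pi0_dvd (s : ZMod p) (y : ZA (ZMod p × W)) : pi0 p W ∣ sg s y - y := by
  have e : ∀ (x : ZMod p) (w : W) (n : ℤ), pi0 p W ∣ single (0, w) n - single (x, w) n := by
    intro x w n
    have a : (single (x, w) n : ZA (ZMod p × W)) = single (1, 0) 1 ^ x.val * single (0, w) n := by
      rw [z_pow, single_mul_single]; simp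
    rw [a, ← one_sub_mul]
    exact (one_sub_dvd_one_sub_pow _ _).mul_right _
  induction y using AddMonoidAlgebra.induction_linear with
  | zero => simp
  | add a b ha hb =>
    rw [map_add, show sg s a + sg s b - (a + b) = (sg s a - a) + (sg s b - b) by ring]
    exact dvd_add ha hb
  | single a n =>
    obtain ⟨x, w⟩ := a
    rw [sg_single]
    simpa using dvd_sub (e x w n) (e (s * x) w n)

theorem sg_mem {s : ZMod p} (hs : s ≠ 0) {y : ZA (ZMod p × W)} (hy : y ∈ II p W) :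
    sg s y ∈ II p W := by
  rw [mem_II'] at *
  have e : sg s (pi0 p W) ∣ pi0 p W := by
    have a := one_sub_dvd_one_sub_pow (single (s, 0) 1 : ZA (ZMod p × W)) (s⁻¹).val
    rw [z_pow, ZMod.natCast_zmod_val, inv_mul_cancel₀ hs] at a
    rw [pi0, map_sub, map_one, sg_single, mul_one]
    exact a
  obtain ⟨c, hc⟩ := e
  have a := congrArg (sg s) hy
  rw [map_mul, map_zero] at a
  rw [hc, mul_right_comm, a, zero_mul]

theorem st_mem {y : ZA (ZMod p × W)} (hy : y ∈ II p W) : st y ∈ II p W := by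
  rw [mem_II] at *
  intro x w
  rw [coeff_st, coeff_st, Prod.neg_mk, Prod.neg_mk, hy, neg_zero]

theorem II_cancel {n : ℤ} (hn : n ≠ 0) {y : ZA (ZMod p × W)}
    (hy : (n : ZA (ZMod p × W)) * y ∈ II p W) : y ∈ II p W := by
  rw [mem_II'] at *
  exact int_reg hn _ (by rw [← hy]; ring)

variable [Fintype W]

theorem all_mem : all (ZMod p × W) ∈ II p W := by
  rw [mem_II]; intro x w; rw [coeff_all, coeff_all]

theorem coeff_rho (y : ZA (ZMod p × W)) (w : W) :
    (rho y).coeff w = ∑ x, y.coeff (x, w) := by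
  classical
  rw [rho, coeff_md, Fintype.sum_prod_type]
  refine sum_congr rfl fun x _ => ?_
  rw [sum_eq_single w] <;> simp +contextual

theorem rho_mem {y : ZA (ZMod p × W)} (hy : y ∈ II p W) :
    rho y = (p : ZA W) * mkf fun w => y.coeff (0, w) := by
  ext w
  rw [coeff_rho, coeff_nat_mul, coeff_mkf, sum_congr rfl fun x _ => mem_II.1 hy x w]
  simp

theorem rho_all : rho (all (ZMod p × W)) = (p : ZA W) * all W := by
  ext w
  rw [coeff_rho, coeff_nat_mul]
  simp [coeff_all]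

theorem pi0_reg {y : ZA (ZMod p × W)} (hy : pi0 p W * y ∈ II p W) : y ∈ II p W := by
  have hp : (p : ℤ) ≠ 0 := by exact_mod_cast (Fact.out : p.Prime).ne_zero
  have e := rho_mem hy
  rw [map_mul, rho_pi0, zero_mul] at e
  have e2 := int_reg hp (mkf fun w => (pi0 p W * y).coeff (0, w))
    (by rw [Int.cast_natCast]; exact e.symm)
  rw [mem_II']
  ext ⟨x, w⟩
  rw [mem_II.1 hy]
  have := coeff_mkf (fun w => (pi0 p W * y).coeff (0, w)) w
  rw [e2] at this
  exact this.symm

theorem sq_aux {M X Y : ℤ} (hM : 0 < M) (h1 : -M ≤ 2 * Y) (h2 : 2 * Y ≤ M) :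
    M ^ 2 * X ^ 2 ≤ 4 * (M * X + Y) ^ 2 := by
  rcases lt_trichotomy X 0 with h | h | h
  · have a : M * X ≤ -M := by nlinarith
    nlinarith
  · subst h; nlinarith
  · have a : M ≤ M * X := by nlinarith
    nlinarith

theorem short {M : ℤ} (hM : 0 < M) (F X0 : ZA (ZMod p × W))
    (h : F - (M : ZA (ZMod p × W)) * X0 ∈ II p W) :
    ∃ X, F - (M : ZA (ZMod p × W)) * X ∈ II p W ∧ M ^ 2 * n2 X ≤ 4 * n2 F := by
  have ex : ∀ Y : ℤ, ∃ t : ℤ, -M ≤ 2 * (Y - M * t) ∧ 2 * (Y - M * t) ≤ M := by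
    intro Y
    have a := Int.emod_add_mul_ediv (2 * Y + M) (2 * M)
    have b := Int.emod_nonneg (2 * Y + M) (show 2 * M ≠ 0 by omega)
    have c := Int.emod_lt_of_pos (2 * Y + M) (show 0 < 2 * M by omega)
    exact ⟨(2 * Y + M) / (2 * M), by nlinarith, by nlinarith⟩
  choose t ht using ex
  set Y := F - (M : ZA (ZMod p × W)) * X0 with hY
  have hm : mkf (fun a : ZMod p × W => t (Y.coeff (0, a.2))) ∈ II p W := by
    rw [mem_II]; intro x w; rw [coeff_mkf, coeff_mkf]
  refine ⟨X0 + mkf fun a => t (Y.coeff (0, a.2)), ?_, ?_⟩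
  · rw [mul_add, ← sub_sub]
    exact (II p W).sub_mem h ((II p W).mul_mem_left _ hm)
  · unfold n2
    rw [mul_sum, mul_sum]
    refine sum_le_sum ?_
    rintro ⟨x, w⟩ -
    have e : F.coeff (x, w) = M * (X0 + mkf fun a : ZMod p × W => t (Y.coeff (0, a.2))).coeff (x, w)
        + (Y.coeff (0, w) - M * t (Y.coeff (0, w))) := by
      have a := mem_II.1 h x w
      rw [hY, coeff_sub, Finsupp.sub_apply, coeff_int_mul, ← coeff_sub, ← hY] at a
      rw [coeff_add, Finsupp.add_apply, coeff_mkf]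
      linarith
    rw [e]
    exact sq_aux hM (ht _).1 (ht _).2

noncomputable def sq_ {s : ZMod p} (hs : s ≠ 0) :
    (ZA (ZMod p × W) ⧸ II p W) →+* ZA (ZMod p × W) ⧸ II p W :=
  Ideal.Quotient.lift _ (ph.comp (sg s)) fun _ hy => Ideal.Quotient.eq_zero_iff_mem.2 (sg_mem hs hy)

omit [Fintype W] in
theorem sq_ph {s : ZMod p} (hs : s ≠ 0) (y : ZA (ZMod p × W)) : sq_ hs (ph y) = ph (sg s y) := rfl

theorem q_reg (x : ZA (ZMod p × W) ⧸ II p W) (h : ph (pi0 p W) * x = 0) : x = 0 := by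
  obtain ⟨y, rfl⟩ := ph_surj x
  rw [← map_mul] at h
  exact Ideal.Quotient.eq_zero_iff_mem.2 (pi0_reg (Ideal.Quotient.eq_zero_iff_mem.1 h))

omit [Fintype W] in
theorem q_int {n : ℤ} (hn : n ≠ 0) (x : ZA (ZMod p × W) ⧸ II p W)
    (h : (n : ZA (ZMod p × W) ⧸ II p W) * x = 0) : x = 0 := by
  obtain ⟨y, rfl⟩ := ph_surj x
  rw [← map_intCast (ph (p := p) (W := W)), ← map_mul] at h
  exact Ideal.Quotient.eq_zero_iff_mem.2 (II_cancel hn (Ideal.Quotient.eq_zero_iff_mem.1 h))

omit [Fintype W] in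
theorem q_sg {s : ZMod p} (hs : s ≠ 0) (x : ZA (ZMod p × W) ⧸ II p W) :
    ph (pi0 p W) ∣ sq_ hs x - x := by
  obtain ⟨y, rfl⟩ := ph_surj x
  rw [sq_ph, ← map_sub]
  exact map_dvd ph (pi0_dvd s y)

omit [Fintype W] in
theorem q_iota (y : ZA (ZMod p × W)) : ph (pi0 p W) ∣ ph (iota (rho y)) - ph y := by
  rw [iota_rho, ← map_sub]
  exact map_dvd ph (pi0_dvd 0 y)

theorem q_frob (hodd : Odd p) {q : ℕ} (hq : ∀ y : ZA W, (p : ZA W) ∣ y ^ (q + 2) - y)
    (x : ZA (ZMod p × W) ⧸ II p W) : ph (pi0 p W) ∣ x ^ (q + 2) - x := by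
  have hp : p.Prime := Fact.out
  obtain ⟨y, rfl⟩ := ph_surj x
  have h1 := (pi_dvd_p q_reg hp hodd (q_zp (p := p) (W := W))).1
  have hπ := (dvd_pow_self (ph (pi0 p W)) (by have := hp.two_le; omega)).trans h1
  have h2 := map_dvd ((ph (p := p) (W := W)).comp iota) (hq (rho y))
  simp only [map_natCast, map_sub, map_pow, RingHom.comp_apply] at h2
  have h3 := q_iota y
  have h4 := h3.trans (sub_dvd_pow_sub_pow _ _ (q + 2))
  have := dvd_add (dvd_sub (hπ.trans h2) h4) h3
  rwa [show ∀ a b : ZA (ZMod p × W) ⧸ II p W,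
    a ^ (q + 2) - a - (a ^ (q + 2) - b ^ (q + 2)) + (a - b) = b ^ (q + 2) - b from
      fun a b => by ring] at this

theorem rho_eq {a b : ZA (ZMod p × W)} (h : ph a = ph b) (hn : n1 (rho a) + n1 (rho b) < p) :
    rho a = rho b := by
  refine sub_eq_zero.1 (eq_zero_of_small (p := p) _ ?_ ((n1_sub _ _).trans_lt hn))
  rw [← map_sub, rho_mem (ph_eq.1 h)]
  exact dvd_mul_right _ _

end Pool.Agent.P.MP_e9cc94_co.Pl
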