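import Pool.Agent.P.MP_e9cc94_co.PlC

set_option autoImplicit false

/-! The twists `σ(D) D* / p ^ 2` are short, so their projections form a homomorphism. -/

namespace Pool.Agent.P.MP_e9cc94_co.Pl

open Finset AddMonoidAlgebra

variable {p : ℕ} [Fact p.Prime] {W : Type} [AddCommGroup W] [Fintype W]

theorem sg_all {s : ZMod p} (hs : s ≠ 0) : sg s (all (ZMod p × W)) = all (ZMod p × W) := by
  refine md_all _ (Finite.injective_iff_bijective.1 ?_)
  rintro ⟨x, w⟩ ⟨x', w'⟩ h
  simp only [AddMonoidHom.coe_prodMap, AddMonoidHom.coe_mulLeft, AddMonoidHom.coe_id,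
    Prod.map_apply, id_eq, Prod.mk.injEq] at h
  rw [mul_left_cancel₀ hs h.1, h.2]

theorem ph_all : ph (all (ZMod p × W)) = 0 := Ideal.Quotient.eq_zero_iff_mem.2 all_mem

theorem n2_int {A : Type} [AddCommGroup A] [Fintype A] {y : ZA A} {n : ℤ}
    (h : y * st y = (n : ZA A)) : n2 y = n := by
  rw [← n2_eq, h, intCast_def]; simp

theorem step2 (hodd : Odd p) (hc : Nat.Coprime p (Fintype.card W)) (m c : ℤ)
    (D : ZA (ZMod p × W))
    (hD : D * st D = (((p * m) ^ 2 : ℤ) : ZA (ZMod p × W)) + c * all (ZMod p × W))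
    {s : ZMod p} (hs : s ≠ 0) :
    ∃ X, ph (sg s D) * ph (st D) = (p : ZA (ZMod p × W) ⧸ II p W) ^ 2 * ph X ∧
      n1 X ≤ 4 * m ^ 4 := by
  have hp : p.Prime := Fact.out
  obtain ⟨q, hq⟩ := frob' (A := W) hp hc
  have h0 : (p : ZA (ZMod p × W) ⧸ II p W) ^ 2 ∣ ph D * ph (st D) := by
    rw [← map_mul, hD, map_add, map_mul, ph_all, mul_zero, add_zero, map_intCast]
    push_cast
    exact ⟨m ^ 2, by ring⟩
  obtain ⟨x0, hx0⟩ := thmA q_reg hp hodd q_zp (q_frob hodd hq) (sq_ hs) (q_sg hs) _ _ h0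
  obtain ⟨X0, rfl⟩ := ph_surj x0
  rw [sq_ph] at hx0
  set A := all (ZMod p × W) with hA
  set k : ℤ := ∑ a, D.coeff a
  have h6 : D * A = k * A := mul_all D
  have h4 : st D * A = k * A := by
    have := congrArg st h6
    rwa [map_mul, map_mul, map_intCast, hA, st_all] at this
  have h3 : sg s D * A = k * A := by
    have := congrArg (sg s) h6
    rwa [map_mul, map_mul, map_intCast, hA, sg_all hs] at this
  have h5 : sg s (st D) * A = k * A := by
    have := congrArg (sg s) h4
    rwa [map_mul, map_mul, map_intCast, hA, sg_all hs] at this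
  have h1 : sg s D * sg s (st D) = (((p * m) ^ 2 : ℤ) : ZA (ZMod p × W)) + c * A := by
    rw [← map_mul, hD, map_add, map_mul, map_intCast, map_intCast, hA, sg_all hs]
  have h7 : A * A = (Fintype.card (ZMod p × W) : ZA (ZMod p × W)) * A := all_mul_all
  have hF : (sg s D * st D - (c : ZA (ZMod p × W)) * A) * st (sg s D * st D - (c : ZA (ZMod p × W)) * A) =
      (((p * m) ^ 4 : ℤ) : ZA (ZMod p × W)) := by
    rw [map_sub, map_mul, map_mul, map_intCast, st_st, hA, st_all, ← hA,
      show st (sg s D) = sg s (st D) from (md_st _ _).symm]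
    push_cast at h1 hD ⊢
    linear_combination (D * st D) * h1 + ((p * m) ^ 2 + c * A) * hD
      - c * (sg s D * h4 + k * h3 - D * h4 - k * h6 + A * hD + c * h7)
      - c * (sg s (st D) * h6 + k * h5 - D * h4 - k * h6 + A * hD + c * h7) + 2 * c ^ 2 * h7
  have hp0 : (0 : ℤ) < (p : ℤ) ^ 2 := by have := hp.pos; positivity
  obtain ⟨X, hX, hn⟩ := short hp0 (sg s D * st D - (c : ZA (ZMod p × W)) * A) X0 (ph_eq.1 (by
    simp only [map_sub, map_mul, map_intCast, hA, ph_all]
    push_cast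
    linear_combination hx0))
  refine ⟨X, ?_, (n1_le_n2 X).trans ?_⟩
  · have := ph_eq.2 hX
    simp only [map_sub, map_mul, map_intCast, hA, ph_all] at this
    push_cast at this
    linear_combination this
  · rw [n2_int hF] at hn
    refine le_of_mul_le_mul_left ?_ (pow_pos hp0 2)
    linarith [show 4 * ((p : ℤ) * m) ^ 4 = ((p : ℤ) ^ 2) ^ 2 * (4 * m ^ 4) by ring]

theorem q_cancel (j : ℕ) {a b : ZA (ZMod p × W) ⧸ II p W}
    (h : (p : ZA (ZMod p × W) ⧸ II p W) ^ j * a = (p : ZA (ZMod p × W) ⧸ II p W) ^ j * b) :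
    a = b := by
  have hp : (p : ℤ) ≠ 0 := by exact_mod_cast (Fact.out : p.Prime).ne_zero
  refine sub_eq_zero.1 (q_int (pow_ne_zero j hp) _ ?_)
  push_cast
  linear_combination h

theorem core1 (hodd : Odd p) (hc : Nat.Coprime p (Fintype.card W)) (m : ℕ) (hm : 0 < m)
    (hcm : Nat.Coprime m (Fintype.card W)) (hbig : 24 * m ^ 8 < p) (c : ℤ)
    (D : ZA (ZMod p × W))
    (hD : D * st D = (((p * m) ^ 2 : ℤ) : ZA (ZMod p × W)) + c * all (ZMod p × W))
    (r : (ZMod p)ˣ) :
    ∃ (X : ZA (ZMod p × W)) (g : W),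
      (m : ZA (ZMod p × W)) ^ 2 * sg (r : ZMod p) D - X * D ∈ II p W ∧ (p - 1) • g = 0 ∧
      (rho X = (m : ZA W) ^ 2 * single g 1 ∨ rho X = -((m : ZA W) ^ 2 * single g 1)) := by
  have hp : p.Prime := Fact.out
  choose X hX hn using fun s : (ZMod p)ˣ => step2 hodd hc m c D hD s.ne_zero
  have hb : 24 * (m : ℤ) ^ 8 < p := by exact_mod_cast hbig
  have hm1 : (1 : ℤ) ≤ m := by exact_mod_cast hm
  have hle : ∀ i, i ≤ 8 → (m : ℤ) ^ i ≤ (m : ℤ) ^ 8 := fun i hi => pow_le_pow_right₀ hm1 hi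
  have hT : ∀ s, n1 (rho (X s)) ≤ 4 * (m : ℤ) ^ 4 := fun s => (n1_md _ _).trans (hn s)
  have hT0 : ∀ s, 0 ≤ n1 (rho (X s)) := fun s => n1_nonneg _
  have hpw : ∀ i : ℕ, n1 ((m : ZA W) ^ i) = (m : ℤ) ^ i := fun i => by
    have := n1_int (A := W) ((m : ℤ) ^ i)
    push_cast at this
    rw [this, abs_of_nonneg (by positivity)]
  have hDD : ∀ s : (ZMod p)ˣ, ph (sg (s : ZMod p) D) * ph (sg (s : ZMod p) (st D)) =
      (p : ZA (ZMod p × W) ⧸ II p W) ^ 2 * m ^ 2 := fun s => by
    rw [← map_mul, ← map_mul, hD, map_add, map_mul, map_intCast, map_intCast, sg_all s.ne_zero,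
      map_add, map_mul, ph_all, map_intCast]
    push_cast; ring
  have hD1 := hDD 1
  simp only [Units.val_one, sg_one] at hD1
  have r1 : rho (X 1) = (m : ZA W) ^ 2 := by
    have a := hX 1
    simp only [Units.val_one, sg_one] at a
    have b : ph (X 1) = ph ((m : ZA (ZMod p × W)) ^ 2) := by
      refine q_cancel 2 ?_
      rw [map_pow, map_natCast, ← a, hD1]
    have := rho_eq b (by
      rw [map_pow, map_natCast, hpw]
      linarith [hT 1, hle 4 (by omega), hle 2 (by omega), hle 0 (by omega)])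
    rwa [map_pow, map_natCast] at this
  have r2 : ∀ s t : (ZMod p)ˣ, (m : ZA W) ^ 2 * rho (X (s * t)) = rho (X s) * rho (X t) := by
    intro s t
    have a := congrArg (sq_ s.ne_zero) (hX t)
    rw [map_mul, map_mul, map_pow, map_natCast, sq_ph, sq_ph, sq_ph, sg_sg, ← Units.val_mul] at a
    have b : ph ((m : ZA (ZMod p × W)) ^ 2 * X (s * t)) = ph (X s * sg (s : ZMod p) (X t)) := by
      refine q_cancel 4 ?_
      rw [map_mul, map_mul, map_pow, map_natCast]
      linear_combination (-(p : ZA (ZMod p × W) ⧸ II p W) ^ 2 * m ^ 2) * hX (s * t)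
        - (ph (sg ((s * t : (ZMod p)ˣ) : ZMod p) D) * ph (st D)) * hDD s
        + (ph (sg (s : ZMod p) D) * ph (st D)) * a
        + ((p : ZA (ZMod p × W) ⧸ II p W) ^ 2 * ph (sg (s : ZMod p) (X t))) * hX s
    have := rho_eq b (by
      rw [map_mul, map_mul, map_pow, map_natCast, rho_sg]
      have a1 := n1_mul ((m : ZA W) ^ 2) (rho (X (s * t)))
      have a2 := n1_mul (rho (X s)) (rho (X t))
      rw [hpw] at a1
      have a3 := mul_le_mul (hT s) (hT t) (hT0 t) (by positivity)
      have a4 := mul_le_mul_of_nonneg_left (hT (s * t)) (show 0 ≤ (m : ℤ) ^ 2 by positivity)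
      nlinarith [hle 6 (by omega), hle 0 (by omega)])
    rwa [map_mul, map_mul, map_pow, map_natCast, rho_sg] at this
  have r3 : rho (X r) * st (rho (X r)) = (m : ZA W) ^ 4 := by
    have a : ph (sg (r : ZMod p) (st D)) * ph D =
        (p : ZA (ZMod p × W) ⧸ II p W) ^ 2 * ph (st (X r)) := by
      have a0 : sg (r : ZMod p) D * st D - (p : ZA (ZMod p × W)) ^ 2 * X r ∈ II p W :=
        ph_eq.1 (by rw [map_mul, map_mul, map_pow, map_natCast]; exact hX r)
      have a1 := st_mem a0
      rw [map_sub, map_mul, map_mul, map_pow, map_natCast, st_st,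
        show st (sg (r : ZMod p) D) = sg (r : ZMod p) (st D) from (md_st _ _).symm] at a1
      have a2 := ph_eq.2 a1
      rwa [map_mul, map_mul, map_pow, map_natCast] at a2
    have b : ph (X r * st (X r)) = ph ((m : ZA (ZMod p × W)) ^ 4) := by
      refine q_cancel 4 ?_
      rw [map_mul, map_pow, map_natCast]
      linear_combination (-(p : ZA (ZMod p × W) ⧸ II p W) ^ 2 * ph (st (X r))) * hX r
        - (ph (sg (r : ZMod p) D) * ph (st D)) * a + (ph D * ph (st D)) * hDD r
        + ((p : ZA (ZMod p × W) ⧸ II p W) ^ 2 * m ^ 2) * hD1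
    have e : rho (st (X r)) = st (rho (X r)) := md_st _ _
    have := rho_eq b (by
      rw [map_mul, map_pow, map_natCast, e, hpw]
      have a2 := n1_mul (rho (X r)) (st (rho (X r)))
      have a3 := mul_le_mul (hT r) ((n1_md negAddMonoidHom (rho (X r))).trans (hT r))
        (n1_nonneg _) (by positivity)
      have a4 : md negAddMonoidHom (rho (X r)) = st (rho (X r)) := rfl
      rw [a4] at a3
      nlinarith [hle 4 (by omega), hle 0 (by omega)])
    rwa [map_mul, map_pow, map_natCast, e] at this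
  have cz : ∀ (i : ℕ) (a b : ZA W), (m : ZA W) ^ i * a = (m : ZA W) ^ i * b → a = b := by
    intro i a b h
    refine sub_eq_zero.1 (int_reg (n := (m : ℤ) ^ i) (by positivity) _ ?_)
    push_cast
    linear_combination h
  have r4 : ∀ j : ℕ, (m : ZA W) ^ 2 * rho (X r) ^ j = ((m : ZA W) ^ 2) ^ j * rho (X (r ^ j)) := by
    intro j
    induction j with
    | zero => simp [r1]
    | succ j ih =>
      rw [pow_succ r]
      linear_combination rho (X r) * ih - ((m : ZA W) ^ 2) ^ j * r2 (r ^ j) r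
  have r5 : rho (X r) ^ (p - 1) = (((m ^ 2 : ℕ) : ZA W)) ^ (p - 1) := by
    refine cz 2 _ _ ?_
    rw [r4, ZMod.units_pow_card_sub_one_eq_one, r1]
    push_cast; ring
  obtain ⟨T, hT'⟩ := root (by have := hp.two_le; omega) (m ^ 2) (hcm.pow_left 2) (by positivity) _ r5
  push_cast at hT' r5
  have r6 : T * st T = 1 := by
    refine cz 4 _ _ ?_
    rw [hT', map_mul, map_pow, map_natCast] at r3
    linear_combination r3
  have r7 : T ^ (p - 1) = 1 := by
    refine cz (2 * (p - 1)) _ _ ?_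
    rw [hT', mul_pow] at r5
    rw [pow_mul, r5, mul_one]
  obtain ⟨g, hg⟩ := unit_form T r6
  refine ⟨X r, g, ph_eq.1 (q_cancel 2 ?_), ?_, ?_⟩
  · rw [map_mul, map_mul, map_pow, map_natCast]
    linear_combination ph D * hX r - ph (sg (r : ZMod p) D) * hD1
  · have ev : Even (p - 1) := Nat.Odd.sub_odd hodd odd_one
    have : (single g (1 : ℤ) : ZA W) ^ (p - 1) = 1 := by
      rcases hg with rfl | rfl
      · exact r7
      · rwa [ev.neg_pow] at r7
    rw [single_pow, one_pow, one_def] at this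
    exact (single_left_inj one_ne_zero).1 this
  · rcases hg with rfl | rfl
    · exact Or.inl hT'
    · exact Or.inr (by rw [hT']; ring)

end Pool.Agent.P.MP_e9cc94_co.Pl
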