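import Pool.Agent.P.MP_e9cc94_co.PlD

set_option autoImplicit false

/-! The sign of the twist, and the final variance count. -/

namespace Pool.Agent.P.MP_e9cc94_co.Pl

open Finset AddMonoidAlgebra

theorem arith3 {κ a b : ℤ} (z : ℤ) (hκ : 0 < κ) (hb : 0 < b) (hab : a ^ 2 = 1 + 2 * b ^ 2)
    (ha0 : 0 ≤ a) (ha : 2 * a ≤ 3 * b) (hκb : 2 * κ ^ 2 ≤ b ^ 2) :
    b ^ 2 ≤ 64 * κ ^ 2 * (b * z - κ * a) ^ 2 := by
  by_contra hcon
  push Not at hcon
  have hz : z ^ 2 ≠ 2 * κ ^ 2 := by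
    intro h
    obtain ⟨t, rfl⟩ : κ ∣ z := (Int.pow_dvd_pow_iff two_ne_zero).1 ⟨2, by rw [h]; ring⟩
    have h2 : t ^ 2 = 2 := mul_left_cancel₀ (pow_pos hκ 2).ne' (by linear_combination h)
    have h3 : t < 2 := by nlinarith
    have h4 : -2 < t := by nlinarith
    interval_cases t <;> simp at h2
  set d := b * z - κ * a with hd
  have he : 8 * κ * |d| < b := by
    refine lt_of_pow_lt_pow_left₀ 2 hb.le ?_
    rw [mul_pow, sq_abs]
    linarith [show (8 * κ) ^ 2 * d ^ 2 = 64 * κ ^ 2 * d ^ 2 by ring]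
  have h0 : 0 ≤ |d| := abs_nonneg d
  have hka : 0 ≤ κ * a := by positivity
  have h1 : |d + 2 * (κ * a)| ≤ 4 * κ * b := by
    refine (abs_add_le _ _).trans ?_
    rw [abs_of_nonneg (by positivity : 0 ≤ 2 * (κ * a))]
    nlinarith
  have h2 : d * (d + 2 * (κ * a)) = b ^ 2 * (z ^ 2 - 2 * κ ^ 2) - κ ^ 2 := by
    rw [hd]; linear_combination (-κ ^ 2) * hab
  have h3 : b ^ 2 ≤ 2 * |d * (d + 2 * (κ * a))| := by
    rw [h2]
    have hb2 : 0 < b ^ 2 := by positivity
    rcases lt_or_gt_of_ne hz with h | h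
    · have := neg_le_abs (b ^ 2 * (z ^ 2 - 2 * κ ^ 2) - κ ^ 2)
      nlinarith [sq_nonneg κ]
    · have := le_abs_self (b ^ 2 * (z ^ 2 - 2 * κ ^ 2) - κ ^ 2)
      nlinarith
  rw [abs_mul] at h3
  have h4 := mul_le_mul_of_nonneg_left h1 h0
  nlinarith

theorem sign_aux {W : Type} [AddCommGroup W] [Fintype W] (E : W → ℤ) (g : W) {p m κ a b : ℤ}
    (hp : 0 < p) (hm : 0 < m) (hκ : 0 < κ) (hab : a ^ 2 = 1 + 2 * b ^ 2) (hab2 : a = p * m + b)
    (hb : 2 * (p * m) ≤ b) (hκb : 2 * κ ^ 2 ≤ b ^ 2) (hω : κ * Fintype.card W = 2 * m * b)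
    (hs : ∑ w, E w = p * m * a) (h2 : ∑ w, E w ^ 2 = (p * m) ^ 2 + p * m * b * κ * p)
    (hdiv : ∀ w, p ∣ E w + E (w - g)) : p ≤ 64 * κ ^ 3 := by
  set ω : ℤ := (Fintype.card W : ℤ) with hωd
  have hω0 : 0 < ω := by rw [hωd]; exact_mod_cast Fintype.card_pos
  have hu : 0 < p * m := by positivity
  have hb0 : 0 < b := by omega
  have v1 : ∑ w, (ω * E w - p * m * a) ^ 2 = ω * (ω - 1) * (p * m) ^ 2 := by
    have : ∀ w, (ω * E w - p * m * a) ^ 2 =
        ω ^ 2 * E w ^ 2 - 2 * ω * (p * m * a) * E w + (p * m * a) ^ 2 := fun w => by ring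
    simp only [this, sum_add_distrib, sum_sub_distrib, ← mul_sum, hs, h2, sum_const, card_univ,
      nsmul_eq_mul, ← hωd]
    linear_combination (ω * p * m * b * p) * hω - ω * (p * m) ^ 2 * hab
  have v2 : ∑ w, (ω * E (w - g) - p * m * a) ^ 2 = ω * (ω - 1) * (p * m) ^ 2 := by
    rw [← v1]
    exact Equiv.sum_comp (Equiv.subRight g) fun w => (ω * E w - p * m * a) ^ 2
  have v3 : ∀ w, 4 * (p * m) ^ 2 * b ^ 2 ≤
      128 * κ ^ 4 * ((ω * E w - p * m * a) ^ 2 + (ω * E (w - g) - p * m * a) ^ 2) := by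
    intro w
    obtain ⟨z, hz⟩ := hdiv w
    have a1 := arith3 z hκ hb0 hab (by omega) (by omega) hκb
    have a2 : κ * ((ω * E w - p * m * a) + (ω * E (w - g) - p * m * a)) =
        2 * (p * m) * (b * z - κ * a) := by
      linear_combination (κ * ω) * hz + p * z * hω
    generalize ω * E w - p * m * a = s at *
    generalize ω * E (w - g) - p * m * a = t at *
    calc 4 * (p * m) ^ 2 * b ^ 2 ≤ 4 * (p * m) ^ 2 * (64 * κ ^ 2 * (b * z - κ * a) ^ 2) := by
          gcongr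
      _ = 64 * κ ^ 2 * (κ * (s + t)) ^ 2 := by rw [a2]; ring
      _ = 64 * κ ^ 4 * (s + t) ^ 2 := by ring
      _ ≤ 64 * κ ^ 4 * (2 * (s ^ 2 + t ^ 2)) := by
          gcongr; nlinarith [sq_nonneg (s - t)]
      _ = _ := by ring
  have v4 := sum_le_sum fun w (_ : w ∈ univ) => v3 w
  rw [← mul_sum (s := univ) (a := 128 * κ ^ 4), sum_add_distrib, v1, v2, sum_const, card_univ,
    nsmul_eq_mul, ← hωd] at v4
  have v5 : b ^ 2 ≤ 64 * κ ^ 4 * ω := by
    refine le_of_mul_le_mul_left ?_ (show 0 < 4 * ω * (p * m) ^ 2 by positivity)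
    have : 0 ≤ 256 * κ ^ 4 * ω * (p * m) ^ 2 := by positivity
    nlinarith
  have v6 : b ≤ 128 * κ ^ 3 * m := by
    refine le_of_mul_le_mul_left ?_ hb0
    calc b * b = b ^ 2 := by ring
      _ ≤ 64 * κ ^ 3 * (κ * ω) := by linarith [show 64 * κ ^ 4 * ω = 64 * κ ^ 3 * (κ * ω) by ring]
      _ = _ := by rw [hω]; ring
  refine le_of_mul_le_mul_left ?_ (show 0 < 2 * m by positivity)
  nlinarith

theorem n2_H {A : Type} [AddCommGroup A] [Fintype A] {h : A} (hh : h ≠ 0) {y : ZA A} {n : ℤ}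
    (e : y * st y = (n : ZA A) * ((1 - single h 1) * st (1 - single h 1))) : n2 y = 2 * n := by
  classical
  rw [← n2_eq, e, coeff_int_mul, map_sub, map_one, st_single, sub_mul, mul_sub, mul_sub,
    single_mul_single, one_def]
  simp [single_mul_single, Finsupp.single_apply, hh]
  ring

theorem H_all {A : Type} [AddCommGroup A] [Fintype A] (h : A) :
    (1 - single h 1 : ZA A) * all A = 0 := by
  rw [sub_mul, single_mul_all, one_mul, sub_self]

variable {p : ℕ} [Fact p.Prime] {W : Type} [AddCommGroup W] [Fintype W]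

theorem rho_DD {U c : ℤ} {D : ZA (ZMod p × W)}
    (hD : D * st D = (U : ZA (ZMod p × W)) + c * all (ZMod p × W)) :
    rho D * st (rho D) = (U : ZA W) + (c * p : ℤ) * all W := by
  have := congrArg rho hD
  rw [map_mul, map_add, map_mul, map_intCast, map_intCast, rho_all,
    show rho (st D) = st (rho D) from md_st _ _] at this
  rw [this]; push_cast; ring

theorem sign {m κ a b : ℤ} (hm : 0 < m) (hpm : IsCoprime (p : ℤ) m) (hκ : 0 < κ)
    (hab : a ^ 2 = 1 + 2 * b ^ 2) (hab2 : a = p * m + b)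
    (hb : 2 * (p * m) ≤ b) (hκb : 2 * κ ^ 2 ≤ b ^ 2) (hω : κ * Fintype.card W = 2 * m * b)
    (D : ZA (ZMod p × W)) (hs : ∑ x, D.coeff x = p * m * a)
    (hD : D * st D = (((p * m) ^ 2 : ℤ) : ZA (ZMod p × W))
      + (p * m * b * κ : ℤ) * all (ZMod p × W))
    (s : ZMod p) (X : ZA (ZMod p × W)) (g : W)
    (hX : (m : ZA (ZMod p × W)) ^ 2 * sg s D - X * D ∈ II p W)
    (hρ : rho X = -((m : ZA W) ^ 2 * single g 1)) : (p : ℤ) ≤ 64 * κ ^ 3 := by
  have hp : p.Prime := Fact.out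
  refine sign_aux (fun w => (rho D).coeff w) g (by exact_mod_cast hp.pos) hm hκ hab hab2 hb hκb hω
    ?_ ?_ fun w => ?_
  · rw [← hs, Fintype.sum_prod_type_right]
    exact sum_congr rfl fun w _ => coeff_rho D w
  · have := n2_eq (rho D)
    rw [rho_DD hD, coeff_add, Finsupp.add_apply, coeff_int_mul, coeff_all, intCast_def] at this
    simpa [n2] using this.symm
  · have e := rho_mem hX
    rw [map_sub, map_mul, map_mul, map_pow, map_intCast, rho_sg, hρ] at e
    generalize (mkf fun w => ((m : ZA (ZMod p × W)) ^ 2 * sg s D - X * D).coeff (0, w)) = V at e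
    have e2 : ((m ^ 2 : ℤ) : ZA W) * (rho D + single g 1 * rho D) = (p : ZA W) * V := by
      push_cast
      linear_combination e
    have e3 := congrArg (fun y : ZA W => y.coeff w) e2
    simp only [coeff_int_mul, coeff_nat_mul, coeff_add, Finsupp.add_apply, coeff_single_mul'] at e3
    exact (hpm.pow_right (n := 2)).dvd_of_dvd_mul_left ⟨_, e3⟩

theorem coeff_iota (y : ZA W) {x : ZMod p} (hx : x ≠ 0) (w : W) :
    (iota y : ZA (ZMod p × W)).coeff (x, w) = 0 := by
  classical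
  rw [iota, coeff_md]
  simp [hx.symm]

theorem var_aux (f : ZMod p → ℤ) (c B : ℤ) (S : Finset (ZMod p)) (h1 : ∀ x, x ∉ S → f x = c)
    (h2 : ∀ x, (f x - c) ^ 2 ≤ B) :
    p * ∑ x, f x ^ 2 - (∑ x, f x) ^ 2 ≤ p * (S.card * B) := by
  have e1 : ∑ x, (f x - c) ^ 2 ≤ S.card * B := by
    rw [← sum_subset (subset_univ S) fun x _ hx => by rw [h1 x hx]; simp]
    simpa using sum_le_card_nsmul S _ B fun x _ => h2 x
  have e2 : ∑ x, (f x - c) ^ 2 = ∑ x, f x ^ 2 - 2 * c * ∑ x, f x + p * c ^ 2 := by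
    have : ∀ x, (f x - c) ^ 2 = f x ^ 2 - 2 * c * f x + c ^ 2 := fun x => by ring
    simp [this, sum_add_distrib, sum_sub_distrib, ← mul_sum]
  have e3 := mul_le_mul_of_nonneg_left e1 (Int.natCast_nonneg p)
  rw [e2] at e3
  nlinarith [sq_nonneg (∑ x, f x - p * c)]

theorem core2 (hodd : Odd p) (hc : Nat.Coprime p (Fintype.card W)) {m : ℤ} (hm : 0 < m)
    (hpm : IsCoprime (p : ℤ) m) (hbig : 8 * m ^ 4 < p) (c κ : ℤ) (D : ZA (ZMod p × W))
    (hD : D * st D = (((p * m) ^ 2 : ℤ) : ZA (ZMod p × W)) + c * all (ZMod p × W))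
    (h0 : ∀ a, 0 ≤ D.coeff a) (h1 : ∀ a, D.coeff a ≤ κ) (r : ℕ) (hr0 : (r : ZMod p) ≠ 0)
    (hr : ∀ i, 0 < i → i < p - 1 → IsCoprime ((r : ℤ) ^ i - 1) (p : ℤ)) (X : ZA (ZMod p × W))
    (hX : (m : ZA (ZMod p × W)) ^ 2 * sg (r : ZMod p) D - X * D ∈ II p W)
    (hρ : rho X = (m : ZA W) ^ 2) {h : W} (hh : h ≠ 0) :
    2 * (p * m) ^ 2 * ((p : ℤ) - 1) ≤ Fintype.card W * (p * (8 * m ^ 4 * (2 * κ) ^ 2)) := by
  classical
  have hp : p.Prime := Fact.out
  have hp0 : (0 : ℤ) < p := by exact_mod_cast hp.pos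
  obtain ⟨q, hq⟩ := frob' (A := W) hp hc
  set U : ℤ := (p * m) ^ 2 with hU
  set H : ZA (ZMod p × W) := 1 - single (0, h) 1 with hH
  set E : ZA (ZMod p × W) := iota (rho D) with hE
  have hE' : st E = iota (st (rho D)) := (md_st _ _).symm
  have hρH : rho H = 1 - single h 1 := by simp [hH, rho]
  have hιH : iota (rho H) = H := by rw [hρH]; simp [hH, iota]
  have a0 : rho H * (rho D * st (rho D)) = U * rho H := by
    rw [rho_DD hD, hρH]
    linear_combination ((c * p : ℤ) : ZA W) * H_all h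
  have a1 : H * (E * st E) = U * H := by
    have := congrArg (iota (p := p)) a0
    rwa [map_mul, map_mul, map_mul, map_intCast, hιH, ← hE', ← hE] at this
  have a2 : H * (D * st D) = U * H := by
    rw [hD]
    linear_combination (c : ZA (ZMod p × W)) * H_all ((0 : ZMod p), h)
  have hUq : (p : ZA (ZMod p × W) ⧸ II p W) ^ 2 ∣ ph (U : ZA (ZMod p × W)) := by
    rw [map_intCast, hU]; push_cast; exact ⟨m ^ 2, by ring⟩
  obtain ⟨x0, hx0⟩ := thmB q_reg hp hodd q_zp (q_frob hodd hq) (sq_ hr0) (q_sg hr0) (r := r)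
    (by rw [q_z, ← pow_one (1 - ph (pi0 p W)), q_z, sq_ph, sg_single]; simp) hr (m ^ 2)
    (hpm.symm.pow_left) (ph D) (ph (st D)) (ph E) (ph (st E)) (ph X) (ph H)
    (by
      have := ph_eq.2 hX
      rw [map_mul, map_mul, map_pow, map_intCast] at this
      rw [sq_ph, ← this]; push_cast; rfl)
    (by
      have := q_iota X
      rw [hρ, map_pow, map_intCast, map_pow, map_intCast] at this
      push_cast
      exact dvd_sub_comm.1 this)
    (by rw [← map_mul, hD, map_add, map_mul, ph_all, mul_zero, add_zero]; exact hUq)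
    (by rw [sq_ph, hE, sg_iota]) (q_iota D)
    (by rw [hE', show st (rho D) = rho (st D) from (md_st _ _).symm]; exact q_iota _)
    (by
      have := map_dvd ((ph (p := p) (W := W)).comp iota) (hq (st (rho D)))
      simpa only [map_natCast, map_sub, map_pow, RingHom.comp_apply, ← hE'] using this)
    (by rw [← map_mul, ← map_mul, a1, map_mul]; exact hUq.mul_right _)
  obtain ⟨X0, rfl⟩ := ph_surj x0
  have hh' : ((0 : ZMod p), h) ≠ 0 := fun e => hh (Prod.mk.inj e).2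
  have hF : n2 (H * D * st E) = 2 * U ^ 2 := n2_H hh' (by
    rw [map_mul, map_mul, st_st, ← hH]
    push_cast
    linear_combination (st H * (E * st E)) * a2 + (U * st H) * a1)
  have hΔ : n2 (H * D) = 2 * U := n2_H hh' (by
    rw [map_mul, ← hH]
    linear_combination st H * a2)
  have hΔ' : n2 (rho (H * D)) = 2 * U := n2_H hh (by
    rw [map_mul, map_mul, ← hρH]
    linear_combination st (rho H) * a0)
  obtain ⟨Y, hY, hn⟩ := short (pow_pos hp0 2) (H * D * st E) X0 (ph_eq.1 (by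
    simp only [map_mul, map_intCast]
    push_cast
    exact hx0))
  have hn2 : n2 Y ≤ 8 * m ^ 4 := by
    rw [hF] at hn
    refine le_of_mul_le_mul_left ?_ (pow_pos (pow_pos hp0 2) 2)
    linarith [show 4 * (2 * U ^ 2) = ((p : ℤ) ^ 2) ^ 2 * (8 * m ^ 4) by rw [hU]; ring]
  set S : Finset (ZMod p) := univ.filter fun x => ∃ w, Y.coeff (x, w) ≠ 0 with hS
  have hSc : (S.card : ℤ) ≤ 8 * m ^ 4 := by
    refine le_trans ?_ hn2
    rw [n2, Fintype.sum_prod_type, card_eq_sum_ones]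
    push_cast
    refine (sum_le_sum fun x hx => ?_).trans
      (sum_le_sum_of_subset_of_nonneg (subset_univ S) fun x _ _ =>
        sum_nonneg fun w _ => sq_nonneg _)
    obtain ⟨w, hw⟩ := (mem_filter.1 hx).2
    refine le_trans ?_ (single_le_sum (f := fun w => Y.coeff (x, w) ^ 2)
      (fun _ _ => sq_nonneg _) (mem_univ w))
    exact pow_pos (abs_pos.2 hw) 2 |>.trans_eq (sq_abs _)
  obtain ⟨x0, hx0'⟩ : ∃ x0, x0 ∉ S := by
    by_contra hcon
    push Not at hcon
    rw [eq_univ_of_forall hcon, card_univ, ZMod.card] at hSc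
    omega
  have hYE : ∀ x, x ∉ S → ∀ w, (Y * E).coeff (x, w) = 0 := by
    intro x hx w
    rw [coeff_mul']
    refine sum_eq_zero ?_
    rintro ⟨x', w'⟩ -
    by_cases e : x = x'
    · subst e
      have : Y.coeff (x, w') = 0 := by
        by_contra hne
        exact hx (mem_filter.2 ⟨mem_univ _, w', hne⟩)
      rw [this, zero_mul]
    · rw [Prod.mk_sub_mk, hE, coeff_iota _ (sub_ne_zero.2 e), mul_zero]
  have hmem : (U : ZA (ZMod p × W)) * (H * D) - ((p ^ 2 : ℤ) : ZA (ZMod p × W)) * (Y * E)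
      ∈ II p W := by
    have := (II p W).mul_mem_left E hY
    rwa [show E * (H * D * st E - ((p ^ 2 : ℤ) : ZA (ZMod p × W)) * Y) =
      U * (H * D) - ((p ^ 2 : ℤ) : ZA (ZMod p × W)) * (Y * E) by linear_combination D * a1] at this
  have hconst : ∀ w x, x ∉ S → (H * D).coeff (x, w) = (H * D).coeff (x0, w) := by
    intro w x hx
    have b1 := (mem_II.1 hmem x w).trans (mem_II.1 hmem x0 w).symm
    simp only [coeff_sub, Finsupp.sub_apply, coeff_int_mul, hYE x hx, hYE x0 hx0'] at b1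
    exact mul_left_cancel₀ (show U ≠ 0 by positivity) (by linarith)
  have hbd : ∀ a, -κ ≤ (H * D).coeff a ∧ (H * D).coeff a ≤ κ := by
    intro a
    rw [hH, sub_mul, one_mul, coeff_sub, Finsupp.sub_apply, coeff_single_mul']
    constructor <;> linarith [h0 a, h1 a, h0 (a - (0, h)), h1 (a - (0, h))]
  have hv := sum_le_sum fun w (_ : w ∈ univ) => var_aux (fun x => (H * D).coeff (x, w))
    ((H * D).coeff (x0, w)) ((2 * κ) ^ 2) S (hconst w) fun x =>
      sq_le_sq' (by linarith [(hbd (x, w)).1, (hbd (x0, w)).2])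
        (by linarith [(hbd (x, w)).2, (hbd (x0, w)).1])
  rw [sum_sub_distrib, ← mul_sum, ← Fintype.sum_prod_type_right
    (f := fun a => (H * D).coeff a ^ 2), ← n2, hΔ, sum_const, card_univ, nsmul_eq_mul] at hv
  simp only [← coeff_rho] at hv
  rw [← n2, hΔ'] at hv
  refine le_trans (by linarith) (hv.trans ?_)
  gcongr

end Pool.Agent.P.MP_e9cc94_co.Pl
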