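import Pool.Agent.P.MP_e9cc94_co.PlE

set_option autoImplicit false

/-! Images of a difference set in abelian quotients; the Pell parameters. -/

namespace Pool.Agent.P.MP_e9cc94_co.Pl

open Finset AddMonoidAlgebra

section Push

variable {G : Type} [Group G] [Fintype G] [DecidableEq G]

theorem ds_sum {D : Finset G} {lam : ℕ}
    (h : ∀ g : G, g ≠ 1 → ((D ×ˢ D).filter (fun p : G × G => p.1 * p.2⁻¹ = g)).card = lam)
    {V : Type} [AddCommMonoid V] (f : G → V) :
    ∑ d ∈ D, ∑ e ∈ D, f (d * e⁻¹) + lam • f 1 = D.card • f 1 + lam • ∑ g, f g := by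
  have e1 : ((D ×ˢ D).filter (fun p : G × G => p.1 * p.2⁻¹ = 1)).card = D.card := by
    symm
    refine card_bij (fun d _ => (d, d)) ?_ ?_ ?_
    · intro d hd; simp [hd]
    · intro a _ b _ h; exact (Prod.mk.inj h).1
    · rintro ⟨a, b⟩ hp
      simp only [mem_filter, mem_product, mul_inv_eq_one] at hp
      exact ⟨a, hp.1.1, by rw [hp.2]⟩
  have e2 : ∑ d ∈ D, ∑ e ∈ D, f (d * e⁻¹) =
      ∑ g, ((D ×ˢ D).filter (fun p : G × G => p.1 * p.2⁻¹ = g)).card • f g := by
    rw [← sum_product' (f := fun d e => f (d * e⁻¹)),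
      ← sum_fiberwise (s := D ×ˢ D) (g := fun p : G × G => p.1 * p.2⁻¹)]
    refine sum_congr rfl fun g _ => ?_
    rw [sum_congr rfl (g := fun _ => f g), sum_const]
    intro p hp
    rw [(mem_filter.1 hp).2]
  rw [e2, ← add_sum_erase _ _ (mem_univ 1), ← add_sum_erase _ f (mem_univ 1), e1,
    sum_congr rfl fun g hg => by rw [h g (mem_erase.1 hg).1], smul_add, smul_sum]
  abel

variable {A : Type} [AddCommGroup A] [Fintype A]

noncomputable def push (D : Finset G) (φ : G → A) : ZA A := ∑ d ∈ D, single (φ d) 1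

theorem push_spec {D : Finset G} {lam U : ℕ}
    (h : ∀ g : G, g ≠ 1 → ((D ×ˢ D).filter (fun p : G × G => p.1 * p.2⁻¹ = g)).card = lam)
    (hk : D.card = lam + U) (φ : G → A) (hφ : ∀ g h, φ (g * h⁻¹) = φ g - φ h)
    (hs : Function.Surjective φ) :
    ∃ κ : ℕ, κ * Fintype.card A = Fintype.card G ∧ (∀ a, 0 ≤ (push D φ).coeff a) ∧
      (∀ a, (push D φ).coeff a ≤ κ) ∧ ∑ a, (push D φ).coeff a = D.card ∧
      push D φ * st (push D φ) = (U : ZA A) + ((lam * κ : ℕ) : ZA A) * all A := by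
  classical
  have h1 : φ 1 = 0 := by simpa using hφ 1 1
  have cf : ∀ (S : Finset G) (a : A), (push S φ).coeff a = (S.filter fun g => φ g = a).card := by
    intro S a
    simp [push, Finsupp.single_apply]
  set κ := (univ.filter fun g => φ g = 0).card with hκ
  have fib : ∀ a, (univ.filter fun g => φ g = a).card = κ := by
    intro a
    obtain ⟨g0, rfl⟩ := hs a
    refine card_bij (fun g _ => g * g0⁻¹) ?_ ?_ ?_
    · intro g hg
      simp only [mem_filter, mem_univ, true_and] at hg ⊢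
      rw [hφ, hg, sub_self]
    · intro a _ b _ h; simpa using h
    · intro g hg
      simp only [mem_filter, mem_univ, true_and] at hg ⊢
      refine ⟨g * g0, ?_, by simp⟩
      have := hφ (g * g0) g0
      rw [mul_inv_cancel_right, hg] at this
      exact sub_eq_zero.1 this.symm
  refine ⟨κ, ?_, fun a => by rw [cf]; positivity, fun a => ?_, ?_, ?_⟩
  · rw [← card_univ (α := G), card_eq_sum_card_fiberwise (f := φ) (t := univ) (by simp)]
    simp [fib, mul_comm]
  · rw [cf, ← fib a]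
    exact_mod_cast card_le_card (filter_subset_filter _ (subset_univ D))
  · simp only [cf]
    exact_mod_cast (card_eq_sum_card_fiberwise (f := φ) (t := univ) (by simp)).symm
  · have e := ds_sum h fun g => (single (φ g) 1 : ZA A)
    have e1 : ∑ g, (single (φ g) 1 : ZA A) = (κ : ZA A) * all A := by
      ext a
      rw [coeff_nat_mul, coeff_all, mul_one, ← fib a]
      exact cf univ a
    have e2 : push D φ * st (push D φ) = ∑ d ∈ D, ∑ e ∈ D, (single (φ (d * e⁻¹)) 1 : ZA A) := by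
      simp only [push, map_sum, st_single, sum_mul_sum, single_mul_single, hφ, sub_eq_add_neg,
        mul_one]
    rw [← e2, e1, h1, ← one_def, hk] at e
    simp only [nsmul_eq_mul] at e
    push_cast at e ⊢
    linear_combination e

omit [Fintype A] [Group G] [Fintype G] [DecidableEq G] in
theorem md_push {A' : Type} [AddCommGroup A'] (f : A →+ A') (D : Finset G) (φ : G → A) :
    md f (push D φ) = push D fun g => f (φ g) := by
  simp [push]

end Push

theorem params {k lam : ℕ} (h : k * k + lam = k + lam * (2 * lam)) (h2 : 2 < lam) :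
    ∃ u b : ℕ, k = lam + u ^ 2 ∧ lam = u * b ∧ b ^ 2 + 1 = 2 * u * b + u ^ 2 := by
  have hk : lam < k := by
    by_contra hc
    push Not at hc
    nlinarith
  obtain ⟨n, rfl⟩ := Nat.exists_eq_add_of_lt hk
  have h' : ((n : ℤ) + 1) * (2 * lam + n) = (lam : ℤ) ^ 2 := by
    have : ((lam + n + 1 : ℕ) : ℤ) * (lam + n + 1 : ℕ) + lam =
      (lam + n + 1 : ℕ) + lam * (2 * lam) := by exact_mod_cast h
    push_cast at this
    linear_combination this
  obtain ⟨a, ha⟩ := Int.sq_of_isCoprime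
    ⟨4 * (2 * lam + n) + 2 * lam + 1, -(2 * lam + 1), by linear_combination 4 * h'⟩ h'
  have ha' : (n : ℤ) + 1 = a ^ 2 := ha.resolve_right fun e => by nlinarith [sq_nonneg a]
  have hu : n + 1 = a.natAbs ^ 2 := by
    have : ((a.natAbs ^ 2 : ℕ) : ℤ) = a ^ 2 := by push_cast; exact sq_abs a
    omega
  generalize a.natAbs = u at hu
  have h3 : u ^ 2 * (2 * lam + n) = lam ^ 2 := by rw [← hu]; exact_mod_cast h'
  obtain ⟨b, rfl⟩ : u ∣ lam := (Nat.pow_dvd_pow_iff two_ne_zero).1 ⟨_, h3.symm⟩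
  refine ⟨u, b, by omega, rfl, ?_⟩
  have h4 : 2 * (u * b) + n = b ^ 2 :=
    Nat.eq_of_mul_eq_mul_left (show 0 < u ^ 2 by omega) (by rw [h3]; ring)
  nlinarith

theorem params2 {u b : ℤ} (hu : 0 < u) (hb : 0 < b) (h : b ^ 2 + 1 = 2 * u * b + u ^ 2) :
    2 * u ≤ b ∧ 2 * b ≤ 5 * u ∧ 2 * b ∣ u ^ 2 - 1 := by
  refine ⟨by nlinarith, by nlinarith, ?_⟩
  rcases Int.even_or_odd' b with ⟨t, rfl | rfl⟩
  · exact ⟨t - u, by linear_combination -h⟩
  · exfalso
    rcases Int.even_or_odd' u with ⟨s, rfl | rfl⟩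
    · have : 4 * (t ^ 2 + t - s * (2 * t + 1) - s ^ 2) + 2 = 0 := by linear_combination h
      omega
    · have : 2 * (2 * t ^ 2 + 2 * t - (2 * s + 1) * (2 * t + 1) - 2 * s ^ 2 - 2 * s) + 1 = 0 := by
        linear_combination h
      omega

theorem n0_bound {p m b c κ n : ℤ} (hm : 0 < m) (hc : 0 < c) (hκ : κ ≤ c * m)
    (hn : 0 < n) (hbig : 200000 * m ^ 8 * c ^ 3 < p) (hb0 : 0 < b)
    (hb : b ^ 2 + 1 = 2 * (p * m) * b + (p * m) ^ 2) (hb5 : 2 * b ≤ 5 * (p * m))
    (he : 2 * b ∣ (p * m) ^ 2 - 1) (h1 : n ∣ p - 1) (h2 : n ∣ 2 * b) :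
    80 * m ^ 4 * (κ * n) < p - 1 := by
  have hc3 : c ≤ c ^ 3 := le_self_pow₀ hc (by norm_num)
  rcases (show m = 1 ∨ 1 < m by omega) with rfl | hm1
  · simp only [one_pow, mul_one] at *
    have e : n * n ∣ 8 * (b + p - 1) := by
      have := dvd_sub (dvd_sub (mul_dvd_mul h2 h2) ((mul_dvd_mul h2 h1).mul_left 4))
        ((mul_dvd_mul h1 h1).mul_left 4)
      rwa [show 2 * b * (2 * b) - 4 * (2 * b * (p - 1)) - 4 * ((p - 1) * (p - 1)) =
        8 * (b + p - 1) by linear_combination 4 * hb] at this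
    have e2 := Int.le_of_dvd (by omega) e
    have hc2 : c ^ 2 ≤ c ^ 3 := pow_le_pow_right₀ hc (by norm_num)
    by_contra hcon
    push Not at hcon
    have e3 : p - 1 ≤ 80 * (c * n) := by nlinarith
    have e4 : (p - 1) ^ 2 ≤ (80 * (c * n)) ^ 2 := pow_le_pow_left₀ (by omega) e3 2
    have e5 : c ^ 2 * (n * n) ≤ c ^ 2 * (28 * p) :=
      mul_le_mul_of_nonneg_left (by omega) (by positivity)
    have e6 : 1 ≤ c ^ 2 := one_le_pow₀ hc
    have e7 : p * (200000 * c ^ 2) ≤ p * p := by gcongr <;> omega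
    nlinarith
  · have e : n ∣ m ^ 2 - 1 := by
      have := dvd_sub (h2.trans he) (h1.mul_left (m ^ 2 * (p + 1)))
      rwa [show (p * m) ^ 2 - 1 - m ^ 2 * (p + 1) * (p - 1) = m ^ 2 - 1 by ring] at this
    have e2 := Int.le_of_dvd (by nlinarith) e
    have e3 : κ * n ≤ c * m * m ^ 2 := mul_le_mul hκ (by omega) hn.le (by positivity)
    have e4 : m ^ 7 ≤ m ^ 8 := pow_le_pow_right₀ hm (by norm_num)
    have e5 : m ^ 7 * c ≤ m ^ 8 * c ^ 3 := mul_le_mul e4 hc3 hc.le (by positivity)
    have e6 : 0 < m ^ 8 * c ^ 3 := by positivity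
    have e7 : 80 * m ^ 4 * (κ * n) ≤ 80 * m ^ 4 * (c * m * m ^ 2) := by gcongr
    nlinarith

theorem card_dvd (H : Type) [Group H] [Finite H] {n n' : ℕ} (hc : Nat.Coprime n n')
    (h : ∀ x : H, x ^ n = 1) (hd : Nat.card H ∣ n * n') : Nat.card H ∣ n := by
  refine Nat.Coprime.dvd_of_dvd_mul_right (Nat.coprime_of_dvd fun l hl h1 h2 => ?_) hd
  haveI := Fact.mk hl
  obtain ⟨x, hx⟩ := exists_prime_orderOf_dvd_card' l h1
  exact hl.one_lt.ne' (Nat.eq_one_of_dvd_coprimes hc (hx ▸ orderOf_dvd_of_pow_eq_one (h x)) h2)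

theorem quot (G : Type) [Group G] [Fintype G] {p m B e : ℕ} [Fact p.Prime]
    (hG : Fintype.card G = p * m * B) (he : (p * m) ^ 2 = 1 + B * e) (hpm : Nat.Coprime p m)
    (hc : ¬p ∣ Nat.card (commutator G)) :
    ∃ (W : Type) (_ : AddCommGroup W) (_ : Fintype W) (φ : G → ZMod p × W),
      (∀ g h, φ (g * h⁻¹) = φ g - φ h) ∧ Function.Surjective φ ∧ Fintype.card W ∣ B ∧
      Fintype.card G ≤ Nat.card (commutator G) * (p * m) * Fintype.card W := by
  have hp : p.Prime := Fact.out
  have hcop : Nat.Coprime (p * m) B := by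
    refine (Nat.coprime_pow_left_iff two_pos _ _).1 ?_
    rw [he]; simp
  have hQ : Nat.card (commutator G) * Nat.card (Abelianization G) = p * m * B := by
    rw [← hG, ← Nat.card_eq_fintype_card]
    exact (commutator G).card_mul_index
  have hQd : Nat.card (Abelianization G) ∣ p * m * B := Dvd.intro_left _ hQ
  have hkill : ∀ x : Abelianization G, x ^ (p * m * B) = 1 := fun x => by
    obtain ⟨t, ht⟩ := hQd
    rw [ht, pow_mul, pow_card_eq_one', one_pow]
  set f1 : Abelianization G →* Abelianization G := powMonoidHom (p * m) with hf1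
  set f2 : Abelianization G →* Abelianization G := powMonoidHom (m * B) with hf2
  have c1 : Nat.card f1.range ∣ B := by
    refine card_dvd _ hcop.symm ?_ (by rw [mul_comm B]; exact f1.range.card_subgroup_dvd_card.trans hQd)
    rintro ⟨_, x, rfl⟩
    ext
    simpa [hf1, ← pow_mul] using hkill x
  have c2 : Nat.card f1.ker ∣ p * m := by
    refine card_dvd _ hcop ?_ (f1.ker.card_subgroup_dvd_card.trans hQd)
    rintro ⟨x, hx⟩
    ext
    simpa [hf1] using hx
  have hcop2 : Nat.Coprime p (m * B) := hpm.mul_right (Nat.Coprime.coprime_mul_right hcop)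
  have k2 : ∀ x : f2.range, x ^ p = 1 := by
    rintro ⟨_, x, rfl⟩
    ext
    have := hkill x
    rw [show p * m * B = m * B * p by ring] at this
    simpa [hf2, ← pow_mul] using this
  have c3 : Nat.card f2.range = p := by
    have a : Nat.card f2.range ∣ p :=
      card_dvd _ hcop2 k2 (by rw [← mul_assoc]; exact f2.range.card_subgroup_dvd_card.trans hQd)
    refine ((Nat.dvd_prime hp).1 a).resolve_left fun h1 => ?_
    have b : p ∣ Nat.card (Abelianization G) :=
      ((Nat.Prime.dvd_mul hp).1 ⟨m * B, by rw [hQ]; ring⟩).resolve_left hc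
    obtain ⟨x, hx⟩ := exists_prime_orderOf_dvd_card' p b
    have : f2 x ∈ f2.range := ⟨x, rfl⟩
    rw [Subgroup.card_eq_one.1 h1, Subgroup.mem_bot] at this
    exact hp.one_lt.ne' (Nat.eq_one_of_dvd_coprimes hcop2 dvd_rfl
      (hx ▸ orderOf_dvd_of_pow_eq_one this))
  let ε : f2.range ≃* Multiplicative (ZMod p) := mulEquivOfPrimeCardEq c3 (by simp)
  haveI : Fintype f1.range := Fintype.ofFinite _
  refine ⟨Additive f1.range, inferInstance, inferInstance, fun g =>
    ((ε (f2.rangeRestrict (Abelianization.of g))).toAdd,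
      Additive.ofMul (f1.rangeRestrict (Abelianization.of g))), fun g h => ?_, ?_, ?_, ?_⟩
  · simp only [map_mul, map_inv, toAdd_mul, toAdd_inv, ofMul_mul, ofMul_inv, Prod.mk_sub_mk,
      ← sub_eq_add_neg]
  · rintro ⟨x, w⟩
    obtain ⟨q1, h1⟩ := f2.rangeRestrict_surjective (ε.symm (Multiplicative.ofAdd x))
    obtain ⟨q2, h2⟩ := f1.rangeRestrict_surjective w.toMul
    obtain ⟨g, hg⟩ := QuotientGroup.mk_surjective (s := commutator G)
      (q1 * (q2 * q1⁻¹) ^ (p * m) ^ 2 : Abelianization G)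
    have hg' : Abelianization.of g = q1 * (q2 * q1⁻¹) ^ (p * m) ^ 2 := hg
    refine ⟨g, Prod.ext ?_ ?_⟩
    · simp only [hg']
      rw [map_mul, map_pow, show (p * m) ^ 2 = p * (p * m ^ 2) by ring, pow_mul, k2, one_pow,
        mul_one, h1]
      simp
    · simp only [hg']
      have : f1.rangeRestrict (q1 * (q2 * q1⁻¹) ^ (p * m) ^ 2) = f1.rangeRestrict q2 := by
        ext
        simp only [MonoidHom.coe_rangeRestrict, hf1, powMonoidHom_apply]
        rw [he, pow_add, pow_one, ← mul_assoc, mul_pow, ← pow_mul,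
          show B * e * (p * m) = p * m * B * e by ring, pow_mul _ (p * m * B), hkill, one_pow, mul_one,
          mul_comm q2, mul_inv_cancel_left]
      rw [this, h2]; rfl
  · rw [← Nat.card_eq_fintype_card]; exact c1
  · have a := f1.ker.card_mul_index
    rw [Subgroup.index_ker] at a
    have b : Fintype.card (Additive f1.range) = Nat.card f1.range := by
      rw [← Nat.card_eq_fintype_card]; rfl
    rw [hG, ← hQ, ← a, b, mul_assoc]
    gcongr
    exact Nat.le_of_dvd (Nat.pos_of_ne_zero fun h0 => by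
      rw [h0] at he; simp at he; omega) c2

end Pool.Agent.P.MP_e9cc94_co.Pl
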