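import Pool.Agent.P.MP_e9cc94_co.PlF

set_option autoImplicit false

/-! No large prime factor of `u` when the commutator subgroup is small. -/

namespace Pool.Agent.P.MP_e9cc94_co.Pl

open Finset AddMonoidAlgebra

theorem prim_root (p : ℕ) [Fact p.Prime] : ∃ r : (ZMod p)ˣ,
    ∀ i, 0 < i → i < p - 1 → IsCoprime ((((r : ZMod p).val : ℕ) : ℤ) ^ i - 1) (p : ℤ) := by
  have hp : p.Prime := Fact.out
  obtain ⟨r, hr⟩ := IsCyclic.exists_ofOrder_eq_natCard (α := (ZMod p)ˣ)
  rw [Nat.card_eq_fintype_card, ZMod.card_units] at hr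
  refine ⟨r, fun i h0 h1 => ?_⟩
  refine ((Nat.prime_iff_prime_int.1 hp).coprime_iff_not_dvd.2 fun h => ?_).symm
  rw [← ZMod.intCast_zmod_eq_zero_iff_dvd] at h
  push_cast at h
  rw [ZMod.natCast_zmod_val, sub_eq_zero, ← Units.val_pow_eq_pow_val, Units.val_eq_one] at h
  exact pow_ne_one_of_lt_orderOf h0.ne' (hr ▸ h1) h

theorem bound {G : Type} [Group G] [Fintype G] [DecidableEq G] {D : Finset G} {p m b : ℕ}
    (h : ∀ g : G, g ≠ 1 →
      ((D ×ˢ D).filter (fun x : G × G => x.1 * x.2⁻¹ = g)).card = p * m * b)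
    (hv : Fintype.card G = 2 * (p * m * b)) (hk : D.card = p * m * b + (p * m) ^ 2)
    (hb : b ^ 2 + 1 = 2 * (p * m) * b + (p * m) ^ 2) (hp : p.Prime)
    (hc : ¬p ∣ Nat.card (commutator G)) :
    p ≤ 200000 * m ^ 8 * Nat.card (commutator G) ^ 3 := by
  classical
  haveI := Fact.mk hp
  by_contra hbig
  push Not at hbig
  set c := Nat.card (commutator G) with hcd
  have hc0 : 0 < c := Nat.card_pos
  have hG0 : 0 < Fintype.card G := Fintype.card_pos
  have hm : 0 < m := Nat.pos_of_ne_zero fun e => by simp [e] at hv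
  have hb0 : 0 < b := Nat.pos_of_ne_zero fun e => by simp [e] at hv
  have hc3 : 1 ≤ c ^ 3 := Nat.one_le_pow _ _ hc0
  have hm8 : ∀ i, i ≤ 8 → m ^ i ≤ m ^ 8 := fun i hi => Nat.pow_le_pow_right hm hi
  have hb8 : 200000 * m ^ 8 < p := lt_of_le_of_lt (Nat.le_mul_of_pos_right _ hc3) hbig
  have hmp : m < p := by have := hm8 1 (by omega); rw [pow_one] at this; omega
  have hpm : Nat.Coprime p m := Nat.coprime_of_lt_prime hm.ne' hmp hp
  have hpm' : IsCoprime (p : ℤ) (m : ℤ) := Nat.isCoprime_iff_coprime.2 hpm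
  have hodd : Odd p := hp.odd_of_ne_two (by have := Nat.one_le_pow 8 m hm; omega)
  have hbz : (b : ℤ) ^ 2 + 1 = 2 * (p * m) * b + (p * m) ^ 2 := by exact_mod_cast hb
  have hp0 : (0 : ℤ) < p := by exact_mod_cast hp.pos
  have hmz : (0 : ℤ) < m := by exact_mod_cast hm
  have hbz0 : (0 : ℤ) < b := by exact_mod_cast hb0
  have hcz : (0 : ℤ) < c := by exact_mod_cast hc0
  have hbigz : 200000 * (m : ℤ) ^ 8 * (c : ℤ) ^ 3 < p := by exact_mod_cast hbig
  obtain ⟨p1, p2, p3⟩ := params2 (mul_pos hp0 hmz) hbz0 hbz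
  obtain ⟨e, he⟩ : ∃ e : ℕ, (p * m) ^ 2 = 1 + 2 * b * e := by
    have h1 : 1 ≤ (p * m) ^ 2 := Nat.one_le_pow _ _ (Nat.mul_pos hp.pos hm)
    obtain ⟨e, he⟩ : 2 * b ∣ (p * m) ^ 2 - 1 := by
      rw [← Int.natCast_dvd_natCast]
      push_cast [h1]
      exact p3
    exact ⟨e, by omega⟩
  have hcop : Nat.Coprime (p * m) (2 * b) := by
    refine (Nat.coprime_pow_left_iff two_pos _ _).1 ?_
    rw [he]; simp
  obtain ⟨W, _, _, φ, hφ, hs, hW, hle⟩ := quot G (B := 2 * b) (by rw [hv]; ring) he hpm hc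
  have hW0 : 0 < Fintype.card W := Fintype.card_pos
  have hcW := Nat.Coprime.coprime_dvd_right hW hcop
  obtain ⟨κ, k1, -, -, k4, k5⟩ := push_spec h hk φ hφ hs
  rw [Fintype.card_prod, ZMod.card] at k1
  have hκω : κ * Fintype.card W = 2 * m * b :=
    Nat.eq_of_mul_eq_mul_left hp.pos (by linarith)
  have hκ0 : 0 < κ := Nat.pos_of_ne_zero fun e => by rw [e] at k1; omega
  have hκ : κ ≤ c * m :=
    Nat.le_of_mul_le_mul_right (c := p * Fintype.card W) (by linarith) (Nat.mul_pos hp.pos hW0)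
  have hκz : (κ : ℤ) ≤ c * m := by exact_mod_cast hκ
  have hκz0 : (0 : ℤ) < κ := by exact_mod_cast hκ0
  have hD : push D φ * st (push D φ) = ((((p : ℤ) * m) ^ 2 : ℤ) : ZA (ZMod p × W))
      + ((p * m * b * κ : ℤ) : ZA (ZMod p × W)) * all (ZMod p × W) := by
    rw [k5]; push_cast; rfl
  obtain ⟨r, hr⟩ := prim_root p
  obtain ⟨X, g, hX, hg, hρ⟩ := core1 hodd (Nat.Coprime.coprime_mul_right hcW) m hm
    (Nat.Coprime.coprime_mul_left hcW) (by omega) _ _ hD r
  have hκ3 : (κ : ℤ) ^ 3 ≤ (m : ℤ) ^ 8 * c ^ 3 := by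
    have a : (m : ℤ) ^ 3 ≤ (m : ℤ) ^ 8 := by exact_mod_cast hm8 3 (by omega)
    calc (κ : ℤ) ^ 3 ≤ ((c : ℤ) * m) ^ 3 := by gcongr
      _ = (m : ℤ) ^ 3 * c ^ 3 := by ring
      _ ≤ _ := by gcongr
  rcases hρ with hρ | hρ
  swap
  · have a : (κ : ℤ) ≤ κ ^ 3 := le_self_pow₀ hκz0 (by norm_num)
    have a2 : (p : ℤ) ≤ p * m := le_mul_of_one_le_right hp0.le hmz
    have := sign (a := p * m + b) hmz hpm' hκz0 (by linear_combination -hbz) rfl p1
      (by nlinarith) (by exact_mod_cast hκω) (push D φ) (by rw [k4, hk]; push_cast; ring) hD _ X g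
      (by simpa using hX) (by simpa using hρ)
    nlinarith
  · set Z := AddSubgroup.zmultiples g with hZ
    haveI : Fintype (W ⧸ Z) := Fintype.ofFinite _
    set f : ZMod p × W →+ ZMod p × (W ⧸ Z) :=
      (AddMonoidHom.id (ZMod p)).prodMap (QuotientAddGroup.mk' Z) with hf
    obtain ⟨κ', j1, j2, j3, -, j5⟩ := push_spec h hk (fun x => f (φ x))
      (fun x y => by rw [hφ, map_sub])
      ((Function.surjective_id.prodMap (QuotientAddGroup.mk'_surjective Z)).comp hs)
    rw [Fintype.card_prod, ZMod.card] at j1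
    have hcard : Fintype.card W = Fintype.card (W ⧸ Z) * addOrderOf g := by
      rw [← Nat.card_zmultiples, ← Nat.card_eq_fintype_card, ← Nat.card_eq_fintype_card]
      exact AddSubgroup.card_eq_card_quotient_mul_card_addSubgroup Z
    have hW1 : 0 < Fintype.card (W ⧸ Z) := Fintype.card_pos
    have hκ' : κ' = κ * addOrderOf g := by
      refine Nat.eq_of_mul_eq_mul_right (Nat.mul_pos hp.pos hW1) ?_
      rw [j1, ← k1, hcard]; ring
    have hκω' : (κ' : ℤ) * Fintype.card (W ⧸ Z) = 2 * m * b := by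
      rw [hκ']
      rw [hcard] at hκω
      exact_mod_cast (by linarith : κ * addOrderOf g * Fintype.card (W ⧸ Z) = 2 * m * b)
    have key := n0_bound (n := addOrderOf g) hmz hcz hκz
      (by exact_mod_cast addOrderOf_pos g) hbigz hbz0 hbz p2 p3
      (by
        have := Int.natCast_dvd_natCast.2 (addOrderOf_dvd_of_nsmul_eq_zero hg)
        rwa [Nat.cast_sub hp.one_le] at this)
      (by exact_mod_cast addOrderOf_dvd_card.trans hW)
    rw [← Nat.cast_mul, ← hκ'] at key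
    have hm4 : (1 : ℤ) ≤ (m : ℤ) ^ 4 := one_le_pow₀ hmz
    have hκ'0 : (0 : ℤ) ≤ κ' := Int.natCast_nonneg _
    obtain ⟨w, hw⟩ : ∃ w : W ⧸ Z, w ≠ 0 := by
      refine Fintype.exists_ne_of_one_lt_card ?_ 0
      by_contra hcon
      rw [show Fintype.card (W ⧸ Z) = 1 by omega] at hκω'
      have a2 : (p : ℤ) ≤ p * m := le_mul_of_one_le_right hp0.le hmz
      push_cast at hκω'
      nlinarith
    have hπ : md f (pi0 p W) = pi0 p (W ⧸ Z) := by simp [pi0, hf]
    have fin := core2 hodd (Nat.Coprime.coprime_dvd_right (Dvd.intro _ hcard.symm)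
      (Nat.Coprime.coprime_mul_right hcW)) hmz hpm'
      (by have : 8 * m ^ 4 < p := by have := hm8 4 (by omega); omega
          exact_mod_cast this) (p * m * b * κ') κ' (push D fun x => f (φ x))
      (by rw [j5]; push_cast; rfl) j2 j3 (r : ZMod p).val (by simp) hr (md f X)
      (by
        have a := congrArg (md f) (mem_II'.1 hX)
        rw [map_mul, map_zero, hπ, map_sub, map_mul, map_mul, map_pow, map_natCast,
          show md f (sg (r : ZMod p) (push D φ)) = sg (r : ZMod p) (md f (push D φ)) from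
            md_ext _ _ _ _ (by simp [hf]) _, md_push] at a
        rw [ZMod.natCast_zmod_val, Int.cast_natCast]
        exact a)
      (by
        rw [show rho (md f X) = md (QuotientAddGroup.mk' Z) (rho X) from
          md_ext _ _ _ _ (by simp [hf]) _, hρ, map_mul, map_pow, map_natCast, md_single,
          show QuotientAddGroup.mk' Z g = 0 from
            (QuotientAddGroup.eq_zero_iff g).2 (AddSubgroup.mem_zmultiples g), ← one_def, mul_one,
          Int.cast_natCast]) hw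
    have e1 : (Fintype.card (W ⧸ Z) : ℤ) * (p * (8 * m ^ 4 * (2 * κ') ^ 2)) =
        32 * p * m ^ 5 * κ' * (2 * b) := by
      linear_combination (32 * p * m ^ 4 * κ' : ℤ) * hκω'
    have e2 : 32 * (p : ℤ) * m ^ 5 * κ' * (2 * b) ≤ 32 * p * m ^ 5 * κ' * (5 * (p * m)) := by gcongr
    have e3 := mul_lt_mul_of_pos_left key (show 0 < 2 * ((p : ℤ) * m) ^ 2 by positivity)
    linarith [show 2 * ((p : ℤ) * m) ^ 2 * (80 * m ^ 4 * κ') =
      32 * p * m ^ 5 * κ' * (5 * (p * m)) by ring]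

theorem pell {G : Type} [Group G] [Fintype G] [DecidableEq G] {D : Finset G} {lam : ℕ}
    (h4 : 4 < Fintype.card G) (hv : Fintype.card G = 2 * lam)
    (h : ∀ g : G, g ≠ 1 → ((D ×ˢ D).filter (fun x : G × G => x.1 * x.2⁻¹ = g)).card = lam) :
    ∃ u : ℕ, D.card = lam + u ^ 2 ∧ ∀ p m : ℕ, p.Prime → u = p * m →
      p ≤ 200000 * m ^ 8 * Nat.card (commutator G) ^ 3 := by
  have e := ds_sum h fun _ => (1 : ℕ)
  simp only [sum_const, smul_eq_mul, mul_one, card_univ, hv] at e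
  obtain ⟨u, b, h1, h2, h3⟩ := params e (by omega)
  refine ⟨u, h1, ?_⟩
  rintro p m hp rfl
  subst h2
  by_cases hc : p ∣ Nat.card (commutator G)
  · have hm : 0 < m := Nat.pos_of_ne_zero fun e => by simp [e] at hv
    calc p ≤ Nat.card (commutator G) := Nat.le_of_dvd Nat.card_pos hc
      _ ≤ Nat.card (commutator G) ^ 3 := Nat.le_self_pow (by norm_num) _
      _ ≤ _ := Nat.le_mul_of_pos_left _ (by positivity)
  · exact bound h hv h1 h3 hp hc

end Pool.Agent.P.MP_e9cc94_co.Pl
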