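import Mathlib

/-! Difference sets and spinor norms: determinants of Cayley transforms. -/

set_option autoImplicit false
set_option linter.unusedSectionVars false

namespace Pool.Agent.P.MP_e9cc94_co.Sp

open Finset Matrix

/-- the determinant of a skew matrix is a square -/
theorem skew_sq : ∀ (n : ℕ) (ι : Type) [Fintype ι] [DecidableEq ι] (T : Matrix ι ι ℚ),
    Fintype.card ι = n → Tᵀ = -T → ∃ c, T.det = c ^ 2 := by
  intro n
  induction n using Nat.strong_induction_on with
  | _ n ih =>
  intro ι _ _ T hn hT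
  by_cases h0 : T = 0
  · subst h0
    cases isEmpty_or_nonempty ι
    · exact ⟨1, by simp⟩
    · exact ⟨0, by simp⟩
  obtain ⟨i, j, hij⟩ : ∃ i j, T i j ≠ 0 := by
    by_contra! h
    exact h0 (by ext; simp [h])
  have hs : ∀ a b, T b a = -T a b := fun a b => congrFun (congrFun hT a) b
  have hd : ∀ a, T a a = 0 := fun a => by linarith [hs a a]
  have hf : Function.Injective ![i, j] := by
    have hne : i ≠ j := by
      rintro rfl
      exact hij (hd i)
    intro a b
    fin_cases a <;> fin_cases b <;> simp [hne, hne.symm]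
  classical
  let e := (Equiv.sumCongr (Equiv.ofInjective _ hf) (Equiv.refl _)).trans
    (Equiv.Set.sumCompl (Set.range ![i, j]))
  have hA : (T.submatrix e e).toBlocks₁₁ = !![0, T i j; -T i j, 0] := by
    ext a b
    fin_cases a <;> fin_cases b <;> simp [e, toBlocks₁₁, hd, hs i j]
  have hc := Fintype.card_congr e
  rw [Fintype.card_sum, Fintype.card_fin] at hc
  have hB : (T.submatrix e e).toBlocks₁₂ᵀ = -(T.submatrix e e).toBlocks₂₁ := by
    ext a b
    exact hs _ _
  have hD : (T.submatrix e e).toBlocks₂₂ᵀ = -(T.submatrix e e).toBlocks₂₂ := by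
    ext a b
    exact hs _ _
  rw [← det_submatrix_equiv_self e, ← fromBlocks_toBlocks (T.submatrix e e), hA]
  generalize (T.submatrix e e).toBlocks₁₂ = B at hB
  generalize (T.submatrix e e).toBlocks₂₁ = C at hB
  generalize (T.submatrix e e).toBlocks₂₂ = D at hD
  have hE : (!![0, -(T i j)⁻¹; (T i j)⁻¹, 0] : Matrix (Fin 2) (Fin 2) ℚ) *
      !![0, T i j; -T i j, 0] = 1 := by
    ext a b
    fin_cases a <;> fin_cases b <;> simp [hij]
  let := invertibleOfLeftInverse _ _ hE
  have hE' : (⅟!![0, T i j; -T i j, 0] : Matrix (Fin 2) (Fin 2) ℚ)ᵀ =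
      -⅟!![0, T i j; -T i j, 0] := by
    rw [invOf_eq_left_inv hE]
    ext a b
    fin_cases a <;> fin_cases b <;> simp
  have hC : Cᵀ = -B := by rw [← neg_neg C, ← hB]; simp
  obtain ⟨c, hc⟩ := ih _ (by omega) _ (D - C * ⅟!![0, T i j; -T i j, 0] * B) rfl (by
    rw [transpose_sub, transpose_mul, transpose_mul, hE', hB, hC, hD]
    simp [Matrix.mul_assoc, sub_eq_add_neg, add_comm])
  exact ⟨T i j * c, by rw [det_fromBlocks₁₁, hc, det_fin_two_of]; ring⟩

variable {ι : Type} [Fintype ι] [DecidableEq ι]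

/-- rows in `s` from the identity, the others from `T` -/
def pw (s : Finset ι) (T : Matrix ι ι ℚ) : Matrix ι ι ℚ :=
  of fun a b => if a ∈ s then (1 : Matrix ι ι ℚ) a b else T a b

theorem pw_sq {T : Matrix ι ι ℚ} (hT : Tᵀ = -T) (s : Finset ι) : ∃ c, (pw s T).det = c ^ 2 := by
  have h1 : toSquareBlockProp (pw s T) (· ∈ s) = 1 := by
    ext a b
    simp only [toSquareBlockProp_def, pw, of_apply, a.2, if_true, Matrix.one_apply, Subtype.ext_iff]
  rw [twoBlockTriangular_det' _ (· ∈ s) fun i hi j hj => by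
    simp [pw, hi, Matrix.one_apply_ne (ne_of_mem_of_not_mem hi hj)], h1, @det_one _ _ (_), one_mul]
  refine skew_sq _ _ _ rfl ?_
  ext a b
  simpa [toSquareBlockProp_def, pw, a.2, b.2] using congrFun (congrFun hT a) b

theorem expand (σ : ι → ℚ) (T : Matrix ι ι ℚ) :
    (diagonal σ + T).det = ∑ s : Finset ι, (∏ i ∈ s, σ i) * (pw s T).det := by
  refine (detRowAlternating.map_add_univ (diagonal σ) T).trans (sum_congr rfl fun s _ => ?_)
  have h : of (s.piecewise (diagonal σ) T) = diagonal (s.piecewise σ 1) * pw s T := by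
    ext a b
    by_cases ha : a ∈ s <;> simp [pw, ha, diagonal_apply, Matrix.one_apply, Finset.piecewise]
  refine (congrArg det h).trans ?_
  rw [det_mul, det_diagonal, prod_piecewise]
  simp

theorem det_nonneg {Y : Matrix ι ι ℚ} (h : Y + Yᵀ = 1) : 0 ≤ Y.det := by
  have h1 : Y = diagonal (fun _ => 1 / 2) + (Y - diagonal fun _ => 1 / 2) := by simp
  rw [h1, expand]
  refine sum_nonneg fun s _ => ?_
  obtain ⟨c, hc⟩ := pw_sq (T := Y - diagonal fun _ => 1 / 2) (by
    ext a b
    have := congrFun (congrFun h a) b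
    simp only [Matrix.add_apply, transpose_apply, Matrix.sub_apply, Matrix.neg_apply,
      diagonal_apply, Matrix.one_apply, eq_comm] at this ⊢
    split_ifs at this ⊢ <;> linarith) s
  rw [hc]
  positivity

variable {Γ : Type} [LinearOrderedCommGroupWithZero Γ] (v : Valuation ℚ Γ)

theorem det_int {X : Matrix ι ι ℚ} (h : ∀ i j, X i j ∈ v.integer) : X.det ∈ v.integer := by
  rw [det_apply']
  exact sum_mem fun _ _ => mul_mem (intCast_mem _ _) (prod_mem fun _ _ => h _ _)

/-- the local statement: the determinant has even valuation -/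
theorem loc {X Y : Matrix ι ι ℚ} {σ : ι → ℚ} (hX : ∀ i j, X i j ∈ v.integer)
    (hσ : ∀ i, σ i ∈ v.integer) (h : Y * X = 1) (hY : Y + Yᵀ = diagonal fun i => 2 * σ i) :
    ∃ c, v (X.det * c ^ 2) = 1 := by
  obtain ⟨T, rfl⟩ : ∃ T, Y = diagonal σ + T := ⟨Y - diagonal σ, by simp⟩
  have hT : Tᵀ = -T := by
    ext a b
    have := congrFun (congrFun hY a) b
    simp only [Matrix.add_apply, transpose_apply, Matrix.neg_apply, diagonal_apply] at this ⊢
    by_cases e : a = b
    · subst e
      simp only [if_true] at this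
      linarith
    · simp only [e, Ne.symm e, if_false] at this
      linarith
  have h1 := congrArg det h
  rw [det_mul, expand, det_one, sum_mul] at h1
  obtain ⟨s, hs⟩ : ∃ s : Finset ι, 1 ≤ v ((∏ i ∈ s, σ i) * (pw s T).det * X.det) := by
    by_contra! e
    have h2 := v.map_sum_lt (s := univ) one_ne_zero fun s _ => e s
    rw [h1, map_one] at h2
    exact lt_irrefl _ h2
  obtain ⟨c, hc⟩ := pw_sq hT s
  have h2 : (pw s T * X).det ∈ v.integer := by
    refine det_int v fun a b => ?_
    by_cases ha : a ∈ s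
    · simpa [pw, ha, Matrix.mul_apply, Matrix.one_apply] using hX a b
    · have h3 := congrFun (congrFun h a) b
      rw [add_mul, Matrix.add_apply, diagonal_mul] at h3
      have h4 : (pw s T * X) a b = (1 : Matrix ι ι ℚ) a b - σ a * X a b := by
        rw [← h3]
        simp [pw, ha, Matrix.mul_apply]
      rw [h4, Matrix.one_apply]
      refine sub_mem ?_ (mul_mem (hσ a) (hX a b))
      split_ifs
      · exact one_mem _
      · exact zero_mem _
  rw [det_mul, hc, mul_comm] at h2
  rw [hc, mul_assoc, map_mul, mul_comm (c ^ 2)] at hs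
  have h3 : v (∏ i ∈ s, σ i) ≤ 1 := prod_mem fun i _ => hσ i
  exact ⟨c, le_antisymm h2 (hs.trans (mul_le_of_le_one_left' h3))⟩

end Pool.Agent.P.MP_e9cc94_co.Sp
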