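import Pool.Agent.P.MP_e9cc94_co.SpA

/-! Difference sets and spinor norms: orthogonal matrices. -/

set_option autoImplicit false
set_option linter.unusedSectionVars false

namespace Pool.Agent.P.MP_e9cc94_co.Sp

open Finset Matrix

variable {ι : Type} [Fintype ι] [DecidableEq ι]

theorem cayley {A : Matrix ι ι ℚ} (h : A * Aᵀ = 1) (hd : (1 + A).det ≠ 0) :
    ∃ Y : Matrix ι ι ℚ, Y * (1 + A) = 1 ∧ A * Y = Yᵀ ∧ Y + Yᵀ = 1 := by
  have h1 := (1 + A).nonsing_inv_mul (Ne.isUnit hd)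
  have h2 := mul_eq_one_comm.1 h1
  generalize (1 + A)⁻¹ = Y at h1 h2
  have h3 : Yᵀ * (1 + Aᵀ) = 1 := by simpa using congrArg transpose h2
  have h4 : A * Y = Yᵀ := by
    rw [← one_mul (A * Y), ← h3, mul_assoc, ← mul_assoc _ A, add_mul, mul_eq_one_comm.1 h, one_mul,
      add_comm, h2, mul_one]
  exact ⟨Y, h1, h4, by rw [← h4, ← h2, add_mul, one_mul]⟩

theorem det_pos {A : Matrix ι ι ℚ} (h : A * Aᵀ = 1) (hd : (1 + A).det ≠ 0) : 0 < (1 + A).det := by
  obtain ⟨Y, h1, -, h2⟩ := cayley h hd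
  have h3 := congrArg det h1
  rw [det_mul, det_one] at h3
  exact pos_of_mul_pos_right (h3 ▸ one_pos) (det_nonneg h2)

variable {Γ : Type} [LinearOrderedCommGroupWithZero Γ] (v : Valuation ℚ Γ)

theorem one_add_int {A : Matrix ι ι ℚ} (hA : ∀ i j, A i j ∈ v.integer) (i j : ι) :
    (1 + A) i j ∈ v.integer := by
  rw [Matrix.add_apply, Matrix.one_apply]
  refine add_mem ?_ (hA i j)
  split_ifs
  · exact one_mem _
  · exact zero_mem _

theorem loc_one {A : Matrix ι ι ℚ} (h : A * Aᵀ = 1) (hd : (1 + A).det ≠ 0)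
    (h2 : (1 / 2 : ℚ) ∈ v.integer) (hA : ∀ i j, A i j ∈ v.integer) :
    ∃ c, v ((1 + A).det * c ^ 2) = 1 := by
  obtain ⟨Y, h1, -, h3⟩ := cayley h hd
  exact loc v (σ := fun _ => 1 / 2) (one_add_int v hA) (fun _ => h2) h1 (by simpa using h3)

theorem loc_two [Nonempty ι] {A : Matrix ι ι ℚ} (h : A * Aᵀ = 1) (hd : (1 + A).det ≠ 0)
    (h2 : (1 / 2 : ℚ) ∈ v.integer)
    (hA : ∀ i j, (A - (2 / Fintype.card ι : ℚ) • ((of fun _ _ : ι => (1 : ℚ)) * A)) i j ∈ v.integer) :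
    ∃ c, v ((1 + A).det * (Fintype.card ι / 2) * c ^ 2) = 1 := by
  obtain ⟨Y, h1, h3, h4⟩ := cayley h hd
  set r : ℚ := (Fintype.card ι : ℚ) with hr
  have hr0 : r ≠ 0 := Nat.cast_ne_zero.2 Fintype.card_ne_zero
  obtain ⟨j, hj⟩ : ∃ j : Matrix ι Unit ℚ, j = of fun _ _ => 1 := ⟨_, rfl⟩
  have hJ : (of fun _ _ : ι => (1 : ℚ)) = j * jᵀ := by
    ext a b
    simp [hj, Matrix.mul_apply]
  have hjj : jᵀ * j = r • (1 : Matrix Unit Unit ℚ) := by
    ext a b
    simp [hj, Matrix.mul_apply, hr]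
  have hY : jᵀ * (Yᵀ * j) = (r / 2) • (1 : Matrix Unit Unit ℚ) := by
    have e1 : jᵀ * (Y * j) = jᵀ * (Yᵀ * j) := by
      have e : (jᵀ * (Y * j))ᵀ = jᵀ * (Yᵀ * j) := by simp [Matrix.mul_assoc]
      rw [← e]
      rfl
    have e2 : jᵀ * (Y * j) + jᵀ * (Yᵀ * j) = r • (1 : Matrix Unit Unit ℚ) := by
      rw [← Matrix.mul_add, ← Matrix.add_mul, h4, Matrix.one_mul, hjj]
    rw [e1, ← two_smul ℚ] at e2
    rw [div_eq_inv_mul, mul_smul, ← e2, smul_smul]
    simp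
  rw [hJ] at hA
  obtain ⟨B, hB⟩ : ∃ B, B = A - (2 / r) • (j * jᵀ * A) := ⟨_, rfl⟩
  rw [← hB] at hA
  have hjB : jᵀ * B = -(jᵀ * A) := by
    rw [hB, Matrix.mul_sub, Matrix.mul_smul, Matrix.mul_assoc, ← Matrix.mul_assoc jᵀ j, hjj,
      Matrix.smul_mul, Matrix.one_mul, smul_smul, div_mul_cancel₀ _ hr0, two_smul]
    simp
  have hBY : B * Y = Yᵀ - (2 / r) • (j * (jᵀ * Yᵀ)) := by
    rw [hB, Matrix.sub_mul, Matrix.smul_mul, Matrix.mul_assoc, h3, Matrix.mul_assoc]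
  have hX : fromBlocks (1 + B) j (jᵀ * B) ((r / 2) • (1 : Matrix Unit Unit ℚ)) =
      fromBlocks (1 + A) j 0 ((r / 2) • (1 : Matrix Unit Unit ℚ)) *
        fromBlocks 1 0 ((2 / r) • (jᵀ * B)) 1 := by
    rw [fromBlocks_multiply, hjB]
    congr 1
    · simp [hB, Matrix.mul_assoc, sub_eq_add_neg, add_assoc]
    · simp
    · simp [smul_smul, hr0]
    · simp
  obtain ⟨c, hc⟩ := loc v (X := fromBlocks (1 + B) j (jᵀ * B) ((r / 2) • (1 : Matrix Unit Unit ℚ)))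
    (Y := fromBlocks Y (-(2 / r) • (Y * j)) ((2 / r) • (jᵀ * Yᵀ)) 0)
    (σ := Sum.elim (fun _ => 1 / 2) fun _ => 0) (by
      rintro (a | a) (b | b)
      · exact one_add_int v hA a b
      · simp [hj]
      · simpa [hj, Matrix.mul_apply] using sum_mem fun c _ => hA c b
      · simpa [div_eq_mul_inv] using mul_mem (natCast_mem v.integer _) h2)
    (by rintro (a | a) <;> simp only [Sum.elim_inl, Sum.elim_inr, h2, zero_mem]) (by
      rw [mul_eq_one_comm, fromBlocks_multiply, ← fromBlocks_one]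
      congr 1
      · rw [add_mul, one_mul, hBY, Matrix.mul_smul, add_assoc, sub_add_cancel, h4]
      · rw [Matrix.mul_zero, add_zero, Matrix.mul_smul, ← Matrix.mul_assoc, add_mul, one_mul, hBY,
          ← add_sub_assoc, h4, Matrix.sub_mul, Matrix.smul_mul, Matrix.mul_assoc, Matrix.mul_assoc,
          hY]
        simp [smul_smul, hr0]
      · rw [hjB, Matrix.neg_mul, Matrix.mul_assoc, h3]
        simp [smul_smul, hr0]
      · rw [hjB, Matrix.mul_zero, add_zero, Matrix.mul_smul, Matrix.neg_mul, Matrix.mul_assoc,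
          ← Matrix.mul_assoc A, h3, hY]
        simp [smul_smul, hr0]) (by
      rw [fromBlocks_transpose, fromBlocks_add, h4]
      ext (a | a) (b | b) <;> simp [Matrix.one_apply, diagonal_apply])
  refine ⟨c, ?_⟩
  rw [hX, det_mul, det_fromBlocks_zero₂₁, det_fromBlocks_zero₁₂] at hc
  simpa using hc

end Pool.Agent.P.MP_e9cc94_co.Sp
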