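import Pool.Agent.P.MP_e9cc94_co.SpB

/-! Difference sets and spinor norms: the product formula. -/

set_option autoImplicit false
set_option linter.unusedSectionVars false

namespace Pool.Agent.P.MP_e9cc94_co.Sp

open Finset Matrix

variable {ι : Type} [Fintype ι] [DecidableEq ι]

theorem swap {M : Matrix ι ι ℤ} {c : ℤ} (hc : c ≠ 0) (h : M * Mᵀ = c • (1 : Matrix ι ι ℤ)) :
    Mᵀ * M = c • (1 : Matrix ι ι ℤ) := by
  have hd : M.det ≠ 0 := by
    intro e
    have h1 := congrArg det h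
    rw [det_mul, e, zero_mul, det_smul, det_one, mul_one] at h1
    exact pow_ne_zero _ hc h1.symm
  refine (isRegular_of_isLeftRegular_det (IsRegular.of_ne_zero hd).left).left ?_
  show M * (Mᵀ * M) = M * (c • (1 : Matrix ι ι ℤ))
  rw [← mul_assoc, h, Matrix.smul_mul, Matrix.mul_smul, one_mul, mul_one]

theorem sim_mul {M N : Matrix ι ι ℤ} {c d : ℤ} (h : M * Mᵀ = c • (1 : Matrix ι ι ℤ))
    (h' : N * Nᵀ = d • (1 : Matrix ι ι ℤ)) : M * N * (M * N)ᵀ = (c * d) • (1 : Matrix ι ι ℤ) := by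
  rw [transpose_mul, mul_assoc, ← mul_assoc N, h', Matrix.smul_mul, one_mul, Matrix.mul_smul, h,
    smul_smul, mul_comm]

/-- the prime two -/
theorem two_adic {N : Matrix ι ι ℤ} {V : ℤ} (hV : Odd V)
    (h : (V • (1 : Matrix ι ι ℤ) + (4 : ℤ) • N) * (V • (1 : Matrix ι ι ℤ) + (4 : ℤ) • N)ᵀ =
      (V * V) • (1 : Matrix ι ι ℤ)) :
    ∃ w, ((V * V) • (1 : Matrix ι ι ℤ) + (2 * V) • N).det = 1 + 4 * w := by
  have h2 := congrArg trace h
  simp only [transpose_add, transpose_smul, transpose_one, mul_add, add_mul, one_mul, mul_one,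
    Matrix.smul_mul, Matrix.mul_smul, trace_add, trace_smul, trace_one, trace_transpose,
    smul_eq_mul] at h2
  obtain ⟨t, ht⟩ := Int.eight_dvd_sq_sub_one_of_odd hV
  have h3 : (V * V) • (1 : Matrix ι ι ℤ) + (2 * V) • N =
      1 + (2 : ℤ) • ((4 * t) • (1 : Matrix ι ι ℤ) + V • N) := by
    rw [show V * V = 1 + 2 * (4 * t) by linear_combination ht]
    module
  have h4 := det_one_add_smul (2 : ℤ) ((4 * t) • (1 : Matrix ι ι ℤ) + V • N)
  rw [← h3, trace_add, trace_smul, trace_smul, trace_one, smul_eq_mul, smul_eq_mul] at h4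
  generalize Polynomial.eval (2 : ℤ) _ = w at h4
  refine ⟨2 * t * Fintype.card ι - trace (N * Nᵀ) + w, ?_⟩
  rw [h4]
  linarith

theorem val_one {l : ℕ} [Fact l.Prime] {d : ℤ} (h : ¬(l : ℤ) ∣ d) :
    Rat.padicValuation l d = 1 := Int.padicValuation_eq_one_iff.2 h

theorem frac_mem {l : ℕ} [Fact l.Prime] {d : ℤ} (h : ¬(l : ℤ) ∣ d) (x : ℤ) :
    (x / d : ℚ) ∈ (Rat.padicValuation l).integer := by
  rw [Valuation.mem_integer_iff, map_div₀, val_one h, div_one]
  exact Int.padicValuation_le_one l x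

theorem mod_four {W : ℕ}
    (h : ∀ (l : ℕ) [Fact l.Prime], l % 4 = 3 → ∃ c : ℚ, Rat.padicValuation l (W * c ^ 2) = 1) :
    W % 4 ≠ 3 := by
  obtain ⟨x, y, rfl⟩ := (Nat.eq_sq_add_sq_iff (n := W)).2 fun l hl h3 => by
    have := Fact.mk (Nat.prime_of_mem_primeFactors hl)
    obtain ⟨c, hc⟩ := h l h3
    have h0 : (W * c ^ 2 : ℚ) ≠ 0 := fun e => by simp [e] at hc
    have h1 := left_ne_zero_of_mul h0
    have h2 := right_ne_zero_of_mul h0
    have h4 : padicValRat l (W * c ^ 2) = 0 := by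
      simpa [Rat.padicValuation, h0, h1, h2, -mul_eq_zero] using hc
    rw [padicValRat.mul h1 h2, padicValRat.pow, padicValRat.of_nat] at h4
    rw [← Int.even_coe_nat]
    exact ⟨-padicValRat l c, by push_cast at h4 ⊢; linarith⟩
  intro e
  have h1 : ∀ a b : ZMod 4, a ^ 2 + b ^ 2 ≠ 3 := by decide
  refine h1 x y ?_
  have h2 := congrArg (Nat.cast : ℕ → ZMod 4) e
  rw [ZMod.natCast_mod] at h2
  exact_mod_cast h2

theorem core {M A B C : Matrix ι ι ℤ} {u P H a κ : ℕ} {δ : ℤ} (hu : Odd u) (hH : H.Coprime (2 * P))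
    (hδ : δ = 1 ∨ δ = -1) (e0 : a = 2 * P * H + u) (e1 : (a : ℤ) - δ = 4 * P ^ 2)
    (e2 : (a : ℤ) + δ = 2 * H ^ 2) (hP : 0 < P)
    (hκ : κ * Fintype.card ι = 4 * u * P * H) (h4 : 4 ∣ κ)
    (hM : M * Mᵀ = (u ^ 2 : ℤ) • (1 : Matrix ι ι ℤ) +
      (2 * u * P * H * κ : ℤ) • of fun _ _ : ι => (1 : ℤ))
    (hr : (M * of fun _ _ : ι => (1 : ℤ)) = (u * a : ℤ) • of fun _ _ : ι => (1 : ℤ))
    (hc : (of fun _ _ : ι => (1 : ℤ)) * M = (u * a : ℤ) • of fun _ _ : ι => (1 : ℤ))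
    (hA : A * Aᵀ = (u ^ 2 : ℤ) • (1 : Matrix ι ι ℤ)) (hB : B * Bᵀ = (u ^ 2 : ℤ) • (1 : Matrix ι ι ℤ))
    (hC : C * Cᵀ = (u ^ 2 : ℤ) • (1 : Matrix ι ι ℤ)) (c1 : ∀ i j, 2 ∣ M i j - A i j)
    (c2 : ∀ i j, 2 ∣ A i j - C i j) (c3 : ∀ i j, 4 ∣ M i j - A i j - B i j + C i j) :
    Nat.gcd (Fintype.card ι) H % 4 = 1 := by
  obtain ⟨J, hJ⟩ : ∃ J : Matrix ι ι ℤ, J = of fun _ _ => 1 := ⟨_, rfl⟩
  rw [← hJ] at hM hr hc
  set r := Fintype.card ι with hr'
  have hHo : Odd H := Nat.coprime_two_right.1 (hH.coprime_mul_right_right)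
  have hu0 : (u : ℤ) ≠ 0 := by exact_mod_cast hu.pos.ne'
  have hH0 : (H : ℤ) ≠ 0 := by exact_mod_cast hHo.pos.ne'
  have hr0 : r ≠ 0 := by
    rintro e
    rw [e] at hκ
    have := hu.pos
    have := hHo.pos
    exact absurd hκ.symm (by positivity)
  have : Nonempty ι := Fintype.card_pos_iff.1 (Nat.pos_of_ne_zero hr0)
  have hκ' : (κ : ℤ) * r = 4 * u * P * H := by exact_mod_cast hκ
  have hJt : Jᵀ = J := by rw [hJ]; rfl
  have hJJ : J * J = (r : ℤ) • J := by
    ext i j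
    simp [hJ, Matrix.mul_apply, hr']
  have hr2 : J * Mᵀ = (u * a : ℤ) • J := by
    rw [← hJt, ← transpose_mul, hr, transpose_smul]
  have hM' : ((H : ℤ) • M - (P * κ : ℤ) • J) * ((H : ℤ) • M - (P * κ : ℤ) • J)ᵀ =
      (H ^ 2 * u ^ 2 : ℤ) • (1 : Matrix ι ι ℤ) := by
    simp only [transpose_sub, transpose_smul, hJt, sub_mul, mul_sub, Matrix.smul_mul,
      Matrix.mul_smul, hM, hr, hr2, hJJ]
    match_scalars
    · ring
    · linear_combination P ^ 2 * κ * hκ' - u * P * H * κ * (e1 + e2)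
  have hF := sim_mul (sim_mul (M := Aᵀ) (swap (pow_ne_zero 2 hu0) hA) hB)
    (N := Cᵀ) (swap (pow_ne_zero 2 hu0) hC)
  have hZ := sim_mul hM' hF
  obtain ⟨V, hV⟩ : ∃ V : ℤ, V = u ^ 4 * H := ⟨_, rfl⟩
  have hVo : Odd V := by
    rw [hV]
    exact_mod_cast hu.pow.mul hHo
  have hV0 : (V : ℚ) ≠ 0 := by
    rintro e
    rw [Int.cast_eq_zero.1 e] at hVo
    exact absurd hVo (by decide)
  rw [show (H ^ 2 * u ^ 2 * (u ^ 2 * u ^ 2 * u ^ 2) : ℤ) = V * V by rw [hV]; ring] at hZ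
  obtain ⟨N, hN⟩ : ∃ N : Matrix ι ι ℤ, ((H : ℤ) • M - (P * κ : ℤ) • J) * (Aᵀ * B * Cᵀ) =
      V • (1 : Matrix ι ι ℤ) + (4 : ℤ) • N := by
    choose p hp using c1
    choose e he using c2
    choose w hw using c3
    obtain ⟨κ', hκ'⟩ := h4
    have f1 : M = A + (2 : ℤ) • of p := by ext i j; simp [← hp i j]
    have f2 : Cᵀ = Aᵀ - (2 : ℤ) • (of e)ᵀ := by
      ext i j
      simp only [Matrix.sub_apply, Matrix.smul_apply, transpose_apply, of_apply, smul_eq_mul]
      linarith [he j i]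
    have f3 : B = C + (2 : ℤ) • of p - (4 : ℤ) • of w := by
      ext i j
      simp only [Matrix.sub_apply, Matrix.add_apply, Matrix.smul_apply, of_apply, smul_eq_mul]
      linarith [hp i j, hw i j]
    have g1 : M * Aᵀ = (u ^ 2 : ℤ) • (1 : Matrix ι ι ℤ) + (2 : ℤ) • (of p * Aᵀ) := by
      rw [f1, add_mul, hA, Matrix.smul_mul]
    have g2 : B * Cᵀ = (u ^ 2 : ℤ) • (1 : Matrix ι ι ℤ) + (2 : ℤ) • (of p * Aᵀ) -
        (4 : ℤ) • (of p * (of e)ᵀ + of w * Cᵀ) := by
      rw [f3, sub_mul, add_mul, hC, Matrix.smul_mul, Matrix.smul_mul]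
      nth_rw 1 [f2]
      rw [mul_sub, Matrix.mul_smul]
      module
    refine ⟨(H : ℤ) • ((u ^ 2 : ℤ) • (of p * Aᵀ) + of p * Aᵀ * (of p * Aᵀ) -
      M * Aᵀ * (of p * (of e)ᵀ + of w * Cᵀ)) - (P * κ' : ℤ) • (J * (Aᵀ * B * Cᵀ)), ?_⟩
    rw [sub_mul, Matrix.smul_mul, Matrix.smul_mul, mul_assoc Aᵀ, ← mul_assoc M, g2, mul_sub,
      Matrix.mul_smul]
    nth_rw 1 [g1]
    simp only [mul_add, add_mul, Matrix.smul_mul, Matrix.mul_smul, one_mul, mul_one, hV, hκ']
    module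
  obtain ⟨w, hw⟩ := two_adic hVo (hN ▸ hZ)
  generalize Aᵀ * B * Cᵀ = F at hZ hN
  let f := (Int.castRingHom ℚ).mapMatrix (m := ι)
  obtain ⟨Q, hQ⟩ : ∃ Q : Matrix ι ι ℚ, Q = (V : ℚ)⁻¹ • f (((H : ℤ) • M - (P * κ : ℤ) • J) * F) :=
    ⟨_, rfl⟩
  have hQQ : Q * Qᵀ = 1 := by
    have h1 := congrArg f hZ
    rw [map_mul, map_zsmul, map_one] at h1
    rw [hQ, transpose_smul, Matrix.smul_mul, Matrix.mul_smul]
    erw [h1]
    rw [← Int.cast_smul_eq_zsmul ℚ, smul_smul, smul_smul, Int.cast_mul,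
      show (V : ℚ)⁻¹ * (V : ℚ)⁻¹ * (V * V) = 1 by field_simp, one_smul]
  have hd : ((1 + 4 * w : ℤ) : ℚ) = (V * V / 2) ^ r * (1 + Q).det := by
    rw [← hw, ← det_smul, ← eq_intCast (Int.castRingHom ℚ), RingHom.map_det, hQ, hN]
    congr 1
    ext i j
    simp only [f, RingHom.mapMatrix_apply, map_apply, Matrix.add_apply, Matrix.smul_apply,
      Matrix.one_apply, smul_eq_mul, eq_intCast]
    split_ifs <;> push_cast <;> field_simp <;> ring
  have hd0 : (1 + Q).det ≠ 0 := by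
    intro e
    rw [e, mul_zero, Int.cast_eq_zero] at hd
    omega
  have hw0 : 0 < 1 + 4 * w := by
    have := det_pos hQQ hd0
    have h1 : (0 : ℚ) < ((1 + 4 * w : ℤ) : ℚ) := by
      rw [hd]
      have := mul_self_pos.2 hV0
      positivity
    exact_mod_cast h1
  obtain ⟨W, hW⟩ := Int.eq_ofNat_of_zero_le hw0.le
  obtain ⟨r', hr1⟩ := Nat.gcd_dvd_left r H
  have hg : Odd (Nat.gcd r H) := hHo.of_dvd_nat (Nat.gcd_dvd_right ..)
  have key := mod_four (W := W * Nat.gcd r H) fun l hl h3 => by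
    have hp := Nat.prime_iff_prime_int.1 hl.out
    have n2 : ¬(l : ℤ) ∣ 2 := fun e => by
      have := Int.le_of_dvd two_pos e
      omega
    have nu : ¬(l : ℤ) ∣ u := fun e => by
      refine ZMod.mod_four_ne_three_of_sq_eq_neg_one (y := (a : ZMod l)) ?_ h3
      have h1 : (a : ℤ) ^ 2 + 1 = u * (4 * a - 2 * u) := by
        zify at e0
        rcases hδ with rfl | rfl
        · linear_combination -(a + 1) * e1 - 4 * P ^ 2 * e2 + 2 * (a - u + 2 * P * H) * e0
        · linear_combination -(a - 1) * e1 - 4 * P ^ 2 * e2 + 2 * (a - u + 2 * P * H) * e0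
      have h2 := (ZMod.intCast_zmod_eq_zero_iff_dvd _ l).2 (h1 ▸ e.mul_right (4 * a - 2 * u))
      push_cast at h2
      linear_combination h2
    have half : (1 / 2 : ℚ) ∈ (Rat.padicValuation l).integer := by simpa using frac_mem n2 1
    have v2 : Rat.padicValuation l 2 = 1 := by simpa using val_one n2
    obtain ⟨c, hc⟩ : ∃ c : ℚ, Rat.padicValuation l ((1 + Q).det * (Nat.gcd r H) * c ^ 2) = 1 := by
      by_cases hlH : l ∣ H
      · have nP : ¬(l : ℤ) ∣ 2 * P := fun e => hl.out.one_lt.ne'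
          (Nat.eq_one_of_dvd_coprimes hH hlH (by exact_mod_cast e))
        have nd : ¬(l : ℤ) ∣ 2 * P * u ^ 4 := fun e =>
          (hp.dvd_or_dvd e).elim nP fun e => nu (hp.dvd_of_dvd_pow e)
        obtain ⟨c, hc'⟩ := loc_two (Rat.padicValuation l) hQQ hd0 half fun i j => by
          have h1 : (of fun _ _ : ι => (1 : ℚ)) = f J := by
            ext i j
            simp [f, hJ]
          have h2 : J * (((H : ℤ) • M - (P * κ : ℤ) • J) * F) = (u * H * δ : ℤ) • (J * F) := by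
            rw [← mul_assoc, mul_sub, Matrix.mul_smul, Matrix.mul_smul, hc, hJJ, smul_smul,
              smul_smul, ← sub_smul, Matrix.smul_mul]
            congr 1
            linear_combination -P * hκ' + u * H * e1
          have h5 := frac_mem nd (2 * P * (M * F) i j - κ * H * (J * F) i j)
          rw [h1, hQ, Matrix.mul_smul, ← map_mul, h2, sub_mul, Matrix.smul_mul, Matrix.smul_mul]
          refine (congrArg (· ∈ _) ?_).mp h5
          simp only [f, RingHom.mapMatrix_apply, map_apply, Matrix.sub_apply, Matrix.smul_apply,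
            smul_eq_mul, eq_intCast, hV, ← hr']
          have q1 : (κ : ℚ) * r = 4 * u * P * H := by exact_mod_cast hκ
          have q2 : (H : ℚ) ^ 2 = 2 * P ^ 2 + δ := by
            have : (H : ℤ) ^ 2 = 2 * P ^ 2 + δ := by linarith
            exact_mod_cast this
          have q3 : (r : ℚ) ≠ 0 := by exact_mod_cast hr0
          have q4 : (u : ℚ) ≠ 0 := by exact_mod_cast hu0
          have q5 : (H : ℚ) ≠ 0 := by exact_mod_cast hH0
          have q6 : (P : ℚ) ≠ 0 := by exact_mod_cast hP.ne'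
          push_cast
          field_simp
          linear_combination -(J * F) i j * (κ * r * q2 + δ * q1)
        have nr : ¬(l : ℤ) ∣ r' := fun e => by
          obtain ⟨H', hH'⟩ := Nat.gcd_dvd_right r H
          have h1 : (κ : ℤ) * r' = 2 * (u * (2 * P * H')) := by
            have h1 : κ * (Nat.gcd r H * r') = 4 * u * P * (Nat.gcd r H * H') := by
              rw [← hr1, ← hH', hκ]
            refine mul_left_cancel₀ (Nat.cast_ne_zero.2 hg.pos.ne' : (Nat.gcd r H : ℤ) ≠ 0) ?_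
            zify at h1
            linear_combination h1
          have h2 := (hp.dvd_or_dvd ((hp.dvd_or_dvd ((hp.dvd_or_dvd
            (h1 ▸ e.mul_left κ)).resolve_left n2)).resolve_left nu)).resolve_left nP
          have h5 : Nat.gcd r H * l ∣ Nat.gcd r H * 1 := by
            rw [mul_one]
            refine Nat.dvd_gcd ?_ ?_
            · exact (mul_dvd_mul_left _ (Int.natCast_dvd_natCast.1 e)).trans hr1.symm.dvd
            · exact (mul_dvd_mul_left _ (Int.natCast_dvd_natCast.1 h2)).trans hH'.symm.dvd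
          exact hl.out.not_dvd_one (Nat.dvd_of_mul_dvd_mul_left hg.pos h5)
        refine ⟨c, ?_⟩
        rw [← hr', hr1] at hc'
        simp only [Nat.cast_mul, map_mul, map_div₀, v2, div_one] at hc' ⊢
        have h1 : Rat.padicValuation l r' = 1 := by simpa using val_one nr
        rwa [h1, mul_one] at hc'
      · have nd : ¬(l : ℤ) ∣ V := fun e => (hp.dvd_or_dvd (hV ▸ e)).elim
          (fun e => nu (hp.dvd_of_dvd_pow e)) fun e => hlH (by exact_mod_cast e)
        obtain ⟨c, hc'⟩ := loc_one (Rat.padicValuation l) hQQ hd0 half fun i j => by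
          rw [hQ]
          simpa [f, div_eq_inv_mul] using
            frac_mem nd ((((H : ℤ) • M - (P * κ : ℤ) • J) * F) i j)
        have h1 : Rat.padicValuation l (Nat.gcd r H) = 1 := by
          refine val_one (d := Nat.gcd r H) fun e => hlH ?_
          exact (Int.natCast_dvd_natCast.1 e).trans (Nat.gcd_dvd_right ..)
        refine ⟨c, ?_⟩
        simp only [map_mul, h1, mul_one] at hc' ⊢
        exact hc'
    refine ⟨c / V ^ r, ?_⟩
    have h1 : ((W * Nat.gcd r H : ℕ) : ℚ) * (c / V ^ r) ^ 2 =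
        (1 + Q).det * (Nat.gcd r H) * c ^ 2 / 2 ^ r := by
      rw [hW, Int.cast_natCast] at hd
      rw [Nat.cast_mul, hd, div_pow, div_pow, mul_pow]
      field_simp
    rw [h1, map_div₀, hc, map_pow, v2, one_pow, div_one]
  rw [Nat.odd_iff] at hg
  rw [Nat.mul_mod, show W % 4 = 1 by omega, one_mul, Nat.mod_mod] at key
  omega

end Pool.Agent.P.MP_e9cc94_co.Sp
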