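import Pool.Agent.P.MP_e9cc94_co.SpC
import Pool.Agent.P.MP_e9cc94_co.DihD

/-! Difference sets and spinor norms: matrices induced from sign characters. -/

set_option autoImplicit false
set_option linter.unusedSectionVars false

namespace Pool.Agent.P.MP_e9cc94_co.Sp

open Finset Matrix

theorem sign_char {Q : Type} [Group Q] [Finite Q] (h : IsPGroup 2 Q) (hc : ¬IsCyclic Q) (x : Q) :
    ∃ s : Q →* ℤ, s ≠ 1 ∧ s x = 1 := by
  classical
  obtain ⟨n, hn⟩ := h.exists_card_eq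
  obtain ⟨m, hm⟩ := (h.to_subgroup (Subgroup.zpowers x)).exists_card_eq
  have h1 : m < n := by
    refine (Nat.pow_lt_pow_iff_right one_lt_two).1 ?_
    rw [← hm, ← hn]
    refine (Subgroup.card_le_card_group _).lt_of_ne fun e => hc ?_
    exact isCyclic_iff_exists_zpowers_eq_top.2 ⟨x, (Subgroup.card_eq_iff_eq_top _).1 e⟩
  obtain ⟨n, rfl⟩ : ∃ k, n = k + 1 := ⟨n - 1, by omega⟩
  obtain ⟨M, hM, hx⟩ := Sylow.exists_subgroup_card_pow_prime_le 2 (m := n)
    (hn ▸ pow_dvd_pow _ n.le_succ) _ hm (by omega)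
  have h2 : M.index = 2 := by
    have h3 := M.card_mul_index
    rw [hM, hn, pow_succ] at h3
    exact mul_left_cancel₀ (by positivity) h3
  obtain ⟨y, hy⟩ : ∃ y, y ∉ M := by
    by_contra! e
    rw [(Subgroup.eq_top_iff' M).2 e, Subgroup.index_top] at h2
    omega
  refine ⟨⟨⟨fun g => if g ∈ M then 1 else -1, by simp⟩, fun a b => ?_⟩, fun e => ?_, ?_⟩
  · by_cases ha : a ∈ M <;> by_cases hb : b ∈ M <;>
      simp [Subgroup.mul_mem_iff_of_index_two h2, ha, hb]
  · simpa [hy] using DFunLike.congr_fun e y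
  · simp [hx (Subgroup.mem_zpowers x)]

variable {G : Type} [Group G] [Fintype G] [DecidableEq G] {K : Subgroup G}

theorem pm (s : K →* ℤ) (k : K) : s k = 1 ∨ s k = -1 :=
  Int.eq_one_or_neg_one_of_mul_eq_one (v := s k⁻¹) (by rw [← map_mul, mul_inv_cancel, map_one])

open Classical in
/-- extension by zero -/
noncomputable def dot (s : K →* ℤ) (g : G) : ℤ := if h : g ∈ K then s ⟨g, h⟩ else 0

variable (s t : K →* ℤ)

theorem dot_mem {g : G} (h : g ∈ K) : dot s g = s ⟨g, h⟩ := by simp [dot, h]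

theorem dot_not {g : G} (h : g ∉ K) : dot s g = 0 := by simp [dot, h]

theorem dot_mul {k : G} (hk : k ∈ K) (z : G) : dot s (k * z) = dot s k * dot s z := by
  by_cases hz : z ∈ K
  · rw [dot_mem s hk, dot_mem s hz, dot_mem s (mul_mem hk hz), ← map_mul]
    rfl
  · rw [dot_not s hz, dot_not s (by simpa [K.mul_mem_cancel_left hk] using hz), mul_zero]

theorem dot_inv (g : G) : dot s g⁻¹ = dot s g := by
  by_cases hg : g ∈ K
  · have h : s ⟨g⁻¹, inv_mem hg⟩ * s ⟨g, hg⟩ = 1 := by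
      rw [← map_mul, ← map_one s]
      congr 1
      simp
    rw [dot_mem s hg, dot_mem s (inv_mem hg)]
    rcases pm s ⟨g, hg⟩ with e | e <;> rw [e] at h ⊢ <;> linarith
  · rw [dot_not s hg, dot_not s (by simpa using hg)]

theorem dot_cong (g : G) : 2 ∣ dot (1 : K →* ℤ) g - dot s g ∧ 2 ∣ dot s g - dot (s * t) g ∧
    4 ∣ dot (1 : K →* ℤ) g - dot s g - dot t g + dot (s * t) g := by
  by_cases hg : g ∈ K
  · simp only [dot_mem _ hg, MonoidHom.mul_apply, MonoidHom.one_apply]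
    rcases pm s ⟨g, hg⟩ with e | e <;> rcases pm t ⟨g, hg⟩ with e' | e' <;> rw [e, e'] <;> decide
  · simp [dot_not _ hg]

theorem dot_sum [Fintype K] : ∑ g, dot s g = ∑ k : K, s k := by
  classical
  rw [← sum_filter_add_sum_filter_not univ (· ∈ K), sum_eq_zero (s := filter (· ∉ K) _)
    fun g hg => dot_not s (mem_filter.1 hg).2, add_zero,
    sum_subtype (p := (· ∈ K)) _ (by simp)]
  exact sum_congr rfl fun k _ => dot_mem s k.2

theorem tot_zero (h : s ≠ 1) : ∑ g, dot s g = 0 := by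
  classical
  rw [dot_sum, sum_hom_units_eq_zero s h]

theorem tot_one : ∑ g, dot (1 : K →* ℤ) g = Nat.card K := by
  classical
  rw [dot_sum]
  simp

/-- the induced representation -/
noncomputable def ind (g : G) : Matrix (G ⧸ K) (G ⧸ K) ℤ :=
  of fun a b => dot s (a.out⁻¹ * g * b.out)

theorem key (a x : G ⧸ K) (g : G) :
    a.out⁻¹ * g * x.out ∈ K ↔ x = ((g⁻¹ * a.out : G) : G ⧸ K) := by
  conv_rhs => rw [← x.out_eq', eq_comm, QuotientGroup.eq]
  simp

theorem ind_mul (g h : G) : ind s g * ind s h = ind s (g * h) := by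
  ext a c
  rw [Matrix.mul_apply, Finset.sum_eq_single ((g⁻¹ * a.out : G) : G ⧸ K)]
  · simp only [ind, of_apply]
    rw [← dot_mul s ((key ..).2 rfl)]
    congr 1
    group
  · intro x _ hx
    simp [ind, dot_not s ((key a x g).not.2 hx)]
  · simp

theorem ind_one : ind s 1 = 1 := by
  ext x x'
  by_cases h : x = x'
  · subst h
    simp only [ind, of_apply, mul_one, inv_mul_cancel, dot_mem s (one_mem K), one_apply_eq]
    exact map_one s
  · have : x.out⁻¹ * x'.out ∉ K := by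
      rw [← QuotientGroup.eq, QuotientGroup.out_eq', QuotientGroup.out_eq']
      exact h
    simp [ind, dot_not s this, h]

theorem ind_inv (g : G) : ind s g⁻¹ = (ind s g)ᵀ := by
  ext a b
  simp only [ind, of_apply, transpose_apply]
  rw [← dot_inv]
  congr 1
  group

theorem ind_row (g : G) : (ind (1 : K →* ℤ) g * of fun _ _ : G ⧸ K => (1 : ℤ)) =
    of fun _ _ : G ⧸ K => (1 : ℤ) := by
  ext a c
  rw [Matrix.mul_apply, Finset.sum_eq_single ((g⁻¹ * a.out : G) : G ⧸ K)]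
  · simp [ind, dot_mem _ ((key a _ g).2 rfl)]
  · intro x _ hx
    simp [ind, dot_not _ ((key a x g).not.2 hx)]
  · simp

theorem ind_col (g : G) : (of fun _ _ : G ⧸ K => (1 : ℤ)) * ind (1 : K →* ℤ) g =
    of fun _ _ : G ⧸ K => (1 : ℤ) := by
  have h := congrArg transpose (ind_row (K := K) g⁻¹)
  rwa [transpose_mul, ind_inv] at h

/-- the matrix of `D` -/
noncomputable def mat (D : Finset G) : Matrix (G ⧸ K) (G ⧸ K) ℤ := ∑ d ∈ D, ind s d

theorem mat_mul {D : Finset G} {lam n : ℕ}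
    (h : ∀ g : G, g ≠ 1 → #{p ∈ D ×ˢ D | p.1 * p.2⁻¹ = g} = lam) (hn : #D = lam + n) :
    mat s D * (mat s D)ᵀ = (n : ℤ) • (1 : Matrix (G ⧸ K) (G ⧸ K) ℤ) +
      (lam * ∑ g, dot s g) • of fun _ _ : G ⧸ K => (1 : ℤ) := by
  have h1 : (mat s D)ᵀ = ∑ d ∈ D, ind s d⁻¹ := by
    simp only [mat, ind_inv, transpose_sum]
  have h2 : #{p ∈ D ×ˢ D | p.1 * p.2⁻¹ = 1} = lam + n := by
    rw [← hn, ← D.diag_card]
    congr 1
    ext p
    simp only [mem_filter, mem_product, mul_inv_eq_one, mem_diag]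
    exact ⟨fun h => ⟨h.1.1, h.2⟩, fun h => ⟨⟨h.1, h.2 ▸ h.1⟩, h.2⟩⟩
  have h3 : ∑ g, ind s g = (∑ g, dot s g) • of fun _ _ : G ⧸ K => (1 : ℤ) := by
    ext a b
    simp only [Matrix.sum_apply, Matrix.smul_apply, of_apply, ind, smul_eq_mul, mul_one]
    exact Fintype.sum_equiv ((Equiv.mulLeft a.out⁻¹).trans (Equiv.mulRight b.out)) _ _
      fun g => rfl
  rw [h1, mat, sum_mul_sum, ← sum_product']
  simp only [ind_mul s]
  rw [← sum_fiberwise_of_maps_to (t := univ) (g := fun p : G × G => p.1 * p.2⁻¹)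
    fun _ _ => mem_univ _, mul_smul, ← h3, smul_sum, ← ind_one s]
  have h4 : ∀ g : G, ∑ p ∈ D ×ˢ D with p.1 * p.2⁻¹ = g, ind s (p.1 * p.2⁻¹) =
      (if g = 1 then (n : ℤ) • ind s g else 0) + (lam : ℤ) • ind s g := by
    intro g
    rw [sum_congr rfl fun p hp => by rw [(mem_filter.1 hp).2], sum_const]
    split_ifs with hg
    · rw [hg, h2, ← add_smul, ← Nat.cast_add, add_comm, Nat.cast_smul_eq_nsmul]
    · rw [h g hg, zero_add, Nat.cast_smul_eq_nsmul]
  simp only [h4, sum_add_distrib, sum_ite_eq', mem_univ, if_true]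

theorem pell {D : Finset G} {lam : ℕ}
    (h : ∀ g : G, g ≠ 1 → #{p ∈ D ×ˢ D | p.1 * p.2⁻¹ = g} = lam)
    (h4 : 4 < Fintype.card G) (hv : Fintype.card G = 2 * lam) :
    ∃ u P H : ℕ, #D = lam + u ^ 2 ∧ Fintype.card G = 4 * u * P * H ∧ 2 ≤ P ∧
      (H ^ 2 = 2 * P ^ 2 + 1 ∨ H ^ 2 + 1 = 2 * P ^ 2) ∧
      ∀ (K : Subgroup G) (Q : Type) [Group Q] (φ : K →* Q), Function.Surjective φ →
        IsPGroup 2 Q → ¬IsCyclic Q → Nat.gcd K.index H % 4 = 1 := by
  obtain ⟨u, P, H, a, δ, h1, h2, h3, hP, hH, c1, c2, hδ, e1, e2⟩ :=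
    Dih.params (k := #D) (lam := lam) (by omega) (by rw [Dih.count h, hv])
  have hPH : H ^ 2 = 2 * P ^ 2 + 1 ∨ H ^ 2 + 1 = 2 * P ^ 2 := by
    zify
    rcases hδ with rfl | rfl <;> omega
  have hG : Fintype.card G = 4 * u * P * H := by rw [hv, h2]; ring
  refine ⟨u, P, H, h1, hG, hP, hPH, fun K Q _ φ hφ hQ hc => ?_⟩
  have := Finite.of_surjective _ hφ
  obtain ⟨s, hs, -⟩ := sign_char hQ hc 1
  obtain ⟨y, hy⟩ : ∃ y, s y ≠ 1 := by
    by_contra! e
    exact hs (MonoidHom.ext e)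
  obtain ⟨t, ht, hy'⟩ := sign_char hQ hc y
  have lift : ∀ s : Q →* ℤ, s ≠ 1 → ∑ g, dot (s.comp φ) g = 0 := fun s hs =>
    tot_zero _ fun e => hs (MonoidHom.ext fun q => by
      obtain ⟨k, rfl⟩ := hφ q
      exact DFunLike.congr_fun e k)
  have z1 := lift s hs
  have z2 := lift t ht
  have z3 : ∑ g, dot (s.comp φ * t.comp φ) g = 0 :=
    lift (s * t) fun e => hy (by simpa [hy'] using DFunLike.congr_fun e y)
  generalize s.comp φ = s at z1 z3
  generalize t.comp φ = t at z2 z3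
  have hu : Odd u := Nat.coprime_two_right.1 c2.coprime_mul_right_right.coprime_mul_right_right
  have orth : ∀ s : K →* ℤ, ∑ g, dot s g = 0 →
      mat s D * (mat s D)ᵀ = (u ^ 2 : ℤ) • (1 : Matrix (G ⧸ K) (G ⧸ K) ℤ) := fun s hs => by
    rw [mat_mul s h h1, hs, mul_zero, zero_smul, add_zero, Nat.cast_pow]
  rw [Subgroup.index, Nat.card_eq_fintype_card]
  refine core (M := mat 1 D) (κ := Nat.card K) hu c1 hδ ?_ e1 e2 (by omega) ?_ ?_ ?_ ?_ ?_
    (orth s z1) (orth t z2) (orth _ z3) (fun i j => ?_) (fun i j => ?_) fun i j => ?_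
  · refine mul_left_cancel₀ hu.pos.ne' ?_
    rw [← h3, h1, h2]
    ring
  · rw [← hG, ← Nat.card_eq_fintype_card, ← Nat.card_eq_fintype_card]
    exact K.card_mul_index
  · have h5 : (4 : ℤ) ∣ ∑ g, (dot (1 : K →* ℤ) g - dot s g - dot t g + dot (s * t) g) :=
      dvd_sum fun g _ => (dot_cong s t g).2.2
    simp only [sum_add_distrib, sum_sub_distrib, z1, z2, z3, tot_one, sub_zero, add_zero] at h5
    exact_mod_cast h5
  · rw [mat_mul 1 h h1, tot_one, h2]
    push_cast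
    rfl
  · simp only [mat, sum_mul, ind_row, sum_const, h3]
    rw [← Nat.cast_mul, natCast_zsmul]
  · simp only [mat, mul_sum, ind_col, sum_const, h3]
    rw [← Nat.cast_mul, natCast_zsmul]
  all_goals simp only [mat, Matrix.sum_apply, ← sum_sub_distrib, ← sum_add_distrib]
  · exact dvd_sum fun g _ => (dot_cong s t _).1
  · exact dvd_sum fun g _ => (dot_cong s t _).2.1
  · exact dvd_sum fun g _ => (dot_cong s t _).2.2

end Pool.Agent.P.MP_e9cc94_co.Sp
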